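import Pool.Agent.Lib_helper39.LVK.DefsZ

/-!
# LVK part Z, block FAC: factorization of the zeros in a rectangle
-/

namespace Pool.Agent.LVK

open Complex MeasureTheory Set Filter Topology
open scoped ENNReal

theorem FAC_convex (s1 s2 A B : ℝ) : Convex ℝ (Rc s1 s2 A B) := by
  have h : Rc s1 s2 A B = Icc s1 s2 ×ℂ Icc A B := by
    ext z
    simp only [Rc, mem_ofPred_eq, mem_reProdIm, mem_Icc]
    tauto
  rw [h]
  exact ((convex_Icc s1 s2).linear_preimage Complex.reCLM.toLinearMap).inter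
    ((convex_Icc A B).linear_preimage Complex.imCLM.toLinearMap)

theorem FAC_exists {s1 s2 A B : ℝ} (hs : s1 < s2) (hAB : A < B) (S : Finset ℂ) :
    ∃ z ∈ Rc s1 s2 A B, z ∉ S := by
  by_contra hcon
  push Not at hcon
  have hinj : Function.Injective (fun x : ℝ => (⟨x, A⟩ : ℂ)) := by
    intro x y hxy
    exact congrArg Complex.re hxy
  have hsub : (fun x : ℝ => (⟨x, A⟩ : ℂ)) '' Icc s1 s2 ⊆ (S : Set ℂ) := by
    rintro z ⟨x, hx, rfl⟩
    exact hcon _ ⟨hx.1, hx.2, le_refl A, hAB.le⟩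
  have hfin : (Icc s1 s2).Finite :=
    Set.Finite.of_finite_image (S.finite_toSet.subset hsub) hinj.injOn
  exact (Set.Icc_infinite hs) hfin

theorem FAC_order {s1 s2 A B : ℝ} (hs : s1 < s2) (hAB : A < B) {F : ℂ → ℂ}
    (hF : AnalyticOnNhd ℂ F (Rc s1 s2 A B)) {S : Finset ℂ} (hS : IsZ s1 s2 A B F S) {z : ℂ}
    (hz : z ∈ Rc s1 s2 A B) : analyticOrderAt F z ≠ ⊤ := by
  intro htop
  rw [analyticOrderAt_eq_top] at htop
  obtain ⟨w, hw, hwS⟩ := FAC_exists hs hAB S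
  have h0 : F w = 0 := hF.eqOn_zero_of_preconnected_of_eventuallyEq_zero
    (FAC_convex s1 s2 A B).isPreconnected hz htop hw
  exact hwS ((hS w).mpr ⟨hw, h0⟩)

theorem z_fac_pr {s1 s2 A B : ℝ} (hs : s1 < s2) (hAB : A < B) {F : ℂ → ℂ}
    (hF : AnalyticOnNhd ℂ F (Rc s1 s2 A B)) {S : Finset ℂ} (hS : IsZ s1 s2 A B F S) :
    ∃ G : ℂ → ℂ, AnalyticOnNhd ℂ G (Rc s1 s2 A B) ∧ (∀ z ∈ Rc s1 s2 A B, G z ≠ 0) ∧
      ∀ z ∈ Rc s1 s2 A B, ∀ᶠ w in 𝓝 z,
        F w = (∏ ρ ∈ S, (w - ρ) ^ analyticOrderNatAt F ρ) * G w := by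
  classical
  have hex : ∀ ρ : ℂ, ∃ g : ℂ → ℂ, ρ ∈ S → AnalyticAt ℂ g ρ ∧ g ρ ≠ 0 ∧
      ∀ᶠ w in 𝓝 ρ, F w = (w - ρ) ^ analyticOrderNatAt F ρ * g w := by
    intro ρ
    by_cases hρ : ρ ∈ S
    · have hρR := ((hS ρ).mp hρ).1
      obtain ⟨g, hg, hg0, hgF⟩ :=
        (AnalyticAt.analyticOrderAt_ne_top (hF ρ hρR)).mp (FAC_order hs hAB hF hS hρR)
      refine ⟨g, fun _ => ⟨hg, hg0, ?_⟩⟩
      filter_upwards [hgF] with w hw
      rw [hw, smul_eq_mul]
    · exact ⟨fun _ => 0, fun h => absurd h hρ⟩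
  choose g hg using hex
  set P : ℂ → ℂ := fun w => ∏ ρ ∈ S, (w - ρ) ^ analyticOrderNatAt F ρ with hP
  set Q : ℂ → ℂ → ℂ := fun z w => ∏ ρ ∈ S.erase z, (w - ρ) ^ analyticOrderNatAt F ρ with hQ
  have hPan : ∀ w, AnalyticAt ℂ P w := by
    intro w
    exact Finset.analyticAt_fun_prod _ fun ρ _ => (analyticAt_id.sub analyticAt_const).pow _
  have hQan : ∀ z w, AnalyticAt ℂ (Q z) w := by
    intro z w
    exact Finset.analyticAt_fun_prod _ fun ρ _ => (analyticAt_id.sub analyticAt_const).pow _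
  have hP0 : ∀ w, w ∉ S → P w ≠ 0 := by
    intro w hw
    refine Finset.prod_ne_zero_iff.mpr fun ρ hρ => pow_ne_zero _ (sub_ne_zero.mpr ?_)
    rintro rfl
    exact hw hρ
  have hQ0 : ∀ z, Q z z ≠ 0 := by
    intro z
    refine Finset.prod_ne_zero_iff.mpr fun ρ hρ => pow_ne_zero _ (sub_ne_zero.mpr ?_)
    rintro rfl
    exact (Finset.ne_of_mem_erase hρ) rfl
  have hPQ : ∀ z ∈ S, ∀ w, P w = (w - z) ^ analyticOrderNatAt F z * Q z w := by
    intro z hz w
    exact (Finset.mul_prod_erase S (fun ρ => (w - ρ) ^ analyticOrderNatAt F ρ) hz).symm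
  -- near a point, there is no other point of `S`
  have hne : ∀ z : ℂ, ∀ᶠ w in 𝓝 z, w ∉ S.erase z := by
    intro z
    have hcl : IsClosed ((S.erase z : Finset ℂ) : Set ℂ) := (S.erase z).finite_toSet.isClosed
    have : z ∈ (((S.erase z : Finset ℂ) : Set ℂ))ᶜ := by simp
    filter_upwards [hcl.isOpen_compl.mem_nhds this] with w hw
    exact fun h => hw (Finset.mem_coe.mpr h)
  set G : ℂ → ℂ := fun w => if w ∈ S then g w w / Q w w else F w / P w with hG
  -- `G` near a point of `S`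
  have hGS : ∀ z ∈ S, G =ᶠ[𝓝 z] fun w => g z w / Q z w := by
    intro z hz
    obtain ⟨hg1, hg2, hg3⟩ := hg z hz
    filter_upwards [hne z, hg3] with w hw hFw
    by_cases hwz : w = z
    · subst hwz
      simp [hG, hz]
    · have hwS : w ∉ S := fun h => hw (Finset.mem_erase.mpr ⟨hwz, h⟩)
      have hpow : (w - z) ^ analyticOrderNatAt F z ≠ 0 := pow_ne_zero _ (sub_ne_zero.mpr hwz)
      simp only [hG, hwS, if_false]
      rw [hPQ z hz w, hFw, mul_div_mul_left _ _ hpow]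
  have hGN : ∀ z, z ∉ S → G =ᶠ[𝓝 z] fun w => F w / P w := by
    intro z hz
    filter_upwards [hne z] with w hw
    have hwS : w ∉ S := by
      intro h
      apply hw
      refine Finset.mem_erase.mpr ⟨?_, h⟩
      rintro rfl
      exact hz h
    simp only [hG, hwS, if_false]
  refine ⟨G, ?_, ?_, ?_⟩
  · intro z hz
    by_cases hzS : z ∈ S
    · obtain ⟨hg1, hg2, hg3⟩ := hg z hzS
      exact (hg1.div (hQan z z) (hQ0 z)).congr (hGS z hzS).symm
    · exact ((hF z hz).div (hPan z) (hP0 z hzS)).congr (hGN z hzS).symm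
  · intro z hz
    by_cases hzS : z ∈ S
    · obtain ⟨hg1, hg2, hg3⟩ := hg z hzS
      simp only [hG, hzS, if_true]
      exact div_ne_zero hg2 (hQ0 z)
    · simp only [hG, hzS, if_false]
      refine div_ne_zero (fun h => hzS ((hS z).mpr ⟨hz, h⟩)) (hP0 z hzS)
  · intro z hz
    by_cases hzS : z ∈ S
    · obtain ⟨hg1, hg2, hg3⟩ := hg z hzS
      have hQe : ∀ᶠ w in 𝓝 z, Q z w ≠ 0 := (hQan z z).continuousAt.eventually_ne (hQ0 z)
      filter_upwards [hGS z hzS, hg3, hQe] with w h1 h2 h3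
      show F w = P w * G w
      rw [h1, hPQ z hzS w, h2]
      field_simp
    · have hPe : ∀ᶠ w in 𝓝 z, P w ≠ 0 := (hPan z).continuousAt.eventually_ne (hP0 z hzS)
      filter_upwards [hGN z hzS, hPe] with w h1 h3
      show F w = P w * G w
      rw [h1]
      field_simp

end Pool.Agent.LVK

namespace Pool.Agent.LVK

theorem z_fac : type_of% @z_fac_pr := @z_fac_pr

end Pool.Agent.LVK
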