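import Pool.Agent.Lib_helper39.LVK.DefsZ

namespace Pool.Agent.LVK

open Complex MeasureTheory Set Filter Topology
open scoped ENNReal

theorem z_intJ_pr {s1 s2 A B : ℝ} (hAB : A < B) {F : ℂ → ℂ}
    (hF : AnalyticOnNhd ℂ F (Rc s1 s2 A B)) {ψ : ℝ → ℝ} (hψ : Continuous ψ) {σ : ℝ}
    (hσ : σ ∈ Icc s1 s2) :
    IntervalIntegrable (fun t => ψ t * Real.log ‖F (pt σ t)‖) volume A B := by
  have hmer : MeromorphicOn (fun t : ℝ => F (pt σ t)) (uIcc A B) := by
    intro t ht
    rw [uIcc_of_le hAB.le] at ht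
    have h1 : AnalyticAt ℂ F (pt σ t) := by
      apply hF
      simp [Rc, pt, hσ.1, hσ.2, ht.1, ht.2]
    have h2 : AnalyticAt ℝ (fun t : ℝ => pt σ t) t := by
      unfold pt
      exact analyticAt_const.add ((Complex.ofRealCLM.analyticAt t).mul analyticAt_const)
    exact ((h1.restrictScalars (𝕜 := ℝ)).comp h2).meromorphicAt
  exact (hmer.intervalIntegrable_log_norm).continuousOn_mul hψ.continuousOn

end Pool.Agent.LVK

namespace Pool.Agent.LVK

theorem z_intJ : type_of% @z_intJ_pr := @z_intJ_pr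

end Pool.Agent.LVK
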