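import Pool.Agent.Lib_helper39.LVK.DefsZ

/-!
# LVK part Z, block ONC: continuity of the integral of one linear factor
-/

namespace Pool.Agent.LVK

open Complex MeasureTheory Set Filter Topology
open scoped ENNReal

theorem ONC_log {x y : ℝ} (hy : y ≠ 0) :
    |Real.log ‖(x : ℂ) + (y : ℂ) * I‖| ≤ |Real.log y| + (|x| + |y|) := by
  set r : ℝ := ‖(x : ℂ) + (y : ℂ) * I‖ with hr
  have h1 : |y| ≤ r := by
    have := Complex.abs_im_le_norm ((x : ℂ) + (y : ℂ) * I)
    simpa using this
  have h2 : r ≤ |x| + |y| := by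
    have := norm_add_le (x : ℂ) ((y : ℂ) * I)
    simpa using this
  have hy0 : 0 < |y| := abs_pos.2 hy
  have hr0 : 0 < r := hy0.trans_le h1
  have h3 : Real.log |y| ≤ Real.log r := Real.log_le_log hy0 h1
  rw [Real.log_abs] at h3
  have h4 : Real.log r ≤ r := (Real.log_le_sub_one_of_pos hr0).trans (by linarith)
  rw [abs_le]
  constructor
  · have h5 := neg_abs_le (Real.log y)
    have h6 := abs_nonneg x
    linarith
  · have h5 := abs_nonneg (Real.log y)
    linarith

theorem z_one_cont_pr {A B : ℝ} (hAB : A < B) {ψ : ℝ → ℝ} (hψ : Continuous ψ) (ρ : ℂ) :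
    Continuous (JJ A B ψ (fun s => s - ρ)) := by
  have hw : ∀ σ t : ℝ, pt σ t - ρ = (((σ - ρ.re : ℝ) : ℂ) + ((t - ρ.im : ℝ) : ℂ) * I) := by
    intro σ t
    unfold pt
    apply Complex.ext <;> simp
  rw [continuous_iff_continuousAt]
  intro σ₀
  unfold JJ
  have hae : ∀ᵐ t : ℝ, t ≠ ρ.im := by
    have : ({ρ.im} : Set ℝ)ᶜ ∈ ae volume := compl_mem_ae_iff.2 (measure_singleton _)
    filter_upwards [this] with t ht
    exact ht
  refine intervalIntegral.continuousAt_of_dominated_interval
    (bound := fun t => |ψ t| * (|Real.log (t - ρ.im)| + ((|σ₀ - ρ.re| + 1) + |t - ρ.im|)))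
    ?_ ?_ ?_ ?_
  · refine Eventually.of_forall fun σ => ?_
    refine (hψ.measurable.mul ?_).aestronglyMeasurable
    refine Real.measurable_log.comp (Measurable.norm ?_)
    unfold pt
    fun_prop
  · have h1 : ∀ᶠ σ in 𝓝 σ₀, |σ - σ₀| < 1 := by
      have := Metric.ball_mem_nhds σ₀ (zero_lt_one)
      filter_upwards [this] with σ hσ
      rwa [Metric.mem_ball, Real.dist_eq] at hσ
    filter_upwards [h1] with σ hσ
    filter_upwards [hae] with t ht _
    rw [Real.norm_eq_abs, abs_mul]
    refine mul_le_mul_of_nonneg_left ?_ (abs_nonneg _)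
    rw [hw σ t]
    refine (ONC_log (sub_ne_zero.2 ht)).trans ?_
    have h2 : |σ - ρ.re| ≤ |σ₀ - ρ.re| + 1 := by
      calc |σ - ρ.re| = |(σ₀ - ρ.re) + (σ - σ₀)| := by ring_nf
        _ ≤ |σ₀ - ρ.re| + |σ - σ₀| := abs_add_le _ _
        _ ≤ _ := by linarith
    linarith
  · have h1 : IntervalIntegrable (fun t : ℝ => Real.log (t - ρ.im)) volume A B := by
      have := (intervalIntegral.intervalIntegrable_log' (a := A - ρ.im)
        (b := B - ρ.im)).comp_sub_right ρ.im
      simpa using this
    have h2 : IntervalIntegrable (fun t : ℝ => |Real.log (t - ρ.im)| +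
        ((|σ₀ - ρ.re| + 1) + |t - ρ.im|)) volume A B := by
      refine h1.abs.add (Continuous.intervalIntegrable ?_ _ _)
      fun_prop
    exact h2.continuousOn_mul (hψ.abs.continuousOn)
  · filter_upwards [hae] with t ht _
    refine ContinuousAt.mul continuousAt_const ?_
    refine ContinuousAt.log ?_ ?_
    · refine Continuous.continuousAt ?_
      unfold pt
      fun_prop
    · rw [hw σ₀ t, Ne, norm_eq_zero]
      intro h
      have := congrArg Complex.im h
      simp at this
      exact ht (sub_eq_zero.1 this)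


end Pool.Agent.LVK

namespace Pool.Agent.LVK

theorem z_one_cont : type_of% @z_one_cont_pr := @z_one_cont_pr

end Pool.Agent.LVK
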