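import Pool.Agent.Lib_helper39.LVK.DefsZ
import Pool.Agent.Lib_helper39.LVZ.FAC
import Pool.Agent.Lib_helper39.LVZ.INT
import Pool.Agent.Lib_helper39.LVZ.ONC

/-!
# LVK part Z, block GRI: integrability of the logarithmic derivative, continuity of the mean
-/

namespace Pool.Agent.LVK

open Complex MeasureTheory Set Filter Topology
open scoped ENNReal

theorem GRI_pt_cont : Continuous fun p : ℝ × ℝ => pt p.1 p.2 := by
  unfold pt
  fun_prop

theorem GRI_pt_mem {s1 s2 A B σ t : ℝ} (hσ : σ ∈ Icc s1 s2) (ht : t ∈ Icc A B) :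
    pt σ t ∈ Rc s1 s2 A B := by
  refine ⟨?_, ?_, ?_, ?_⟩ <;> simp [pt, hσ.1, hσ.2, ht.1, ht.2]

theorem GRI_ne {σ t : ℝ} {ρ : ℂ} (h : t ≠ ρ.im) : pt σ t - ρ ≠ 0 := by
  intro h0
  apply h
  have := congrArg Complex.im (sub_eq_zero.1 h0)
  simpa [pt] using this

/-- off a finite set of heights the point is not a zero -/
theorem GRI_ae (S : Finset ℂ) : ∀ᵐ t : ℝ, ∀ ρ ∈ S, t ≠ ρ.im := by
  have h := (S.image Complex.im).finite_toSet.countable.ae_notMem (volume : Measure ℝ)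
  filter_upwards [h] with t ht ρ hρ h0
  exact ht (by
    rw [Finset.mem_coe, Finset.mem_image]
    exact ⟨ρ, hρ, h0.symm⟩)

theorem GRI_logDeriv {S : Finset ℂ} {m : ℂ → ℕ} {F G : ℂ → ℂ} {w : ℂ}
    (hG : AnalyticAt ℂ G w) (hG0 : G w ≠ 0) (hw : ∀ ρ ∈ S, w - ρ ≠ 0)
    (hF : ∀ᶠ z in 𝓝 w, F z = (∏ ρ ∈ S, (z - ρ) ^ m ρ) * G z) :
    logDeriv F w = ∑ ρ ∈ S, (m ρ : ℂ) / (w - ρ) + logDeriv G w := by
  have h1 : logDeriv F w = logDeriv (fun z => (∏ ρ ∈ S, (z - ρ) ^ m ρ) * G z) w := by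
    rw [logDeriv_apply, logDeriv_apply, Filter.EventuallyEq.deriv_eq hF, hF.self_of_nhds]
  have hd : ∀ ρ ∈ S, DifferentiableAt ℂ (fun z : ℂ => (z - ρ) ^ m ρ) w := by
    intro ρ _
    fun_prop
  have hne : ∀ ρ ∈ S, (w - ρ) ^ m ρ ≠ 0 := fun ρ hρ => pow_ne_zero _ (hw ρ hρ)
  have hdp : DifferentiableAt ℂ (fun z : ℂ => ∏ ρ ∈ S, (z - ρ) ^ m ρ) w := by
    fun_prop
  rw [h1, logDeriv_mul w (Finset.prod_ne_zero_iff.2 hne) hG0 hdp hG.differentiableAt]
  congr 1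
  have h2 := logDeriv_prod (s := S) (f := fun ρ z => (z - ρ) ^ m ρ) (x := w) hne hd
  rw [h2]
  refine Finset.sum_congr rfl fun ρ hρ => ?_
  have h3 : HasDerivAt (fun z : ℂ => (z - ρ) ^ m ρ) ((m ρ : ℂ) * (w - ρ) ^ (m ρ - 1) * 1) w :=
    ((hasDerivAt_id w).sub_const ρ).pow (m ρ)
  rw [logDeriv_apply, h3.deriv, mul_one]
  have h4 := hw ρ hρ
  rcases Nat.eq_zero_or_pos (m ρ) with h0 | h0
  · simp [h0]
  · obtain ⟨k, hk⟩ : ∃ k, m ρ = k + 1 := ⟨m ρ - 1, by omega⟩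
    rw [hk, Nat.add_sub_cancel, pow_succ]
    have h5 : (w - ρ) ^ k ≠ 0 := pow_ne_zero _ h4
    field_simp

theorem GRI_log {S : Finset ℂ} {m : ℂ → ℕ} {F G : ℂ → ℂ} {w : ℂ} (hG0 : G w ≠ 0)
    (hw : ∀ ρ ∈ S, w - ρ ≠ 0) (hF : ∀ᶠ z in 𝓝 w, F z = (∏ ρ ∈ S, (z - ρ) ^ m ρ) * G z) :
    Real.log ‖F w‖ = ∑ ρ ∈ S, (m ρ : ℝ) * Real.log ‖w - ρ‖ + Real.log ‖G w‖ := by
  have hne : ∀ ρ ∈ S, ‖(w - ρ) ^ m ρ‖ ≠ 0 := fun ρ hρ =>
    norm_ne_zero_iff.2 (pow_ne_zero _ (hw ρ hρ))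
  rw [hF.self_of_nhds, norm_mul, norm_prod, Real.log_mul (Finset.prod_ne_zero_iff.2 hne)
    (norm_ne_zero_iff.2 hG0), Real.log_prod hne]
  congr 1
  refine Finset.sum_congr rfl fun ρ _ => ?_
  rw [norm_pow, Real.log_pow]

/-- real part of the logarithmic derivative of a linear factor on a vertical line -/
theorem GRI_re (m : ℕ) (σ t : ℝ) (ρ : ℂ) :
    ((m : ℂ) / (pt σ t - ρ)).re = m * ((σ - ρ.re) / ((σ - ρ.re) ^ 2 + (t - ρ.im) ^ 2)) := by
  have h1 : Complex.normSq (pt σ t - ρ) = (σ - ρ.re) ^ 2 + (t - ρ.im) ^ 2 := by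
    rw [Complex.normSq_apply]
    simp [pt]
    ring
  rw [Complex.div_re, h1]
  simp [pt]
  ring

theorem GRI_re_cont (m : ℕ) (σ : ℝ) (ρ : ℂ) :
    Continuous fun t : ℝ =>
      (m : ℝ) * ((σ - ρ.re) / ((σ - ρ.re) ^ 2 + (t - ρ.im) ^ 2)) := by
  by_cases h : σ - ρ.re = 0
  · simp only [h, zero_div, mul_zero]
    exact continuous_const
  · refine continuous_const.mul (continuous_const.div (by fun_prop) fun t => ?_)
    have : 0 < (σ - ρ.re) ^ 2 := by positivity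
    positivity

theorem z_intD_pr {s1 s2 A B : ℝ} (hs : s1 < s2) (hAB : A < B) {F : ℂ → ℂ}
    (hF : AnalyticOnNhd ℂ F (Rc s1 s2 A B)) {S : Finset ℂ} (hS : IsZ s1 s2 A B F S)
    {ψ : ℝ → ℝ} (hψ : Continuous ψ) {σ : ℝ} (hσ : σ ∈ Icc s1 s2) :
    IntervalIntegrable (fun t => ψ t * (logDeriv F (pt σ t)).re) volume A B := by
  obtain ⟨G, hG, hG0, hFG⟩ := z_fac hs hAB hF hS
  set g : ℝ → ℝ := fun t => ψ t * (∑ ρ ∈ S, (analyticOrderNatAt F ρ : ℝ) *
    ((σ - ρ.re) / ((σ - ρ.re) ^ 2 + (t - ρ.im) ^ 2)) + (logDeriv G (pt σ t)).re) with hg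
  have hgc : ContinuousOn g (uIcc A B) := by
    rw [uIcc_of_le hAB.le]
    refine hψ.continuousOn.mul (ContinuousOn.add ?_ ?_)
    · exact (continuous_finsetSum _ fun ρ _ => GRI_re_cont _ σ ρ).continuousOn
    · intro t ht
      have hm := GRI_pt_mem hσ ht
      have h1 : AnalyticAt ℂ (logDeriv G) (pt σ t) := by
        have h2 := (hG _ hm).deriv.div (hG _ hm) (hG0 _ hm)
        exact h2
      have h3 : ContinuousAt (fun t : ℝ => pt σ t) t := by
        unfold pt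
        fun_prop
      have h4 : ContinuousAt (fun t : ℝ => (logDeriv G (pt σ t)).re) t :=
        Complex.continuous_re.continuousAt.comp (h1.continuousAt.comp h3)
      exact h4.continuousWithinAt
  refine hgc.intervalIntegrable.congr_ae ?_
  rw [EventuallyEq, ae_restrict_iff' measurableSet_uIoc]
  filter_upwards [GRI_ae S] with t ht htm
  rw [uIoc_of_le hAB.le] at htm
  have hm := GRI_pt_mem hσ (Ioc_subset_Icc_self htm)
  have h1 := GRI_logDeriv (m := fun ρ => analyticOrderNatAt F ρ) (hG _ hm) (hG0 _ hm)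
    (fun ρ hρ => GRI_ne (ht ρ hρ)) (hFG _ hm)
  simp only [hg]
  rw [h1, Complex.add_re, Complex.re_sum]
  simp_rw [GRI_re]

/-- continuity in the abscissa for a zero free function -/
theorem GRI_contG {s1 s2 A B : ℝ} (hs : s1 < s2) (hAB : A < B) {G : ℂ → ℂ}
    (hG : AnalyticOnNhd ℂ G (Rc s1 s2 A B)) (hG0 : ∀ z ∈ Rc s1 s2 A B, G z ≠ 0)
    {ψ : ℝ → ℝ} (hψ : Continuous ψ) : ContinuousOn (JJ A B ψ G) (Icc s1 s2) := by
  set p : ℝ → ℝ := fun σ => max s1 (min σ s2) with hp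
  set q : ℝ → ℝ := fun t => max A (min t B) with hq
  have hpc : Continuous p := by fun_prop
  have hqc : Continuous q := by fun_prop
  have hpm : ∀ σ, p σ ∈ Icc s1 s2 := fun σ =>
    ⟨le_max_left _ _, max_le hs.le (min_le_right _ _)⟩
  have hqm : ∀ t, q t ∈ Icc A B := fun t => ⟨le_max_left _ _, max_le hAB.le (min_le_right _ _)⟩
  have hpe : ∀ σ ∈ Icc s1 s2, p σ = σ := by
    intro σ h
    simp only [hp]
    rw [min_eq_left h.2, max_eq_right h.1]
  have hqe : ∀ t ∈ Icc A B, q t = t := by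
    intro t h
    simp only [hq]
    rw [min_eq_left h.2, max_eq_right h.1]
  have hGc : Continuous fun x : ℝ × ℝ => G (pt (p x.1) (q x.2)) := by
    refine hG.continuousOn.comp_continuous (f := fun x : ℝ × ℝ => pt (p x.1) (q x.2)) ?_ ?_
    · unfold pt
      fun_prop
    · intro x
      exact GRI_pt_mem (hpm _) (hqm _)
  have hfc : Continuous (Function.uncurry fun σ t : ℝ =>
      ψ t * Real.log ‖G (pt (p σ) (q t))‖) := by
    refine (hψ.comp continuous_snd).mul ?_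
    refine Continuous.log (hGc.norm) fun x => ?_
    exact norm_ne_zero_iff.2 (hG0 _ (GRI_pt_mem (hpm _) (hqm _)))
  have h1 := intervalIntegral.continuous_parametric_intervalIntegral_of_continuous'
    (μ := (volume : Measure ℝ)) hfc A B
  refine h1.continuousOn.congr ?_
  intro σ hσ
  unfold JJ
  refine intervalIntegral.integral_congr fun t ht => ?_
  rw [uIcc_of_le hAB.le] at ht
  simp only [hpe σ hσ, hqe t ht]

theorem z_contJ_pr {s1 s2 A B : ℝ} (hs : s1 < s2) (hAB : A < B) {F : ℂ → ℂ}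
    (hF : AnalyticOnNhd ℂ F (Rc s1 s2 A B)) {S : Finset ℂ} (hS : IsZ s1 s2 A B F S)
    {ψ : ℝ → ℝ} (hψ : Continuous ψ) : ContinuousOn (JJ A B ψ F) (Icc s1 s2) := by
  obtain ⟨G, hG, hG0, hFG⟩ := z_fac hs hAB hF hS
  have h1 : ContinuousOn (fun σ => ∑ ρ ∈ S, (analyticOrderNatAt F ρ : ℝ) *
      JJ A B ψ (fun s => s - ρ) σ + JJ A B ψ G σ) (Icc s1 s2) := by
    refine ContinuousOn.add ?_ (GRI_contG hs hAB hG hG0 hψ)
    exact (continuous_finsetSum _ fun ρ _ =>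
      continuous_const.mul (z_one_cont hAB hψ ρ)).continuousOn
  refine h1.congr ?_
  intro σ hσ
  have hlin : ∀ ρ : ℂ, AnalyticOnNhd ℂ (fun s : ℂ => s - ρ) (Rc s1 s2 A B) := fun ρ z _ =>
    analyticAt_id.sub analyticAt_const
  have hI : ∀ ρ ∈ S, IntervalIntegrable (fun t => (analyticOrderNatAt F ρ : ℝ) *
      (ψ t * Real.log ‖pt σ t - ρ‖)) volume A B := fun ρ _ =>
    (z_intJ hAB (hlin ρ) hψ hσ).const_mul _
  have hIG : IntervalIntegrable (fun t => ψ t * Real.log ‖G (pt σ t)‖) volume A B :=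
    z_intJ hAB hG hψ hσ
  have hIS : IntervalIntegrable (fun t => ∑ ρ ∈ S, (analyticOrderNatAt F ρ : ℝ) *
      (ψ t * Real.log ‖pt σ t - ρ‖)) volume A B := by
    have := IntervalIntegrable.sum S hI
    refine this.congr_ae (ae_of_all _ fun t => ?_)
    simp
  show JJ A B ψ F σ = ∑ ρ ∈ S, (analyticOrderNatAt F ρ : ℝ) *
      JJ A B ψ (fun s => s - ρ) σ + JJ A B ψ G σ
  have h2 : JJ A B ψ F σ = ∫ t in A..B, (∑ ρ ∈ S, (analyticOrderNatAt F ρ : ℝ) *
      (ψ t * Real.log ‖pt σ t - ρ‖) + ψ t * Real.log ‖G (pt σ t)‖) := by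
    unfold JJ
    refine intervalIntegral.integral_congr_ae ?_
    filter_upwards [GRI_ae S] with t ht htm
    rw [uIoc_of_le hAB.le] at htm
    have hm := GRI_pt_mem hσ (Ioc_subset_Icc_self htm)
    have h3 := GRI_log (m := fun ρ => analyticOrderNatAt F ρ) (hG0 _ hm)
      (fun ρ hρ => GRI_ne (ht ρ hρ)) (hFG _ hm)
    rw [h3, mul_add, Finset.mul_sum]
    congr 1
    refine Finset.sum_congr rfl fun ρ _ => ?_
    ring
  rw [h2, intervalIntegral.integral_add hIS hIG, intervalIntegral.integral_finsetSum hI]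
  unfold JJ
  congr 1
  refine Finset.sum_congr rfl fun ρ _ => ?_
  rw [intervalIntegral.integral_const_mul]


end Pool.Agent.LVK

namespace Pool.Agent.LVK

theorem z_intD : type_of% @z_intD_pr := @z_intD_pr
theorem z_contJ : type_of% @z_contJ_pr := @z_contJ_pr

end Pool.Agent.LVK
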