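import Pool.Agent.Lib_helper39.LVK.DefsZ

/-! LVK part Z, block PAR. -/

namespace Pool.Agent.LVK

open Complex MeasureTheory Set Filter Topology
open scoped ENNReal

theorem PAR_cont : Continuous (fun p : ℝ × ℝ => pt p.1 p.2) := by
  unfold pt
  fun_prop

theorem PAR_mem {s1 s2 A B σ t : ℝ} (h1 : σ ∈ Icc s1 s2) (h2 : t ∈ Icc A B) :
    pt σ t ∈ Rc s1 s2 A B := by
  simp only [pt, Rc, mem_setOf_eq, add_re, ofReal_re, mul_re, ofReal_im, I_re, mul_zero, I_im,
    mul_one, sub_self, add_zero, add_im, mul_im, zero_add]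
  exact ⟨h1.1, h1.2, h2.1, h2.2⟩

theorem z_parts_pr {s1 s2 A B : ℝ} (hs : s1 ≤ s2) (hAB : A < B) {φ φ1 φ2 : ℝ → ℝ}
    (h : Tst A B φ φ1 φ2) {f : ℂ → ℂ} (hf : AnalyticOnNhd ℂ f (Rc s1 s2 A B)) :
    (∫ t in A..B, (φ t : ℂ) * f (pt s2 t)) - ∫ t in A..B, (φ t : ℂ) * f (pt s1 t) =
      ∫ σ in s1..s2, ∫ t in A..B, I * (φ1 t : ℂ) * f (pt σ t) := by
  have hφc : Continuous φ := continuous_iff_continuousAt.2 fun t => (h.d1 t).continuousAt
  have hφ1c : Continuous φ1 := continuous_iff_continuousAt.2 fun t => (h.d2 t).continuousAt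
  have hfc : ContinuousOn f (Rc s1 s2 A B) := hf.continuousOn
  have hf'c : ContinuousOn (deriv f) (Rc s1 s2 A B) := hf.deriv.continuousOn
  have hmaps : MapsTo (fun p : ℝ × ℝ => pt p.1 p.2) (Icc s1 s2 ×ˢ Icc A B) (Rc s1 s2 A B) :=
    fun p hp => PAR_mem hp.1 hp.2
  have hF'c : ContinuousOn (fun p : ℝ × ℝ => deriv f (pt p.1 p.2)) (Icc s1 s2 ×ˢ Icc A B) :=
    hf'c.comp PAR_cont.continuousOn hmaps
  have hFc : ContinuousOn (fun p : ℝ × ℝ => f (pt p.1 p.2)) (Icc s1 s2 ×ˢ Icc A B) :=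
    hfc.comp PAR_cont.continuousOn hmaps
  -- continuity in one variable
  have hσc : ∀ t ∈ Icc A B, ContinuousOn (fun σ => deriv f (pt σ t)) (Icc s1 s2) := fun t ht =>
    hF'c.comp (Continuous.continuousOn (by fun_prop : Continuous fun σ : ℝ => ((σ, t) : ℝ × ℝ)))
      fun σ hσ => ⟨hσ, ht⟩
  have htc' : ∀ σ ∈ Icc s1 s2, ContinuousOn (fun t => deriv f (pt σ t)) (Icc A B) := fun σ hσ =>
    hF'c.comp (Continuous.continuousOn (by fun_prop : Continuous fun t : ℝ => ((σ, t) : ℝ × ℝ)))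
      fun t ht => ⟨hσ, ht⟩
  have htc : ∀ σ ∈ Icc s1 s2, ContinuousOn (fun t => f (pt σ t)) (Icc A B) := fun σ hσ =>
    hFc.comp (Continuous.continuousOn (by fun_prop : Continuous fun t : ℝ => ((σ, t) : ℝ × ℝ)))
      fun t ht => ⟨hσ, ht⟩
  -- derivatives
  have hdσ : ∀ t ∈ Icc A B, ∀ σ ∈ Icc s1 s2,
      HasDerivAt (fun σ : ℝ => f (pt σ t)) (deriv f (pt σ t)) σ := fun t ht σ hσ => by
    have h1 := (hf _ (PAR_mem hσ ht)).differentiableAt.hasDerivAt
    have h2 : HasDerivAt (fun σ : ℝ => pt σ t) 1 σ := by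
      unfold pt
      exact (Complex.ofRealCLM.hasDerivAt (x := σ)).add_const _
    have h3 : HasDerivAt (fun σ : ℝ => f (pt σ t)) (deriv f (pt σ t) * 1) σ :=
      HasDerivAt.comp (h₂ := f) (h := fun σ : ℝ => pt σ t) σ h1 h2
    rwa [mul_one] at h3
  have hdt : ∀ σ ∈ Icc s1 s2, ∀ t ∈ Icc A B,
      HasDerivAt (fun t : ℝ => f (pt σ t)) (deriv f (pt σ t) * I) t := fun σ hσ t ht => by
    have h1 := (hf _ (PAR_mem hσ ht)).differentiableAt.hasDerivAt
    have h2 : HasDerivAt (fun t : ℝ => pt σ t) I t := by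
      unfold pt
      have := ((Complex.ofRealCLM.hasDerivAt (x := t)).mul_const I).const_add (σ : ℂ)
      simpa using this
    exact HasDerivAt.comp (h₂ := f) (h := fun t : ℝ => pt σ t) t h1 h2
  have hftc : ∀ t ∈ Icc A B, f (pt s2 t) - f (pt s1 t) = ∫ σ in s1..s2, deriv f (pt σ t) :=
    fun t ht => by
      rw [intervalIntegral.integral_eq_sub_of_hasDerivAt (f := fun σ : ℝ => f (pt σ t))]
      · intro σ hσ
        rw [uIcc_of_le hs] at hσ
        exact hdσ t ht σ hσ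
      · refine ContinuousOn.intervalIntegrable ?_
        rw [uIcc_of_le hs]
        exact hσc t ht
  -- integration by parts in t
  have hz : φ A = 0 ∧ φ B = 0 := ⟨h.z0 A (by simp), h.z0 B (by simp)⟩
  have hparts : ∀ σ ∈ Icc s1 s2, ∫ t in A..B, (φ t : ℂ) * deriv f (pt σ t) =
      ∫ t in A..B, I * (φ1 t : ℂ) * f (pt σ t) := fun σ hσ => by
    have h1 := intervalIntegral.integral_mul_deriv_eq_deriv_mul (a := A) (b := B)
      (u := fun t => (φ t : ℂ)) (u' := fun t => (φ1 t : ℂ)) (v := fun t => f (pt σ t))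
      (v' := fun t => deriv f (pt σ t) * I)
      (fun t _ => (h.d1 t).ofReal_comp) (fun t ht => hdt σ hσ t (by rwa [uIcc_of_le hAB.le] at ht))
      ((Complex.continuous_ofReal.comp hφ1c).intervalIntegrable _ _)
      (ContinuousOn.intervalIntegrable (by
        rw [uIcc_of_le hAB.le]
        exact (htc' σ hσ).mul continuousOn_const))
    simp only [hz.1, hz.2, ofReal_zero, zero_mul, sub_self, zero_sub] at h1
    have e1 : ∫ t in A..B, (φ t : ℂ) * deriv f (pt σ t) =
        -I * ∫ t in A..B, (φ t : ℂ) * (deriv f (pt σ t) * I) := by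
      rw [← intervalIntegral.integral_const_mul]
      refine intervalIntegral.integral_congr fun t _ => ?_
      linear_combination (φ t : ℂ) * deriv f (pt σ t) * I_mul_I
    rw [e1, h1, ← intervalIntegral.integral_neg, ← intervalIntegral.integral_const_mul]
    refine intervalIntegral.integral_congr fun t _ => ?_
    ring
  -- Fubini
  have hcont : ContinuousOn (fun p : ℝ × ℝ => (φ p.2 : ℂ) * deriv f (pt p.1 p.2))
      (Icc s1 s2 ×ˢ Icc A B) :=
    ((Complex.continuous_ofReal.comp (hφc.comp continuous_snd)).continuousOn).mul hF'c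
  have hint : IntegrableOn (Function.uncurry fun σ t : ℝ => (φ t : ℂ) * deriv f (pt σ t))
      (uIoc s1 s2 ×ˢ uIoc A B) := by
    have h1 := hcont.integrableOn_compact (μ := volume) (isCompact_Icc.prod isCompact_Icc)
    refine (h1.mono_set ?_)
    rw [uIoc_of_le hs, uIoc_of_le hAB.le]
    exact prod_mono Ioc_subset_Icc_self Ioc_subset_Icc_self
  have hfub := intervalIntegral_intervalIntegral_swap hint
  have hI1 : ∀ σ ∈ Icc s1 s2, IntervalIntegrable (fun t => (φ t : ℂ) * f (pt σ t)) volume A B :=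
    fun σ hσ => ContinuousOn.intervalIntegrable (by
      rw [uIcc_of_le hAB.le]
      exact ((Complex.continuous_ofReal.comp hφc).continuousOn).mul (htc σ hσ))
  rw [← intervalIntegral.integral_sub (hI1 s2 ⟨hs, le_rfl⟩) (hI1 s1 ⟨le_rfl, hs⟩)]
  have e2 : ∫ t in A..B, ((φ t : ℂ) * f (pt s2 t) - (φ t : ℂ) * f (pt s1 t)) =
      ∫ t in A..B, ∫ σ in s1..s2, (φ t : ℂ) * deriv f (pt σ t) := by
    refine intervalIntegral.integral_congr fun t ht => ?_
    rw [uIcc_of_le hAB.le] at ht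
    rw [← mul_sub, hftc t ht, intervalIntegral.integral_const_mul]
  rw [e2, ← hfub]
  refine intervalIntegral.integral_congr fun σ hσ => ?_
  rw [uIcc_of_le hs] at hσ
  exact hparts σ hσ


end Pool.Agent.LVK

namespace Pool.Agent.LVK

theorem z_parts : type_of% @z_parts_pr := @z_parts_pr

end Pool.Agent.LVK
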