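import Pool.Agent.Lib_helper39.LVK.DefsZ
import Pool.Agent.Lib_helper39.LVZ.PAR

namespace Pool.Agent.LVK

open Complex MeasureTheory Set Filter Topology
open scoped ENNReal

noncomputable def FRE_cl (a b x : ℝ) : ℝ := max a (min x b)

lemma FRE_cl_mem {a b : ℝ} (h : a ≤ b) (x : ℝ) : FRE_cl a b x ∈ Icc a b :=
  ⟨le_max_left _ _, max_le h (min_le_right _ _)⟩

lemma FRE_cl_eq {a b x : ℝ} (hx : x ∈ Icc a b) : FRE_cl a b x = x := by
  unfold FRE_cl
  rw [min_eq_left hx.2, max_eq_right hx.1]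

lemma FRE_cl_cont (a b : ℝ) : Continuous (FRE_cl a b) := by
  unfold FRE_cl
  fun_prop

lemma FRE_pt_mem {s1 s2 A B σ t : ℝ} (hσ : σ ∈ Icc s1 s2) (ht : t ∈ Icc A B) :
    pt σ t ∈ Rc s1 s2 A B := by
  simp only [pt, Rc, Set.mem_ofPred_eq, Complex.add_re, Complex.ofReal_re, Complex.mul_re,
    Complex.I_re, mul_zero, Complex.ofReal_im, Complex.I_im, mul_one, sub_self, add_zero,
    Complex.add_im, Complex.mul_im, zero_add]
  exact ⟨hσ.1, hσ.2, ht.1, ht.2⟩

lemma FRE_pt_cont {X : Type*} [TopologicalSpace X] {f g : X → ℝ} (hf : Continuous f)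
    (hg : Continuous g) : Continuous (fun x => pt (f x) (g x)) := by
  unfold pt
  fun_prop

lemma FRE_log {F : ℝ → ℂ} {F' : ℂ} {x : ℝ} (h : HasDerivAt F F' x) (h0 : F x ≠ 0) :
    HasDerivAt (fun y => Real.log ‖F y‖) ((F' / F x).re) x := by
  have h1 := h.norm_sq
  have hn : ‖F x‖ ^ 2 ≠ 0 := pow_ne_zero _ (norm_ne_zero_iff.mpr h0)
  have h2 := (h1.log hn).const_mul (1 / 2 : ℝ)
  have e1 : (fun y => (1 / 2 : ℝ) * Real.log (‖F y‖ ^ 2)) = fun y => Real.log ‖F y‖ := by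
    funext y
    rw [Real.log_pow]
    push_cast
    ring
  rw [e1] at h2
  have e2 : (F' / F x).re = 1 / 2 * (2 * inner ℝ (F x) F' / ‖F x‖ ^ 2) := by
    rw [Complex.inner, Complex.div_re, ← Complex.normSq_eq_norm_sq]
    have h3 : Complex.normSq (F x) ≠ 0 := by
      rwa [Ne, Complex.normSq_eq_zero]
    simp only [Complex.mul_re, Complex.conj_re, Complex.conj_im]
    field_simp
    ring
  rw [e2]
  exact h2

lemma FRE_ptv (σ t : ℝ) : HasDerivAt (fun t : ℝ => pt σ t) I t := by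
  unfold pt
  have h1 : HasDerivAt (fun t : ℝ => ((t : ℝ) : ℂ)) 1 t := Complex.ofRealCLM.hasDerivAt
  have h2 := (h1.mul_const I).const_add (σ : ℂ)
  simpa using h2

lemma FRE_pth (σ t : ℝ) : HasDerivAt (fun σ : ℝ => pt σ t) 1 σ := by
  unfold pt
  have h1 : HasDerivAt (fun t : ℝ => ((t : ℝ) : ℂ)) 1 σ := Complex.ofRealCLM.hasDerivAt
  exact h1.add_const ((t : ℂ) * I)

lemma FRE_v {G : ℂ → ℂ} {σ t : ℝ} (hG : AnalyticAt ℂ G (pt σ t)) (h0 : G (pt σ t) ≠ 0) :
    HasDerivAt (fun t => Real.log ‖G (pt σ t)‖) ((I * logDeriv G (pt σ t)).re) t := by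
  have h1 : HasDerivAt (fun t : ℝ => G (pt σ t)) (deriv G (pt σ t) * I) t :=
    HasDerivAt.comp t hG.differentiableAt.hasDerivAt (FRE_ptv σ t)
  have h2 := FRE_log h1 h0
  convert h2 using 2
  rw [logDeriv_apply]
  ring

lemma FRE_h {G : ℂ → ℂ} {σ t : ℝ} (hG : AnalyticAt ℂ G (pt σ t)) (h0 : G (pt σ t) ≠ 0) :
    HasDerivAt (fun σ => Real.log ‖G (pt σ t)‖) ((logDeriv G (pt σ t)).re) σ := by
  have h1 : HasDerivAt (fun σ : ℝ => G (pt σ t)) (deriv G (pt σ t) * 1) σ :=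
    HasDerivAt.comp σ hG.differentiableAt.hasDerivAt (FRE_pth σ t)
  have h2 := FRE_log h1 h0
  convert h2 using 2
  rw [logDeriv_apply]
  ring

section

variable {s1 s2 A B : ℝ} {G : ℂ → ℂ}

lemma FRE_u (hs : s1 ≤ s2) (hAB : A ≤ B) (hG : AnalyticOnNhd ℂ G (Rc s1 s2 A B))
    (h0 : ∀ z ∈ Rc s1 s2 A B, G z ≠ 0) :
    Continuous (fun p : ℝ × ℝ => Real.log ‖G (pt (FRE_cl s1 s2 p.1) (FRE_cl A B p.2))‖) := by
  have hc : Continuous (fun p : ℝ × ℝ => pt (FRE_cl s1 s2 p.1) (FRE_cl A B p.2)) :=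
    FRE_pt_cont ((FRE_cl_cont s1 s2).comp continuous_fst) ((FRE_cl_cont A B).comp continuous_snd)
  have hm : ∀ p : ℝ × ℝ, pt (FRE_cl s1 s2 p.1) (FRE_cl A B p.2) ∈ Rc s1 s2 A B := fun p =>
    FRE_pt_mem (FRE_cl_mem hs _) (FRE_cl_mem hAB _)
  have h1 : Continuous (fun p : ℝ × ℝ => G (pt (FRE_cl s1 s2 p.1) (FRE_cl A B p.2))) := by
    rw [continuous_iff_continuousAt]
    intro p
    exact ContinuousAt.comp (f := fun p : ℝ × ℝ => pt (FRE_cl s1 s2 p.1) (FRE_cl A B p.2))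
      (hG _ (hm p)).continuousAt hc.continuousAt
  exact h1.norm.log (fun p => norm_ne_zero_iff.mpr (h0 _ (hm p)))

lemma FRE_an (hG : AnalyticOnNhd ℂ G (Rc s1 s2 A B))
    (h0 : ∀ z ∈ Rc s1 s2 A B, G z ≠ 0) : AnalyticOnNhd ℂ (logDeriv G) (Rc s1 s2 A B) := by
  intro z hz
  have h1 := (hG z hz).deriv.div (hG z hz) (h0 z hz)
  exact h1

lemma FRE_f (hs : s1 ≤ s2) (hAB : A ≤ B) (hG : AnalyticOnNhd ℂ G (Rc s1 s2 A B))
    (h0 : ∀ z ∈ Rc s1 s2 A B, G z ≠ 0) :
    Continuous (fun p : ℝ × ℝ => logDeriv G (pt (FRE_cl s1 s2 p.1) (FRE_cl A B p.2))) := by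
  have hc : Continuous (fun p : ℝ × ℝ => pt (FRE_cl s1 s2 p.1) (FRE_cl A B p.2)) :=
    FRE_pt_cont ((FRE_cl_cont s1 s2).comp continuous_fst) ((FRE_cl_cont A B).comp continuous_snd)
  have hm : ∀ p : ℝ × ℝ, pt (FRE_cl s1 s2 p.1) (FRE_cl A B p.2) ∈ Rc s1 s2 A B := fun p =>
    FRE_pt_mem (FRE_cl_mem hs _) (FRE_cl_mem hAB _)
  rw [continuous_iff_continuousAt]
  intro p
  exact ContinuousAt.comp (f := fun p : ℝ × ℝ => pt (FRE_cl s1 s2 p.1) (FRE_cl A B p.2))
      (FRE_an hG h0 _ (hm p)).continuousAt hc.continuousAt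

lemma FRE_tst_cont {φ φ1 φ2 : ℝ → ℝ} (h : Tst A B φ φ1 φ2) :
    Continuous φ ∧ Continuous φ1 :=
  ⟨continuous_iff_continuousAt.mpr fun t => (h.d1 t).continuousAt,
    continuous_iff_continuousAt.mpr fun t => (h.d2 t).continuousAt⟩

/-- integration by parts on a vertical segment -/
lemma FRE_vert (hAB : A < B) {φ φ1 φ2 : ℝ → ℝ} (h : Tst A B φ φ1 φ2)
    (hs : s1 ≤ s2) (hG : AnalyticOnNhd ℂ G (Rc s1 s2 A B))
    (h0 : ∀ z ∈ Rc s1 s2 A B, G z ≠ 0) {σ : ℝ} (hσ : σ ∈ Icc s1 s2) :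
    (∫ t in A..B, I * (φ1 t : ℂ) * logDeriv G (pt σ t)).re = - JJ A B φ2 G σ := by
  have hcf : Continuous fun t => logDeriv G (pt (FRE_cl s1 s2 σ) (FRE_cl A B t)) :=
    (FRE_f hs hAB.le hG h0).comp (continuous_const.prodMk continuous_id)
  have hc1 := (FRE_tst_cont h).2
  have e1 : (∫ t in A..B, I * (φ1 t : ℂ) * logDeriv G (pt σ t)) =
      ∫ t in A..B, I * (φ1 t : ℂ) * logDeriv G (pt (FRE_cl s1 s2 σ) (FRE_cl A B t)) := by
    apply intervalIntegral.integral_congr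
    intro t ht
    rw [uIcc_of_le hAB.le] at ht
    simp only [FRE_cl_eq hσ, FRE_cl_eq ht]
  have hci : Continuous fun t =>
      I * (φ1 t : ℂ) * logDeriv G (pt (FRE_cl s1 s2 σ) (FRE_cl A B t)) := by fun_prop
  have e2 : (∫ t in A..B, I * (φ1 t : ℂ) * logDeriv G (pt σ t)).re =
      ∫ t in A..B, φ1 t * (I * logDeriv G (pt σ t)).re := by
    rw [e1]
    have := Complex.reCLM.intervalIntegral_comp_comm
      (hci.intervalIntegrable (μ := volume) A B)
    simp only [Complex.reCLM_apply] at this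
    rw [← this]
    apply intervalIntegral.integral_congr
    intro t ht
    rw [uIcc_of_le hAB.le] at ht
    simp only [FRE_cl_eq hσ, FRE_cl_eq ht]
    have : I * (φ1 t : ℂ) * logDeriv G (pt σ t) = (φ1 t : ℂ) * (I * logDeriv G (pt σ t)) := by ring
    rw [this, Complex.re_ofReal_mul]
  rw [e2]
  have hd : ∀ t ∈ uIcc A B, HasDerivAt (fun t => Real.log ‖G (pt σ t)‖)
      ((I * logDeriv G (pt σ t)).re) t := by
    intro t ht
    rw [uIcc_of_le hAB.le] at ht
    exact FRE_v (hG _ (FRE_pt_mem hσ ht)) (h0 _ (FRE_pt_mem hσ ht))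
  have hint : IntervalIntegrable (fun t => (I * logDeriv G (pt σ t)).re) volume A B := by
    have hc2 : Continuous fun t =>
      (I * logDeriv G (pt (FRE_cl s1 s2 σ) (FRE_cl A B t))).re := by fun_prop
    refine (hc2.intervalIntegrable A B).congr ?_
    intro t ht
    rw [uIoc_of_le hAB.le] at ht
    simp only [FRE_cl_eq hσ, FRE_cl_eq (⟨ht.1.le, ht.2⟩ : t ∈ Icc A B)]
  rw [intervalIntegral.integral_mul_deriv_eq_deriv_mul (fun t _ => h.d2 t) hd
    (h.c2.intervalIntegrable A B) hint]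
  rw [h.z1 A (by simp), h.z1 B (by simp)]
  unfold JJ
  ring

lemma FRE_Jcont (hAB : A < B) (hs : s1 ≤ s2) (hG : AnalyticOnNhd ℂ G (Rc s1 s2 A B))
    (h0 : ∀ z ∈ Rc s1 s2 A B, G z ≠ 0) {ψ : ℝ → ℝ} (hψ : Continuous ψ) :
    Continuous fun σ => ∫ t in A..B,
      ψ t * Real.log ‖G (pt (FRE_cl s1 s2 σ) (FRE_cl A B t))‖ := by
  apply intervalIntegral.continuous_parametric_intervalIntegral_of_continuous'
  have := FRE_u hs hAB.le hG h0
  exact (hψ.comp continuous_snd).mul this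

lemma FRE_Jeq (hAB : A < B) {ψ : ℝ → ℝ} {σ : ℝ} (hσ : σ ∈ Icc s1 s2) :
    JJ A B ψ G σ = ∫ t in A..B,
      ψ t * Real.log ‖G (pt (FRE_cl s1 s2 σ) (FRE_cl A B t))‖ := by
  unfold JJ
  apply intervalIntegral.integral_congr
  intro t ht
  rw [uIcc_of_le hAB.le] at ht
  simp only [FRE_cl_eq hσ, FRE_cl_eq ht]

lemma FRE_Dcont (hAB : A < B) (hs : s1 ≤ s2) (hG : AnalyticOnNhd ℂ G (Rc s1 s2 A B))
    (h0 : ∀ z ∈ Rc s1 s2 A B, G z ≠ 0) {ψ : ℝ → ℝ} (hψ : Continuous ψ) :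
    Continuous (Function.uncurry fun σ t =>
      ψ t * (logDeriv G (pt (FRE_cl s1 s2 σ) (FRE_cl A B t))).re) := by
  have := FRE_f hs hAB.le hG h0
  exact (hψ.comp continuous_snd).mul (Complex.continuous_re.comp this)

lemma FRE_Deq (hAB : A < B) {ψ : ℝ → ℝ} {σ : ℝ} (hσ : σ ∈ Icc s1 s2) :
    DD A B ψ G σ = ∫ t in A..B,
      ψ t * (logDeriv G (pt (FRE_cl s1 s2 σ) (FRE_cl A B t))).re := by
  unfold DD
  apply intervalIntegral.integral_congr
  intro t ht
  rw [uIcc_of_le hAB.le] at ht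
  simp only [FRE_cl_eq hσ, FRE_cl_eq ht]

/-- the second formula, from `s1` to `s2` -/
lemma FRE_green (hs : s1 ≤ s2) (hAB : A < B) {φ φ1 φ2 : ℝ → ℝ} (h : Tst A B φ φ1 φ2)
    (hG : AnalyticOnNhd ℂ G (Rc s1 s2 A B)) (h0 : ∀ z ∈ Rc s1 s2 A B, G z ≠ 0) :
    DD A B φ G s2 - DD A B φ G s1 = -∫ σ in s1..s2, JJ A B φ2 G σ := by
  have hp := z_parts hs hAB h (FRE_an hG h0)
  have hre := congrArg Complex.re hp
  rw [Complex.sub_re] at hre
  have key : ∀ σ ∈ Icc s1 s2, (∫ t in A..B, (φ t : ℂ) * logDeriv G (pt σ t)).re =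
      DD A B φ G σ := by
    intro σ hσ
    have hcf : Continuous fun t => logDeriv G (pt (FRE_cl s1 s2 σ) (FRE_cl A B t)) :=
      (FRE_f hs hAB.le hG h0).comp (continuous_const.prodMk continuous_id)
    have hc1 := (FRE_tst_cont h).1
    have hci : Continuous fun t =>
      (φ t : ℂ) * logDeriv G (pt (FRE_cl s1 s2 σ) (FRE_cl A B t)) := by fun_prop
    have e1 : (∫ t in A..B, (φ t : ℂ) * logDeriv G (pt σ t)) =
        ∫ t in A..B, (φ t : ℂ) * logDeriv G (pt (FRE_cl s1 s2 σ) (FRE_cl A B t)) := by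
      apply intervalIntegral.integral_congr
      intro t ht
      rw [uIcc_of_le hAB.le] at ht
      simp only [FRE_cl_eq hσ, FRE_cl_eq ht]
    rw [e1, FRE_Deq hAB hσ]
    have := Complex.reCLM.intervalIntegral_comp_comm
      (hci.intervalIntegrable (μ := volume) A B)
    simp only [Complex.reCLM_apply] at this
    rw [← this]
    apply intervalIntegral.integral_congr
    intro t _
    simp only [Complex.re_ofReal_mul]
  rw [key s2 ⟨hs, le_refl _⟩, key s1 ⟨le_refl _, hs⟩] at hre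
  rw [hre]
  have hc2 : Continuous (Function.uncurry fun σ t =>
      I * (φ1 t : ℂ) * logDeriv G (pt (FRE_cl s1 s2 σ) (FRE_cl A B t))) := by
    have h1 := FRE_f hs hAB.le hG h0
    have h2 := (FRE_tst_cont h).2
    have h3 : Continuous fun p : ℝ × ℝ => I * ((φ1 p.2 : ℝ) : ℂ) := by fun_prop
    exact h3.mul h1
  have hc3 : Continuous fun σ => ∫ t in A..B,
      I * (φ1 t : ℂ) * logDeriv G (pt (FRE_cl s1 s2 σ) (FRE_cl A B t)) :=
    intervalIntegral.continuous_parametric_intervalIntegral_of_continuous' hc2 A B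
  have e3 : (∫ σ in s1..s2, ∫ t in A..B, I * (φ1 t : ℂ) * logDeriv G (pt σ t)) =
      ∫ σ in s1..s2, ∫ t in A..B,
        I * (φ1 t : ℂ) * logDeriv G (pt (FRE_cl s1 s2 σ) (FRE_cl A B t)) := by
    apply intervalIntegral.integral_congr
    intro σ hσ
    rw [uIcc_of_le hs] at hσ
    apply intervalIntegral.integral_congr
    intro t ht
    rw [uIcc_of_le hAB.le] at ht
    simp only [FRE_cl_eq hσ, FRE_cl_eq ht]
  rw [e3]
  have := Complex.reCLM.intervalIntegral_comp_comm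
    (hc3.intervalIntegrable (μ := volume) s1 s2)
  simp only [Complex.reCLM_apply] at this
  rw [← this, ← intervalIntegral.integral_neg]
  apply intervalIntegral.integral_congr
  intro σ hσ
  rw [uIcc_of_le hs] at hσ
  have e4 : (∫ t in A..B, I * (φ1 t : ℂ) * logDeriv G (pt (FRE_cl s1 s2 σ) (FRE_cl A B t))) =
      ∫ t in A..B, I * (φ1 t : ℂ) * logDeriv G (pt σ t) := by
    apply intervalIntegral.integral_congr
    intro t ht
    rw [uIcc_of_le hAB.le] at ht
    simp only [FRE_cl_eq hσ, FRE_cl_eq ht]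
  simp only [e4]
  exact FRE_vert hAB h hs hG h0 hσ

end

theorem z_free_pr {s1 s2 A B : ℝ} (hs : s1 < s2) (hAB : A < B) {φ φ1 φ2 : ℝ → ℝ}
    (h : Tst A B φ φ1 φ2) {G : ℂ → ℂ} (hG : AnalyticOnNhd ℂ G (Rc s1 s2 A B))
    (h0 : ∀ z ∈ Rc s1 s2 A B, G z ≠ 0) :
    ContinuousOn (JJ A B φ2 G) (Icc s1 s2) ∧
    DD A B φ G s2 - DD A B φ G s1 = -∫ σ in s1..s2, JJ A B φ2 G σ ∧
    JJ A B φ G s1 - JJ A B φ G s2 + (s2 - s1) * DD A B φ G s2 +
      ∫ σ in s1..s2, (σ - s1) * JJ A B φ2 G σ = 0 := by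
  have hK := FRE_Jcont hAB hs.le hG h0 h.c2
  refine ⟨?_, FRE_green hs.le hAB h hG h0, ?_⟩
  · exact hK.continuousOn.congr fun σ hσ => FRE_Jeq hAB hσ
  · -- the function `K`
    set K : ℝ → ℝ := fun σ => ∫ t in A..B,
      φ2 t * Real.log ‖G (pt (FRE_cl s1 s2 σ) (FRE_cl A B t))‖ with hKdef
    have hKe : ∀ σ ∈ Icc s1 s2, JJ A B φ2 G σ = K σ := fun σ hσ => FRE_Jeq hAB hσ
    have hφc := (FRE_tst_cont h).1
    -- `J(s2) - J(s1) = ∫ D`
    have hJD : JJ A B φ G s2 - JJ A B φ G s1 = ∫ σ in s1..s2, DD A B φ G σ := by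
      have m1 : s1 ∈ Icc s1 s2 := ⟨le_refl _, hs.le⟩
      have m2 : s2 ∈ Icc s1 s2 := ⟨hs.le, le_refl _⟩
      have hu := FRE_u hs.le hAB.le hG h0
      have hu' : ∀ σ : ℝ, Continuous fun t =>
          Real.log ‖G (pt (FRE_cl s1 s2 σ) (FRE_cl A B t))‖ := fun σ =>
        hu.comp (continuous_const.prodMk continuous_id)
      rw [FRE_Jeq (s1 := s1) (s2 := s2) hAB m1, FRE_Jeq (s1 := s1) (s2 := s2) hAB m2]
      have hi : ∀ σ : ℝ, IntervalIntegrable (fun t =>
          φ t * Real.log ‖G (pt (FRE_cl s1 s2 σ) (FRE_cl A B t))‖) volume A B := fun σ =>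
        (hφc.mul (hu' σ)).intervalIntegrable A B
      rw [← intervalIntegral.integral_sub (hi s2) (hi s1)]
      have e1 : (∫ σ in s1..s2, DD A B φ G σ) = ∫ σ in s1..s2, ∫ t in A..B,
          φ t * (logDeriv G (pt (FRE_cl s1 s2 σ) (FRE_cl A B t))).re := by
        apply intervalIntegral.integral_congr
        intro σ hσ
        rw [uIcc_of_le hs.le] at hσ
        exact FRE_Deq hAB hσ
      rw [e1]
      have hDc := FRE_Dcont hAB hs.le hG h0 hφc
      have hsw : (∫ σ in s1..s2, ∫ t in A..B,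
          φ t * (logDeriv G (pt (FRE_cl s1 s2 σ) (FRE_cl A B t))).re) =
          ∫ t in A..B, ∫ σ in s1..s2,
          φ t * (logDeriv G (pt (FRE_cl s1 s2 σ) (FRE_cl A B t))).re := by
        apply intervalIntegral_intervalIntegral_swap
        have : IntegrableOn (Function.uncurry fun σ t =>
            φ t * (logDeriv G (pt (FRE_cl s1 s2 σ) (FRE_cl A B t))).re)
            (Icc s1 s2 ×ˢ Icc A B) (volume.prod volume) :=
          hDc.continuousOn.integrableOn_compact (isCompact_Icc.prod isCompact_Icc)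
        apply this.mono_set
        rw [uIoc_of_le hs.le, uIoc_of_le hAB.le]
        exact Set.prod_mono Ioc_subset_Icc_self Ioc_subset_Icc_self
      rw [hsw]
      apply intervalIntegral.integral_congr
      intro t ht
      rw [uIcc_of_le hAB.le] at ht
      simp only
      rw [intervalIntegral.integral_const_mul, ← mul_sub]
      congr 1
      have hft : Continuous fun σ => (logDeriv G (pt (FRE_cl s1 s2 σ) (FRE_cl A B t))).re :=
        Complex.continuous_re.comp ((FRE_f hs.le hAB.le hG h0).comp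
          (continuous_id.prodMk continuous_const))
      have hftc := intervalIntegral.integral_eq_sub_of_hasDerivAt
        (f := fun σ => Real.log ‖G (pt σ t)‖)
        (f' := fun σ => (logDeriv G (pt σ t)).re) (a := s1) (b := s2)
        (fun σ hσ => by
          rw [uIcc_of_le hs.le] at hσ
          exact FRE_h (hG _ (FRE_pt_mem hσ ht)) (h0 _ (FRE_pt_mem hσ ht)))
        (by
          refine (hft.intervalIntegrable s1 s2).congr ?_
          intro σ hσ
          rw [uIoc_of_le hs.le] at hσ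
          simp only [FRE_cl_eq ht, FRE_cl_eq (⟨hσ.1.le, hσ.2⟩ : σ ∈ Icc s1 s2)])
      simp only [FRE_cl_eq m1, FRE_cl_eq m2, FRE_cl_eq ht]
      rw [← hftc]
      apply intervalIntegral.integral_congr
      intro σ hσ
      rw [uIcc_of_le hs.le] at hσ
      simp only [FRE_cl_eq hσ]
    -- `D(σ) = D(s2) + ∫_σ^{s2} K`
    have hD : ∀ σ ∈ Icc s1 s2, DD A B φ G σ = DD A B φ G s2 + ∫ τ in σ..s2, K τ := by
      intro σ hσ
      have hsub : Rc σ s2 A B ⊆ Rc s1 s2 A B := fun z hz => ⟨hσ.1.trans hz.1, hz.2⟩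
      have h1 := FRE_green hσ.2 hAB h (hG.mono hsub) (fun z hz => h0 z (hsub hz))
      have e2 : (∫ τ in σ..s2, JJ A B φ2 G τ) = ∫ τ in σ..s2, K τ := by
        apply intervalIntegral.integral_congr
        intro τ hτ
        rw [uIcc_of_le hσ.2] at hτ
        exact hKe τ ⟨hσ.1.trans hτ.1, hτ.2⟩
      rw [e2] at h1
      linarith
    have hE : ∀ σ : ℝ, HasDerivAt (fun σ => ∫ τ in σ..s2, K τ) (-K σ) σ := by
      intro σ
      exact intervalIntegral.integral_hasDerivAt_left (hK.intervalIntegrable _ _)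
        (hK.stronglyMeasurableAtFilter _ _) hK.continuousAt
    have hEc : Continuous (fun σ => ∫ τ in σ..s2, K τ) :=
      continuous_iff_continuousAt.mpr fun σ => (hE σ).continuousAt
    have e3 : (∫ σ in s1..s2, DD A B φ G σ) =
        (s2 - s1) * DD A B φ G s2 + ∫ σ in s1..s2, ∫ τ in σ..s2, K τ := by
      have : (∫ σ in s1..s2, DD A B φ G σ) =
          ∫ σ in s1..s2, (DD A B φ G s2 + ∫ τ in σ..s2, K τ) := by
        apply intervalIntegral.integral_congr
        intro σ hσ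
        rw [uIcc_of_le hs.le] at hσ
        exact hD σ hσ
      rw [this, intervalIntegral.integral_add (by simp) (hEc.intervalIntegrable _ _)]
      simp
    have e4 : (∫ σ in s1..s2, ∫ τ in σ..s2, K τ) = ∫ σ in s1..s2, (σ - s1) * K σ := by
      have hp := intervalIntegral.integral_mul_deriv_eq_deriv_mul (a := s1) (b := s2)
        (u := fun σ => ∫ τ in σ..s2, K τ) (v := fun σ => σ - s1) (u' := fun σ => -K σ)
        (v' := fun _ => 1) (fun σ _ => hE σ)
        (fun σ _ => (hasDerivAt_id σ).sub_const s1) (hK.neg.intervalIntegrable _ _) (by simp)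
      simp only [mul_one, intervalIntegral.integral_same, zero_mul, sub_self, mul_zero,
        zero_sub] at hp
      rw [hp, ← intervalIntegral.integral_neg]
      apply intervalIntegral.integral_congr
      intro σ _
      simp only
      ring
    have e5 : (∫ σ in s1..s2, (σ - s1) * JJ A B φ2 G σ) = ∫ σ in s1..s2, (σ - s1) * K σ := by
      apply intervalIntegral.integral_congr
      intro σ hσ
      rw [uIcc_of_le hs.le] at hσ
      simp only [hKe σ hσ]
    rw [e5, ← e4]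
    linarith


end Pool.Agent.LVK

namespace Pool.Agent.LVK

theorem z_free : type_of% @z_free_pr := @z_free_pr

end Pool.Agent.LVK
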