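import Pool.Agent.Lib_helper39.LVK.DefsZ

/-! LVK part Z, block ONL: limits of `D` at the abscissa of the zero. -/

namespace Pool.Agent.LVK

open Complex MeasureTheory Set Filter Topology
open scoped ENNReal

theorem ONL_log (ρ : ℂ) (σ t : ℝ) : (logDeriv (fun s : ℂ => s - ρ) (pt σ t)).re =
    (σ - ρ.re) / ((σ - ρ.re) ^ 2 + (t - ρ.im) ^ 2) := by
  have h1 : deriv (fun s : ℂ => s - ρ) (pt σ t) = 1 := by
    simp
  rw [logDeriv_apply, h1, one_div, Complex.inv_re, Complex.normSq_apply]
  have h2 : (pt σ t - ρ).re = σ - ρ.re := by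
    simp [pt]
  have h3 : (pt σ t - ρ).im = t - ρ.im := by
    simp [pt]
  rw [h2, h3]
  ring

theorem ONL_DD (A B : ℝ) (φ : ℝ → ℝ) (ρ : ℂ) (σ : ℝ) : DD A B φ (fun s => s - ρ) σ =
    ∫ t in A..B, φ t * ((σ - ρ.re) / ((σ - ρ.re) ^ 2 + (t - ρ.im) ^ 2)) := by
  unfold DD
  simp only [ONL_log]

/-- `D` is odd -/
theorem ONL_odd (A B : ℝ) (φ : ℝ → ℝ) (ρ : ℂ) (σ : ℝ) : DD A B φ (fun s => s - ρ) σ =
    -DD A B φ (fun s => s - ρ) (2 * ρ.re - σ) := by
  rw [ONL_DD, ONL_DD, ← intervalIntegral.integral_neg]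
  refine intervalIntegral.integral_congr fun t _ => ?_
  have h1 : (2 * ρ.re - σ - ρ.re) = -(σ - ρ.re) := by ring
  show φ t * ((σ - ρ.re) / ((σ - ρ.re) ^ 2 + (t - ρ.im) ^ 2)) =
    -(φ t * ((2 * ρ.re - σ - ρ.re) / ((2 * ρ.re - σ - ρ.re) ^ 2 + (t - ρ.im) ^ 2)))
  rw [h1, neg_sq, neg_div]
  ring

/-- integration by parts -/
theorem ONL_parts {A B : ℝ} {φ φ1 φ2 : ℝ → ℝ} (h : Tst A B φ φ1 φ2) (ρ : ℂ)
    {σ : ℝ} (hσ : ρ.re < σ) : DD A B φ (fun s => s - ρ) σ =
      ∫ t in A..B, -(φ1 t * Real.arctan ((t - ρ.im) / (σ - ρ.re))) := by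
  have hx : 0 < σ - ρ.re := by linarith
  have hφ1c : Continuous φ1 := continuous_iff_continuousAt.2 fun t => (h.d2 t).continuousAt
  have hd : ∀ t, HasDerivAt (fun t => Real.arctan ((t - ρ.im) / (σ - ρ.re)))
      ((σ - ρ.re) / ((σ - ρ.re) ^ 2 + (t - ρ.im) ^ 2)) t := by
    intro t
    have h1 : HasDerivAt (fun t : ℝ => (t - ρ.im) / (σ - ρ.re)) (1 / (σ - ρ.re)) t :=
      ((hasDerivAt_id t).sub_const ρ.im).div_const _
    have h2 := h1.arctan
    convert h2 using 1
    have h3 : (σ - ρ.re) ^ 2 + (t - ρ.im) ^ 2 ≠ 0 := by positivity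
    have h4 : 1 + ((t - ρ.im) / (σ - ρ.re)) ^ 2 ≠ 0 := by positivity
    field_simp
  have hc : Continuous fun t : ℝ => (σ - ρ.re) / ((σ - ρ.re) ^ 2 + (t - ρ.im) ^ 2) := by
    refine continuous_const.div (by fun_prop) fun t => ?_
    positivity
  have h0A : φ A = 0 := h.z0 A (by simp)
  have h0B : φ B = 0 := h.z0 B (by simp)
  rw [ONL_DD, intervalIntegral.integral_mul_deriv_eq_deriv_mul (u := φ) (u' := φ1)
    (v := fun t => Real.arctan ((t - ρ.im) / (σ - ρ.re)))
    (fun t _ => h.d1 t) (fun t _ => hd t) (hφ1c.intervalIntegrable _ _)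
    (hc.intervalIntegrable _ _), h0A, h0B, intervalIntegral.integral_neg]
  ring

/-- the integral of `φ1` against the sign -/
theorem ONL_sign {A B : ℝ} (hAB : A < B) {φ φ1 φ2 : ℝ → ℝ} (h : Tst A B φ φ1 φ2) (g : ℝ) :
    ∫ t in A..B, φ1 t * Real.sign (t - g) = -2 * φ g := by
  have hφc : Continuous φ := continuous_iff_continuousAt.2 fun t => (h.d1 t).continuousAt
  have hφ1c : Continuous φ1 := continuous_iff_continuousAt.2 fun t => (h.d2 t).continuousAt
  have h0A : φ A = 0 := h.z0 A (by simp)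
  have h0B : φ B = 0 := h.z0 B (by simp)
  have hsign : Measurable Real.sign := by
    unfold Real.sign
    exact Measurable.ite measurableSet_Iio measurable_const
      (Measurable.ite measurableSet_Ioi measurable_const measurable_const)
  have hsb : ∀ x : ℝ, |Real.sign x| ≤ 1 := by
    intro x
    rcases Real.sign_apply_eq x with h | h | h <;> rw [h] <;> norm_num
  have hint : IntervalIntegrable (fun t => φ1 t * Real.sign (t - g)) volume A B := by
    refine (hφ1c.intervalIntegrable A B).mono_fun ?_ ?_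
    · exact (hφ1c.measurable.mul (hsign.comp (measurable_id.sub_const g))).aestronglyMeasurable
    · refine Eventually.of_forall fun t => ?_
      show ‖φ1 t * Real.sign (t - g)‖ ≤ ‖φ1 t‖
      rw [norm_mul]
      have := hsb (t - g)
      rw [← Real.norm_eq_abs] at this
      nlinarith [norm_nonneg (φ1 t), norm_nonneg (Real.sign (t - g))]
  have key : ∫ t in A..B, φ1 t * Real.sign (t - g) =
      (φ B - φ g) * Real.sign (B - g) - (φ A - φ g) * Real.sign (A - g) := by
    refine MeasureTheory.integral_eq_of_hasDerivAt_off_countable_of_le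
      (fun t => (φ t - φ g) * Real.sign (t - g)) (fun t => φ1 t * Real.sign (t - g)) hAB.le
      (Set.countable_singleton g) ?_ ?_ hint
    · refine Continuous.continuousOn ?_
      rw [continuous_iff_continuousAt]
      intro t
      rcases eq_or_ne t g with rfl | hne
      · rw [ContinuousAt, sub_self, zero_mul]
        refine squeeze_zero_norm (a := fun s => |φ s - φ t|) (fun s => ?_) ?_
        · rw [norm_mul, Real.norm_eq_abs, Real.norm_eq_abs]
          have := hsb (s - t)
          nlinarith [abs_nonneg (φ s - φ t), abs_nonneg (Real.sign (s - t))]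
        · have h1 : Tendsto (fun s => |φ s - φ t|) (𝓝 t) (𝓝 |φ t - φ t|) :=
            ((hφc.tendsto t).sub_const _).abs
          simpa using h1
      · have h1 : (fun s => (φ s - φ g) * Real.sign (s - g)) =ᶠ[𝓝 t]
            (fun s => (φ s - φ g) * Real.sign (t - g)) := by
          rcases lt_or_gt_of_ne hne with hlt | hgt
          · filter_upwards [Iio_mem_nhds hlt] with s hs
            rw [Real.sign_of_neg (sub_neg.2 hs), Real.sign_of_neg (sub_neg.2 hlt)]
          · filter_upwards [Ioi_mem_nhds hgt] with s hs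
            rw [Real.sign_of_pos (sub_pos.2 hs), Real.sign_of_pos (sub_pos.2 hgt)]
        refine ContinuousAt.congr ?_ h1.symm
        exact ((hφc.continuousAt).sub continuousAt_const).mul continuousAt_const
    · rintro t ⟨-, hne⟩
      have hne : t ≠ g := hne
      have h1 : (fun s => (φ s - φ g) * Real.sign (s - g)) =ᶠ[𝓝 t]
          (fun s => (φ s - φ g) * Real.sign (t - g)) := by
        rcases lt_or_gt_of_ne hne with hlt | hgt
        · filter_upwards [Iio_mem_nhds hlt] with s hs
          rw [Real.sign_of_neg (sub_neg.2 hs), Real.sign_of_neg (sub_neg.2 hlt)]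
        · filter_upwards [Ioi_mem_nhds hgt] with s hs
          rw [Real.sign_of_pos (sub_pos.2 hs), Real.sign_of_pos (sub_pos.2 hgt)]
      exact ((((h.d1 t).sub_const (φ g)).mul_const (Real.sign (t - g)))).congr_of_eventuallyEq h1
  rw [key, h0A, h0B]
  by_cases hg : g ∈ Ioo A B
  · rw [Real.sign_of_pos (sub_pos.2 hg.2), Real.sign_of_neg (sub_neg.2 hg.1)]
    ring
  · rw [h.z0 g hg]
    ring

theorem z_one_lim_pr {A B : ℝ} (hAB : A < B) {φ φ1 φ2 : ℝ → ℝ} (h : Tst A B φ φ1 φ2) (ρ : ℂ) :
    Tendsto (DD A B φ (fun s => s - ρ)) (𝓝[>] ρ.re) (𝓝 (Real.pi * φ ρ.im)) ∧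
    Tendsto (DD A B φ (fun s => s - ρ)) (𝓝[<] ρ.re) (𝓝 (-(Real.pi * φ ρ.im))) ∧
    DD A B φ (fun s => s - ρ) ρ.re = 0 := by
  have hφ1c : Continuous φ1 := continuous_iff_continuousAt.2 fun t => (h.d2 t).continuousAt
  have hright : Tendsto (DD A B φ (fun s => s - ρ)) (𝓝[>] ρ.re) (𝓝 (Real.pi * φ ρ.im)) := by
    have h1 : Real.pi * φ ρ.im =
        ∫ t in A..B, -(φ1 t * (Real.pi / 2 * Real.sign (t - ρ.im))) := by
      have e : ∀ t, -(φ1 t * (Real.pi / 2 * Real.sign (t - ρ.im))) =
          (-(Real.pi / 2)) * (φ1 t * Real.sign (t - ρ.im)) := fun t => by ring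
      simp only [e]
      rw [intervalIntegral.integral_const_mul, ONL_sign hAB h]
      ring
    rw [h1]
    have h2 : (fun σ => ∫ t in A..B, -(φ1 t * Real.arctan ((t - ρ.im) / (σ - ρ.re)))) =ᶠ[𝓝[>] ρ.re]
        DD A B φ (fun s => s - ρ) := by
      filter_upwards [self_mem_nhdsWithin] with σ hσ
      exact (ONL_parts h ρ hσ).symm
    refine Tendsto.congr' h2 ?_
    refine intervalIntegral.tendsto_integral_filter_of_dominated_convergence
      (fun t => |φ1 t| * (Real.pi / 2)) ?_ ?_ ?_ ?_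
    · filter_upwards [self_mem_nhdsWithin] with σ hσ
      refine Continuous.aestronglyMeasurable ?_
      have : Continuous fun t : ℝ => Real.arctan ((t - ρ.im) / (σ - ρ.re)) :=
        Real.continuous_arctan.comp ((continuous_id.sub continuous_const).div_const _)
      exact (hφ1c.mul this).neg
    · filter_upwards with σ
      filter_upwards with t _
      rw [norm_neg, norm_mul, Real.norm_eq_abs, Real.norm_eq_abs]
      refine mul_le_mul_of_nonneg_left ?_ (abs_nonneg _)
      rw [abs_le]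
      exact ⟨(Real.neg_pi_div_two_lt_arctan _).le, (Real.arctan_lt_pi_div_two _).le⟩
    · exact (hφ1c.abs.mul continuous_const).intervalIntegrable _ _
    · filter_upwards with t _
      refine (Tendsto.const_mul (φ1 t) ?_).neg
      have h3 : Tendsto (fun σ => (σ - ρ.re)⁻¹) (𝓝[>] ρ.re) atTop := by
        refine tendsto_inv_nhdsGT_zero.comp ?_
        rw [tendsto_nhdsWithin_iff]
        constructor
        · have : Tendsto (fun σ : ℝ => σ - ρ.re) (𝓝 ρ.re) (𝓝 (ρ.re - ρ.re)) :=
            (continuous_id.sub continuous_const).tendsto _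
          rw [sub_self] at this
          exact this.mono_left nhdsWithin_le_nhds
        · filter_upwards [self_mem_nhdsWithin] with σ hσ
          have hσ : ρ.re < σ := hσ
          exact sub_pos.2 hσ
      rcases lt_trichotomy t ρ.im with hlt | heq | hgt
      · rw [Real.sign_of_neg (sub_neg.2 hlt)]
        have h4 : Tendsto (fun σ => (t - ρ.im) / (σ - ρ.re)) (𝓝[>] ρ.re) atBot := by
          simp only [div_eq_mul_inv]
          exact h3.const_mul_atTop_of_neg (sub_neg.2 hlt)
        have h5 := (Real.tendsto_arctan_atBot.mono_right nhdsWithin_le_nhds).comp h4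
        rw [show Real.pi / 2 * (-1 : ℝ) = -(Real.pi / 2) by ring]
        exact h5
      · rw [heq, sub_self, Real.sign_zero]
        simp
      · rw [Real.sign_of_pos (sub_pos.2 hgt)]
        have h4 : Tendsto (fun σ => (t - ρ.im) / (σ - ρ.re)) (𝓝[>] ρ.re) atTop := by
          simp only [div_eq_mul_inv]
          exact h3.const_mul_atTop (sub_pos.2 hgt)
        have h5 := (Real.tendsto_arctan_atTop.mono_right nhdsWithin_le_nhds).comp h4
        rw [show Real.pi / 2 * (1 : ℝ) = Real.pi / 2 by ring]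
        exact h5
  refine ⟨hright, ?_, ?_⟩
  · have h1 : Tendsto (fun σ : ℝ => 2 * ρ.re - σ) (𝓝[<] ρ.re) (𝓝[>] ρ.re) := by
      rw [tendsto_nhdsWithin_iff]
      constructor
      · have : Tendsto (fun σ : ℝ => 2 * ρ.re - σ) (𝓝 ρ.re) (𝓝 (2 * ρ.re - ρ.re)) :=
          (continuous_const.sub continuous_id).tendsto _
        have e : 2 * ρ.re - ρ.re = ρ.re := by ring
        rw [e] at this
        exact this.mono_left nhdsWithin_le_nhds
      · filter_upwards [self_mem_nhdsWithin] with σ hσ
        have hσ : σ < ρ.re := hσ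
        show ρ.re < 2 * ρ.re - σ
        linarith
    have h2 := (hright.comp h1).neg
    refine h2.congr fun σ => ?_
    show -DD A B φ (fun s => s - ρ) (2 * ρ.re - σ) = _
    rw [← ONL_odd]
  · rw [ONL_DD, sub_self]
    simp

end Pool.Agent.LVK

namespace Pool.Agent.LVK

theorem z_one_lim : type_of% @z_one_lim_pr := @z_one_lim_pr

end Pool.Agent.LVK
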