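import Pool.Agent.Lib_helper39.LVK.DefsZ
import Pool.Agent.Lib_helper39.LVZ.FRE
import Pool.Agent.Lib_helper39.LVZ.ONC
import Pool.Agent.Lib_helper39.LVZ.ONL

/-! LVK part Z, block ONE: the Green formula for one linear factor. -/

namespace Pool.Agent.LVK

open Complex MeasureTheory Set Filter Topology
open scoped ENNReal

/-- the formula away from the zero -/
theorem ONE_free {A B : ℝ} (hAB : A < B) {φ φ1 φ2 : ℝ → ℝ} (h : Tst A B φ φ1 φ2) (ρ : ℂ)
    {s1 s2 : ℝ} (hs : s1 < s2) (hρ : ρ.re < s1 ∨ s2 < ρ.re) :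
    DD A B φ (fun s => s - ρ) s2 - DD A B φ (fun s => s - ρ) s1 =
      -∫ σ in s1..s2, JJ A B φ2 (fun s => s - ρ) σ := by
  refine (z_free hs hAB h (G := fun s => s - ρ) (fun z _ => analyticAt_id.sub analyticAt_const)
    fun z hz h0 => ?_).2.1
  have h1 : z.re = ρ.re := by rw [sub_eq_zero.1 h0]
  obtain ⟨h2, h3, -, -⟩ := hz
  rcases hρ with h | h <;> linarith

/-- from the zero to the right -/
theorem ONE_right {A B : ℝ} (hAB : A < B) {φ φ1 φ2 : ℝ → ℝ} (h : Tst A B φ φ1 φ2) (ρ : ℂ)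
    {s2 : ℝ} (hs : ρ.re < s2) : DD A B φ (fun s => s - ρ) s2 =
      Real.pi * φ ρ.im - ∫ σ in ρ.re..s2, JJ A B φ2 (fun s => s - ρ) σ := by
  have hK := z_one_cont hAB h.c2 ρ
  have h1 : Tendsto (fun s => DD A B φ (fun s => s - ρ) s2 - DD A B φ (fun s => s - ρ) s +
      ∫ σ in s..s2, JJ A B φ2 (fun s => s - ρ) σ) (𝓝[>] ρ.re)
      (𝓝 (DD A B φ (fun s => s - ρ) s2 - Real.pi * φ ρ.im +
        ∫ σ in ρ.re..s2, JJ A B φ2 (fun s => s - ρ) σ)) := by
    refine (tendsto_const_nhds.sub (z_one_lim hAB h ρ).1).add ?_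
    have h2 : Continuous fun s => ∫ σ in s..s2, JJ A B φ2 (fun s => s - ρ) σ := by
      have e : (fun s => ∫ σ in s..s2, JJ A B φ2 (fun s => s - ρ) σ) =
          fun s => -∫ σ in s2..s, JJ A B φ2 (fun s => s - ρ) σ := by
        funext s
        rw [intervalIntegral.integral_symm]
      rw [e]
      exact (intervalIntegral.continuous_primitive (fun a b => hK.intervalIntegrable a b) s2).neg
    exact (h2.tendsto ρ.re).mono_left nhdsWithin_le_nhds
  have h2 : (fun s => DD A B φ (fun s => s - ρ) s2 - DD A B φ (fun s => s - ρ) s +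
      ∫ σ in s..s2, JJ A B φ2 (fun s => s - ρ) σ) =ᶠ[𝓝[>] ρ.re] fun _ => 0 := by
    filter_upwards [Ioo_mem_nhdsGT hs] with s hs'
    rw [ONE_free hAB h ρ hs'.2 (Or.inl hs'.1)]
    ring
  have h3 := tendsto_nhds_unique (h1.congr' h2) tendsto_const_nhds
  linarith

/-- from the left to the zero -/
theorem ONE_left {A B : ℝ} (hAB : A < B) {φ φ1 φ2 : ℝ → ℝ} (h : Tst A B φ φ1 φ2) (ρ : ℂ)
    {s1 : ℝ} (hs : s1 < ρ.re) : -DD A B φ (fun s => s - ρ) s1 =
      Real.pi * φ ρ.im - ∫ σ in s1..ρ.re, JJ A B φ2 (fun s => s - ρ) σ := by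
  have hK := z_one_cont hAB h.c2 ρ
  have h1 : Tendsto (fun s => DD A B φ (fun s => s - ρ) s - DD A B φ (fun s => s - ρ) s1 +
      ∫ σ in s1..s, JJ A B φ2 (fun s => s - ρ) σ) (𝓝[<] ρ.re)
      (𝓝 (-(Real.pi * φ ρ.im) - DD A B φ (fun s => s - ρ) s1 +
        ∫ σ in s1..ρ.re, JJ A B φ2 (fun s => s - ρ) σ)) := by
    refine ((z_one_lim hAB h ρ).2.1.sub tendsto_const_nhds).add ?_
    have h2 : Continuous fun s => ∫ σ in s1..s, JJ A B φ2 (fun s => s - ρ) σ :=
      intervalIntegral.continuous_primitive (fun a b => hK.intervalIntegrable a b) s1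
    exact (h2.tendsto ρ.re).mono_left nhdsWithin_le_nhds
  have h2 : (fun s => DD A B φ (fun s => s - ρ) s - DD A B φ (fun s => s - ρ) s1 +
      ∫ σ in s1..s, JJ A B φ2 (fun s => s - ρ) σ) =ᶠ[𝓝[<] ρ.re] fun _ => 0 := by
    filter_upwards [Ioo_mem_nhdsLT hs] with s hs'
    rw [ONE_free hAB h ρ hs'.1 (Or.inr hs'.2)]
    ring
  have h3 := tendsto_nhds_unique (h1.congr' h2) tendsto_const_nhds
  linarith

theorem z_one_pr {A B : ℝ} (hAB : A < B) {φ φ1 φ2 : ℝ → ℝ} (h : Tst A B φ φ1 φ2) (ρ : ℂ)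
    {s1 s2 : ℝ} (hs : s1 < s2) :
    DD A B φ (fun s => s - ρ) s2 - DD A B φ (fun s => s - ρ) s1 =
      Real.pi * ((Real.sign (s2 - ρ.re) - Real.sign (s1 - ρ.re)) * φ ρ.im) -
        ∫ σ in s1..s2, JJ A B φ2 (fun s => s - ρ) σ := by
  have hK := z_one_cont hAB h.c2 ρ
  have h0 := (z_one_lim hAB h ρ).2.2
  rcases lt_trichotomy ρ.re s1 with h1 | h1 | h1
  · rw [ONE_free hAB h ρ hs (Or.inl h1), Real.sign_of_pos (sub_pos.2 h1),
      Real.sign_of_pos (sub_pos.2 (h1.trans hs))]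
    ring
  · subst h1
    rw [h0, ONE_right hAB h ρ hs, sub_self, Real.sign_zero, Real.sign_of_pos (sub_pos.2 hs)]
    ring
  · rcases lt_trichotomy ρ.re s2 with h2 | h2 | h2
    · have e1 := ONE_left hAB h ρ h1
      have e2 := ONE_right hAB h ρ h2
      have e3 := intervalIntegral.integral_add_adjacent_intervals
        (hK.intervalIntegrable s1 ρ.re) (hK.intervalIntegrable (μ := volume) ρ.re s2)
      rw [Real.sign_of_neg (sub_neg.2 h1), Real.sign_of_pos (sub_pos.2 h2)]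
      linarith
    · subst h2
      rw [h0, zero_sub, ONE_left hAB h ρ h1, sub_self, Real.sign_zero,
        Real.sign_of_neg (sub_neg.2 h1)]
      ring
    · rw [ONE_free hAB h ρ hs (Or.inr h2), Real.sign_of_neg (sub_neg.2 h1),
        Real.sign_of_neg (sub_neg.2 h2)]
      ring

end Pool.Agent.LVK

namespace Pool.Agent.LVK

theorem z_one : type_of% @z_one_pr := @z_one_pr

end Pool.Agent.LVK
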