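import Pool.Agent.Lib_helper39.LVK.DefsZ
import Pool.Agent.Lib_helper39.LVZ.FAC
import Pool.Agent.Lib_helper39.LVZ.FRE
import Pool.Agent.Lib_helper39.LVZ.GRI
import Pool.Agent.Lib_helper39.LVZ.INT
import Pool.Agent.Lib_helper39.LVZ.ONC
import Pool.Agent.Lib_helper39.LVZ.ONE

/-!
# LVK part Z, block GRN: the Green formula
-/

namespace Pool.Agent.LVK

open Complex MeasureTheory Set Filter Topology
open scoped ENNReal

theorem GRN_pt_mem {s1 s2 A B σ t : ℝ} (hσ : σ ∈ Icc s1 s2) (ht : t ∈ Icc A B) :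
    pt σ t ∈ Rc s1 s2 A B := by
  simp only [Rc, pt, Set.mem_ofPred_eq, add_re, ofReal_re, mul_re, I_re, mul_zero, ofReal_im, I_im,
    mul_one, sub_self, add_zero, add_im, mul_im, zero_add]
  exact ⟨hσ.1, hσ.2, ht.1, ht.2⟩

theorem GRN_pt_im (σ t : ℝ) : (pt σ t).im = t := by simp [pt]

theorem GRN_pt_re (σ t : ℝ) : (pt σ t).re = σ := by simp [pt]

theorem GRN_isZ_lin {s1 s2 A B : ℝ} {ρ : ℂ} (hρ : ρ ∈ Rc s1 s2 A B) :
    IsZ s1 s2 A B (fun s => s - ρ) {ρ} := by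
  intro z
  simp only [Finset.mem_singleton]
  constructor
  · intro h
    rw [h]
    exact ⟨hρ, sub_self _⟩
  · intro h
    exact sub_eq_zero.mp h.2

theorem GRN_isZ_emp {s1 s2 A B : ℝ} {G : ℂ → ℂ} (h0 : ∀ z ∈ Rc s1 s2 A B, G z ≠ 0) :
    IsZ s1 s2 A B G ∅ := by
  intro z
  simp only [Finset.notMem_empty, false_iff, not_and]
  exact fun hz => h0 z hz

theorem GRN_an_lin (s1 s2 A B : ℝ) (ρ : ℂ) :
    AnalyticOnNhd ℂ (fun s : ℂ => s - ρ) (Rc s1 s2 A B) := by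
  intro z _
  fun_prop

/-- pointwise identities off the zeros -/
theorem GRN_point {s1 s2 A B : ℝ} {F G : ℂ → ℂ} {S : Finset ℂ}
    (hG : AnalyticOnNhd ℂ G (Rc s1 s2 A B)) (hG0 : ∀ z ∈ Rc s1 s2 A B, G z ≠ 0)
    (hFG : ∀ z ∈ Rc s1 s2 A B, ∀ᶠ w in 𝓝 z,
      F w = (∏ ρ ∈ S, (w - ρ) ^ analyticOrderNatAt F ρ) * G w) {z : ℂ}
    (hz : z ∈ Rc s1 s2 A B) (hzS : ∀ ρ ∈ S, z - ρ ≠ 0) :
    Real.log ‖F z‖ = ∑ ρ ∈ S, (analyticOrderNatAt F ρ : ℝ) * Real.log ‖z - ρ‖ +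
        Real.log ‖G z‖ ∧
    (logDeriv F z).re = ∑ ρ ∈ S, (analyticOrderNatAt F ρ : ℝ) *
      (logDeriv (fun s => s - ρ) z).re + (logDeriv G z).re := by
  have hGz := hG0 z hz
  have hev : ∀ᶠ w in 𝓝 z, F w = (∏ ρ ∈ S, (w - ρ) ^ analyticOrderNatAt F ρ) * G w := hFG z hz
  have hprod : (∏ ρ ∈ S, (z - ρ) ^ analyticOrderNatAt F ρ) ≠ 0 :=
    Finset.prod_ne_zero_iff.mpr fun ρ hρ => pow_ne_zero _ (hzS ρ hρ)
  constructor
  · rw [hev.self_of_nhds, norm_mul, Real.log_mul (norm_ne_zero_iff.mpr hprod)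
      (norm_ne_zero_iff.mpr hGz), norm_prod, Real.log_prod]
    · congr 1
      refine Finset.sum_congr rfl fun ρ hρ => ?_
      rw [norm_pow, Real.log_pow]
    · intro ρ hρ
      exact norm_ne_zero_iff.mpr (pow_ne_zero _ (hzS ρ hρ))
  · have h1 : logDeriv F z =
        logDeriv (fun w => (∏ ρ ∈ S, (w - ρ) ^ analyticOrderNatAt F ρ) * G w) z := by
      simp only [logDeriv_apply]
      rw [Filter.EventuallyEq.deriv_eq hev, hev.self_of_nhds]
    have hd : ∀ ρ ∈ S, DifferentiableAt ℂ (fun w : ℂ => (w - ρ) ^ analyticOrderNatAt F ρ) z :=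
      fun ρ _ => by fun_prop
    have h2 : logDeriv (fun w => (∏ ρ ∈ S, (w - ρ) ^ analyticOrderNatAt F ρ) * G w) z =
        logDeriv (fun w => ∏ ρ ∈ S, (w - ρ) ^ analyticOrderNatAt F ρ) z + logDeriv G z := by
      refine logDeriv_mul z hprod hGz ?_ (hG z hz).differentiableAt
      exact DifferentiableAt.fun_finsetProd hd
    have h3 : logDeriv (fun w => ∏ ρ ∈ S, (w - ρ) ^ analyticOrderNatAt F ρ) z =
        ∑ ρ ∈ S, logDeriv (fun w => (w - ρ) ^ analyticOrderNatAt F ρ) z :=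
      logDeriv_prod (f := fun ρ w => (w - ρ) ^ analyticOrderNatAt F ρ)
        (fun ρ hρ => pow_ne_zero _ (hzS ρ hρ)) hd
    have h4 : ∀ ρ ∈ S, logDeriv (fun w => (w - ρ) ^ analyticOrderNatAt F ρ) z =
        (analyticOrderNatAt F ρ : ℂ) * logDeriv (fun s => s - ρ) z := by
      intro ρ _
      exact logDeriv_fun_pow (f := fun w : ℂ => w - ρ) (by fun_prop) _
    rw [h1, h2, h3, Finset.sum_congr rfl h4, add_re, re_sum]
    congr 1
    refine Finset.sum_congr rfl fun ρ _ => ?_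
    rw [← ofReal_natCast, re_ofReal_mul]

/-- the integrals split -/
theorem GRN_split {s1 s2 A B : ℝ} (hs : s1 < s2) (hAB : A < B) {F G : ℂ → ℂ} {S : Finset ℂ}
    (hS : IsZ s1 s2 A B F S)
    (hG : AnalyticOnNhd ℂ G (Rc s1 s2 A B)) (hG0 : ∀ z ∈ Rc s1 s2 A B, G z ≠ 0)
    (hFG : ∀ z ∈ Rc s1 s2 A B, ∀ᶠ w in 𝓝 z,
      F w = (∏ ρ ∈ S, (w - ρ) ^ analyticOrderNatAt F ρ) * G w)
    {ψ : ℝ → ℝ} (hψ : Continuous ψ) {σ : ℝ} (hσ : σ ∈ Icc s1 s2) :
    JJ A B ψ F σ = ∑ ρ ∈ S, (analyticOrderNatAt F ρ : ℝ) * JJ A B ψ (fun s => s - ρ) σ +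
      JJ A B ψ G σ ∧
    DD A B ψ F σ = ∑ ρ ∈ S, (analyticOrderNatAt F ρ : ℝ) * DD A B ψ (fun s => s - ρ) σ +
      DD A B ψ G σ := by
  have hfin : (S.image Complex.im : Set ℝ).Finite := Finset.finite_toSet _
  have hae : ∀ᵐ t : ℝ, t ∉ (S.image Complex.im : Set ℝ) :=
    hfin.countable.ae_notMem volume
  have hkey : ∀ t ∈ Icc A B, t ∉ (S.image Complex.im : Set ℝ) → ∀ ρ ∈ S, pt σ t - ρ ≠ 0 := by
    intro t _ ht ρ hρ h
    apply ht
    simp only [Finset.coe_image, mem_image, Finset.mem_coe]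
    refine ⟨ρ, hρ, ?_⟩
    rw [← sub_eq_zero.mp h, GRN_pt_im]
  have hmem : ∀ ρ ∈ S, ρ ∈ Rc s1 s2 A B := fun ρ hρ => ((hS ρ).mp hρ).1
  constructor
  · have h1 : ∀ ρ ∈ S, IntervalIntegrable (fun t => (analyticOrderNatAt F ρ : ℝ) *
        (ψ t * Real.log ‖pt σ t - ρ‖)) volume A B := fun ρ hρ =>
      (z_intJ hAB (GRN_an_lin s1 s2 A B ρ) hψ hσ).const_mul _
    have h2 : IntervalIntegrable (fun t => ψ t * Real.log ‖G (pt σ t)‖) volume A B :=
      z_intJ hAB hG hψ hσ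
    have h3 : JJ A B ψ F σ = ∫ t in A..B, ((∑ ρ ∈ S, (analyticOrderNatAt F ρ : ℝ) *
        (ψ t * Real.log ‖pt σ t - ρ‖)) + ψ t * Real.log ‖G (pt σ t)‖) := by
      unfold JJ
      refine intervalIntegral.integral_congr_ae ?_
      filter_upwards [hae] with t ht htm
      rw [uIoc_of_le hAB.le] at htm
      have htI : t ∈ Icc A B := Ioc_subset_Icc_self htm
      rw [(GRN_point hG hG0 hFG (GRN_pt_mem hσ htI) (hkey t htI ht)).1, mul_add,
        Finset.mul_sum]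
      congr 1
      refine Finset.sum_congr rfl fun ρ _ => ?_
      ring
    have h4 := IntervalIntegrable.sum S h1
    rw [Finset.sum_fn] at h4
    rw [h3, intervalIntegral.integral_add h4 h2,
      intervalIntegral.integral_finsetSum h1]
    congr 1
    refine Finset.sum_congr rfl fun ρ _ => ?_
    rw [intervalIntegral.integral_const_mul]
    rfl
  · have h1 : ∀ ρ ∈ S, IntervalIntegrable (fun t => (analyticOrderNatAt F ρ : ℝ) *
        (ψ t * (logDeriv (fun s => s - ρ) (pt σ t)).re)) volume A B := fun ρ hρ =>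
      (z_intD hs hAB (GRN_an_lin s1 s2 A B ρ) (GRN_isZ_lin (hmem ρ hρ)) hψ hσ).const_mul _
    have h2 : IntervalIntegrable (fun t => ψ t * (logDeriv G (pt σ t)).re) volume A B :=
      z_intD hs hAB hG (GRN_isZ_emp hG0) hψ hσ
    have h3 : DD A B ψ F σ = ∫ t in A..B, ((∑ ρ ∈ S, (analyticOrderNatAt F ρ : ℝ) *
        (ψ t * (logDeriv (fun s => s - ρ) (pt σ t)).re)) + ψ t * (logDeriv G (pt σ t)).re) := by
      unfold DD
      refine intervalIntegral.integral_congr_ae ?_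
      filter_upwards [hae] with t ht htm
      rw [uIoc_of_le hAB.le] at htm
      have htI : t ∈ Icc A B := Ioc_subset_Icc_self htm
      rw [(GRN_point hG hG0 hFG (GRN_pt_mem hσ htI) (hkey t htI ht)).2, mul_add,
        Finset.mul_sum]
      congr 1
      refine Finset.sum_congr rfl fun ρ _ => ?_
      ring
    have h4 := IntervalIntegrable.sum S h1
    rw [Finset.sum_fn] at h4
    rw [h3, intervalIntegral.integral_add h4 h2,
      intervalIntegral.integral_finsetSum h1]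
    congr 1
    refine Finset.sum_congr rfl fun ρ _ => ?_
    rw [intervalIntegral.integral_const_mul]
    rfl

theorem z_green_pr {s1 s2 A B : ℝ} (hs : s1 < s2) (hAB : A < B) {φ φ1 φ2 : ℝ → ℝ}
    (h : Tst A B φ φ1 φ2) {F : ℂ → ℂ} (hF : AnalyticOnNhd ℂ F (Rc s1 s2 A B))
    {S : Finset ℂ} (hS : IsZ s1 s2 A B F S) :
    DD A B φ F s2 - DD A B φ F s1 =
      Real.pi * ∑ ρ ∈ S, (analyticOrderNatAt F ρ : ℝ) *
        ((Real.sign (s2 - ρ.re) - Real.sign (s1 - ρ.re)) * φ ρ.im) -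
        ∫ σ in s1..s2, JJ A B φ2 F σ := by
  obtain ⟨G, hG, hG0, hFG⟩ := z_fac hs hAB hF hS
  have hφ : Continuous φ := continuous_iff_continuousAt.mpr fun t => (h.d1 t).continuousAt
  have e2 := (GRN_split hs hAB hS hG hG0 hFG hφ (right_mem_Icc.mpr hs.le)).2
  have e1 := (GRN_split hs hAB hS hG hG0 hFG hφ (left_mem_Icc.mpr hs.le)).2
  obtain ⟨hc, hg, -⟩ := z_free hs hAB h hG hG0
  have hI1 : ∀ ρ ∈ S, IntervalIntegrable (fun σ => (analyticOrderNatAt F ρ : ℝ) *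
      JJ A B φ2 (fun s => s - ρ) σ) volume s1 s2 := fun ρ _ =>
    ((z_one_cont hAB h.c2 ρ).intervalIntegrable _ _).const_mul _
  have hI2 : IntervalIntegrable (JJ A B φ2 G) volume s1 s2 := by
    apply ContinuousOn.intervalIntegrable
    rw [uIcc_of_le hs.le]
    exact hc
  have e3 : ∫ σ in s1..s2, JJ A B φ2 F σ =
      ∑ ρ ∈ S, (analyticOrderNatAt F ρ : ℝ) * (∫ σ in s1..s2, JJ A B φ2 (fun s => s - ρ) σ) +
        ∫ σ in s1..s2, JJ A B φ2 G σ := by
    have : ∫ σ in s1..s2, JJ A B φ2 F σ = ∫ σ in s1..s2,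
        ((∑ ρ ∈ S, (analyticOrderNatAt F ρ : ℝ) * JJ A B φ2 (fun s => s - ρ) σ) +
          JJ A B φ2 G σ) := by
      refine intervalIntegral.integral_congr fun σ hσ => ?_
      rw [uIcc_of_le hs.le] at hσ
      exact (GRN_split hs hAB hS hG hG0 hFG h.c2 hσ).1
    have h4 := IntervalIntegrable.sum S hI1
    rw [Finset.sum_fn] at h4
    rw [this, intervalIntegral.integral_add h4 hI2,
      intervalIntegral.integral_finsetSum hI1]
    congr 1
    refine Finset.sum_congr rfl fun ρ _ => ?_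
    rw [intervalIntegral.integral_const_mul]
  have e4 : ∑ ρ ∈ S, (analyticOrderNatAt F ρ : ℝ) * DD A B φ (fun s => s - ρ) s2 -
      ∑ ρ ∈ S, (analyticOrderNatAt F ρ : ℝ) * DD A B φ (fun s => s - ρ) s1 =
      Real.pi * ∑ ρ ∈ S, (analyticOrderNatAt F ρ : ℝ) *
        ((Real.sign (s2 - ρ.re) - Real.sign (s1 - ρ.re)) * φ ρ.im) -
      ∑ ρ ∈ S, (analyticOrderNatAt F ρ : ℝ) *
        (∫ σ in s1..s2, JJ A B φ2 (fun s => s - ρ) σ) := by
    rw [← Finset.sum_sub_distrib, Finset.mul_sum, ← Finset.sum_sub_distrib]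
    refine Finset.sum_congr rfl fun ρ _ => ?_
    have := z_one hAB h ρ hs
    linear_combination (analyticOrderNatAt F ρ : ℝ) * this
  rw [e1, e2, e3]
  linear_combination e4 + hg


end Pool.Agent.LVK

namespace Pool.Agent.LVK

theorem z_green : type_of% @z_green_pr := @z_green_pr

end Pool.Agent.LVK
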