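import Pool.Agent.Lib_helper39.LVK.DefsZ
import Pool.Agent.Lib_helper39.LVZ.GRI
import Pool.Agent.Lib_helper39.LVZ.GRN

/-!
# LVK part Z, block ALL: all zeros
-/

namespace Pool.Agent.LVK

open Complex MeasureTheory Set Filter Topology
open scoped ENNReal

theorem ALL_pt (σ t : ℝ) : 1 - starRingEnd ℂ (pt σ t) = pt (1 - σ) t := by
  simp only [pt, map_add, map_mul, conj_ofReal, conj_I]
  push_cast
  ring

theorem ALL_deriv {ξ : ℂ → ℂ} (hξ : Differentiable ℂ ξ)
    (sym : ∀ s, ξ (1 - starRingEnd ℂ s) = starRingEnd ℂ (ξ s)) (s : ℂ) :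
    deriv ξ (1 - starRingEnd ℂ s) = -starRingEnd ℂ (deriv ξ s) := by
  have h1 : HasDerivAt (fun w => ξ (1 - w)) (-deriv ξ (1 - starRingEnd ℂ s)) (starRingEnd ℂ s) := by
    have h := (hξ (1 - starRingEnd ℂ s)).hasDerivAt
    have h' := h.comp_const_sub 1 (starRingEnd ℂ s)
    exact h'
  have h2 : (fun w => ξ (1 - w)) = fun w => starRingEnd ℂ (ξ (starRingEnd ℂ w)) := by
    funext w
    have := sym (starRingEnd ℂ w)
    rw [conj_conj] at this
    exact this
  have h3 : HasDerivAt (fun w => starRingEnd ℂ (ξ (starRingEnd ℂ w))) (starRingEnd ℂ (deriv ξ s))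
      (starRingEnd ℂ s) := by
    have h := (hξ s).hasDerivAt
    have := h.conj_conj
    exact this
  rw [h2] at h1
  have := h1.unique h3
  rw [← this, neg_neg]

theorem z_all_pr {A B : ℝ} (hAB : A < B) {φ φ1 φ2 : ℝ → ℝ} (h : Tst A B φ φ1 φ2) {ξ : ℂ → ℂ}
    (hξ : Differentiable ℂ ξ) (sym : ∀ s, ξ (1 - starRingEnd ℂ s) = starRingEnd ℂ (ξ s))
    {s2 : ℝ} (hs2 : 1 / 2 < s2) (h2 : ∀ t ∈ Icc A B, ξ (pt s2 t) ≠ 0) {S : Finset ℂ}
    (hS : IsZ (1 - s2) s2 A B ξ S) :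
    Real.pi * ∑ ρ ∈ S, (analyticOrderNatAt ξ ρ : ℝ) * φ ρ.im =
      DD A B φ ξ s2 + ∫ σ in (1 / 2)..s2, JJ A B φ2 ξ σ := by
  have hs : 1 - s2 < s2 := by linarith
  have hF : AnalyticOnNhd ℂ ξ (Rc (1 - s2) s2 A B) := fun z _ => hξ.analyticAt z
  have hsymp : ∀ σ t : ℝ, ξ (pt (1 - σ) t) = starRingEnd ℂ (ξ (pt σ t)) := by
    intro σ t
    rw [← ALL_pt, sym]
  have hsymd : ∀ σ t : ℝ, deriv ξ (pt (1 - σ) t) = -starRingEnd ℂ (deriv ξ (pt σ t)) := by
    intro σ t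
    rw [← ALL_pt, ALL_deriv hξ sym]
  have hg := z_green hs hAB h hF hS
  have hD : DD A B φ ξ (1 - s2) = - DD A B φ ξ s2 := by
    unfold DD
    rw [← intervalIntegral.integral_neg]
    refine intervalIntegral.integral_congr fun t _ => ?_
    rw [logDeriv_apply, logDeriv_apply, hsymp, hsymd, neg_div, ← map_div₀, neg_re, conj_re]
    ring
  have hK : ∀ σ, JJ A B φ2 ξ (1 - σ) = JJ A B φ2 ξ σ := by
    intro σ
    unfold JJ
    refine intervalIntegral.integral_congr fun t _ => ?_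
    rw [hsymp, norm_conj]
  have hc := z_contJ hs hAB hF hS h.c2
  have i1 : IntervalIntegrable (JJ A B φ2 ξ) volume (1 - s2) (1 / 2) := by
    apply ContinuousOn.intervalIntegrable
    rw [uIcc_of_le (by linarith)]
    exact hc.mono (Icc_subset_Icc le_rfl hs2.le)
  have i2 : IntervalIntegrable (JJ A B φ2 ξ) volume (1 / 2) s2 := by
    apply ContinuousOn.intervalIntegrable
    rw [uIcc_of_le hs2.le]
    exact hc.mono (Icc_subset_Icc (by linarith) le_rfl)
  have hint : ∫ σ in (1 - s2)..s2, JJ A B φ2 ξ σ = 2 * ∫ σ in (1 / 2)..s2, JJ A B φ2 ξ σ := by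
    rw [← intervalIntegral.integral_add_adjacent_intervals i1 i2]
    have : ∫ σ in (1 - s2)..(1 / 2), JJ A B φ2 ξ σ = ∫ σ in (1 / 2)..s2, JJ A B φ2 ξ σ := by
      have h1 := intervalIntegral.integral_comp_sub_left (a := 1 / 2) (b := s2)
        (JJ A B φ2 ξ) 1
      rw [show (1 : ℝ) - 1 / 2 = 1 / 2 by norm_num] at h1
      rw [← h1]
      exact intervalIntegral.integral_congr fun σ _ => hK σ
    rw [this]
    ring
  have hsum : ∑ ρ ∈ S, (analyticOrderNatAt ξ ρ : ℝ) *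
        ((Real.sign (s2 - ρ.re) - Real.sign (1 - s2 - ρ.re)) * φ ρ.im) =
      2 * ∑ ρ ∈ S, (analyticOrderNatAt ξ ρ : ℝ) * φ ρ.im := by
    rw [Finset.mul_sum]
    refine Finset.sum_congr rfl fun ρ hρ => ?_
    obtain ⟨⟨r1, r2, r3, r4⟩, r0⟩ := (hS ρ).mp hρ
    have e1 : ρ.re < s2 := by
      refine lt_of_le_of_ne r2 fun hne => ?_
      apply h2 ρ.im ⟨r3, r4⟩
      have : pt s2 ρ.im = ρ := by
        apply Complex.ext <;> simp [pt, hne]
      rw [this, r0]
    have e2 : 1 - s2 < ρ.re := by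
      refine lt_of_le_of_ne r1 fun hne => ?_
      apply h2 ρ.im ⟨r3, r4⟩
      have : pt (1 - s2) ρ.im = ρ := by
        apply Complex.ext <;> simp [pt, hne]
      have h3 := hsymp s2 ρ.im
      rw [this, r0] at h3
      exact (map_eq_zero _).mp h3.symm
    rw [Real.sign_of_pos (by linarith), Real.sign_of_neg (by linarith)]
    ring
  rw [hD, hsum, hint] at hg
  linarith


end Pool.Agent.LVK

namespace Pool.Agent.LVK

theorem z_all : type_of% @z_all_pr := @z_all_pr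

end Pool.Agent.LVK
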