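import Pool.Agent.Lib_helper39.LVK.DefsZ

/-!
# LVK part Z, block FIN: the zeros in a rectangle are finite in number
-/

namespace Pool.Agent.LVK

open Complex MeasureTheory Set Filter Topology
open scoped ENNReal

theorem FIN_eq (s1 s2 A B : ℝ) : Rc s1 s2 A B = Icc s1 s2 ×ℂ Icc A B := by
  ext z
  simp only [Rc, mem_ofPred_eq, mem_reProdIm, mem_Icc]
  tauto

theorem FIN_compact (s1 s2 A B : ℝ) : IsCompact (Rc s1 s2 A B) := by
  rw [FIN_eq]
  exact isCompact_Icc.reProdIm isCompact_Icc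

theorem FIN_convex (s1 s2 A B : ℝ) : Convex ℝ (Rc s1 s2 A B) := by
  rw [FIN_eq]
  exact ((convex_Icc s1 s2).linear_preimage Complex.reCLM.toLinearMap).inter
    ((convex_Icc A B).linear_preimage Complex.imCLM.toLinearMap)

theorem z_fin_pr {s1 s2 A B : ℝ} {F : ℂ → ℂ} (hF : AnalyticOnNhd ℂ F (Rc s1 s2 A B))
    {z : ℂ} (hz : z ∈ Rc s1 s2 A B) (h0 : F z ≠ 0) : ∃ S : Finset ℂ, IsZ s1 s2 A B F S := by
  have hfin : ({ρ : ℂ | ρ ∈ Rc s1 s2 A B ∧ F ρ = 0}).Finite := by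
    by_contra hinf
    obtain ⟨w, hw, hacc⟩ := Set.Infinite.exists_accPt_of_subset_isCompact
      (s := {ρ : ℂ | ρ ∈ Rc s1 s2 A B ∧ F ρ = 0}) hinf (FIN_compact s1 s2 A B)
      (fun ρ h => h.1)
    have hfreq : ∃ᶠ y in 𝓝[≠] w, F y = 0 :=
      (accPt_iff_frequently_nhdsNE.mp hacc).mono fun y h => h.2
    exact h0 (hF.eqOn_zero_of_preconnected_of_frequently_eq_zero
      (FIN_convex s1 s2 A B).isPreconnected hw hfreq hz)
  refine ⟨hfin.toFinset, fun ρ => ?_⟩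
  rw [Set.Finite.mem_toFinset]
  exact Iff.rfl

end Pool.Agent.LVK

namespace Pool.Agent.LVK

theorem z_fin : type_of% @z_fin_pr := @z_fin_pr

end Pool.Agent.LVK
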