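import Pool.Agent.Lib_helper39.LVK.DefsZ

/-!
# LVK part Z, block CA1: mean values of the derivative (helper89)
-/

namespace Pool.Agent.LVK

open Complex MeasureTheory Set Filter Topology
open scoped ENNReal

/-- points of circles -/
theorem CA1_circle (σ t r θ : ℝ) :
    circleMap (pt σ t) r θ = pt (σ + r * Real.cos θ) (t + r * Real.sin θ) := by
  simp only [circleMap, pt]
  rw [Complex.exp_mul_I]
  push_cast
  ring

theorem CA1_mem {σ t r A B θ : ℝ} (hr : 0 < r) (ht : t ∈ Icc A B) :
    pt (σ + r * Real.cos θ) (t + r * Real.sin θ) ∈ Rc (σ - r) (σ + r) (A - r) (B + r) := by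
  have h1 := Real.cos_le_one θ
  have h2 := Real.neg_one_le_cos θ
  have h3 := Real.sin_le_one θ
  have h4 := Real.neg_one_le_sin θ
  simp only [Rc, pt, mem_ofPred_eq, Complex.add_re, Complex.add_im, Complex.mul_re, Complex.mul_im,
    Complex.ofReal_re, Complex.ofReal_im, Complex.I_re, Complex.I_im, mul_zero, mul_one, sub_zero,
    zero_add, add_zero]
  refine ⟨?_, ?_, ?_, ?_⟩ <;> nlinarith [ht.1, ht.2]

theorem CA1_ball {σ t r A B : ℝ} (ht : t ∈ Icc A B) :
    Metric.closedBall (pt σ t) r ⊆ Rc (σ - r) (σ + r) (A - r) (B + r) := by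
  intro z hz
  rw [Metric.mem_closedBall, dist_eq_norm] at hz
  have h1 := (Complex.abs_re_le_norm (z - pt σ t)).trans hz
  have h2 := (Complex.abs_im_le_norm (z - pt σ t)).trans hz
  simp only [pt, Complex.sub_re, Complex.sub_im, Complex.add_re, Complex.add_im, Complex.mul_re,
    Complex.mul_im, Complex.ofReal_re, Complex.ofReal_im, Complex.I_re, Complex.I_im, mul_zero,
    mul_one, sub_zero, zero_add, add_zero] at h1 h2
  rw [abs_le] at h1 h2
  refine ⟨?_, ?_, ?_, ?_⟩ <;> linarith [h1.1, h1.2, h2.1, h2.2, ht.1, ht.2]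

/-- the Cauchy estimate for the derivative in the mean over a circle -/
theorem CA1_cauchy {f : ℂ → ℂ} {c : ℂ} {r : ℝ} (hr : 0 < r)
    (hf : AnalyticOnNhd ℂ f (Metric.closedBall c r)) :
    ‖deriv f c‖ ≤ (2 * Real.pi * r)⁻¹ * ∫ θ in (0 : ℝ)..(2 * Real.pi), ‖f (circleMap c r θ)‖ := by
  have hU : IsOpen {z : ℂ | AnalyticAt ℂ f z} := isOpen_analyticAt ℂ f
  have hsub : Metric.closedBall c r ⊆ {z : ℂ | AnalyticAt ℂ f z} := fun z hz => hf z hz
  have hd : DifferentiableOn ℂ f {z : ℂ | AnalyticAt ℂ f z} :=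
    fun z hz => (AnalyticAt.differentiableAt hz).differentiableWithinAt
  have hc : c ∈ Metric.ball c r := Metric.mem_ball_self hr
  have h1 := Complex.two_pi_I_inv_smul_circleIntegral_sub_sq_inv_smul_of_differentiable hU hsub hd
    hc
  rw [← h1, norm_smul]
  have h2 : ‖(2 * (Real.pi : ℂ) * I)⁻¹‖ = (2 * Real.pi)⁻¹ := by
    rw [norm_inv, norm_mul, norm_mul, Complex.norm_I, mul_one, Complex.norm_real,
      Real.norm_of_nonneg Real.pi_pos.le]
    simp
  rw [h2]
  have h3 : ‖∮ z in C(c, r), ((z - c) ^ 2)⁻¹ • f z‖ ≤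
      r⁻¹ * ∫ θ in (0 : ℝ)..(2 * Real.pi), ‖f (circleMap c r θ)‖ := by
    rw [circleIntegral]
    refine (intervalIntegral.norm_integral_le_integral_norm (by positivity)).trans ?_
    rw [← intervalIntegral.integral_const_mul]
    apply le_of_eq
    apply intervalIntegral.integral_congr
    intro θ _
    simp only [smul_eq_mul, norm_mul, deriv_circleMap, norm_inv, norm_pow, circleMap_sub_center]
    rw [norm_circleMap_zero, abs_of_pos hr, Complex.norm_I]
    field_simp
  calc (2 * Real.pi)⁻¹ * ‖∮ z in C(c, r), ((z - c) ^ 2)⁻¹ • f z‖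
      ≤ (2 * Real.pi)⁻¹ * (r⁻¹ * ∫ θ in (0 : ℝ)..(2 * Real.pi), ‖f (circleMap c r θ)‖) := by
        gcongr
    _ = (2 * Real.pi * r)⁻¹ * ∫ θ in (0 : ℝ)..(2 * Real.pi), ‖f (circleMap c r θ)‖ := by
        rw [mul_inv, mul_inv]; ring

/-- averages over circles with centres on a vertical segment -/
theorem CA1_avg {ι : Type} [Fintype ι] {G : ι → ℂ → ℝ} {σ A B r K : ℝ} (hr : 0 < r)
    (hAB : A < B) (hG : ∀ i, ContinuousOn (G i) (Rc (σ - r) (σ + r) (A - r) (B + r)))
    (hG0 : ∀ i z, 0 ≤ G i z)
    (h1 : ∀ σ' ∈ Icc (σ - r) (σ + r), ∑ i, ∫ t in (A - r)..(B + r), G i (pt σ' t) ≤ K) :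
    (∀ i, IntervalIntegrable (fun t => ∫ θ in (0 : ℝ)..(2 * Real.pi),
      G i (circleMap (pt σ t) r θ)) volume A B) ∧
    ∑ i, ∫ t in A..B, ∫ θ in (0 : ℝ)..(2 * Real.pi), G i (circleMap (pt σ t) r θ) ≤
      2 * Real.pi * K := by
  have hpi : (0 : ℝ) ≤ 2 * Real.pi := by positivity
  have hcont : ∀ i, ContinuousOn (Function.uncurry fun t θ => G i (circleMap (pt σ t) r θ))
      (Icc A B ×ˢ Icc 0 (2 * Real.pi)) := by
    intro i
    refine (hG i).comp ?_ ?_
    · apply Continuous.continuousOn
      have : (fun p : ℝ × ℝ => circleMap (pt σ p.1) r p.2) = fun p : ℝ × ℝ =>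
          pt (σ + r * Real.cos p.2) (p.1 + r * Real.sin p.2) := by
        funext p
        exact CA1_circle σ p.1 r p.2
      rw [this]
      unfold pt
      fun_prop
    · rintro ⟨t, θ⟩ ⟨ht, _⟩
      simp only
      rw [CA1_circle]
      exact CA1_mem hr ht
  have hint : ∀ i, Integrable (Function.uncurry fun t θ => G i (circleMap (pt σ t) r θ))
      ((volume.restrict (uIoc A B)).prod (volume.restrict (uIoc 0 (2 * Real.pi)))) := by
    intro i
    rw [Measure.prod_restrict]
    have h2 : IntegrableOn (Function.uncurry fun t θ => G i (circleMap (pt σ t) r θ))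
        (Icc A B ×ˢ Icc 0 (2 * Real.pi)) (volume.prod volume) :=
      (hcont i).integrableOn_compact (isCompact_Icc.prod isCompact_Icc)
    refine h2.mono_set ?_
    rw [uIoc_of_le hAB.le, uIoc_of_le hpi]
    exact prod_mono Ioc_subset_Icc_self Ioc_subset_Icc_self
  constructor
  · intro i
    rw [intervalIntegrable_iff]
    have h3 := (hint i).integral_prod_left
    refine h3.congr ?_
    filter_upwards with t
    rw [intervalIntegral.integral_of_le hpi, uIoc_of_le hpi]
    rfl
  · have hsw : ∀ i, ∫ t in A..B, ∫ θ in (0 : ℝ)..(2 * Real.pi), G i (circleMap (pt σ t) r θ) =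
        ∫ θ in (0 : ℝ)..(2 * Real.pi), ∫ t in A..B, G i (circleMap (pt σ t) r θ) := by
      intro i
      apply MeasureTheory.intervalIntegral_intervalIntegral_swap
      have h4 := hint i
      rw [Measure.prod_restrict, ← Measure.volume_eq_prod] at h4
      exact h4
    have hint2 : ∀ i, IntervalIntegrable (fun θ => ∫ t in A..B, G i (circleMap (pt σ t) r θ))
        volume 0 (2 * Real.pi) := by
      intro i
      rw [intervalIntegrable_iff]
      have h3 := (hint i).integral_prod_right
      refine h3.congr ?_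
      filter_upwards with t
      rw [intervalIntegral.integral_of_le hAB.le, uIoc_of_le hAB.le]
      rfl
    rw [Finset.sum_congr rfl (fun i _ => hsw i), ← intervalIntegral.integral_finsetSum
      (fun i _ => hint2 i)]
    have hpt : ∀ θ ∈ Icc 0 (2 * Real.pi), ∑ i, ∫ t in A..B, G i (circleMap (pt σ t) r θ) ≤ K := by
      intro θ _
      have hθ : σ + r * Real.cos θ ∈ Icc (σ - r) (σ + r) := by
        constructor <;> nlinarith [Real.cos_le_one θ, Real.neg_one_le_cos θ]
      refine le_trans ?_ (h1 _ hθ)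
      apply Finset.sum_le_sum
      intro i _
      have e1 : ∫ t in A..B, G i (circleMap (pt σ t) r θ) =
          ∫ t in (A + r * Real.sin θ)..(B + r * Real.sin θ), G i (pt (σ + r * Real.cos θ) t) := by
        rw [← intervalIntegral.integral_comp_add_right
          (fun t => G i (pt (σ + r * Real.cos θ) t)) (r * Real.sin θ)]
        apply intervalIntegral.integral_congr
        intro t _
        simp only
        rw [CA1_circle]
      rw [e1]
      have hs1 := Real.sin_le_one θ
      have hs2 := Real.neg_one_le_sin θ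
      have hci : IntervalIntegrable (fun t => G i (pt (σ + r * Real.cos θ) t)) volume
          (A - r) (B + r) := by
        apply ContinuousOn.intervalIntegrable
        refine (hG i).comp ?_ ?_
        · apply Continuous.continuousOn
          unfold pt
          fun_prop
        · intro t ht
          rw [uIcc_of_le (by linarith)] at ht
          simp only [Rc, pt, mem_ofPred_eq, Complex.add_re, Complex.add_im, Complex.mul_re,
            Complex.mul_im, Complex.ofReal_re, Complex.ofReal_im, Complex.I_re, Complex.I_im,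
            mul_zero, mul_one, sub_zero, zero_add, add_zero]
          exact ⟨hθ.1, hθ.2, ht.1, ht.2⟩
      apply intervalIntegral.integral_mono_interval (by nlinarith) (by linarith) (by nlinarith)
      · filter_upwards with t
        exact hG0 i _
      · exact hci
    calc ∫ θ in (0 : ℝ)..(2 * Real.pi), ∑ i, ∫ t in A..B, G i (circleMap (pt σ t) r θ)
        ≤ ∫ θ in (0 : ℝ)..(2 * Real.pi), K := by
          apply intervalIntegral.integral_mono_on hpi
          · have h9 := IntervalIntegrable.sum Finset.univ (fun i _ => hint2 i)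
            refine h9.congr ?_
            intro θ _
            simp [Finset.sum_apply]
          · exact intervalIntegrable_const
          · exact hpt
      _ = 2 * Real.pi * K := by
          rw [intervalIntegral.integral_const]
          simp

theorem CA1_deriv_cont {f : ℂ → ℂ} {σ A B r : ℝ} (hr : 0 < r)
    (hf : AnalyticOnNhd ℂ f (Rc (σ - r) (σ + r) (A - r) (B + r))) (hAB : A < B) :
    ContinuousOn (fun t => deriv f (pt σ t)) (Icc A B) := by
  intro t ht
  have hz : pt σ t ∈ Rc (σ - r) (σ + r) (A - r) (B + r) :=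
    CA1_ball ht (Metric.mem_closedBall_self hr.le)
  have h1 : ContinuousAt (deriv f) (pt σ t) := (hf _ hz).deriv.continuousAt
  have h2 : ContinuousAt (fun t : ℝ => pt σ t) t := by
    unfold pt
    fun_prop
  exact (ContinuousAt.comp (g := deriv f) (f := fun t : ℝ => pt σ t) h1 h2).continuousWithinAt

theorem z_cau1_pr {ι : Type} [Fintype ι] {f : ι → ℂ → ℂ} {σ A B r K : ℝ} (hr : 0 < r)
    (hAB : A < B) (hf : ∀ i, AnalyticOnNhd ℂ (f i) (Rc (σ - r) (σ + r) (A - r) (B + r)))
    (h1 : ∀ σ' ∈ Icc (σ - r) (σ + r),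
      ∑ i, ∫ t in (A - r)..(B + r), ‖f i (pt σ' t)‖ ≤ K) :
    ∑ i, ∫ t in A..B, ‖deriv (f i) (pt σ t)‖ ≤ K / r := by
  obtain ⟨hi, hle⟩ := CA1_avg (G := fun i z => ‖f i z‖) hr hAB
    (fun i => (hf i).continuousOn.norm) (fun i z => norm_nonneg _) h1
  have hpos : 0 < (2 * Real.pi * r)⁻¹ := by positivity
  calc ∑ i, ∫ t in A..B, ‖deriv (f i) (pt σ t)‖
      ≤ ∑ i, ∫ t in A..B, (2 * Real.pi * r)⁻¹ *
          ∫ θ in (0 : ℝ)..(2 * Real.pi), ‖f i (circleMap (pt σ t) r θ)‖ := by
        apply Finset.sum_le_sum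
        intro i _
        apply intervalIntegral.integral_mono_on hAB.le
        · apply ContinuousOn.intervalIntegrable
          rw [uIcc_of_le hAB.le]
          exact (CA1_deriv_cont hr (hf i) hAB).norm
        · exact (hi i).const_mul _
        · intro t ht
          exact CA1_cauchy hr ((hf i).mono (CA1_ball ht))
    _ = (2 * Real.pi * r)⁻¹ * ∑ i, ∫ t in A..B,
          ∫ θ in (0 : ℝ)..(2 * Real.pi), ‖f i (circleMap (pt σ t) r θ)‖ := by
        rw [Finset.mul_sum]
        apply Finset.sum_congr rfl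
        intro i _
        rw [intervalIntegral.integral_const_mul]
    _ ≤ (2 * Real.pi * r)⁻¹ * (2 * Real.pi * K) := by gcongr
    _ = K / r := by
        have := Real.pi_pos
        field_simp

end Pool.Agent.LVK

namespace Pool.Agent.LVK

theorem z_cau1 : type_of% @z_cau1_pr := @z_cau1_pr

end Pool.Agent.LVK
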