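import Pool.Agent.Lib_helper39.LVK.DefsZ

/-!
# LVK part Z, block CA2: mean squares of the derivative (helper89)
-/

namespace Pool.Agent.LVK

open Complex MeasureTheory Set Filter Topology
open scoped ENNReal

/-- points of circles -/
theorem CA2_circle (σ t r θ : ℝ) :
    circleMap (pt σ t) r θ = pt (σ + r * Real.cos θ) (t + r * Real.sin θ) := by
  simp only [circleMap, pt]
  rw [Complex.exp_mul_I]
  push_cast
  ring

theorem CA2_mem {σ t r A B θ : ℝ} (hr : 0 < r) (ht : t ∈ Icc A B) :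
    pt (σ + r * Real.cos θ) (t + r * Real.sin θ) ∈ Rc (σ - r) (σ + r) (A - r) (B + r) := by
  have h1 := Real.cos_le_one θ
  have h2 := Real.neg_one_le_cos θ
  have h3 := Real.sin_le_one θ
  have h4 := Real.neg_one_le_sin θ
  simp only [Rc, pt, mem_ofPred_eq, Complex.add_re, Complex.add_im, Complex.mul_re, Complex.mul_im,
    Complex.ofReal_re, Complex.ofReal_im, Complex.I_re, Complex.I_im, mul_zero, mul_one, sub_zero,
    zero_add, add_zero]
  refine ⟨?_, ?_, ?_, ?_⟩ <;> nlinarith [ht.1, ht.2]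

theorem CA2_ball {σ t r A B : ℝ} (ht : t ∈ Icc A B) :
    Metric.closedBall (pt σ t) r ⊆ Rc (σ - r) (σ + r) (A - r) (B + r) := by
  intro z hz
  rw [Metric.mem_closedBall, dist_eq_norm] at hz
  have h1 := (Complex.abs_re_le_norm (z - pt σ t)).trans hz
  have h2 := (Complex.abs_im_le_norm (z - pt σ t)).trans hz
  simp only [pt, Complex.sub_re, Complex.sub_im, Complex.add_re, Complex.add_im, Complex.mul_re,
    Complex.mul_im, Complex.ofReal_re, Complex.ofReal_im, Complex.I_re, Complex.I_im, mul_zero,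
    mul_one, sub_zero, zero_add, add_zero] at h1 h2
  rw [abs_le] at h1 h2
  refine ⟨?_, ?_, ?_, ?_⟩ <;> linarith [h1.1, h1.2, h2.1, h2.2, ht.1, ht.2]

/-- the Cauchy estimate for the derivative in the mean over a circle -/
theorem CA2_cauchy {f : ℂ → ℂ} {c : ℂ} {r : ℝ} (hr : 0 < r)
    (hf : AnalyticOnNhd ℂ f (Metric.closedBall c r)) :
    ‖deriv f c‖ ≤ (2 * Real.pi * r)⁻¹ * ∫ θ in (0 : ℝ)..(2 * Real.pi), ‖f (circleMap c r θ)‖ := by
  have hU : IsOpen {z : ℂ | AnalyticAt ℂ f z} := isOpen_analyticAt ℂ f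
  have hsub : Metric.closedBall c r ⊆ {z : ℂ | AnalyticAt ℂ f z} := fun z hz => hf z hz
  have hd : DifferentiableOn ℂ f {z : ℂ | AnalyticAt ℂ f z} :=
    fun z hz => (AnalyticAt.differentiableAt hz).differentiableWithinAt
  have hc : c ∈ Metric.ball c r := Metric.mem_ball_self hr
  have h1 := Complex.two_pi_I_inv_smul_circleIntegral_sub_sq_inv_smul_of_differentiable hU hsub hd
    hc
  rw [← h1, norm_smul]
  have h2 : ‖(2 * (Real.pi : ℂ) * I)⁻¹‖ = (2 * Real.pi)⁻¹ := by
    rw [norm_inv, norm_mul, norm_mul, Complex.norm_I, mul_one, Complex.norm_real,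
      Real.norm_of_nonneg Real.pi_pos.le]
    simp
  rw [h2]
  have h3 : ‖∮ z in C(c, r), ((z - c) ^ 2)⁻¹ • f z‖ ≤
      r⁻¹ * ∫ θ in (0 : ℝ)..(2 * Real.pi), ‖f (circleMap c r θ)‖ := by
    rw [circleIntegral]
    refine (intervalIntegral.norm_integral_le_integral_norm (by positivity)).trans ?_
    rw [← intervalIntegral.integral_const_mul]
    apply le_of_eq
    apply intervalIntegral.integral_congr
    intro θ _
    simp only [smul_eq_mul, norm_mul, deriv_circleMap, norm_inv, norm_pow, circleMap_sub_center]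
    rw [norm_circleMap_zero, abs_of_pos hr, Complex.norm_I]
    field_simp
  calc (2 * Real.pi)⁻¹ * ‖∮ z in C(c, r), ((z - c) ^ 2)⁻¹ • f z‖
      ≤ (2 * Real.pi)⁻¹ * (r⁻¹ * ∫ θ in (0 : ℝ)..(2 * Real.pi), ‖f (circleMap c r θ)‖) := by
        gcongr
    _ = (2 * Real.pi * r)⁻¹ * ∫ θ in (0 : ℝ)..(2 * Real.pi), ‖f (circleMap c r θ)‖ := by
        rw [mul_inv, mul_inv]; ring

/-- averages over circles with centres on a vertical segment -/
theorem CA2_avg {ι : Type} [Fintype ι] {G : ι → ℂ → ℝ} {σ A B r K : ℝ} (hr : 0 < r)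
    (hAB : A < B) (hG : ∀ i, ContinuousOn (G i) (Rc (σ - r) (σ + r) (A - r) (B + r)))
    (hG0 : ∀ i z, 0 ≤ G i z)
    (h1 : ∀ σ' ∈ Icc (σ - r) (σ + r), ∑ i, ∫ t in (A - r)..(B + r), G i (pt σ' t) ≤ K) :
    (∀ i, IntervalIntegrable (fun t => ∫ θ in (0 : ℝ)..(2 * Real.pi),
      G i (circleMap (pt σ t) r θ)) volume A B) ∧
    ∑ i, ∫ t in A..B, ∫ θ in (0 : ℝ)..(2 * Real.pi), G i (circleMap (pt σ t) r θ) ≤
      2 * Real.pi * K := by
  have hpi : (0 : ℝ) ≤ 2 * Real.pi := by positivity
  have hcont : ∀ i, ContinuousOn (Function.uncurry fun t θ => G i (circleMap (pt σ t) r θ))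
      (Icc A B ×ˢ Icc 0 (2 * Real.pi)) := by
    intro i
    refine (hG i).comp ?_ ?_
    · apply Continuous.continuousOn
      have : (fun p : ℝ × ℝ => circleMap (pt σ p.1) r p.2) = fun p : ℝ × ℝ =>
          pt (σ + r * Real.cos p.2) (p.1 + r * Real.sin p.2) := by
        funext p
        exact CA2_circle σ p.1 r p.2
      rw [this]
      unfold pt
      fun_prop
    · rintro ⟨t, θ⟩ ⟨ht, _⟩
      simp only
      rw [CA2_circle]
      exact CA2_mem hr ht
  have hint : ∀ i, Integrable (Function.uncurry fun t θ => G i (circleMap (pt σ t) r θ))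
      ((volume.restrict (uIoc A B)).prod (volume.restrict (uIoc 0 (2 * Real.pi)))) := by
    intro i
    rw [Measure.prod_restrict]
    have h2 : IntegrableOn (Function.uncurry fun t θ => G i (circleMap (pt σ t) r θ))
        (Icc A B ×ˢ Icc 0 (2 * Real.pi)) (volume.prod volume) :=
      (hcont i).integrableOn_compact (isCompact_Icc.prod isCompact_Icc)
    refine h2.mono_set ?_
    rw [uIoc_of_le hAB.le, uIoc_of_le hpi]
    exact prod_mono Ioc_subset_Icc_self Ioc_subset_Icc_self
  constructor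
  · intro i
    rw [intervalIntegrable_iff]
    have h3 := (hint i).integral_prod_left
    refine h3.congr ?_
    filter_upwards with t
    rw [intervalIntegral.integral_of_le hpi, uIoc_of_le hpi]
    rfl
  · have hsw : ∀ i, ∫ t in A..B, ∫ θ in (0 : ℝ)..(2 * Real.pi), G i (circleMap (pt σ t) r θ) =
        ∫ θ in (0 : ℝ)..(2 * Real.pi), ∫ t in A..B, G i (circleMap (pt σ t) r θ) := by
      intro i
      apply MeasureTheory.intervalIntegral_intervalIntegral_swap
      have h4 := hint i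
      rw [Measure.prod_restrict, ← Measure.volume_eq_prod] at h4
      exact h4
    have hint2 : ∀ i, IntervalIntegrable (fun θ => ∫ t in A..B, G i (circleMap (pt σ t) r θ))
        volume 0 (2 * Real.pi) := by
      intro i
      rw [intervalIntegrable_iff]
      have h3 := (hint i).integral_prod_right
      refine h3.congr ?_
      filter_upwards with t
      rw [intervalIntegral.integral_of_le hAB.le, uIoc_of_le hAB.le]
      rfl
    rw [Finset.sum_congr rfl (fun i _ => hsw i), ← intervalIntegral.integral_finsetSum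
      (fun i _ => hint2 i)]
    have hpt : ∀ θ ∈ Icc 0 (2 * Real.pi), ∑ i, ∫ t in A..B, G i (circleMap (pt σ t) r θ) ≤ K := by
      intro θ _
      have hθ : σ + r * Real.cos θ ∈ Icc (σ - r) (σ + r) := by
        constructor <;> nlinarith [Real.cos_le_one θ, Real.neg_one_le_cos θ]
      refine le_trans ?_ (h1 _ hθ)
      apply Finset.sum_le_sum
      intro i _
      have e1 : ∫ t in A..B, G i (circleMap (pt σ t) r θ) =
          ∫ t in (A + r * Real.sin θ)..(B + r * Real.sin θ), G i (pt (σ + r * Real.cos θ) t) := by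
        rw [← intervalIntegral.integral_comp_add_right
          (fun t => G i (pt (σ + r * Real.cos θ) t)) (r * Real.sin θ)]
        apply intervalIntegral.integral_congr
        intro t _
        simp only
        rw [CA2_circle]
      rw [e1]
      have hs1 := Real.sin_le_one θ
      have hs2 := Real.neg_one_le_sin θ
      have hci : IntervalIntegrable (fun t => G i (pt (σ + r * Real.cos θ) t)) volume
          (A - r) (B + r) := by
        apply ContinuousOn.intervalIntegrable
        refine (hG i).comp ?_ ?_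
        · apply Continuous.continuousOn
          unfold pt
          fun_prop
        · intro t ht
          rw [uIcc_of_le (by linarith)] at ht
          simp only [Rc, pt, mem_ofPred_eq, Complex.add_re, Complex.add_im, Complex.mul_re,
            Complex.mul_im, Complex.ofReal_re, Complex.ofReal_im, Complex.I_re, Complex.I_im,
            mul_zero, mul_one, sub_zero, zero_add, add_zero]
          exact ⟨hθ.1, hθ.2, ht.1, ht.2⟩
      apply intervalIntegral.integral_mono_interval (by nlinarith) (by linarith) (by nlinarith)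
      · filter_upwards with t
        exact hG0 i _
      · exact hci
    calc ∫ θ in (0 : ℝ)..(2 * Real.pi), ∑ i, ∫ t in A..B, G i (circleMap (pt σ t) r θ)
        ≤ ∫ θ in (0 : ℝ)..(2 * Real.pi), K := by
          apply intervalIntegral.integral_mono_on hpi
          · have h9 := IntervalIntegrable.sum Finset.univ (fun i _ => hint2 i)
            refine h9.congr ?_
            intro θ _
            simp [Finset.sum_apply]
          · exact intervalIntegrable_const
          · exact hpt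
      _ = 2 * Real.pi * K := by
          rw [intervalIntegral.integral_const]
          simp

theorem CA2_deriv_cont {f : ℂ → ℂ} {σ A B r : ℝ} (hr : 0 < r)
    (hf : AnalyticOnNhd ℂ f (Rc (σ - r) (σ + r) (A - r) (B + r))) (hAB : A < B) :
    ContinuousOn (fun t => deriv f (pt σ t)) (Icc A B) := by
  intro t ht
  have hz : pt σ t ∈ Rc (σ - r) (σ + r) (A - r) (B + r) :=
    CA2_ball ht (Metric.mem_closedBall_self hr.le)
  have h1 : ContinuousAt (deriv f) (pt σ t) := (hf _ hz).deriv.continuousAt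
  have h2 : ContinuousAt (fun t : ℝ => pt σ t) t := by
    unfold pt
    fun_prop
  exact (ContinuousAt.comp (g := deriv f) (f := fun t : ℝ => pt σ t) h1 h2).continuousWithinAt

/-- Cauchy and Schwarz on the circle -/
theorem CA2_cs {g : ℝ → ℝ} (hg : Continuous g) :
    (∫ θ in (0 : ℝ)..(2 * Real.pi), g θ) ^ 2 ≤
      2 * Real.pi * ∫ θ in (0 : ℝ)..(2 * Real.pi), g θ ^ 2 := by
  have hpi : (0 : ℝ) < 2 * Real.pi := by positivity
  set m : ℝ := (2 * Real.pi)⁻¹ * ∫ θ in (0 : ℝ)..(2 * Real.pi), g θ with hm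
  have h0 : 0 ≤ ∫ θ in (0 : ℝ)..(2 * Real.pi), (g θ - m) ^ 2 :=
    intervalIntegral.integral_nonneg hpi.le (fun θ _ => sq_nonneg _)
  have e1 : ∫ θ in (0 : ℝ)..(2 * Real.pi), (g θ - m) ^ 2 =
      (∫ θ in (0 : ℝ)..(2 * Real.pi), g θ ^ 2) - 2 * m * (∫ θ in (0 : ℝ)..(2 * Real.pi), g θ) +
        2 * Real.pi * m ^ 2 := by
    have e2 : ∀ θ, (g θ - m) ^ 2 = g θ ^ 2 - 2 * m * g θ + m ^ 2 := fun θ => by ring
    simp_rw [e2]
    have i1 : IntervalIntegrable (fun θ => g θ ^ 2) volume 0 (2 * Real.pi) :=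
      (hg.pow 2).intervalIntegrable _ _
    have i2 : IntervalIntegrable (fun θ => 2 * m * g θ) volume 0 (2 * Real.pi) :=
      (hg.const_mul _).intervalIntegrable _ _
    rw [intervalIntegral.integral_add (i1.sub i2) intervalIntegrable_const,
      intervalIntegral.integral_sub i1 i2, intervalIntegral.integral_const_mul,
      intervalIntegral.integral_const]
    simp
  rw [e1] at h0
  have e3 : ∫ θ in (0 : ℝ)..(2 * Real.pi), g θ = 2 * Real.pi * m := by
    rw [hm]; field_simp
  rw [e3] at h0 ⊢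
  nlinarith

theorem z_cau2_pr {ι : Type} [Fintype ι] {f : ι → ℂ → ℂ} {σ A B r K : ℝ} (hr : 0 < r)
    (hAB : A < B) (hf : ∀ i, AnalyticOnNhd ℂ (f i) (Rc (σ - r) (σ + r) (A - r) (B + r)))
    (h1 : ∀ σ' ∈ Icc (σ - r) (σ + r),
      ∑ i, ∫ t in (A - r)..(B + r), ‖f i (pt σ' t)‖ ^ 2 ≤ K) :
    ∑ i, ∫ t in A..B, ‖deriv (f i) (pt σ t)‖ ^ 2 ≤ K / r ^ 2 := by
  obtain ⟨hi, hle⟩ := CA2_avg (G := fun i z => ‖f i z‖ ^ 2) hr hAB
    (fun i => (hf i).continuousOn.norm.pow 2) (fun i z => by positivity) h1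
  have hpt : ∀ i, ∀ t ∈ Icc A B, ‖deriv (f i) (pt σ t)‖ ^ 2 ≤ (2 * Real.pi * r ^ 2)⁻¹ *
      ∫ θ in (0 : ℝ)..(2 * Real.pi), ‖f i (circleMap (pt σ t) r θ)‖ ^ 2 := by
    intro i t ht
    have hfa : AnalyticOnNhd ℂ (f i) (Metric.closedBall (pt σ t) r) := (hf i).mono (CA2_ball ht)
    have h2 := CA2_cauchy hr hfa
    have hg : Continuous fun θ : ℝ => ‖f i (circleMap (pt σ t) r θ)‖ := by
      apply Continuous.norm
      apply hfa.continuousOn.comp_continuous (continuous_circleMap _ _)
      intro θ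
      exact circleMap_mem_closedBall _ hr.le _
    have h3 := CA2_cs hg
    have h4 : 0 ≤ ∫ θ in (0 : ℝ)..(2 * Real.pi), ‖f i (circleMap (pt σ t) r θ)‖ :=
      intervalIntegral.integral_nonneg (by positivity) (fun θ _ => norm_nonneg _)
    calc ‖deriv (f i) (pt σ t)‖ ^ 2 ≤ ((2 * Real.pi * r)⁻¹ *
          ∫ θ in (0 : ℝ)..(2 * Real.pi), ‖f i (circleMap (pt σ t) r θ)‖) ^ 2 := by gcongr
      _ = (2 * Real.pi * r)⁻¹ ^ 2 *
          (∫ θ in (0 : ℝ)..(2 * Real.pi), ‖f i (circleMap (pt σ t) r θ)‖) ^ 2 := by ring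
      _ ≤ (2 * Real.pi * r)⁻¹ ^ 2 * (2 * Real.pi *
          ∫ θ in (0 : ℝ)..(2 * Real.pi), ‖f i (circleMap (pt σ t) r θ)‖ ^ 2) := by gcongr
      _ = (2 * Real.pi * r ^ 2)⁻¹ *
          ∫ θ in (0 : ℝ)..(2 * Real.pi), ‖f i (circleMap (pt σ t) r θ)‖ ^ 2 := by
        have := Real.pi_pos
        field_simp
  calc ∑ i, ∫ t in A..B, ‖deriv (f i) (pt σ t)‖ ^ 2
      ≤ ∑ i, ∫ t in A..B, (2 * Real.pi * r ^ 2)⁻¹ *
          ∫ θ in (0 : ℝ)..(2 * Real.pi), ‖f i (circleMap (pt σ t) r θ)‖ ^ 2 := by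
        apply Finset.sum_le_sum
        intro i _
        apply intervalIntegral.integral_mono_on hAB.le
        · apply ContinuousOn.intervalIntegrable
          rw [uIcc_of_le hAB.le]
          exact (CA2_deriv_cont hr (hf i) hAB).norm.pow 2
        · exact (hi i).const_mul _
        · exact hpt i
    _ = (2 * Real.pi * r ^ 2)⁻¹ * ∑ i, ∫ t in A..B,
          ∫ θ in (0 : ℝ)..(2 * Real.pi), ‖f i (circleMap (pt σ t) r θ)‖ ^ 2 := by
        rw [Finset.mul_sum]
        apply Finset.sum_congr rfl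
        intro i _
        rw [intervalIntegral.integral_const_mul]
    _ ≤ (2 * Real.pi * r ^ 2)⁻¹ * (2 * Real.pi * K) := by gcongr
    _ = K / r ^ 2 := by
        have := Real.pi_pos
        field_simp

end Pool.Agent.LVK

namespace Pool.Agent.LVK

theorem z_cau2 : type_of% @z_cau2_pr := @z_cau2_pr

end Pool.Agent.LVK
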