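import Pool.Agent.Lib_helper39.LVK.DefsZ

/-!
# LVK part Z, block CI1: the logarithm on a circle (helper89)
-/

namespace Pool.Agent.LVK

open Complex MeasureTheory Set Filter Topology
open scoped ENNReal

/-- Jensen: the mean of the logarithm on a circle is at least the value at the centre -/
theorem CI1_jensen {F : ℂ → ℂ} {c : ℂ} {r : ℝ} (hr : 0 < r)
    (hF : AnalyticOnNhd ℂ F (Metric.closedBall c r)) (h0 : F c ≠ 0) :
    2 * Real.pi * Real.log ‖F c‖ ≤
      ∫ θ in (0 : ℝ)..(2 * Real.pi), Real.log ‖F (circleMap c r θ)‖ := by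
  have habs : |r| = r := abs_of_pos hr
  have hF' : AnalyticOnNhd ℂ F (Metric.closedBall c |r|) := by rwa [habs]
  have hJ := AnalyticOnNhd.circleAverage_log_norm hr.ne' hF' h0
  have hnn : 0 ≤ ∑ᶠ u, (MeromorphicOn.divisor F (Metric.closedBall c |r|) u : ℝ) *
      Real.log (r * ‖c - u‖⁻¹) := by
    apply finsum_nonneg
    intro u
    by_cases hu : u ∈ Metric.closedBall c |r|
    · have h1 : (0 : ℝ) ≤ (MeromorphicOn.divisor F (Metric.closedBall c |r|) u : ℝ) := by
        have := MeromorphicOn.AnalyticOnNhd.divisor_nonneg hF' u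
        exact_mod_cast this
      by_cases huc : u = c
      · subst huc
        simp
      · have h2 : 0 < ‖c - u‖ := norm_pos_iff.2 (sub_ne_zero.2 (Ne.symm huc))
        have h3 : 1 ≤ r * ‖c - u‖⁻¹ := by
          rw [← div_eq_mul_inv, one_le_div h2]
          rw [habs, Metric.mem_closedBall, dist_comm, dist_eq_norm] at hu
          exact hu
        exact mul_nonneg h1 (Real.log_nonneg h3)
    · have : MeromorphicOn.divisor F (Metric.closedBall c |r|) u = 0 := by
        apply Function.locallyFinsuppWithin.apply_eq_zero_of_notMem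
        exact hu
      rw [this]
      simp
  have h1 : Real.log ‖F c‖ ≤ Real.circleAverage (fun z => Real.log ‖F z‖) c r := by
    rw [hJ]
    linarith
  rw [Real.circleAverage_def, smul_eq_mul] at h1
  have hpi : (0 : ℝ) < 2 * Real.pi := by positivity
  rw [inv_mul_eq_div, le_div_iff₀ hpi] at h1
  linarith

theorem z_circ1_pr {F : ℂ → ℂ} {c : ℂ} {r : ℝ} (hr : 0 < r)
    (hF : AnalyticOnNhd ℂ F (Metric.closedBall c r)) (h0 : F c ≠ 0) :
    ∫⁻ θ in Icc 0 (2 * Real.pi), ‖Real.log ‖F (circleMap c r θ)‖‖ₑ ≤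
      2 * (∫⁻ θ in Icc 0 (2 * Real.pi), ENNReal.ofReal (Real.log ‖F (circleMap c r θ)‖)) +
        ENNReal.ofReal (2 * Real.pi) * ENNReal.ofReal (-Real.log ‖F c‖) := by
  have hpi : (0 : ℝ) ≤ 2 * Real.pi := by positivity
  have habs : |r| = r := abs_of_pos hr
  set u : ℝ → ℝ := fun θ => Real.log ‖F (circleMap c r θ)‖ with hu
  have hint : IntervalIntegrable u volume 0 (2 * Real.pi) := by
    have h1 : CircleIntegrable (fun z => Real.log ‖F z‖) c r := by
      apply MeromorphicOn.circleIntegrable_log_norm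
      intro z hz
      exact (hF z (Metric.sphere_subset_closedBall (by rwa [habs] at hz))).meromorphicAt
    exact h1
  have hintI : IntegrableOn u (Icc 0 (2 * Real.pi)) := by
    rw [integrableOn_Icc_iff_integrableOn_Ioc]
    exact (intervalIntegrable_iff_integrableOn_Ioc_of_le hpi).1 hint
  have hJ := CI1_jensen hr hF h0
  rw [intervalIntegral.integral_of_le hpi, ← integral_Icc_eq_integral_Ioc] at hJ
  have e1 : ∫⁻ θ in Icc 0 (2 * Real.pi), ‖u θ‖ₑ =
      ENNReal.ofReal (∫ θ in Icc 0 (2 * Real.pi), |u θ|) := by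
    have := ofReal_integral_norm_eq_lintegral_enorm hintI
    rw [← this]
    simp [Real.norm_eq_abs]
  have hpos : IntegrableOn (fun θ => max (u θ) 0) (Icc 0 (2 * Real.pi)) := hintI.pos_part
  have e2 : ∫⁻ θ in Icc 0 (2 * Real.pi), ENNReal.ofReal (u θ) =
      ENNReal.ofReal (∫ θ in Icc 0 (2 * Real.pi), max (u θ) 0) := by
    rw [ofReal_integral_eq_lintegral_ofReal hpos]
    · apply lintegral_congr
      intro θ
      rw [ENNReal.ofReal_max, ENNReal.ofReal_zero, max_eq_left (zero_le)]
    · filter_upwards with θ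
      exact le_max_right _ _
  have e3 : ∫ θ in Icc 0 (2 * Real.pi), |u θ| =
      2 * (∫ θ in Icc 0 (2 * Real.pi), max (u θ) 0) - ∫ θ in Icc 0 (2 * Real.pi), u θ := by
    rw [← integral_const_mul, ← integral_sub (hpos.const_mul 2) hintI]
    apply integral_congr_ae
    filter_upwards with θ
    rcases le_total 0 (u θ) with h | h
    · rw [abs_of_nonneg h, max_eq_left h]; ring
    · rw [abs_of_nonpos h, max_eq_right h]; ring
  rw [e1, e2, e3]
  have h5 : 0 ≤ ∫ θ in Icc 0 (2 * Real.pi), max (u θ) 0 :=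
    integral_nonneg (fun θ => le_max_right _ _)
  calc ENNReal.ofReal (2 * (∫ θ in Icc 0 (2 * Real.pi), max (u θ) 0) -
        ∫ θ in Icc 0 (2 * Real.pi), u θ)
      ≤ ENNReal.ofReal (2 * (∫ θ in Icc 0 (2 * Real.pi), max (u θ) 0) +
          2 * Real.pi * -Real.log ‖F c‖) := by
        apply ENNReal.ofReal_le_ofReal
        linarith
    _ ≤ ENNReal.ofReal (2 * (∫ θ in Icc 0 (2 * Real.pi), max (u θ) 0)) +
          ENNReal.ofReal (2 * Real.pi * -Real.log ‖F c‖) := ENNReal.ofReal_add_le
    _ = 2 * ENNReal.ofReal (∫ θ in Icc 0 (2 * Real.pi), max (u θ) 0) +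
          ENNReal.ofReal (2 * Real.pi) * ENNReal.ofReal (-Real.log ‖F c‖) := by
        rw [ENNReal.ofReal_mul (by norm_num : (0 : ℝ) ≤ 2), ENNReal.ofReal_mul hpi]
        norm_num

end Pool.Agent.LVK

namespace Pool.Agent.LVK

theorem z_circ1 : type_of% @z_circ1_pr := @z_circ1_pr

end Pool.Agent.LVK
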