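import Pool.Agent.Lib_helper39.LVK.DefsZ

/-!
# LVK part Z, block COV: the change of variables `σ = c + r cos θ`
-/

namespace Pool.Agent.LVK

open Complex MeasureTheory Set Filter Topology
open scoped ENNReal

theorem COV_image (c : ℝ) {r : ℝ} (hr : 0 < r) :
    Ioo (c - r) (c + r) ⊆ (fun θ : ℝ => c + r * Real.cos θ) '' Ioo 0 Real.pi := by
  intro σ hσ
  have h1 : -1 < (σ - c) / r := by
    rw [lt_div_iff₀ hr]; linarith [hσ.1]
  have h2 : (σ - c) / r < 1 := by
    rw [div_lt_iff₀ hr]; linarith [hσ.2]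
  refine ⟨Real.arccos ((σ - c) / r), ⟨Real.arccos_pos.mpr h2, ?_⟩, ?_⟩
  · refine lt_of_le_of_ne (Real.arccos_le_pi _) ?_
    intro h
    have := Real.arccos_eq_pi.mp h
    linarith
  · show c + r * Real.cos (Real.arccos ((σ - c) / r)) = σ
    rw [Real.cos_arccos h1.le h2.le]
    field_simp
    ring

theorem z_cov_pr (g : ℝ → ℝ≥0∞) (c : ℝ) {r : ℝ} (hr : 0 < r) :
    ∫⁻ σ in Ioo (c - r) (c + r), g σ ≤
      ENNReal.ofReal r * ∫⁻ θ in Icc 0 (2 * Real.pi), g (c + r * Real.cos θ) := by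
  have hder : ∀ θ ∈ Ioo (0 : ℝ) Real.pi, HasDerivWithinAt (fun θ : ℝ => c + r * Real.cos θ)
      (r * (-Real.sin θ)) (Ioo 0 Real.pi) θ := by
    intro θ _
    exact (((Real.hasDerivAt_cos θ).const_mul r).const_add c).hasDerivWithinAt
  have hinj : InjOn (fun θ : ℝ => c + r * Real.cos θ) (Ioo 0 Real.pi) := by
    intro a ha b hb hab
    have h1 : Real.cos a = Real.cos b := by
      have h2 : r * Real.cos a = r * Real.cos b := by simpa using hab
      exact mul_left_cancel₀ hr.ne' h2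
    exact Real.injOn_cos (Ioo_subset_Icc_self ha) (Ioo_subset_Icc_self hb) h1
  calc ∫⁻ σ in Ioo (c - r) (c + r), g σ
      ≤ ∫⁻ σ in (fun θ : ℝ => c + r * Real.cos θ) '' Ioo 0 Real.pi, g σ :=
        lintegral_mono_set (COV_image c hr)
    _ = ∫⁻ θ in Ioo 0 Real.pi, ENNReal.ofReal |r * (-Real.sin θ)| *
          g (c + r * Real.cos θ) :=
        lintegral_image_eq_lintegral_abs_deriv_mul measurableSet_Ioo hder hinj g
    _ ≤ ∫⁻ θ in Ioo 0 Real.pi, ENNReal.ofReal r * g (c + r * Real.cos θ) := by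
        refine lintegral_mono fun θ => ?_
        refine mul_le_mul_left ?_ _
        refine ENNReal.ofReal_le_ofReal ?_
        rw [abs_mul, abs_of_pos hr, abs_neg]
        have := Real.abs_sin_le_one θ
        nlinarith
    _ = ENNReal.ofReal r * ∫⁻ θ in Ioo 0 Real.pi, g (c + r * Real.cos θ) :=
        lintegral_const_mul' _ _ ENNReal.ofReal_ne_top
    _ ≤ ENNReal.ofReal r * ∫⁻ θ in Icc 0 (2 * Real.pi), g (c + r * Real.cos θ) := by
        refine mul_le_mul_right ?_ _
        refine lintegral_mono_set ?_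
        intro θ hθ
        exact ⟨hθ.1.le, by linarith [hθ.2, Real.pi_pos]⟩

theorem z_meas_pr (c : ℝ) {r x : ℝ} (hr : 0 < r) (hx : 0 ≤ x) :
    volume {θ ∈ Icc 0 (2 * Real.pi) | c + r * Real.cos θ < c - r + x} ≤
      ENNReal.ofReal (2 * Real.pi * Real.sqrt (x / r)) := by
  have hpi := Real.pi_pos
  have hsub : {θ ∈ Icc 0 (2 * Real.pi) | c + r * Real.cos θ < c - r + x} ⊆
      Icc (Real.pi - Real.pi * Real.sqrt (x / r)) (Real.pi + Real.pi * Real.sqrt (x / r)) := by
    intro θ hθ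
    obtain ⟨⟨h0, h1⟩, h2⟩ := hθ
    have h3 : |Real.pi - θ| ≤ Real.pi := by
      rw [abs_le]; constructor <;> linarith
    have h4 : Real.cos (Real.pi - θ) ≤ 1 - 2 / Real.pi ^ 2 * (Real.pi - θ) ^ 2 := by
      have h30 : |(Real.pi - θ) / 2| ≤ Real.pi / 2 := by
        rw [abs_div, abs_of_pos (by norm_num : (0 : ℝ) < 2)]
        linarith
      have h31 := Real.mul_abs_le_abs_sin h30
      have h32 : 0 ≤ 2 / Real.pi * |(Real.pi - θ) / 2| := by positivity
      have h33 : (2 / Real.pi * |(Real.pi - θ) / 2|) ^ 2 ≤ |Real.sin ((Real.pi - θ) / 2)| ^ 2 :=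
        pow_le_pow_left₀ h32 h31 2
      rw [sq_abs, mul_pow, sq_abs] at h33
      have h34 : Real.cos (Real.pi - θ) = 1 - 2 * Real.sin ((Real.pi - θ) / 2) ^ 2 := by
        have h35 := Real.cos_two_mul ((Real.pi - θ) / 2)
        have h36 := Real.sin_sq_add_cos_sq ((Real.pi - θ) / 2)
        rw [show 2 * ((Real.pi - θ) / 2) = Real.pi - θ by ring] at h35
        linarith
      rw [h34]
      have h37 : (2 / Real.pi) ^ 2 * ((Real.pi - θ) / 2) ^ 2 * 2 =
          2 / Real.pi ^ 2 * (Real.pi - θ) ^ 2 := by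
        field_simp
      linarith
    rw [Real.cos_pi_sub] at h4
    have h5 : 1 + Real.cos θ < x / r := by
      rw [lt_div_iff₀ hr]; linarith
    have h6 : (|Real.pi - θ| / Real.pi) ^ 2 ≤ x / r := by
      rw [div_pow, sq_abs]
      have h7 : (Real.pi - θ) ^ 2 / Real.pi ^ 2 ≤ 2 / Real.pi ^ 2 * (Real.pi - θ) ^ 2 := by
        rw [div_mul_eq_mul_div]
        have : 0 ≤ (Real.pi - θ) ^ 2 := sq_nonneg _
        gcongr
        linarith
      linarith
    have h8 : |Real.pi - θ| / Real.pi ≤ Real.sqrt (x / r) := Real.le_sqrt_of_sq_le h6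
    rw [div_le_iff₀ hpi] at h8
    rw [abs_le] at h8
    constructor <;> nlinarith [h8.1, h8.2]
  calc volume {θ ∈ Icc 0 (2 * Real.pi) | c + r * Real.cos θ < c - r + x}
      ≤ volume (Icc (Real.pi - Real.pi * Real.sqrt (x / r))
          (Real.pi + Real.pi * Real.sqrt (x / r))) := measure_mono hsub
    _ = ENNReal.ofReal (2 * Real.pi * Real.sqrt (x / r)) := by
        rw [Real.volume_Icc]
        congr 1
        ring

end Pool.Agent.LVK

namespace Pool.Agent.LVK

theorem z_cov : type_of% @z_cov_pr := @z_cov_pr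
theorem z_meas : type_of% @z_meas_pr := @z_meas_pr

end Pool.Agent.LVK
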