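import Pool.Agent.Lib_helper39.LVK.DefsZ
import Pool.Agent.Lib_helper39.LVZ.CI1
import Pool.Agent.Lib_helper39.LVZ.COV

/-!
# LVK part Z, block CIR: Tonelli on circles
-/

namespace Pool.Agent.LVK

open Complex MeasureTheory Set Filter Topology
open scoped ENNReal

theorem CIR_shift_le (h : ℝ → ℝ≥0∞) (a : ℝ) {u v u' v' : ℝ} (hu : u' ≤ u + a)
    (hv : v + a ≤ v') :
    ∫⁻ τ in Icc u v, h (τ + a) ≤ ∫⁻ t in Icc u' v', h t := by
  rw [← (measurePreserving_add_right volume a).setLIntegral_comp_preimage_emb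
    (measurableEmbedding_addRight a) h (Icc u' v')]
  refine lintegral_mono_set ?_
  intro τ hτ
  exact ⟨by linarith [hτ.1], by linarith [hτ.2]⟩

theorem CIR_le_shift (h : ℝ → ℝ≥0∞) (a : ℝ) {u v u' v' : ℝ} (hu : u' + a ≤ u)
    (hv : v ≤ v' + a) :
    ∫⁻ t in Icc u v, h t ≤ ∫⁻ τ in Icc u' v', h (τ + a) := by
  rw [← (measurePreserving_add_right volume a).setLIntegral_comp_preimage_emb
    (measurableEmbedding_addRight a) h (Icc u v)]
  refine lintegral_mono_set ?_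
  intro τ hτ
  have h1 : u ≤ τ + a := hτ.1
  have h2 : τ + a ≤ v := hτ.2
  exact ⟨by linarith, by linarith⟩

theorem CIR_circle (s2 r τ θ : ℝ) :
    circleMap (pt s2 τ) r θ = pt (s2 + r * Real.cos θ) (τ + r * Real.sin θ) := by
  simp only [circleMap, pt]
  rw [Complex.exp_mul_I, ← Complex.ofReal_cos, ← Complex.ofReal_sin]
  push_cast
  ring

theorem CIR_re (σ t : ℝ) : (pt σ t).re = σ := by simp [pt]

theorem CIR_im (σ t : ℝ) : (pt σ t).im = t := by simp [pt]

theorem CIR_ball {s2 r A B τ : ℝ} (hτ : τ ∈ Icc (A - r) (B + r)) :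
    Metric.closedBall (pt s2 τ) r ⊆ Rc (s2 - r) (s2 + r) (A - 2 * r) (B + 2 * r) := by
  intro z hz
  rw [Metric.mem_closedBall, dist_eq_norm] at hz
  have h1 := abs_le.mp ((Complex.abs_re_le_norm (z - pt s2 τ)).trans hz)
  have h2 := abs_le.mp ((Complex.abs_im_le_norm (z - pt s2 τ)).trans hz)
  rw [Complex.sub_re, CIR_re] at h1
  rw [Complex.sub_im, CIR_im] at h2
  refine ⟨by linarith [h1.1], by linarith [h1.2], by linarith [h2.1, hτ.1], ?_⟩
  linarith [h2.2, hτ.2]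

theorem CIR_mem {s2 r A B τ : ℝ} (hr : 0 < r) (hτ : τ ∈ Icc (A - r) (B + r)) (θ : ℝ) :
    circleMap (pt s2 τ) r θ ∈ Rc (s2 - r) (s2 + r) (A - 2 * r) (B + 2 * r) :=
  CIR_ball hτ (circleMap_mem_closedBall _ hr.le θ)

theorem CIR_cont (s2 r : ℝ) :
    Continuous (fun p : ℝ × ℝ => circleMap (pt s2 p.2) r p.1) := by
  have : (fun p : ℝ × ℝ => circleMap (pt s2 p.2) r p.1) =
      fun p : ℝ × ℝ => pt (s2 + r * Real.cos p.1) (p.2 + r * Real.sin p.1) := by
    funext p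
    exact CIR_circle s2 r p.2 p.1
  rw [this]
  unfold pt
  fun_prop

theorem CIR_meas {F : ℂ → ℂ} {s2 r A B : ℝ} (hr : 0 < r)
    (hF : AnalyticOnNhd ℂ F (Rc (s2 - r) (s2 + r) (A - 2 * r) (B + 2 * r)))
    {G : ℂ → ℝ≥0∞} (hG : Measurable G) :
    AEMeasurable (Function.uncurry fun (θ τ : ℝ) => G (F (circleMap (pt s2 τ) r θ)))
      ((volume.restrict (Icc 0 (2 * Real.pi))).prod (volume.restrict (Icc (A - r) (B + r)))) := by
  rw [Measure.prod_restrict]
  refine hG.comp_aemeasurable ?_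
  refine ContinuousOn.aemeasurable ?_ (measurableSet_Icc.prod measurableSet_Icc)
  refine ContinuousOn.comp (t := Rc (s2 - r) (s2 + r) (A - 2 * r) (B + 2 * r))
    hF.continuousOn (CIR_cont s2 r).continuousOn ?_
  intro p hp
  exact CIR_mem hr hp.2 p.1

theorem CIR_meas1 {F : ℂ → ℂ} {s2 r A B : ℝ} (hr : 0 < r)
    (hF : AnalyticOnNhd ℂ F (Rc (s2 - r) (s2 + r) (A - 2 * r) (B + 2 * r)))
    {G : ℂ → ℝ≥0∞} (hG : Measurable G) :
    AEMeasurable (fun τ : ℝ => G (F (pt s2 τ))) (volume.restrict (Icc (A - r) (B + r))) := by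
  refine hG.comp_aemeasurable ?_
  refine ContinuousOn.aemeasurable ?_ measurableSet_Icc
  refine ContinuousOn.comp (t := Rc (s2 - r) (s2 + r) (A - 2 * r) (B + 2 * r))
    hF.continuousOn ?_ ?_
  · unfold pt
    fun_prop
  · intro τ hτ
    exact CIR_ball hτ (Metric.mem_closedBall_self hr.le)

theorem z_circ_pr {F : ℂ → ℂ} {s2 r A B : ℝ} (hr : 0 < r) (hAB : A < B)
    (hF : AnalyticOnNhd ℂ F (Rc (s2 - r) (s2 + r) (A - 2 * r) (B + 2 * r)))
    (h0 : ∀ t ∈ Icc (A - r) (B + r), F (pt s2 t) ≠ 0) :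
    ∫⁻ σ in Ioo (s2 - r) (s2 + r), ∫⁻ t in Icc A B, ‖Real.log ‖F (pt σ t)‖‖ₑ ≤
      ENNReal.ofReal r *
        (2 * (∫⁻ θ in Icc 0 (2 * Real.pi), ∫⁻ t in Icc (A - 2 * r) (B + 2 * r),
            ENNReal.ofReal (Real.log ‖F (pt (s2 + r * Real.cos θ) t)‖)) +
          ENNReal.ofReal (2 * Real.pi) *
            ∫⁻ t in Icc (A - r) (B + r), ENNReal.ofReal (-Real.log ‖F (pt s2 t)‖)) := by
  have hsin : ∀ θ : ℝ, |r * Real.sin θ| ≤ r := by
    intro θ
    rw [abs_mul, abs_of_pos hr]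
    have := Real.abs_sin_le_one θ
    nlinarith
  have hG1 : Measurable (fun w : ℂ => ‖Real.log ‖w‖‖ₑ) := by fun_prop
  have hG2 : Measurable (fun w : ℂ => ENNReal.ofReal (Real.log ‖w‖)) := by fun_prop
  have hG3 : Measurable (fun w : ℂ => ENNReal.ofReal (-Real.log ‖w‖)) := by fun_prop
  refine (z_cov (fun σ => ∫⁻ t in Icc A B, ‖Real.log ‖F (pt σ t)‖‖ₑ) s2 hr).trans ?_
  refine mul_le_mul_right ?_ _
  calc ∫⁻ θ in Icc 0 (2 * Real.pi), ∫⁻ t in Icc A B,
        ‖Real.log ‖F (pt (s2 + r * Real.cos θ) t)‖‖ₑ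
      ≤ ∫⁻ θ in Icc 0 (2 * Real.pi), ∫⁻ τ in Icc (A - r) (B + r),
        ‖Real.log ‖F (circleMap (pt s2 τ) r θ)‖‖ₑ := by
        refine lintegral_mono fun θ => ?_
        have h1 := abs_le.mp (hsin θ)
        have h2 := CIR_le_shift (fun t => ‖Real.log ‖F (pt (s2 + r * Real.cos θ) t)‖‖ₑ)
          (r * Real.sin θ) (u := A) (v := B) (u' := A - r) (v' := B + r)
          (by linarith [h1.2]) (by linarith [h1.1])
        refine h2.trans (le_of_eq ?_)
        refine lintegral_congr fun τ => ?_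
        rw [CIR_circle]
    _ = ∫⁻ τ in Icc (A - r) (B + r), ∫⁻ θ in Icc 0 (2 * Real.pi),
        ‖Real.log ‖F (circleMap (pt s2 τ) r θ)‖‖ₑ :=
        lintegral_lintegral_swap (CIR_meas hr hF hG1)
    _ ≤ ∫⁻ τ in Icc (A - r) (B + r),
        (2 * (∫⁻ θ in Icc 0 (2 * Real.pi),
            ENNReal.ofReal (Real.log ‖F (circleMap (pt s2 τ) r θ)‖)) +
          ENNReal.ofReal (2 * Real.pi) * ENNReal.ofReal (-Real.log ‖F (pt s2 τ)‖)) := by
        refine setLIntegral_mono' measurableSet_Icc fun τ hτ => ?_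
        exact z_circ1 hr (fun z hz => hF z (CIR_ball hτ hz)) (h0 τ hτ)
    _ = (2 * ∫⁻ τ in Icc (A - r) (B + r), ∫⁻ θ in Icc 0 (2 * Real.pi),
            ENNReal.ofReal (Real.log ‖F (circleMap (pt s2 τ) r θ)‖)) +
          ENNReal.ofReal (2 * Real.pi) *
            ∫⁻ τ in Icc (A - r) (B + r), ENNReal.ofReal (-Real.log ‖F (pt s2 τ)‖) := by
        rw [lintegral_add_right' _ ((CIR_meas1 hr hF hG3).const_mul _),
          lintegral_const_mul' _ _ (by norm_num), lintegral_const_mul' _ _ ENNReal.ofReal_ne_top]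
    _ = (2 * ∫⁻ θ in Icc 0 (2 * Real.pi), ∫⁻ τ in Icc (A - r) (B + r),
            ENNReal.ofReal (Real.log ‖F (circleMap (pt s2 τ) r θ)‖)) +
          ENNReal.ofReal (2 * Real.pi) *
            ∫⁻ τ in Icc (A - r) (B + r), ENNReal.ofReal (-Real.log ‖F (pt s2 τ)‖) := by
        rw [← lintegral_lintegral_swap (CIR_meas hr hF hG2)]
    _ ≤ _ := by
        refine add_le_add ?_ le_rfl
        refine mul_le_mul_right ?_ _
        refine lintegral_mono fun θ => ?_
        have h1 := abs_le.mp (hsin θ)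
        have h2 := CIR_shift_le
          (fun t => ENNReal.ofReal (Real.log ‖F (pt (s2 + r * Real.cos θ) t)‖))
          (r * Real.sin θ) (u := A - r) (v := B + r) (u' := A - 2 * r) (v' := B + 2 * r)
          (by linarith [h1.1]) (by linarith [h1.2])
        refine (le_of_eq ?_).trans h2
        refine lintegral_congr fun τ => ?_
        rw [CIR_circle]

end Pool.Agent.LVK

namespace Pool.Agent.LVK

theorem z_circ : type_of% @z_circ_pr := @z_circ_pr

end Pool.Agent.LVK
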