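import Pool.Agent.Lib_helper39.LVK.DefsZ
import Pool.Agent.Lib_helper39.LVZ.CIR
import Pool.Agent.Lib_helper39.LVZ.COV

/-!
# LVK part Z, block CIF: the logarithm in the mean over a family (helper89)
-/

namespace Pool.Agent.LVK

open Complex MeasureTheory Set Filter Topology
open scoped ENNReal

/-- the sum of finitely many lower integrals is at most the integral of the sum -/
theorem CIF_sum {α : Type*} [MeasurableSpace α] (μ : Measure α) {ι : Type*} (s : Finset ι)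
    (g : ι → α → ℝ≥0∞) : ∑ i ∈ s, ∫⁻ x, g i x ∂μ ≤ ∫⁻ x, ∑ i ∈ s, g i x ∂μ := by
  classical
  induction s using Finset.induction_on with
  | empty => simp
  | insert a s ha ih =>
    rw [Finset.sum_insert ha]
    simp_rw [Finset.sum_insert ha]
    exact (add_le_add_right ih _).trans (le_lintegral_add _ _)

theorem z_circF_pr {ι : Type} [Fintype ι] {F : ι → ℂ → ℂ} {s2 r x A B K κ κ' : ℝ} (hr : 0 < r)
    (hAB : A < B) (hx : 0 ≤ x) (hK : 0 ≤ K) (hκ : 0 ≤ κ) (hκ' : 0 ≤ κ')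
    (hF : ∀ i, AnalyticOnNhd ℂ (F i) (Rc (s2 - r) (s2 + r) (A - 2 * r) (B + 2 * r)))
    (h0 : ∀ i, ∀ t ∈ Icc (A - r) (B + r), F i (pt s2 t) ≠ 0)
    (h1 : ∀ σ ∈ Icc (s2 - r) (s2 + r), ∑ i, ∫⁻ t in Icc (A - 2 * r) (B + 2 * r),
      ENNReal.ofReal (Real.log ‖F i (pt σ t)‖) ≤ ENNReal.ofReal K)
    (h2 : ∀ σ ∈ Icc (s2 - r + x) (s2 + r), ∑ i, ∫⁻ t in Icc (A - 2 * r) (B + 2 * r),
      ENNReal.ofReal (Real.log ‖F i (pt σ t)‖) ≤ ENNReal.ofReal κ)
    (h3 : ∑ i, ∫⁻ t in Icc (A - r) (B + r), ENNReal.ofReal (-Real.log ‖F i (pt s2 t)‖) ≤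
      ENNReal.ofReal κ') :
    ∑ i, ∫⁻ σ in Icc (s2 - r) s2, ∫⁻ t in Icc A B, ‖Real.log ‖F i (pt σ t)‖‖ₑ ≤
      ENNReal.ofReal (2 * Real.pi * r * (2 * κ + 2 * K * Real.sqrt (x / r) + κ')) := by
  have hpi : (0 : ℝ) ≤ 2 * Real.pi := by positivity
  set g : ι → ℝ → ℝ≥0∞ := fun i θ => ∫⁻ t in Icc (A - 2 * r) (B + 2 * r),
    ENNReal.ofReal (Real.log ‖F i (pt (s2 + r * Real.cos θ) t)‖) with hg
  set S : Set ℝ := {θ ∈ Icc 0 (2 * Real.pi) | s2 + r * Real.cos θ < s2 - r + x} with hS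
  -- one function
  have hone : ∀ i, ∫⁻ σ in Icc (s2 - r) s2, ∫⁻ t in Icc A B, ‖Real.log ‖F i (pt σ t)‖‖ₑ ≤
      ENNReal.ofReal r * (2 * (∫⁻ θ in Icc 0 (2 * Real.pi), g i θ) +
        ENNReal.ofReal (2 * Real.pi) *
          ∫⁻ t in Icc (A - r) (B + r), ENNReal.ofReal (-Real.log ‖F i (pt s2 t)‖)) := by
    intro i
    refine le_trans ?_ (z_circ hr hAB (hF i) (h0 i))
    rw [Measure.restrict_congr_set (Ioc_ae_eq_Icc (μ := volume) (a := s2 - r) (b := s2)).symm]
    apply lintegral_mono_set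
    intro σ hσ
    exact ⟨hσ.1, hσ.2.trans_lt (by linarith)⟩
  -- the average over the circle
  have hpt : ∀ θ ∈ Icc 0 (2 * Real.pi), ∑ i, g i θ ≤
      S.indicator (fun _ => ENNReal.ofReal K) θ + ENNReal.ofReal κ := by
    intro θ hθ
    have hc1 := Real.cos_le_one θ
    have hc2 := Real.neg_one_le_cos θ
    by_cases hθS : θ ∈ S
    · rw [indicator_of_mem hθS]
      refine (h1 _ ⟨?_, ?_⟩).trans le_self_add
      · nlinarith
      · nlinarith
    · rw [indicator_of_notMem hθS, zero_add]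
      have h4 : s2 - r + x ≤ s2 + r * Real.cos θ := by
        by_contra h5
        exact hθS ⟨hθ, not_le.1 h5⟩
      refine h2 _ ⟨h4, ?_⟩
      nlinarith
  have havg : ∫⁻ θ in Icc 0 (2 * Real.pi), ∑ i, g i θ ≤
      ENNReal.ofReal (2 * Real.pi * (κ + K * Real.sqrt (x / r))) := by
    calc ∫⁻ θ in Icc 0 (2 * Real.pi), ∑ i, g i θ
        ≤ ∫⁻ θ in Icc 0 (2 * Real.pi),
            (S.indicator (fun _ => ENNReal.ofReal K) θ + ENNReal.ofReal κ) :=
          setLIntegral_mono' measurableSet_Icc hpt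
      _ = (∫⁻ θ in Icc 0 (2 * Real.pi), S.indicator (fun _ => ENNReal.ofReal K) θ) +
            ∫⁻ θ in Icc 0 (2 * Real.pi), ENNReal.ofReal κ := by
          rw [lintegral_add_right _ measurable_const]
      _ ≤ ENNReal.ofReal K * ENNReal.ofReal (2 * Real.pi * Real.sqrt (x / r)) +
            ENNReal.ofReal κ * ENNReal.ofReal (2 * Real.pi) := by
          apply add_le_add
          · refine (lintegral_indicator_const_le _ _).trans ?_
            gcongr
            refine le_trans ?_ (z_meas s2 hr hx)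
            exact Measure.restrict_apply_le _ _
          · rw [lintegral_const, Measure.restrict_apply_univ, Real.volume_Icc, sub_zero]
      _ = ENNReal.ofReal (2 * Real.pi * (κ + K * Real.sqrt (x / r))) := by
          rw [← ENNReal.ofReal_mul hK, ← ENNReal.ofReal_mul hκ, ← ENNReal.ofReal_add
            (by positivity) (by positivity)]
          congr 1
          ring
  calc ∑ i, ∫⁻ σ in Icc (s2 - r) s2, ∫⁻ t in Icc A B, ‖Real.log ‖F i (pt σ t)‖‖ₑ
      ≤ ∑ i, ENNReal.ofReal r * (2 * (∫⁻ θ in Icc 0 (2 * Real.pi), g i θ) +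
        ENNReal.ofReal (2 * Real.pi) *
          ∫⁻ t in Icc (A - r) (B + r), ENNReal.ofReal (-Real.log ‖F i (pt s2 t)‖)) :=
        Finset.sum_le_sum (fun i _ => hone i)
    _ = ENNReal.ofReal r * (2 * (∑ i, ∫⁻ θ in Icc 0 (2 * Real.pi), g i θ) +
        ENNReal.ofReal (2 * Real.pi) *
          ∑ i, ∫⁻ t in Icc (A - r) (B + r), ENNReal.ofReal (-Real.log ‖F i (pt s2 t)‖)) := by
        rw [← Finset.mul_sum, Finset.sum_add_distrib, ← Finset.mul_sum, ← Finset.mul_sum]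
    _ ≤ ENNReal.ofReal r * (2 * ENNReal.ofReal (2 * Real.pi * (κ + K * Real.sqrt (x / r))) +
        ENNReal.ofReal (2 * Real.pi) * ENNReal.ofReal κ') := by
        gcongr
        exact (CIF_sum _ _ _).trans havg
    _ = ENNReal.ofReal (2 * Real.pi * r * (2 * κ + 2 * K * Real.sqrt (x / r) + κ')) := by
        have e2 : (2 : ℝ≥0∞) = ENNReal.ofReal 2 := by norm_num
        rw [e2, ← ENNReal.ofReal_mul (by norm_num : (0 : ℝ) ≤ 2), ← ENNReal.ofReal_mul hpi,
          ← ENNReal.ofReal_add (by positivity) (by positivity), ← ENNReal.ofReal_mul hr.le]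
        congr 1
        ring

end Pool.Agent.LVK

namespace Pool.Agent.LVK

theorem z_circF : type_of% @z_circF_pr := @z_circF_pr

end Pool.Agent.LVK
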