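import Pool.Agent.Lib_helper39.LVK.DefsZ

/-! LVK part Z, block JMP. -/

namespace Pool.Agent.LVK

open Complex MeasureTheory Set Filter Topology
open scoped ENNReal

/-- near a zero the logarithmic derivative is `n / (t - t₀)` plus a convergent function -/
theorem JMP_form {Z : ℝ → ℝ} {t₀ : ℝ} (hZ : AnalyticAt ℝ Z t₀) (h0 : Z t₀ = 0)
    (hne : ¬ ∀ᶠ t in 𝓝 t₀, Z t = 0) :
    ∃ (n : ℕ) (h : ℝ → ℝ) (L : ℝ), 0 < n ∧ Tendsto h (𝓝 t₀) (𝓝 L) ∧
      ∀ᶠ t in 𝓝[≠] t₀, deriv Z t / Z t = n * (t - t₀)⁻¹ + h t := by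
  obtain ⟨n, g, hg, hg0, hev⟩ := hZ.exists_eventuallyEq_pow_smul_nonzero_iff.mpr hne
  have hn : n ≠ 0 := by
    rintro rfl
    have := hev.self_of_nhds
    rw [h0] at this
    simp at this
    exact hg0 this.symm
  refine ⟨n, fun t => deriv g t / g t, deriv g t₀ / g t₀, Nat.pos_of_ne_zero hn, ?_, ?_⟩
  · exact hg.deriv.continuousAt.tendsto.div hg.continuousAt.tendsto hg0
  · have hd : deriv Z =ᶠ[𝓝 t₀] deriv (fun z => (z - t₀) ^ n • g z) := EventuallyEq.deriv hev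
    have hga : ∀ᶠ t in 𝓝 t₀, AnalyticAt ℝ g t := hg.eventually_analyticAt
    have hgn : ∀ᶠ t in 𝓝 t₀, g t ≠ 0 := hg.continuousAt.eventually_ne hg0
    filter_upwards [self_mem_nhdsWithin, mem_nhdsWithin_of_mem_nhds hev,
      mem_nhdsWithin_of_mem_nhds hd, mem_nhdsWithin_of_mem_nhds hga,
      mem_nhdsWithin_of_mem_nhds hgn] with t ht h1 h2 h3 h4
    have ht' : t - t₀ ≠ 0 := sub_ne_zero.2 ht
    have h5 : HasDerivAt (fun z => (z - t₀) ^ n • g z)
        (((n : ℝ) * (t - t₀) ^ (n - 1) * 1) * g t + (t - t₀) ^ n * deriv g t) t := by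
      have ha : HasDerivAt (fun z : ℝ => (z - t₀) ^ n) ((n : ℝ) * (t - t₀) ^ (n - 1) * 1) t :=
        ((hasDerivAt_id t).sub_const t₀).pow n
      exact ha.mul h3.differentiableAt.hasDerivAt
    rw [h2, h5.deriv, h1]
    obtain ⟨k, rfl⟩ := Nat.exists_eq_succ_of_ne_zero hn
    simp only [smul_eq_mul, Nat.succ_eq_add_one, Nat.add_sub_cancel, mul_one]
    field_simp
    ring

theorem z_jump_pr {Z : ℝ → ℝ} {t₀ : ℝ} (hZ : AnalyticAt ℝ Z t₀) (h0 : Z t₀ = 0)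
    (hne : ¬ ∀ᶠ t in 𝓝 t₀, Z t = 0) {c : ℝ} (hc : 0 < c) :
    Tendsto (fun t => -Real.arctan (c * deriv Z t / Z t)) (𝓝[>] t₀) (𝓝 (-(Real.pi / 2))) ∧
    Tendsto (fun t => -Real.arctan (c * deriv Z t / Z t)) (𝓝[<] t₀) (𝓝 (Real.pi / 2)) := by
  obtain ⟨n, h, L, hn, hL, hev⟩ := JMP_form hZ h0 hne
  have hn' : (0 : ℝ) < n := by exact_mod_cast hn
  constructor
  · have e1 : ∀ᶠ t in 𝓝[>] t₀, deriv Z t / Z t = n * (t - t₀)⁻¹ + h t :=
      hev.filter_mono (nhdsWithin_mono _ fun t ht => ne_of_gt ht)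
    have t1 : Tendsto (fun t : ℝ => t - t₀) (𝓝[>] t₀) (𝓝[>] 0) := by
      refine tendsto_nhdsWithin_iff.2 ⟨?_, ?_⟩
      · have : Tendsto (fun t : ℝ => t - t₀) (𝓝 t₀) (𝓝 (t₀ - t₀)) :=
          tendsto_id.sub_const t₀
        rw [sub_self] at this
        exact this.mono_left nhdsWithin_le_nhds
      · filter_upwards [self_mem_nhdsWithin] with t ht
        exact sub_pos.2 (mem_Ioi.1 ht)
    have t2 : Tendsto (fun t : ℝ => (n : ℝ) * (t - t₀)⁻¹ + h t) (𝓝[>] t₀) atTop :=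
      ((tendsto_inv_nhdsGT_zero.comp t1).const_mul_atTop hn').atTop_add
        (hL.mono_left nhdsWithin_le_nhds)
    have t3 : Tendsto (fun t : ℝ => c * deriv Z t / Z t) (𝓝[>] t₀) atTop := by
      refine (t2.const_mul_atTop hc).congr' ?_
      filter_upwards [e1] with t ht
      rw [← ht]; ring
    have t4 := (Real.tendsto_arctan_atTop.mono_right nhdsWithin_le_nhds).comp t3
    exact t4.neg
  · have e1 : ∀ᶠ t in 𝓝[<] t₀, deriv Z t / Z t = n * (t - t₀)⁻¹ + h t :=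
      hev.filter_mono (nhdsWithin_mono _ fun t ht => ne_of_lt ht)
    have t1 : Tendsto (fun t : ℝ => t - t₀) (𝓝[<] t₀) (𝓝[<] 0) := by
      refine tendsto_nhdsWithin_iff.2 ⟨?_, ?_⟩
      · have : Tendsto (fun t : ℝ => t - t₀) (𝓝 t₀) (𝓝 (t₀ - t₀)) :=
          tendsto_id.sub_const t₀
        rw [sub_self] at this
        exact this.mono_left nhdsWithin_le_nhds
      · filter_upwards [self_mem_nhdsWithin] with t ht
        exact sub_neg.2 (mem_Iio.1 ht)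
    have t2 : Tendsto (fun t : ℝ => (n : ℝ) * (t - t₀)⁻¹ + h t) (𝓝[<] t₀) atBot :=
      ((tendsto_inv_nhdsLT_zero.comp t1).const_mul_atBot hn').atBot_add
        (hL.mono_left nhdsWithin_le_nhds)
    have t3 : Tendsto (fun t : ℝ => c * deriv Z t / Z t) (𝓝[<] t₀) atBot := by
      refine (t2.const_mul_atBot hc).congr' ?_
      filter_upwards [e1] with t ht
      rw [← ht]; ring
    have t4 := (Real.tendsto_arctan_atBot.mono_right nhdsWithin_le_nhds).comp t3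
    have t5 := t4.neg
    rw [neg_neg] at t5
    exact t5


end Pool.Agent.LVK

namespace Pool.Agent.LVK

theorem z_jump : type_of% @z_jump_pr := @z_jump_pr

end Pool.Agent.LVK
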