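import Pool.Agent.Lib_helper39.LVK.DefsZ

/-!
# LVK part Z, block ORD: orders on the critical line
-/

namespace Pool.Agent.LVK

open Complex MeasureTheory Set Filter Topology
open scoped ENNReal

theorem ORD_im {ξ : ℂ → ℂ}
    (sym : ∀ s, ξ (1 - starRingEnd ℂ s) = starRingEnd ℂ (ξ s)) (t : ℝ) :
    (ξ (pt (1 / 2) t)).im = 0 := by
  have h := sym (pt (1 / 2) t)
  have e : (1 : ℂ) - starRingEnd ℂ (pt (1 / 2) t) = pt (1 / 2) t := by
    apply Complex.ext
    · simp [pt]; norm_num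
    · simp [pt]
  rw [e] at h
  exact Complex.conj_eq_iff_im.1 h.symm

theorem ORD_re {ξ : ℂ → ℂ} (hξ : Differentiable ℂ ξ)
    (sym : ∀ s, ξ (1 - starRingEnd ℂ s) = starRingEnd ℂ (ξ s)) (t : ℝ) :
    (deriv ξ (pt (1 / 2) t)).re = 0 := by
  have h1 : HasDerivAt (fun u : ℝ => pt (1 / 2) u) I t := by
    have := ((Complex.ofRealCLM.hasDerivAt (x := t)).mul_const I).const_add (((1 / 2 : ℝ)) : ℂ)
    simpa [pt] using this
  have h2 : HasDerivAt (fun u : ℝ => ξ (pt (1 / 2) u)) (deriv ξ (pt (1 / 2) t) * I) t := by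
    exact (hξ (pt (1 / 2) t)).hasDerivAt.comp_of_eq t h1 rfl
  have h3 : HasDerivAt (fun u : ℝ => (ξ (pt (1 / 2) u)).im)
      (deriv ξ (pt (1 / 2) t) * I).im t := by
    exact (Complex.imCLM.hasFDerivAt (x := ξ (pt (1 / 2) t))).comp_hasDerivAt t h2
  have h4 : HasDerivAt (fun u : ℝ => (ξ (pt (1 / 2) u)).im) 0 t := by
    have : (fun u : ℝ => (ξ (pt (1 / 2) u)).im) = fun _ => 0 := funext fun u => ORD_im sym u
    rw [this]
    exact hasDerivAt_const t 0
  have h5 := h3.unique h4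
  simpa using h5

theorem z_Hne_pr {ξ : ℂ → ℂ} (hξ : Differentiable ℂ ξ)
    (sym : ∀ s, ξ (1 - starRingEnd ℂ s) = starRingEnd ℂ (ξ s)) {a b : ℝ} (ha : 0 < a)
    (hb : 0 < b) {t : ℝ} (h : ξ (pt (1 / 2) t) ≠ 0) :
    (a : ℂ) * ξ (pt (1 / 2) t) + (b : ℂ) * deriv ξ (pt (1 / 2) t) ≠ 0 := by
  intro h0
  apply h
  have h1 := congrArg Complex.re h0
  have h2 := ORD_re hξ sym t
  have h3 := ORD_im sym t
  simp only [add_re, mul_re, ofReal_re, ofReal_im, zero_mul, sub_zero, zero_re, h2, mul_zero,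
    add_zero] at h1
  have h4 : (ξ (pt (1 / 2) t)).re = 0 := by
    rcases mul_eq_zero.1 h1 with h | h
    · exact absurd h ha.ne'
    · exact h
  exact Complex.ext h4 h3

theorem z_ord_pr {ξ : ℂ → ℂ} (hξ : Differentiable ℂ ξ)
    (sym : ∀ s, ξ (1 - starRingEnd ℂ s) = starRingEnd ℂ (ξ s)) {z : ℂ} (hz : ξ z ≠ 0)
    {a b : ℝ} (ha : 0 < a) (hb : 0 < b) (t : ℝ) :
    analyticOrderNatAt (fun s => (a : ℂ) * ξ s + (b : ℂ) * deriv ξ s) (pt (1 / 2) t) =
      analyticOrderNatAt ξ (pt (1 / 2) t) - 1 := by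
  set s0 := pt (1 / 2) t with hs0
  have hA : AnalyticAt ℂ ξ s0 := hξ.analyticAt s0
  have hD : AnalyticAt ℂ (deriv ξ) s0 := hA.deriv
  have hAa : AnalyticAt ℂ (fun s => (a : ℂ) * ξ s) s0 := analyticAt_const.mul hA
  have hDb : AnalyticAt ℂ (fun s => (b : ℂ) * deriv ξ s) s0 := analyticAt_const.mul hD
  have hH : AnalyticAt ℂ (fun s => (a : ℂ) * ξ s + (b : ℂ) * deriv ξ s) s0 := hAa.add hDb
  by_cases h0 : ξ s0 = 0
  · -- a zero
    have hac : ∀ c : ℝ, 0 < c → analyticOrderAt (fun _ : ℂ => (c : ℂ)) s0 = 0 := by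
      intro c hc
      rw [analyticAt_const.analyticOrderAt_eq_zero]
      exact_mod_cast hc.ne'
    have oA : analyticOrderAt (fun s => (a : ℂ) * ξ s) s0 = analyticOrderAt ξ s0 := by
      have := analyticOrderAt_mul (f := fun _ : ℂ => (a : ℂ)) (g := ξ) (z₀ := s0)
        analyticAt_const hA
      rw [hac a ha, zero_add] at this
      exact this
    have oD : analyticOrderAt (fun s => (b : ℂ) * deriv ξ s) s0 =
        analyticOrderAt (deriv ξ) s0 := by
      have := analyticOrderAt_mul (f := fun _ : ℂ => (b : ℂ)) (g := deriv ξ) (z₀ := s0)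
        analyticAt_const hD
      rw [hac b hb, zero_add] at this
      exact this
    have hd := hA.analyticOrderAt_deriv_add_one
    simp only [h0, sub_zero] at hd
    have htop : analyticOrderAt ξ s0 ≠ ⊤ := by
      have hz' : analyticOrderAt ξ z ≠ ⊤ := by
        rw [(hξ.analyticAt z).analyticOrderAt_eq_zero.2 hz]
        exact ENat.zero_ne_top
      exact AnalyticOnNhd.analyticOrderAt_ne_top_of_isPreconnected (U := univ)
        (fun w _ => hξ.analyticAt w) isPreconnected_univ (mem_univ z) (mem_univ s0) hz'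
    have hdtop : analyticOrderAt (deriv ξ) s0 ≠ ⊤ := by
      intro h
      rw [h] at hd
      exact htop (by rw [← hd]; rfl)
    have hlt : analyticOrderAt (fun s => (b : ℂ) * deriv ξ s) s0 <
        analyticOrderAt (fun s => (a : ℂ) * ξ s) s0 := by
      rw [oA, oD, ← hd]
      exact (ENat.lt_add_one_iff hdtop).2 le_rfl
    have hsum := analyticOrderAt_add_eq_right_of_lt hlt
    have hsum' : analyticOrderAt (fun s => (a : ℂ) * ξ s + (b : ℂ) * deriv ξ s) s0 =
        analyticOrderAt (deriv ξ) s0 := by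
      rw [← oD]; exact hsum
    unfold analyticOrderNatAt
    rw [hsum', ← hd]
    obtain ⟨n, hn⟩ := ENat.ne_top_iff_exists.1 hdtop
    rw [← hn]
    have : ((n : ℕ∞) + 1).toNat = n + 1 := by
      have : ((n : ℕ∞) + 1) = ((n + 1 : ℕ) : ℕ∞) := by push_cast; rfl
      rw [this, ENat.toNat_natCast]
    rw [this, ENat.toNat_natCast]
    simp
  · have h1 := z_Hne_pr hξ sym ha hb h0
    have o1 : analyticOrderAt ξ s0 = 0 := hA.analyticOrderAt_eq_zero.2 h0
    have o2 : analyticOrderAt (fun s => (a : ℂ) * ξ s + (b : ℂ) * deriv ξ s) s0 = 0 :=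
      hH.analyticOrderAt_eq_zero.2 h1
    unfold analyticOrderNatAt
    rw [o1, o2]
    simp

end Pool.Agent.LVK

namespace Pool.Agent.LVK

theorem z_Hne : type_of% @z_Hne_pr := @z_Hne_pr
theorem z_ord : type_of% @z_ord_pr := @z_ord_pr

end Pool.Agent.LVK
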