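import Pool.Agent.Lib_helper39.LVK.DefsZ
import Pool.Agent.Lib_helper39.LVZ.FIN
import Pool.Agent.Lib_helper39.LVZ.GRI
import Pool.Agent.Lib_helper39.LVZ.JMP
import Pool.Agent.Lib_helper39.LVZ.ORD

/-!
# LVK part Z, block LIN: the change of argument on the critical line
-/

namespace Pool.Agent.LVK

open Complex MeasureTheory Set Filter Topology
open scoped ENNReal

theorem LIN_pt (t : ℝ) : HasDerivAt (fun t : ℝ => pt (1 / 2) t) I t := by
  unfold pt
  have h := ((hasDerivAt_id t).ofReal_comp.mul_const I).const_add (((1 / 2 : ℝ)) : ℂ)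
  simpa using h

theorem LIN_ptsym (t : ℝ) : 1 - starRingEnd ℂ (pt (1 / 2) t) = pt (1 / 2) t := by
  unfold pt
  rw [map_add, map_mul, Complex.conj_ofReal, Complex.conj_ofReal, Complex.conj_I]
  push_cast
  ring

/-- the real function on the line -/
noncomputable def LIN_Z (ξ : ℂ → ℂ) (t : ℝ) : ℝ := (ξ (pt (1 / 2) t)).re

/-- its derivative -/
noncomputable def LIN_Z1 (ξ : ℂ → ℂ) (t : ℝ) : ℝ := (deriv ξ (pt (1 / 2) t) * I).re

/-- its second derivative -/
noncomputable def LIN_Z2 (ξ : ℂ → ℂ) (t : ℝ) : ℝ :=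
  (deriv (deriv ξ) (pt (1 / 2) t) * I * I).re

section

variable {ξ : ℂ → ℂ}

theorem LIN_real (sym : ∀ s, ξ (1 - starRingEnd ℂ s) = starRingEnd ℂ (ξ s)) (t : ℝ) :
    ξ (pt (1 / 2) t) = (LIN_Z ξ t : ℂ) := by
  have h := sym (pt (1 / 2) t)
  rw [LIN_ptsym] at h
  unfold LIN_Z
  exact (Complex.conj_eq_iff_re.1 h.symm).symm

theorem LIN_dc (hξ : Differentiable ℂ ξ) (t : ℝ) :
    HasDerivAt (fun t : ℝ => ξ (pt (1 / 2) t)) (deriv ξ (pt (1 / 2) t) * I) t :=
  (hξ _).hasDerivAt.comp t (LIN_pt t)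

theorem LIN_dZ (hξ : Differentiable ℂ ξ) (t : ℝ) :
    HasDerivAt (LIN_Z ξ) (LIN_Z1 ξ t) t :=
  Complex.reCLM.hasFDerivAt.comp_hasDerivAt t (LIN_dc hξ t)

theorem LIN_real1 (hξ : Differentiable ℂ ξ)
    (sym : ∀ s, ξ (1 - starRingEnd ℂ s) = starRingEnd ℂ (ξ s)) (t : ℝ) :
    deriv ξ (pt (1 / 2) t) * I = (LIN_Z1 ξ t : ℂ) := by
  have h1 := LIN_dc hξ t
  have h2 := (LIN_dZ hξ t).ofReal_comp
  have h3 : (fun t : ℝ => ξ (pt (1 / 2) t)) = fun t : ℝ => (LIN_Z ξ t : ℂ) := by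
    funext t
    exact LIN_real sym t
  rw [h3] at h1
  exact h1.unique h2

theorem LIN_dZ1 (hξ : Differentiable ℂ ξ) (t : ℝ) :
    HasDerivAt (LIN_Z1 ξ) (LIN_Z2 ξ t) t := by
  have hd : Differentiable ℂ (deriv ξ) := hξ.deriv
  have h1 := (LIN_dc hd t).mul_const I
  exact Complex.reCLM.hasFDerivAt.comp_hasDerivAt t h1

theorem LIN_real2 (hξ : Differentiable ℂ ξ)
    (sym : ∀ s, ξ (1 - starRingEnd ℂ s) = starRingEnd ℂ (ξ s)) (t : ℝ) :
    deriv (deriv ξ) (pt (1 / 2) t) * I * I = (LIN_Z2 ξ t : ℂ) := by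
  have hd : Differentiable ℂ (deriv ξ) := hξ.deriv
  have h1 := (LIN_dc hd t).mul_const I
  have h2 := (LIN_dZ1 hξ t).ofReal_comp
  have h3 : (fun t : ℝ => deriv ξ (pt (1 / 2) t) * I) = fun t : ℝ => (LIN_Z1 ξ t : ℂ) := by
    funext t
    exact LIN_real1 hξ sym t
  have h4 : (fun t : ℝ => deriv ξ (pt (1 / 2) t) * I) = fun t : ℝ => (LIN_Z1 ξ t : ℂ) := h3
  have h5 : HasDerivAt (fun t : ℝ => (LIN_Z1 ξ t : ℂ))
      (deriv (deriv ξ) (pt (1 / 2) t) * I * I) t := by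
    rw [← h4]
    exact h1
  exact h5.unique h2

/-- the real part of the logarithmic derivative on the line -/
theorem LIN_log (hξ : Differentiable ℂ ξ)
    (sym : ∀ s, ξ (1 - starRingEnd ℂ s) = starRingEnd ℂ (ξ s)) (a b t : ℝ) :
    (logDeriv (fun s => (a : ℂ) * ξ s + (b : ℂ) * deriv ξ s) (pt (1 / 2) t)).re =
      a * b * (LIN_Z1 ξ t ^ 2 - LIN_Z2 ξ t * LIN_Z ξ t) /
        (a ^ 2 * LIN_Z ξ t ^ 2 + b ^ 2 * LIN_Z1 ξ t ^ 2) := by
  have hd : Differentiable ℂ (deriv ξ) := hξ.deriv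
  have e0 := LIN_real sym t
  have e1 : deriv ξ (pt (1 / 2) t) = -(I * (LIN_Z1 ξ t : ℂ)) := by
    rw [← LIN_real1 hξ sym t]
    linear_combination (deriv ξ (pt (1 / 2) t)) * I_mul_I
  have e2 : deriv (deriv ξ) (pt (1 / 2) t) = -(LIN_Z2 ξ t : ℂ) := by
    rw [← LIN_real2 hξ sym t]
    linear_combination (deriv (deriv ξ) (pt (1 / 2) t)) * I_mul_I
  have e3 : deriv (fun s => (a : ℂ) * ξ s + (b : ℂ) * deriv ξ s) (pt (1 / 2) t) =
      (a : ℂ) * deriv ξ (pt (1 / 2) t) + (b : ℂ) * deriv (deriv ξ) (pt (1 / 2) t) :=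
    (((hξ _).hasDerivAt.const_mul _).add ((hd _).hasDerivAt.const_mul _)).deriv
  rw [logDeriv_apply, e3, e0, e1, e2, Complex.div_re]
  have n1 : normSq ((a : ℂ) * (LIN_Z ξ t : ℂ) + (b : ℂ) * -(I * (LIN_Z1 ξ t : ℂ))) =
      a ^ 2 * LIN_Z ξ t ^ 2 + b ^ 2 * LIN_Z1 ξ t ^ 2 := by
    rw [Complex.normSq_apply]
    simp
    ring
  rw [n1, ← add_div]
  congr 1
  simp
  ring

/-- the argument -/
noncomputable def LIN_th (ξ : ℂ → ℂ) (c t : ℝ) : ℝ :=
  -Real.arctan (c * LIN_Z1 ξ t / LIN_Z ξ t)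

theorem LIN_th_bd (ξ : ℂ → ℂ) (c t : ℝ) : |LIN_th ξ c t| ≤ Real.pi / 2 := by
  unfold LIN_th
  rw [abs_neg, abs_le]
  exact ⟨(Real.neg_pi_div_two_lt_arctan _).le, (Real.arctan_lt_pi_div_two _).le⟩

theorem LIN_dth (hξ : Differentiable ℂ ξ) {a b : ℝ} (ha : 0 < a) {t : ℝ}
    (ht : LIN_Z ξ t ≠ 0) : HasDerivAt (LIN_th ξ (b / a))
      (a * b * (LIN_Z1 ξ t ^ 2 - LIN_Z2 ξ t * LIN_Z ξ t) /
        (a ^ 2 * LIN_Z ξ t ^ 2 + b ^ 2 * LIN_Z1 ξ t ^ 2)) t := by
  have h1 := (((LIN_dZ1 hξ t).const_mul (b / a)).div (LIN_dZ hξ t) ht).arctan.neg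
  have e : -(1 / (1 + (b / a * LIN_Z1 ξ t / LIN_Z ξ t) ^ 2) *
      ((b / a * LIN_Z2 ξ t * LIN_Z ξ t - b / a * LIN_Z1 ξ t * LIN_Z1 ξ t) / LIN_Z ξ t ^ 2)) =
      a * b * (LIN_Z1 ξ t ^ 2 - LIN_Z2 ξ t * LIN_Z ξ t) /
        (a ^ 2 * LIN_Z ξ t ^ 2 + b ^ 2 * LIN_Z1 ξ t ^ 2) := by
    have hD : a ^ 2 * LIN_Z ξ t ^ 2 + b ^ 2 * LIN_Z1 ξ t ^ 2 ≠ 0 := by positivity
    have e1 : 1 + (b / a * LIN_Z1 ξ t / LIN_Z ξ t) ^ 2 =
        (a ^ 2 * LIN_Z ξ t ^ 2 + b ^ 2 * LIN_Z1 ξ t ^ 2) / (a ^ 2 * LIN_Z ξ t ^ 2) := by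
      field_simp
    rw [e1]
    field_simp
    ring
  rw [← e]
  exact h1

/-! ### The corrected argument -/

/-- the jump function -/
noncomputable def LIN_u (s t : ℝ) : ℝ :=
  if s < t then Real.pi else if s = t then Real.pi / 2 else 0

theorem LIN_u_nonneg (s t : ℝ) : 0 ≤ LIN_u s t := by
  have hpi := Real.pi_pos
  unfold LIN_u
  split_ifs <;> positivity

theorem LIN_u_le (s t : ℝ) : LIN_u s t ≤ Real.pi := by
  have hpi := Real.pi_pos
  unfold LIN_u
  split_ifs <;> linarith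

theorem LIN_u_meas (s : ℝ) : Measurable (LIN_u s) := by
  unfold LIN_u
  refine Measurable.ite (measurableSet_lt measurable_const measurable_id) measurable_const ?_
  exact Measurable.ite (measurableSet_eq_fun measurable_const measurable_id) measurable_const
    measurable_const

/-- the jump function is locally constant away from the jump -/
theorem LIN_u_ev {s t₀ : ℝ} (h : s ≠ t₀) : ∀ᶠ t in 𝓝 t₀, LIN_u s t = LIN_u s t₀ := by
  rcases lt_or_gt_of_ne h with h1 | h1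
  · filter_upwards [lt_mem_nhds h1] with t ht
    unfold LIN_u
    rw [if_pos ht, if_pos h1]
  · filter_upwards [gt_mem_nhds h1] with t ht
    unfold LIN_u
    rw [if_neg (not_lt.2 ht.le), if_neg ht.ne', if_neg (not_lt.2 h1.le), if_neg h1.ne']

theorem LIN_u_right {s t₀ : ℝ} : Tendsto (LIN_u s) (𝓝[>] t₀)
    (𝓝 (if s = t₀ then LIN_u s t₀ + Real.pi / 2 else LIN_u s t₀)) := by
  by_cases h : s = t₀
  · rw [if_pos h]
    subst h
    have e : LIN_u s s + Real.pi / 2 = Real.pi := by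
      unfold LIN_u
      rw [if_neg (lt_irrefl _), if_pos rfl]
      ring
    rw [e]
    refine tendsto_const_nhds.congr' ?_
    filter_upwards [self_mem_nhdsWithin] with t ht
    unfold LIN_u
    rw [if_pos (show s < t from ht)]
  · rw [if_neg h]
    refine tendsto_const_nhds.congr' ?_
    filter_upwards [nhdsWithin_le_nhds (LIN_u_ev h)] with t ht
    exact ht.symm

theorem LIN_u_left {s t₀ : ℝ} : Tendsto (LIN_u s) (𝓝[<] t₀)
    (𝓝 (if s = t₀ then LIN_u s t₀ - Real.pi / 2 else LIN_u s t₀)) := by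
  by_cases h : s = t₀
  · rw [if_pos h]
    subst h
    have e : LIN_u s s - Real.pi / 2 = 0 := by
      unfold LIN_u
      rw [if_neg (lt_irrefl _), if_pos rfl]
      ring
    rw [e]
    refine tendsto_const_nhds.congr' ?_
    filter_upwards [self_mem_nhdsWithin] with t ht
    have ht' : t < s := ht
    unfold LIN_u
    rw [if_neg (not_lt.2 ht'.le), if_neg ht'.ne']
  · rw [if_neg h]
    refine tendsto_const_nhds.congr' ?_
    filter_upwards [nhdsWithin_le_nhds (LIN_u_ev h)] with t ht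
    exact ht.symm

theorem LIN_ii {f g : ℝ → ℝ} (hf : Continuous f) (hg : Measurable g) {C : ℝ}
    (hb : ∀ t, |g t| ≤ C) (c d : ℝ) : IntervalIntegrable (fun t => f t * g t) volume c d := by
  have h1 := hf.intervalIntegrable (μ := volume) c d
  exact ⟨Integrable.mul_bdd h1.1 hg.aestronglyMeasurable (Eventually.of_forall hb),
    Integrable.mul_bdd h1.2 hg.aestronglyMeasurable (Eventually.of_forall hb)⟩

/-- the integral against the derivative of a test function -/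
theorem LIN_u_int {A B s : ℝ} (hAs : A ≤ s) (hsB : s ≤ B) {φ φ1 φ2 : ℝ → ℝ}
    (h : Tst A B φ φ1 φ2) : ∫ t in A..B, φ1 t * LIN_u s t = -(Real.pi * φ s) := by
  have hc1 : Continuous φ1 := continuous_iff_continuousAt.2 fun t => (h.d2 t).continuousAt
  have e1 : ∫ t in A..s, φ1 t * LIN_u s t = ∫ t in A..s, (0 : ℝ) := by
    refine intervalIntegral.integral_congr_ae ?_
    have h0 : ∀ᵐ t : ℝ, t ≠ s := by
      rw [ae_iff]
      simp
    filter_upwards [h0] with t ht hm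
    rw [uIoc_of_le hAs] at hm
    have h1 : t < s := lt_of_le_of_ne hm.2 ht
    unfold LIN_u
    rw [if_neg (not_lt.2 h1.le), if_neg h1.ne', mul_zero]
  have e2 : ∫ t in s..B, φ1 t * LIN_u s t = ∫ t in s..B, φ1 t * Real.pi := by
    refine intervalIntegral.integral_congr_ae ?_
    refine Filter.Eventually.of_forall fun t hm => ?_
    rw [uIoc_of_le hsB] at hm
    unfold LIN_u
    rw [if_pos hm.1]
  have hb : ∀ c d : ℝ, IntervalIntegrable (fun t => φ1 t * LIN_u s t) volume c d := by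
    intro c d
    refine LIN_ii hc1 (LIN_u_meas s) (C := Real.pi) (fun t => ?_) c d
    rw [abs_of_nonneg (LIN_u_nonneg s t)]
    exact LIN_u_le s t
  rw [← intervalIntegral.integral_add_adjacent_intervals (hb A s) (hb s B), e1, e2,
    intervalIntegral.integral_mul_const,
    intervalIntegral.integral_eq_sub_of_hasDerivAt (fun t _ => h.d1 t)
      (hc1.intervalIntegrable _ _)]
  rw [h.z0 B (by simp)]
  simp
  ring

/-! ### The theorem -/

/-- the corrected argument -/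
noncomputable def LIN_g (ξ : ℂ → ℂ) (c : ℝ) (T : Finset ℝ) (t : ℝ) : ℝ :=
  LIN_th ξ c t + ∑ s ∈ T, LIN_u s t

theorem LIN_g_bd (ξ : ℂ → ℂ) (c : ℝ) (T : Finset ℝ) (t : ℝ) :
    |LIN_g ξ c T t| ≤ Real.pi / 2 + T.card * Real.pi := by
  unfold LIN_g
  refine (abs_add_le _ _).trans (add_le_add (LIN_th_bd ξ c t) ?_)
  refine (Finset.abs_sum_le_sum_abs _ _).trans ?_
  rw [← nsmul_eq_mul]
  refine Finset.sum_le_card_nsmul _ _ _ fun s _ => ?_
  rw [abs_of_nonneg (LIN_u_nonneg s t)]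
  exact LIN_u_le s t

theorem LIN_th_meas (hξ : Differentiable ℂ ξ) (c : ℝ) : Measurable (LIN_th ξ c) := by
  have h0 : Continuous (LIN_Z ξ) := continuous_iff_continuousAt.2 fun t =>
    (LIN_dZ hξ t).continuousAt
  have h1 : Continuous (LIN_Z1 ξ) := continuous_iff_continuousAt.2 fun t =>
    (LIN_dZ1 hξ t).continuousAt
  unfold LIN_th
  exact (Real.measurable_arctan.comp ((h1.measurable.const_mul c).div h0.measurable)).neg

theorem LIN_g_meas (hξ : Differentiable ℂ ξ) (c : ℝ) (T : Finset ℝ) :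
    Measurable (LIN_g ξ c T) := by
  unfold LIN_g
  exact (LIN_th_meas hξ c).add (Finset.measurable_fun_sum _ fun s _ => LIN_u_meas s)

theorem LIN_Z_an (hξ : Differentiable ℂ ξ) (t : ℝ) : AnalyticAt ℝ (LIN_Z ξ) t := by
  have h1 : AnalyticAt ℝ ξ (pt (1 / 2) t) := (hξ.analyticAt _).restrictScalars
  have h2 : AnalyticAt ℝ (fun t : ℝ => pt (1 / 2) t) t := by
    unfold pt
    have h3 : AnalyticAt ℝ (fun t : ℝ => (t : ℂ)) t := Complex.ofRealCLM.analyticAt t
    exact analyticAt_const.add (h3.mul analyticAt_const)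
  have h4 : AnalyticAt ℝ (fun t : ℝ => ξ (pt (1 / 2) t)) t := AnalyticAt.comp h1 h2
  exact (Complex.reCLM.analyticAt _).comp h4

/-- continuity of the corrected argument -/
theorem LIN_g_cont (hξ : Differentiable ℂ ξ)
    (sym : ∀ s, ξ (1 - starRingEnd ℂ s) = starRingEnd ℂ (ξ s)) {c : ℝ} (hc : 0 < c)
    {A B : ℝ} {T : Finset ℝ} (hT : ∀ t, t ∈ T ↔ A < t ∧ t < B ∧ ξ (pt (1 / 2) t) = 0)
    {t₀ : ℝ} (h1 : A < t₀) (h2 : t₀ < B) : ContinuousAt (LIN_g ξ c T) t₀ := by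
  by_cases ht : t₀ ∈ T
  · -- a zero
    have hZ0 : LIN_Z ξ t₀ = 0 := by
      have := ((hT t₀).1 ht).2.2
      rw [LIN_real sym] at this
      exact_mod_cast this
    have hne : ¬ ∀ᶠ t in 𝓝 t₀, LIN_Z ξ t = 0 := by
      intro hev
      have h3 : ∀ᶠ t in 𝓝 t₀, t ∈ (T : Set ℝ) := by
        filter_upwards [hev, Ioo_mem_nhds h1 h2] with t h4 h5
        refine (hT t).2 ⟨h5.1, h5.2, ?_⟩
        rw [LIN_real sym, h4]
        simp
      have h6 : (T : Set ℝ) ∈ 𝓝 t₀ := h3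
      have h7 := infinite_of_mem_nhds t₀ h6
      exact h7 T.finite_toSet
    have hj := z_jump (LIN_Z_an hξ t₀) hZ0 hne hc
    have hd : deriv (LIN_Z ξ) = LIN_Z1 ξ := funext fun t => (LIN_dZ hξ t).deriv
    rw [hd] at hj
    have hth : LIN_th ξ c t₀ = 0 := by
      unfold LIN_th
      rw [hZ0, div_zero, Real.arctan_zero, neg_zero]
    have hr : Tendsto (LIN_g ξ c T) (𝓝[>] t₀) (𝓝 (LIN_g ξ c T t₀)) := by
      have h3 := hj.1.add (tendsto_finsetSum T fun s _ => LIN_u_right (s := s) (t₀ := t₀))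
      have e : -(Real.pi / 2) + ∑ s ∈ T, (if s = t₀ then LIN_u s t₀ + Real.pi / 2
          else LIN_u s t₀) = LIN_g ξ c T t₀ := by
        unfold LIN_g
        rw [hth, zero_add]
        have e1 : ∀ s ∈ T, (if s = t₀ then LIN_u s t₀ + Real.pi / 2 else LIN_u s t₀) =
            LIN_u s t₀ + if s = t₀ then Real.pi / 2 else 0 := by
          intro s _
          split_ifs <;> ring
        rw [Finset.sum_congr rfl e1, Finset.sum_add_distrib, Finset.sum_ite_eq' T t₀,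
          if_pos ht]
        ring
      rw [e] at h3
      exact h3
    have hl : Tendsto (LIN_g ξ c T) (𝓝[<] t₀) (𝓝 (LIN_g ξ c T t₀)) := by
      have h3 := hj.2.add (tendsto_finsetSum T fun s _ => LIN_u_left (s := s) (t₀ := t₀))
      have e : Real.pi / 2 + ∑ s ∈ T, (if s = t₀ then LIN_u s t₀ - Real.pi / 2
          else LIN_u s t₀) = LIN_g ξ c T t₀ := by
        unfold LIN_g
        rw [hth, zero_add]
        have e1 : ∀ s ∈ T, (if s = t₀ then LIN_u s t₀ - Real.pi / 2 else LIN_u s t₀) =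
            LIN_u s t₀ - if s = t₀ then Real.pi / 2 else 0 := by
          intro s _
          split_ifs <;> ring
        rw [Finset.sum_congr rfl e1, Finset.sum_sub_distrib, Finset.sum_ite_eq' T t₀,
          if_pos ht]
        ring
      rw [e] at h3
      exact h3
    exact continuousAt_iff_continuous_left'_right'.2 ⟨hl, hr⟩
  · -- not a zero
    have hZ0 : LIN_Z ξ t₀ ≠ 0 := by
      intro h0
      refine ht ((hT t₀).2 ⟨h1, h2, ?_⟩)
      rw [LIN_real sym, h0]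
      simp
    have h3 : ContinuousAt (LIN_th ξ c) t₀ := by
      have h4 := (LIN_dth (b := c) hξ one_pos hZ0).continuousAt
      rwa [div_one] at h4
    have h5 : ContinuousAt (fun t => ∑ s ∈ T, LIN_u s t) t₀ := by
      refine tendsto_finsetSum T fun s hs => ?_
      have hne : s ≠ t₀ := fun h => ht (h ▸ hs)
      refine tendsto_const_nhds.congr' ?_
      filter_upwards [LIN_u_ev hne] with t ht
      exact ht.symm
    exact h3.add h5

theorem z_line_pr {A B : ℝ} (hAB : A < B) {φ φ1 φ2 : ℝ → ℝ} (h : Tst A B φ φ1 φ2) {ξ : ℂ → ℂ}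
    (hξ : Differentiable ℂ ξ) (sym : ∀ s, ξ (1 - starRingEnd ℂ s) = starRingEnd ℂ (ξ s))
    {z : ℂ} (hz : ξ z ≠ 0) {a b : ℝ} (ha : 0 < a) (hb : 0 < b) {T : Finset ℝ}
    (hT : ∀ t, t ∈ T ↔ A < t ∧ t < B ∧ ξ (pt (1 / 2) t) = 0) :
    DD A B φ (fun s => (a : ℂ) * ξ s + (b : ℂ) * deriv ξ s) (1 / 2) -
        Real.pi / 2 * ∫ t in A..B, |φ1 t| ≤
      Real.pi * ∑ t ∈ T, φ t := by
  have hpi := Real.pi_pos
  have hc : 0 < b / a := div_pos hb ha
  have hcφ : Continuous φ := continuous_iff_continuousAt.2 fun t => (h.d1 t).continuousAt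
  have hc1 : Continuous φ1 := continuous_iff_continuousAt.2 fun t => (h.d2 t).continuousAt
  set H : ℂ → ℂ := fun s => (a : ℂ) * ξ s + (b : ℂ) * deriv ξ s with hH
  have hHd : Differentiable ℂ H := (hξ.const_mul _).add (hξ.deriv.const_mul _)
  have hHa : AnalyticOnNhd ℂ H (Rc (1 / 2) 1 A B) := fun s _ => hHd.analyticAt s
  -- a point where `H` does not vanish
  obtain ⟨t₁, ht₁, ht₂⟩ : ∃ t ∈ Ioo A B, t ∉ T := by
    by_contra hcon
    push Not at hcon
    exact (Ioo_infinite hAB) (T.finite_toSet.subset hcon)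
  have hξ1 : ξ (pt (1 / 2) t₁) ≠ 0 := fun h0 => ht₂ ((hT t₁).2 ⟨ht₁.1, ht₁.2, h0⟩)
  have hH1 : H (pt (1 / 2) t₁) ≠ 0 := z_Hne hξ sym ha hb hξ1
  have hmem : pt (1 / 2) t₁ ∈ Rc (1 / 2) 1 A B := by
    unfold pt Rc
    refine ⟨?_, ?_, ?_, ?_⟩ <;> simp <;> first | exact ht₁.1.le | exact ht₁.2.le | norm_num
  obtain ⟨S, hS⟩ := z_fin hHa hmem hH1
  have hiD : IntervalIntegrable (fun t => φ t * (logDeriv H (pt (1 / 2) t)).re) volume A B :=
    z_intD (by norm_num) hAB hHa hS hcφ ⟨le_rfl, by norm_num⟩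
  -- the function `g`
  set g : ℝ → ℝ := LIN_g ξ (b / a) T with hg
  set C : ℝ := Real.pi / 2 + T.card * Real.pi with hC
  have hgb : ∀ t, |g t| ≤ C := LIN_g_bd ξ (b / a) T
  have hgm : Measurable g := LIN_g_meas hξ _ T
  have hi1 : IntervalIntegrable (fun t => φ1 t * g t) volume A B := LIN_ii hc1 hgm hgb A B
  have hcont : ContinuousOn (fun t => φ t * g t) (Icc A B) := by
    intro t₀ ht₀
    apply ContinuousAt.continuousWithinAt
    by_cases hin : t₀ ∈ Ioo A B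
    · exact hcφ.continuousAt.mul (LIN_g_cont hξ sym hc hT hin.1 hin.2)
    · have h0 : φ t₀ = 0 := h.z0 t₀ hin
      have h2 : Tendsto (fun t => φ t * g t) (𝓝 t₀) (𝓝 0) := by
        have h3 : Tendsto (fun t => |φ t| * C) (𝓝 t₀) (𝓝 0) := by
          have h4 := (hcφ.abs.tendsto t₀).mul_const C
          rw [h0, abs_zero, zero_mul] at h4
          exact h4
        refine squeeze_zero_norm (fun t => ?_) h3
        rw [Real.norm_eq_abs, abs_mul]
        exact mul_le_mul_of_nonneg_left (hgb t) (abs_nonneg _)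
      show Tendsto _ _ (𝓝 (φ t₀ * g t₀))
      rw [h0, zero_mul]
      exact h2
  have hder : ∀ t ∈ Ioo A B \ (T : Set ℝ), HasDerivAt (fun t => φ t * g t)
      (φ1 t * g t + φ t * (logDeriv H (pt (1 / 2) t)).re) t := by
    rintro t ⟨ht, htT⟩
    have hZ0 : LIN_Z ξ t ≠ 0 := by
      intro h0
      refine htT ((hT t).2 ⟨ht.1, ht.2, ?_⟩)
      rw [LIN_real sym, h0]
      simp
    have h3 := LIN_dth (b := b) hξ ha hZ0
    have h4 : HasDerivAt g (logDeriv H (pt (1 / 2) t)).re t := by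
      rw [hH, LIN_log hξ sym a b t]
      refine (h3.add_const (∑ s ∈ T, LIN_u s t)).congr_of_eventuallyEq ?_
      have h5 : ∀ᶠ t' in 𝓝 t, ∀ s ∈ T, LIN_u s t' = LIN_u s t := by
        rw [Filter.eventually_all_finset]
        intro s hs
        exact LIN_u_ev fun h => htT (h ▸ hs)
      filter_upwards [h5] with t' ht'
      show LIN_th ξ (b / a) t' + ∑ s ∈ T, LIN_u s t' = _
      rw [Finset.sum_congr rfl ht']
    exact (h.d1 t).mul h4
  have hFTC := MeasureTheory.integral_eq_of_hasDerivAt_off_countable_of_le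
    (fun t => φ t * g t) (fun t => φ1 t * g t + φ t * (logDeriv H (pt (1 / 2) t)).re)
    hAB.le T.countable_toSet hcont hder (hi1.add hiD)
  rw [intervalIntegral.integral_add hi1 hiD, h.z0 A (by simp), h.z0 B (by simp), zero_mul,
    zero_mul, sub_zero] at hFTC
  -- the value of the integral against `φ1`
  have hiθ : IntervalIntegrable (fun t => φ1 t * LIN_th ξ (b / a) t) volume A B :=
    LIN_ii hc1 (LIN_th_meas hξ _) (LIN_th_bd ξ (b / a)) A B
  have hiu : ∀ s ∈ T, IntervalIntegrable (fun t => φ1 t * LIN_u s t) volume A B := by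
    intro s _
    refine LIN_ii hc1 (LIN_u_meas s) (C := Real.pi) (fun t => ?_) A B
    rw [abs_of_nonneg (LIN_u_nonneg s t)]
    exact LIN_u_le s t
  have hval : ∫ t in A..B, φ1 t * g t = (∫ t in A..B, φ1 t * LIN_th ξ (b / a) t) -
      Real.pi * ∑ s ∈ T, φ s := by
    have e1 : ∀ t, φ1 t * g t = φ1 t * LIN_th ξ (b / a) t + ∑ s ∈ T, φ1 t * LIN_u s t := by
      intro t
      show φ1 t * (LIN_th ξ (b / a) t + ∑ s ∈ T, LIN_u s t) = _
      rw [mul_add, Finset.mul_sum]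
    simp only [e1]
    rw [intervalIntegral.integral_add hiθ
      (by
        have := IntervalIntegrable.sum T hiu
        refine this.congr fun t _ => ?_
        simp),
      intervalIntegral.integral_finsetSum hiu, Finset.mul_sum, sub_eq_add_neg,
      ← Finset.sum_neg_distrib]
    congr 1
    refine Finset.sum_congr rfl fun s hs => ?_
    have h3 := (hT s).1 hs
    exact LIN_u_int h3.1.le h3.2.1.le h
  have hbd : -(∫ t in A..B, φ1 t * LIN_th ξ (b / a) t) ≤ Real.pi / 2 * ∫ t in A..B, |φ1 t| := by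
    rw [← intervalIntegral.integral_neg, ← intervalIntegral.integral_const_mul]
    refine intervalIntegral.integral_mono_on hAB.le hiθ.neg
      ((hc1.abs.intervalIntegrable _ _).const_mul _) fun t _ => ?_
    have h3 := LIN_th_bd ξ (b / a) t
    calc -(φ1 t * LIN_th ξ (b / a) t) ≤ |φ1 t * LIN_th ξ (b / a) t| := neg_le_abs _
      _ = |φ1 t| * |LIN_th ξ (b / a) t| := abs_mul _ _
      _ ≤ |φ1 t| * (Real.pi / 2) := mul_le_mul_of_nonneg_left h3 (abs_nonneg _)
      _ = Real.pi / 2 * |φ1 t| := by ring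
  have hDD : DD A B φ H (1 / 2) = ∫ t in A..B, φ t * (logDeriv H (pt (1 / 2) t)).re := rfl
  rw [hDD]
  rw [hval] at hFTC
  linarith

end


end Pool.Agent.LVK

namespace Pool.Agent.LVK

theorem z_line : type_of% @z_line_pr := @z_line_pr

end Pool.Agent.LVK
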