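import Pool.Agent.Lib_helper39.LVK.DefsZ
import Pool.Agent.Lib_helper39.LVZ.FRE
import Pool.Agent.Lib_helper39.LVZ.ONC
import Pool.Agent.Lib_helper39.LVZ.ONE
import Pool.Agent.Lib_helper39.LVZ.ONL

/-!
# LVK part Z, block ONW: the weighted formula for one linear factor
-/

namespace Pool.Agent.LVK

open Complex MeasureTheory Set Filter Topology
open scoped ENNReal

/-- the formula of `z_free` for a linear factor without zero in the rectangle -/
theorem ONW_free {A B : ℝ} (hAB : A < B) {φ φ1 φ2 : ℝ → ℝ} (h : Tst A B φ φ1 φ2) (ρ : ℂ)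
    {a b : ℝ} (hab : a < b) (hρ : ρ.re < a ∨ b < ρ.re) :
    JJ A B φ (fun s => s - ρ) a - JJ A B φ (fun s => s - ρ) b +
        (b - a) * DD A B φ (fun s => s - ρ) b +
        ∫ σ in a..b, (σ - a) * JJ A B φ2 (fun s => s - ρ) σ = 0 := by
  have hG : AnalyticOnNhd ℂ (fun s : ℂ => s - ρ) (Rc a b A B) := fun z _ => by fun_prop
  have h0 : ∀ z ∈ Rc a b A B, (fun s : ℂ => s - ρ) z ≠ 0 := by
    rintro z ⟨h1, h2, -, -⟩ hz
    have h3 : z = ρ := sub_eq_zero.mp hz
    rw [h3] at h1 h2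
    rcases hρ with h4 | h4 <;> linarith
  exact (z_free hab hAB h hG h0).2.2

theorem ONW_int {K : ℝ → ℝ} (hK : Continuous K) (a b : ℝ) :
    ∫ σ in a..b, (σ - a) * K σ = ((∫ σ in (0 : ℝ)..b, σ * K σ) - ∫ σ in (0 : ℝ)..a, σ * K σ) -
      a * ((∫ σ in (0 : ℝ)..b, K σ) - ∫ σ in (0 : ℝ)..a, K σ) := by
  have h1 : ∀ x y : ℝ, IntervalIntegrable (fun σ => σ * K σ) volume x y := fun x y =>
    (continuous_id.mul hK).intervalIntegrable x y
  have h2 : ∀ x y : ℝ, IntervalIntegrable K volume x y := fun x y => hK.intervalIntegrable x y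
  rw [intervalIntegral.integral_interval_sub_left (h1 0 b) (h1 0 a),
    intervalIntegral.integral_interval_sub_left (h2 0 b) (h2 0 a),
    ← intervalIntegral.integral_const_mul, ← intervalIntegral.integral_sub (h1 a b)
      ((h2 a b).const_mul a)]
  refine intervalIntegral.integral_congr fun σ _ => ?_
  ring

theorem z_onew_pr {A B : ℝ} (hAB : A < B) {φ φ1 φ2 : ℝ → ℝ} (h : Tst A B φ φ1 φ2) (ρ : ℂ)
    {s1 s2 : ℝ} (hs : s1 < s2) (hρ : ρ.re < s2) :
    JJ A B φ (fun s => s - ρ) s1 - JJ A B φ (fun s => s - ρ) s2 +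
        (s2 - s1) * DD A B φ (fun s => s - ρ) s2 +
        ∫ σ in s1..s2, (σ - s1) * JJ A B φ2 (fun s => s - ρ) σ =
      2 * Real.pi * (max (ρ.re - s1) 0 * φ ρ.im) := by
  have hφ : Continuous φ := continuous_iff_continuousAt.mpr fun t => (h.d1 t).continuousAt
  have hJ := z_one_cont hAB hφ ρ
  have hK := z_one_cont hAB h.c2 ρ
  have hfree : ∀ a b : ℝ, a < b → (ρ.re < a ∨ b < ρ.re) → _ := fun a b => ONW_free hAB h ρ
  obtain ⟨-, hlim, hD0⟩ := z_one_lim hAB h ρ
  have hone := z_one hAB h ρ hρ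
  simp only [ONW_int hK] at hfree ⊢
  set J := JJ A B φ (fun s => s - ρ) with hJd
  set K := JJ A B φ2 (fun s => s - ρ) with hKd
  set D := DD A B φ (fun s => s - ρ) with hDd
  set β := ρ.re with hβ
  set P1 : ℝ → ℝ := fun x => ∫ σ in (0 : ℝ)..x, σ * K σ with hP1
  set P0 : ℝ → ℝ := fun x => ∫ σ in (0 : ℝ)..x, K σ with hP0
  have cP1 : Continuous P1 :=
    intervalIntegral.continuous_primitive
      (fun x y => (continuous_id.mul hK).intervalIntegrable x y) 0
  have cP0 : Continuous P0 :=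
    intervalIntegral.continuous_primitive (fun x y => hK.intervalIntegrable x y) 0
  change J s1 - J s2 + (s2 - s1) * D s2 + (P1 s2 - P1 s1 - s1 * (P0 s2 - P0 s1)) =
    2 * Real.pi * (max (β - s1) 0 * φ ρ.im)
  -- the formula on the right of the zero, up to the zero
  have hright : J β - J s2 + (s2 - β) * D s2 + (P1 s2 - P1 β - β * (P0 s2 - P0 β)) = 0 := by
    have hc : Continuous (fun a : ℝ =>
        J a - J s2 + (s2 - a) * D s2 + (P1 s2 - P1 a - a * (P0 s2 - P0 a))) := by fun_prop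
    have h1 : Tendsto (fun a : ℝ =>
        J a - J s2 + (s2 - a) * D s2 + (P1 s2 - P1 a - a * (P0 s2 - P0 a))) (𝓝[>] β)
        (𝓝 (J β - J s2 + (s2 - β) * D s2 + (P1 s2 - P1 β - β * (P0 s2 - P0 β)))) :=
      (hc.tendsto β).mono_left nhdsWithin_le_nhds
    have h2 : (fun a : ℝ =>
        J a - J s2 + (s2 - a) * D s2 + (P1 s2 - P1 a - a * (P0 s2 - P0 a))) =ᶠ[𝓝[>] β]
        fun _ => 0 := by
      filter_upwards [Ioo_mem_nhdsGT hρ] with a ha
      exact hfree a s2 ha.2 (Or.inl ha.1)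
    exact tendsto_nhds_unique (h1.congr' h2) tendsto_const_nhds
  rcases lt_trichotomy β s1 with hlt | heq | hgt
  · have h1 : J s1 - J s2 + (s2 - s1) * D s2 + (P1 s2 - P1 s1 - s1 * (P0 s2 - P0 s1)) = 0 :=
      hfree s1 s2 hs (Or.inl hlt)
    rw [max_eq_right (by linarith), h1]
    ring
  · rw [← heq, sub_self, max_self, hright]
    ring
  · -- the formula on the left of the zero, up to the zero
    have hleft : J s1 - J β + (β - s1) * (-(Real.pi * φ ρ.im)) +
        (P1 β - P1 s1 - s1 * (P0 β - P0 s1)) = 0 := by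
      have h1 : Tendsto (fun b : ℝ =>
          J s1 - J b + (b - s1) * D b + (P1 b - P1 s1 - s1 * (P0 b - P0 s1))) (𝓝[<] β)
          (𝓝 (J s1 - J β + (β - s1) * (-(Real.pi * φ ρ.im)) +
            (P1 β - P1 s1 - s1 * (P0 β - P0 s1)))) := by
        have hm : ∀ {f : ℝ → ℝ}, Continuous f → Tendsto f (𝓝[<] β) (𝓝 (f β)) := fun hf =>
          (hf.tendsto β).mono_left nhdsWithin_le_nhds
        have e1 : Tendsto (fun b : ℝ => J s1 - J b) (𝓝[<] β) (𝓝 (J s1 - J β)) :=
          hm (f := fun b => J s1 - J b) (by fun_prop)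
        have e2 : Tendsto (fun b : ℝ => b - s1) (𝓝[<] β) (𝓝 (β - s1)) :=
          hm (f := fun b => b - s1) (by fun_prop)
        have e3 : Tendsto (fun b : ℝ => P1 b - P1 s1 - s1 * (P0 b - P0 s1)) (𝓝[<] β)
            (𝓝 (P1 β - P1 s1 - s1 * (P0 β - P0 s1))) :=
          hm (f := fun b => P1 b - P1 s1 - s1 * (P0 b - P0 s1)) (by fun_prop)
        exact (e1.add (e2.mul hlim)).add e3
      have h2 : (fun b : ℝ =>
          J s1 - J b + (b - s1) * D b + (P1 b - P1 s1 - s1 * (P0 b - P0 s1))) =ᶠ[𝓝[<] β]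
          fun _ => 0 := by
        filter_upwards [Ioo_mem_nhdsLT hgt] with b hb
        exact hfree s1 b hb.1 (Or.inr hb.2)
      exact tendsto_nhds_unique (h1.congr' h2) tendsto_const_nhds
    -- the value of `D` at `s2`
    have hD : D s2 = Real.pi * φ ρ.im - (P0 s2 - P0 β) := by
      have h1 : (∫ σ in β..s2, K σ) = P0 s2 - P0 β := by
        rw [hP0]
        exact (intervalIntegral.integral_interval_sub_left (hK.intervalIntegrable 0 s2)
          (hK.intervalIntegrable 0 β)).symm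
      rw [h1, hD0, sub_self, Real.sign_zero, Real.sign_of_pos (by linarith)] at hone
      linarith
    rw [max_eq_left (by linarith)]
    have h3 : P0 s2 - P0 β = Real.pi * φ ρ.im - D s2 := by linarith
    have h4 : P0 s2 = P0 β + (Real.pi * φ ρ.im - D s2) := by linarith
    rw [h4] at hright ⊢
    linear_combination hright + hleft

end Pool.Agent.LVK

namespace Pool.Agent.LVK

theorem z_onew : type_of% @z_onew_pr := @z_onew_pr

end Pool.Agent.LVK
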