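import Pool.Agent.Lib_helper39.LVK.DefsZ

namespace Pool.Agent.LVK

open Complex MeasureTheory Set Filter Topology
open scoped ENNReal

theorem TST_of {φ : ℝ → ℝ} (hφ : ContDiff ℝ 2 φ) (h0 : ∀ t, 0 ≤ φ t) {A B a b : ℝ}
    (ha : A < a) (hb : b < B) (hs : ∀ t, t ∉ Icc a b → φ t = 0) :
    Tst A B φ (deriv φ) (deriv (deriv φ)) := by
  have h1 : ContDiff ℝ 1 (deriv φ) := by
    have e : (2 : WithTop ℕ∞) = 1 + 1 := one_add_one_eq_two.symm
    rw [e] at hφ
    exact (contDiff_succ_iff_deriv.1 hφ).2.2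
  have h2 : ContDiff ℝ 0 (deriv (deriv φ)) := by
    have e : (1 : WithTop ℕ∞) = 0 + 1 := (zero_add 1).symm
    rw [e] at h1
    exact (contDiff_succ_iff_deriv.1 h1).2.2
  have key : ∀ t, t ∉ Ioo A B → φ =ᶠ[𝓝 t] fun _ => 0 := by
    intro t ht
    have : t ∈ (Icc a b)ᶜ := by
      intro h
      exact ht ⟨ha.trans_le h.1, h.2.trans_lt hb⟩
    filter_upwards [isClosed_Icc.isOpen_compl.mem_nhds this] with u hu
    exact hs u hu
  have key1 : ∀ t, t ∉ Ioo A B → deriv φ =ᶠ[𝓝 t] fun _ => 0 := by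
    intro t ht
    have := (key t ht).deriv
    simpa using this
  refine ⟨fun t => ?_, fun t => ?_, h2.continuous, h0, fun t ht => (key t ht).eq_of_nhds,
    fun t ht => (key1 t ht).eq_of_nhds, fun t ht => ?_⟩
  · exact (hφ.differentiable (by norm_num) t).hasDerivAt
  · exact (h1.differentiable (by norm_num) t).hasDerivAt
  · rw [(key1 t ht).deriv_eq]
    simp

theorem z_tst_pr {x1 x2 η : ℝ} (hx : x1 < x2) (hη : 0 < η) (hη1 : η < 1) :
    ∃ φ φ1 φ2 : ℝ → ℝ, Tst x1 x2 φ φ1 φ2 ∧ (∀ t, φ t ≤ 1) ∧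
      (x2 - x1) * (1 - η) ≤ ∫ t in x1..x2, φ t := by
  set c : ℝ := (x1 + x2) / 2 with hc
  set l : ℝ := (x2 - x1) / 2 with hl
  have hl0 : 0 < l := by rw [hl]; linarith
  have hr1 : 0 < l * (1 - η) := mul_pos hl0 (by linarith)
  have hr2 : l * (1 - η) < l * (1 - η / 2) := mul_lt_mul_of_pos_left (by linarith) hl0
  have hr3 : l * (1 - η / 2) < l := by nlinarith
  let f : ContDiffBump c := ⟨l * (1 - η), l * (1 - η / 2), hr1, hr2⟩
  have hfs : ∀ t, t ∉ Icc (c - l * (1 - η / 2)) (c + l * (1 - η / 2)) → f t = 0 := by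
    intro t ht
    apply f.zero_of_le_dist
    show l * (1 - η / 2) ≤ dist t c
    rw [Real.dist_eq]
    by_contra hcon
    rw [not_le, abs_lt] at hcon
    exact ht ⟨by linarith [hcon.1], by linarith [hcon.2]⟩
  refine ⟨f, deriv f, deriv (deriv f), TST_of f.contDiff (fun t => f.nonneg)
    (a := c - l * (1 - η / 2)) (b := c + l * (1 - η / 2)) (by linarith) (by linarith) hfs,
    fun t => f.le_one, ?_⟩
  have hcont : Continuous f := f.continuous
  have e1 : ∫ t in (c - l * (1 - η))..(c + l * (1 - η)), f t ≤ ∫ t in x1..x2, f t := by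
    apply intervalIntegral.integral_mono_interval
    · linarith
    · linarith
    · linarith
    · exact Filter.Eventually.of_forall fun t => f.nonneg
    · exact hcont.intervalIntegrable _ _
  have e2 : ∫ t in (c - l * (1 - η))..(c + l * (1 - η)), f t =
      ∫ t in (c - l * (1 - η))..(c + l * (1 - η)), (1 : ℝ) := by
    apply intervalIntegral.integral_congr
    intro t ht
    rw [uIcc_of_le (by linarith)] at ht
    apply f.one_of_mem_closedBall
    rw [Metric.mem_closedBall, Real.dist_eq, abs_le]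
    exact ⟨by show -(l * (1 - η)) ≤ _; linarith [ht.1], by show _ ≤ l * (1 - η); linarith [ht.2]⟩
  rw [e2, intervalIntegral.integral_const, smul_eq_mul] at e1
  have e3 : (c + l * (1 - η) - (c - l * (1 - η))) * 1 = (x2 - x1) * (1 - η) := by
    rw [hl]; ring
  linarith

theorem z_tst'_pr {x1 x2 η : ℝ} (hx : x1 < x2) (hη : 0 < η) :
    ∃ φ φ1 φ2 : ℝ → ℝ, Tst (x1 - η) (x2 + η) φ φ1 φ2 ∧ (∀ t, φ t ≤ 1) ∧
      ∀ t ∈ Icc x1 x2, φ t = 1 := by
  set c : ℝ := (x1 + x2) / 2 with hc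
  set l : ℝ := (x2 - x1) / 2 with hl
  have hl0 : 0 < l := by rw [hl]; linarith
  have hr2 : l < l + η / 2 := by linarith
  let f : ContDiffBump c := ⟨l, l + η / 2, hl0, hr2⟩
  have hfs : ∀ t, t ∉ Icc (c - (l + η / 2)) (c + (l + η / 2)) → f t = 0 := by
    intro t ht
    apply f.zero_of_le_dist
    show l + η / 2 ≤ dist t c
    rw [Real.dist_eq]
    by_contra hcon
    rw [not_le, abs_lt] at hcon
    exact ht ⟨by linarith [hcon.1], by linarith [hcon.2]⟩
  refine ⟨f, deriv f, deriv (deriv f), TST_of f.contDiff (fun t => f.nonneg)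
    (a := c - (l + η / 2)) (b := c + (l + η / 2)) (by linarith) (by linarith) hfs,
    fun t => f.le_one, ?_⟩
  intro t ht
  apply f.one_of_mem_closedBall
  rw [Metric.mem_closedBall, Real.dist_eq, abs_le]
  exact ⟨by show -l ≤ _; linarith [ht.1], by show _ ≤ l; linarith [ht.2]⟩

end Pool.Agent.LVK

namespace Pool.Agent.LVK

theorem z_tst : type_of% @z_tst_pr := @z_tst_pr
theorem z_tst' : type_of% @z_tst'_pr := @z_tst'_pr

end Pool.Agent.LVK
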