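import Pool.Agent.Lib_helper39.LVK.DefsZ

namespace Pool.Agent.LVK

open Complex MeasureTheory Set Filter Topology
open scoped ENNReal

theorem GMW_open : IsOpen {s : ℂ | 0 < s.re} := isOpen_lt continuous_const Complex.continuous_re

theorem GMW_anL {d : LDat} {calL C0 s2 T : ℝ} (hd : d.Ok calL C0 s2 T) {s : ℂ}
    (hs : 0 < s.re) : AnalyticAt ℂ d.gm s ∧ AnalyticAt ℂ d.L s := by
  have hn : {s : ℂ | 0 < s.re} ∈ 𝓝 s := GMW_open.mem_nhds hs
  have h1 : AnalyticAt ℂ d.gm s := hd.dgm.analyticAt hn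
  refine ⟨h1, ?_⟩
  have h2 : AnalyticAt ℂ (fun z => d.ξ z / d.gm z) s :=
    (hd.dxi.analyticAt s).div h1 (hd.gm0 s hs)
  refine h2.congr ?_
  filter_upwards [hn] with z hz
  have hz' : 0 < z.re := hz
  rw [hd.fac z hz', mul_comm, mul_div_assoc, div_self (hd.gm0 z hz'), mul_one]

theorem z_an_pr {d : LDat} {calL C0 s2 T lam : ℝ} (hd : d.Ok calL C0 s2 T) {s : ℂ}
    (hs : 0 < s.re) : AnalyticAt ℂ d.gm s ∧ AnalyticAt ℂ d.L s ∧ AnalyticAt ℂ d.M s ∧
      AnalyticAt ℂ (d.V lam calL) s ∧ AnalyticAt ℂ (d.W lam calL) s := by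
  obtain ⟨h1, h2⟩ := GMW_anL hd hs
  have h3 : AnalyticAt ℂ (d.V lam calL) s := by
    unfold LDat.V
    exact h2.add (analyticAt_const.mul h2.deriv)
  refine ⟨h1, h2, hd.dM.analyticAt s, h3, ?_⟩
  unfold LDat.W
  refine h3.add ((analyticAt_const.mul (AnalyticAt.sub ?_ analyticAt_const)).mul h2)
  unfold logDeriv
  exact h1.deriv.div h1 (hd.gm0 s hs)

theorem z_gmW_pr {d : LDat} {calL C0 s2 T lam : ℝ} (hd : d.Ok calL C0 s2 T) (hcal : 0 < calL)
    {s : ℂ} (hs : 0 < s.re) : d.gm s * d.W lam calL s = d.H lam calL s := by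
  obtain ⟨h1, h2⟩ := GMW_anL hd hs
  have hg := hd.gm0 s hs
  have hn : {s : ℂ | 0 < s.re} ∈ 𝓝 s := GMW_open.mem_nhds hs
  have h3 : deriv d.ξ s = deriv d.gm s * d.L s + d.gm s * deriv d.L s := by
    have h4 : d.ξ =ᶠ[𝓝 s] fun z => d.gm z * d.L z := by
      filter_upwards [hn] with z hz
      exact hd.fac z hz
    rw [h4.deriv_eq, deriv_fun_mul h1.differentiableAt h2.differentiableAt]
  have hc : (calL : ℂ) ≠ 0 := by exact_mod_cast hcal.ne'
  unfold LDat.W LDat.V LDat.H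
  rw [h3, hd.fac s hs, logDeriv_apply]
  push_cast
  field_simp
  ring

end Pool.Agent.LVK

namespace Pool.Agent.LVK

theorem z_gmW : type_of% @z_gmW_pr := @z_gmW_pr
theorem z_an : type_of% @z_an_pr := @z_an_pr

end Pool.Agent.LVK
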