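import Pool.Agent.Lib_helper39.LVK.DefsZ
import Pool.Agent.Lib_helper39.LVZ.GMW

/-!
# LVK part Z, block IND: individual estimates
-/

namespace Pool.Agent.LVK

open Complex MeasureTheory Set Filter Topology
open scoped ENNReal

theorem IND_cauchy {f : ℂ → ℂ} {c a : ℂ} {C : ℝ}
    (hd : ∀ z ∈ Metric.closedBall c (1 / 2), AnalyticAt ℂ f z)
    (hC : ∀ z ∈ Metric.closedBall c (1 / 2), ‖f z - a‖ ≤ C) : ‖deriv f c‖ ≤ C / (1 / 2) := by
  have h1 : deriv f c = deriv (fun z => f z - a) c := by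
    rw [deriv_sub_const]
  rw [h1]
  refine Complex.norm_deriv_le_of_forall_mem_sphere_norm_le (by norm_num) ?_ ?_
  · have hdo : DifferentiableOn ℂ (fun z => f z - a) (Metric.closedBall c (1 / 2)) := by
      intro z hz
      exact ((hd z hz).differentiableAt.sub_const a).differentiableWithinAt
    exact hdo.diffContOnCl_ball le_rfl
  · intro z hz
    exact hC z (Metric.sphere_subset_closedBall hz)

theorem IND_ball {c z : ℂ} (hz : z ∈ Metric.closedBall c (1 / 2)) :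
    |z.re - c.re| ≤ 1 / 2 ∧ |z.im - c.im| ≤ 1 / 2 := by
  rw [Metric.mem_closedBall, Complex.dist_eq] at hz
  constructor
  · rw [← sub_re]
    exact (abs_re_le_norm _).trans hz
  · rw [← sub_im]
    exact (abs_im_le_norm _).trans hz

theorem IND_small {calL C0 s2 T lam R : ℝ} (hp : Par calL C0 s2 T lam R) :
    0 < calL ∧ lam / calL ≤ 1 / 50 ∧ 0 < lam / calL ∧ lam * C0 / calL ≤ 1 / 50 ∧
      0 ≤ lam * C0 / calL := by
  have h1 := hp.lam_pos
  have h2 := hp.lam_lt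
  have h3 := hp.C0_nonneg
  have h4 := hp.le_calL'
  have h5 : 0 < calL := by linarith
  refine ⟨h5, ?_, by positivity, ?_, by positivity⟩
  · rw [div_le_iff₀ h5]
    linarith
  · rw [div_le_iff₀ h5]
    nlinarith

theorem IND_L {d : LDat} {calL C0 s2 T lam R : ℝ} (hd : d.Ok calL C0 s2 T)
    (hp : Par calL C0 s2 T lam R) {s : ℂ} (h1 : s2 - 1 / 2 ≤ s.re) :
    ‖deriv d.L s‖ ≤ 1 / 8 := by
  have h := IND_cauchy (f := d.L) (c := s) (a := 1) (C := 1 / 16) ?_ ?_
  · norm_num at h ⊢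
    exact h
  · intro z hz
    have hre := abs_le.mp (IND_ball hz).1
    exact (z_an (lam := lam) hd (s := z) (by have := hp.two_le_s2; linarith)).2.1
  · intro z hz
    have hre := abs_le.mp (IND_ball hz).1
    exact hd.rL z (by linarith)

theorem z_near_pr {d : LDat} {calL C0 s2 T lam R : ℝ} (hd : d.Ok calL C0 s2 T)
    (hp : Par calL C0 s2 T lam R) {s : ℂ} (h1 : s2 - 1 / 2 ≤ s.re) (h2 : s.re ≤ 2 * s2)
    (h3 : |s.im| ≤ T) :
    ‖d.V lam calL s - 1‖ ≤ 1 / 8 ∧ ‖d.W lam calL s - 1‖ ≤ 1 / 8 ∧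
      ‖d.W lam calL s * d.M s - 1‖ ≤ 1 / 4 := by
  obtain ⟨hc, ha, ha0, hb, hb0⟩ := IND_small hp
  have hs2 := hp.two_le_s2
  have hL := hd.rL s (by linarith)
  have hM := hd.rM s (by linarith)
  have hL' := IND_L hd hp h1
  have hg := hd.g s (by linarith) h2 h3
  have nL : ‖d.L s‖ ≤ 17 / 16 := by
    have := norm_sub_norm_le (d.L s) 1
    rw [norm_one] at this
    linarith
  have nM : ‖d.M s‖ ≤ 17 / 16 := by
    have := norm_sub_norm_le (d.M s) 1
    rw [norm_one] at this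
    linarith
  have na : ‖((lam / calL : ℝ) : ℂ)‖ = lam / calL := by
    rw [norm_real, Real.norm_eq_abs, abs_of_pos ha0]
  have n1 : ‖((lam / calL : ℝ) : ℂ) * deriv d.L s‖ ≤ 1 / 400 := by
    rw [norm_mul, na]
    have : lam / calL * ‖deriv d.L s‖ ≤ 1 / 50 * (1 / 8) :=
      mul_le_mul ha hL' (norm_nonneg _) (by norm_num)
    linarith
  have n2 : ‖((lam / calL : ℝ) : ℂ) * (logDeriv d.gm s - ((calL / 2 : ℝ) : ℂ)) * d.L s‖ ≤
      17 / 800 := by
    rw [norm_mul, norm_mul, na]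
    have e1 : lam / calL * ‖logDeriv d.gm s - ((calL / 2 : ℝ) : ℂ)‖ ≤ 1 / 50 := by
      have : lam / calL * ‖logDeriv d.gm s - ((calL / 2 : ℝ) : ℂ)‖ ≤ lam / calL * C0 :=
        mul_le_mul_of_nonneg_left hg ha0.le
      have e : lam / calL * C0 = lam * C0 / calL := by ring
      linarith
    have : lam / calL * ‖logDeriv d.gm s - ((calL / 2 : ℝ) : ℂ)‖ * ‖d.L s‖ ≤
        1 / 50 * (17 / 16) := mul_le_mul e1 nL (norm_nonneg _) (by norm_num)
    linarith
  have hV : ‖d.V lam calL s - 1‖ ≤ 1 / 16 + 1 / 400 := by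
    have e : d.V lam calL s - 1 = (d.L s - 1) + ((lam / calL : ℝ) : ℂ) * deriv d.L s := by
      unfold LDat.V; ring
    rw [e]
    exact (norm_add_le _ _).trans (add_le_add hL n1)
  have hW : ‖d.W lam calL s - 1‖ ≤ 1 / 8 := by
    have e : d.W lam calL s - 1 = (d.V lam calL s - 1) +
        ((lam / calL : ℝ) : ℂ) * (logDeriv d.gm s - ((calL / 2 : ℝ) : ℂ)) * d.L s := by
      unfold LDat.W; ring
    rw [e]
    refine (norm_add_le _ _).trans ?_
    linarith
  refine ⟨by linarith, hW, ?_⟩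
  have e : d.W lam calL s * d.M s - 1 = (d.W lam calL s - 1) * d.M s + (d.M s - 1) := by ring
  rw [e]
  refine (norm_add_le _ _).trans ?_
  rw [norm_mul]
  have : ‖d.W lam calL s - 1‖ * ‖d.M s‖ ≤ 1 / 8 * (17 / 16) :=
    mul_le_mul hW nM (norm_nonneg _) (by norm_num)
  linarith

theorem z_nearD_pr {d : LDat} {calL C0 s2 T lam R : ℝ} (hd : d.Ok calL C0 s2 T)
    (hp : Par calL C0 s2 T lam R) {t : ℝ} (ht : |t| ≤ T - 1 / 2) :
    ‖logDeriv (d.W lam calL) (pt s2 t)‖ ≤ 1 ∧ ‖logDeriv d.L (pt s2 t)‖ ≤ 1 := by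
  have hs2 := hp.two_le_s2
  have hre : (pt s2 t).re = s2 := by simp [pt]
  have him : (pt s2 t).im = t := by simp [pt]
  have ht' := abs_le.mp ht
  have hin : ∀ z ∈ Metric.closedBall (pt s2 t) (1 / 2), s2 - 1 / 2 ≤ z.re ∧ z.re ≤ 2 * s2 ∧
      |z.im| ≤ T := by
    intro z hz
    obtain ⟨r1, r2⟩ := IND_ball hz
    rw [hre] at r1
    rw [him] at r2
    have r1' := abs_le.mp r1
    have r2' := abs_le.mp r2
    exact ⟨by linarith, by linarith, abs_le.mpr ⟨by linarith, by linarith⟩⟩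
  have hT : |(pt s2 t).im| ≤ T := by
    rw [him]
    linarith
  have hW := (z_near_pr hd hp (s := pt s2 t) (by rw [hre]; linarith) (by rw [hre]; linarith)
    hT).2.1
  have hW' := IND_cauchy (f := d.W lam calL) (c := pt s2 t) (a := 1) (C := 1 / 8)
    (fun z hz => (z_an hd (s := z) (by linarith [(hin z hz).1])).2.2.2.2)
    (fun z hz => (z_near_pr hd hp (hin z hz).1 (hin z hz).2.1 (hin z hz).2.2).2.1)
  have hL := hd.rL (pt s2 t) (by rw [hre]; linarith)
  have hL' := IND_L hd hp (s := pt s2 t) (by rw [hre]; linarith)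
  have nW : 7 / 8 ≤ ‖d.W lam calL (pt s2 t)‖ := by
    have := norm_sub_norm_le (1 : ℂ) (d.W lam calL (pt s2 t))
    rw [norm_one, norm_sub_rev] at this
    linarith
  have nL : 15 / 16 ≤ ‖d.L (pt s2 t)‖ := by
    have := norm_sub_norm_le (1 : ℂ) (d.L (pt s2 t))
    rw [norm_one, norm_sub_rev] at this
    linarith
  constructor
  · rw [logDeriv_apply, norm_div, div_le_one (by linarith)]
    norm_num at hW'
    linarith
  · rw [logDeriv_apply, norm_div, div_le_one (by linarith)]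
    linarith

theorem z_WV_pr {d : LDat} {calL C0 s2 T lam R : ℝ} (hd : d.Ok calL C0 s2 T)
    (hp : Par calL C0 s2 T lam R) {s : ℂ} (h1 : 1 / 4 ≤ s.re) (h2 : s.re ≤ 2 * s2)
    (h3 : |s.im| ≤ T) :
    ‖d.W lam calL s * d.M s - d.V lam calL s * d.M s‖ ≤
      lam * C0 / calL * ‖d.L s * d.M s‖ ∧
    ‖d.W lam calL s‖ ≤ (1 + lam * C0 / calL) * ‖d.L s‖ + lam / calL * ‖deriv d.L s‖ := by
  obtain ⟨hc, ha, ha0, hb, hb0⟩ := IND_small hp
  have hg := hd.g s h1 h2 h3
  have na : ‖((lam / calL : ℝ) : ℂ)‖ = lam / calL := by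
    rw [norm_real, Real.norm_eq_abs, abs_of_pos ha0]
  have e1 : lam / calL * ‖logDeriv d.gm s - ((calL / 2 : ℝ) : ℂ)‖ ≤ lam * C0 / calL := by
    have : lam / calL * ‖logDeriv d.gm s - ((calL / 2 : ℝ) : ℂ)‖ ≤ lam / calL * C0 :=
      mul_le_mul_of_nonneg_left hg ha0.le
    have e : lam / calL * C0 = lam * C0 / calL := by ring
    linarith
  constructor
  · have e : d.W lam calL s * d.M s - d.V lam calL s * d.M s =
        ((lam / calL : ℝ) : ℂ) * (logDeriv d.gm s - ((calL / 2 : ℝ) : ℂ)) *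
          (d.L s * d.M s) := by
      unfold LDat.W; ring
    rw [e, norm_mul, norm_mul, na]
    exact mul_le_mul_of_nonneg_right e1 (norm_nonneg _)
  · have e : d.W lam calL s = (d.L s + ((lam / calL : ℝ) : ℂ) * deriv d.L s) +
        ((lam / calL : ℝ) : ℂ) * (logDeriv d.gm s - ((calL / 2 : ℝ) : ℂ)) * d.L s := by
      unfold LDat.W LDat.V; ring
    rw [e]
    refine (norm_add_le _ _).trans ?_
    have f1 : ‖d.L s + ((lam / calL : ℝ) : ℂ) * deriv d.L s‖ ≤
        ‖d.L s‖ + lam / calL * ‖deriv d.L s‖ := by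
      refine (norm_add_le _ _).trans ?_
      rw [norm_mul, na]
    have f2 : ‖((lam / calL : ℝ) : ℂ) * (logDeriv d.gm s - ((calL / 2 : ℝ) : ℂ)) * d.L s‖ ≤
        lam * C0 / calL * ‖d.L s‖ := by
      rw [norm_mul, norm_mul, na]
      exact mul_le_mul_of_nonneg_right e1 (norm_nonneg _)
    linarith


end Pool.Agent.LVK

namespace Pool.Agent.LVK

theorem z_near : type_of% @z_near_pr := @z_near_pr
theorem z_nearD : type_of% @z_nearD_pr := @z_nearD_pr
theorem z_WV : type_of% @z_WV_pr := @z_WV_pr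

end Pool.Agent.LVK
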