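import Pool.Agent.Lib_helper39.LVK.DefsZ
import Pool.Agent.Lib_helper39.LVZ.ALL
import Pool.Agent.Lib_helper39.LVZ.FIN
import Pool.Agent.Lib_helper39.LVZ.GMW
import Pool.Agent.Lib_helper39.LVZ.GRI
import Pool.Agent.Lib_helper39.LVZ.IND
import Pool.Agent.Lib_helper39.LVZ.INT

/-!
# LVK part Z, block AIN: the number of all zeros of one function
-/

namespace Pool.Agent.LVK

open Complex MeasureTheory Set Filter Topology
open scoped ENNReal

theorem AIN_re (σ t : ℝ) : (pt σ t).re = σ := by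
  unfold pt
  simp

theorem AIN_im (σ t : ℝ) : (pt σ t).im = t := by
  unfold pt
  simp

theorem AIN_pt (σ t : ℝ) : HasDerivAt (fun t : ℝ => pt σ t) I t := by
  unfold pt
  have h := ((hasDerivAt_id t).ofReal_comp.mul_const I).const_add (σ : ℂ)
  simpa using h

/-- the derivative of the logarithm of the absolute value -/
theorem AIN_log {f : ℝ → ℂ} {f' : ℂ} {t : ℝ} (hf : HasDerivAt f f' t) (h0 : f t ≠ 0) :
    HasDerivAt (fun t => Real.log ‖f t‖) (f' / f t).re t := by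
  have hre : HasDerivAt (fun t => (f t).re) f'.re t :=
    Complex.reCLM.hasFDerivAt.comp_hasDerivAt t hf
  have him : HasDerivAt (fun t => (f t).im) f'.im t :=
    Complex.imCLM.hasFDerivAt.comp_hasDerivAt t hf
  have h1 : HasDerivAt (fun t => (f t).re * (f t).re + (f t).im * (f t).im)
      (f'.re * (f t).re + (f t).re * f'.re + (f'.im * (f t).im + (f t).im * f'.im)) t :=
    (hre.mul hre).add (him.mul him)
  have hn : ∀ t, (f t).re * (f t).re + (f t).im * (f t).im = ‖f t‖ ^ 2 := by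
    intro t
    rw [← Complex.normSq_apply, Complex.normSq_eq_norm_sq]
  have hpos : 0 < ‖f t‖ ^ 2 := by positivity
  have h2 := (h1.log (by rw [hn]; exact hpos.ne')).div_const 2
  have e1 : (fun t => Real.log ((f t).re * (f t).re + (f t).im * (f t).im) / 2) =
      fun t => Real.log ‖f t‖ := by
    funext t
    rw [hn, Real.log_pow]
    push_cast
    ring
  rw [e1] at h2
  have e2 : (f' / f t).re = (f'.re * (f t).re + (f t).re * f'.re +
      (f'.im * (f t).im + (f t).im * f'.im)) /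
        ((f t).re * (f t).re + (f t).im * (f t).im) / 2 := by
    rw [Complex.div_re, ← Complex.normSq_apply]
    have : normSq (f t) ≠ 0 := by simpa using h0
    field_simp
    ring
  rw [e2]
  exact h2

section

variable {d : LDat} {calL C0 s2 T lam R : ℝ}

theorem AIN_L (hd : d.Ok calL C0 s2 T) {s : ℂ} (hs : s2 - 1 ≤ s.re) : d.L s ≠ 0 := by
  intro h0
  have h := hd.rL s hs
  rw [h0, zero_sub, norm_neg, norm_one] at h
  norm_num at h

theorem AIN_xi (hd : d.Ok calL C0 s2 T) (h2 : 2 ≤ s2) {s : ℂ} (hs : s2 - 1 ≤ s.re) :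
    d.ξ s ≠ 0 := by
  have h0 : 0 < s.re := by linarith
  rw [hd.fac s h0]
  exact mul_ne_zero (hd.gm0 s h0) (AIN_L hd hs)

theorem AIN_mem {s1 s2 A B σ t : ℝ} (hσ : σ ∈ Icc s1 s2) (ht : t ∈ Icc A B) :
    pt σ t ∈ Rc s1 s2 A B := by
  unfold Rc
  refine ⟨?_, ?_, ?_, ?_⟩
  · rw [AIN_re]; exact hσ.1
  · rw [AIN_re]; exact hσ.2
  · rw [AIN_im]; exact ht.1
  · rw [AIN_im]; exact ht.2

/-- the logarithmic derivative -/
theorem AIN_ld (hd : d.Ok calL C0 s2 T) {s : ℂ} (hs : 0 < s.re) (hL : d.L s ≠ 0)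
    (ha : AnalyticAt ℂ d.gm s) (hb : AnalyticAt ℂ d.L s) :
    logDeriv d.ξ s = logDeriv d.gm s + logDeriv d.L s := by
  have hev : d.ξ =ᶠ[𝓝 s] fun w => d.gm w * d.L w := by
    have ho : IsOpen {w : ℂ | 0 < w.re} := isOpen_lt continuous_const Complex.continuous_re
    filter_upwards [ho.mem_nhds hs] with w hw
    exact hd.fac w hw
  have h1 : logDeriv d.ξ s = logDeriv (fun w => d.gm w * d.L w) s := by
    rw [logDeriv_apply, logDeriv_apply, hev.deriv_eq, hev.eq_of_nhds]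
  rw [h1]
  exact logDeriv_mul s (hd.gm0 s hs) hL ha.differentiableAt hb.differentiableAt

/-- the integral with the Gamma factor -/
theorem AIN_gm (hd : d.Ok calL C0 s2 T) (h2 : 2 ≤ s2) {A B : ℝ} (hAB : A < B)
    (hA : -T + 1 ≤ A) (hB : B ≤ T - 1) {φ φ1 φ2 : ℝ → ℝ} (h : Tst A B φ φ1 φ2)
    (han : ∀ s : ℂ, 0 < s.re → AnalyticAt ℂ d.gm s) {σ : ℝ} (hσ : σ ∈ Icc (1 / 2) s2) :
    JJ A B φ2 d.gm σ ≤ C0 * ∫ t in A..B, |φ1 t| := by
  have hc1 : Continuous φ1 := continuous_iff_continuousAt.2 fun t => (h.d2 t).continuousAt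
  have hσ0 : 0 < σ := lt_of_lt_of_le (by norm_num) hσ.1
  have hre : ∀ t, 0 < (pt σ t).re := fun t => by rw [AIN_re]; exact hσ0
  have hptc : Continuous (fun t : ℝ => pt σ t) := by
    unfold pt
    fun_prop
  have hu : ∀ t ∈ uIcc A B, HasDerivAt (fun t => Real.log ‖d.gm (pt σ t)‖)
      (deriv d.gm (pt σ t) * I / d.gm (pt σ t)).re t := by
    intro t _
    exact AIN_log ((han _ (hre t)).differentiableAt.hasDerivAt.comp t (AIN_pt σ t))
      (hd.gm0 _ (hre t))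
  have hcd : Continuous (fun t : ℝ => (deriv d.gm (pt σ t) * I / d.gm (pt σ t)).re) := by
    rw [continuous_iff_continuousAt]
    intro t
    have h3 : ContinuousAt (fun t : ℝ => deriv d.gm (pt σ t)) t :=
      ((han _ (hre t)).deriv.continuousAt).comp hptc.continuousAt
    have h4 : ContinuousAt (fun t : ℝ => d.gm (pt σ t)) t :=
      ((han _ (hre t)).continuousAt).comp hptc.continuousAt
    exact Complex.continuous_re.continuousAt.comp
      ((h3.mul continuousAt_const).div h4 (hd.gm0 _ (hre t)))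
  have hparts := intervalIntegral.integral_mul_deriv_eq_deriv_mul (a := A) (b := B) hu
    (fun t _ => h.d2 t) (hcd.intervalIntegrable _ _) (h.c2.intervalIntegrable _ _)
  rw [h.z1 A (by simp), h.z1 B (by simp), mul_zero, mul_zero, sub_zero, zero_sub] at hparts
  have e1 : JJ A B φ2 d.gm σ = ∫ t in A..B, Real.log ‖d.gm (pt σ t)‖ * φ2 t := by
    unfold JJ
    refine intervalIntegral.integral_congr fun t _ => ?_
    exact mul_comm _ _
  rw [e1, hparts, ← intervalIntegral.integral_neg, ← intervalIntegral.integral_const_mul]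
  refine intervalIntegral.integral_mono_on hAB.le ((hcd.mul hc1).neg.intervalIntegrable _ _)
    ((hc1.abs.const_mul C0).intervalIntegrable _ _) fun t ht => ?_
  have h5 : |(deriv d.gm (pt σ t) * I / d.gm (pt σ t)).re| ≤ C0 := by
    have h6 : (deriv d.gm (pt σ t) * I / d.gm (pt σ t)).re =
        -(logDeriv d.gm (pt σ t) - ((calL / 2 : ℝ) : ℂ)).im := by
      rw [logDeriv_apply]
      have : deriv d.gm (pt σ t) * I / d.gm (pt σ t) =
          (deriv d.gm (pt σ t) / d.gm (pt σ t)) * I := by ring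
      rw [this]
      simp
    rw [h6, abs_neg]
    refine (Complex.abs_im_le_norm _).trans (hd.g _ ?_ ?_ ?_)
    · rw [AIN_re]
      linarith [hσ.1]
    · rw [AIN_re]
      linarith [hσ.2]
    · rw [AIN_im, abs_le]
      constructor <;> linarith [ht.1, ht.2]
  calc -((deriv d.gm (pt σ t) * I / d.gm (pt σ t)).re * φ1 t)
      ≤ |(deriv d.gm (pt σ t) * I / d.gm (pt σ t)).re * φ1 t| := neg_le_abs _
    _ = |(deriv d.gm (pt σ t) * I / d.gm (pt σ t)).re| * |φ1 t| := abs_mul _ _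
    _ ≤ C0 * |φ1 t| := mul_le_mul_of_nonneg_right h5 (abs_nonneg _)

theorem AIN_Lint {L : ℂ → ℂ} {s2 A B : ℝ} (h2 : 2 ≤ s2) (hAB : A < B) {φ2 : ℝ → ℝ} {M2 Y : ℝ}
    (hM2 : ∀ t, |φ2 t| ≤ M2) (hY0 : 0 ≤ Y)
    (hY : ∫⁻ σ in Icc (1 / 2) s2, ∫⁻ t in Icc A B, ‖Real.log ‖L (pt σ t)‖‖ₑ ≤
      ENNReal.ofReal Y) :
    ∫ σ in (1 / 2)..s2, JJ A B φ2 L σ ≤ M2 * Y := by
  have hM0 : 0 ≤ M2 := (abs_nonneg _).trans (hM2 0)
  have h3 : ∀ σ : ℝ, ‖JJ A B φ2 L σ‖ₑ ≤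
      ENNReal.ofReal M2 * ∫⁻ t in Icc A B, ‖Real.log ‖L (pt σ t)‖‖ₑ := by
    intro σ
    unfold JJ
    rw [intervalIntegral.integral_of_le hAB.le]
    calc ‖∫ t in Ioc A B, φ2 t * Real.log ‖L (pt σ t)‖‖ₑ
        ≤ ∫⁻ t in Ioc A B, ‖φ2 t * Real.log ‖L (pt σ t)‖‖ₑ :=
          enorm_integral_le_lintegral_enorm _
      _ ≤ ∫⁻ t in Icc A B, ‖φ2 t * Real.log ‖L (pt σ t)‖‖ₑ :=
          lintegral_mono_set Ioc_subset_Icc_self
      _ ≤ ∫⁻ t in Icc A B, ENNReal.ofReal M2 * ‖Real.log ‖L (pt σ t)‖‖ₑ := by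
          refine lintegral_mono fun t => ?_
          rw [enorm_mul]
          refine mul_le_mul_left ?_ _
          rw [Real.enorm_eq_ofReal_abs]
          exact ENNReal.ofReal_le_ofReal (hM2 t)
      _ = _ := lintegral_const_mul' _ _ ENNReal.ofReal_ne_top
  have h4 : ‖∫ σ in (1 / 2)..s2, JJ A B φ2 L σ‖ₑ ≤ ENNReal.ofReal (M2 * Y) := by
    rw [intervalIntegral.integral_of_le (by linarith)]
    calc ‖∫ σ in Ioc (1 / 2) s2, JJ A B φ2 L σ‖ₑ
        ≤ ∫⁻ σ in Ioc (1 / 2) s2, ‖JJ A B φ2 L σ‖ₑ := enorm_integral_le_lintegral_enorm _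
      _ ≤ ∫⁻ σ in Icc (1 / 2) s2, ‖JJ A B φ2 L σ‖ₑ := lintegral_mono_set Ioc_subset_Icc_self
      _ ≤ ∫⁻ σ in Icc (1 / 2) s2, ENNReal.ofReal M2 *
            ∫⁻ t in Icc A B, ‖Real.log ‖L (pt σ t)‖‖ₑ := lintegral_mono h3
      _ = ENNReal.ofReal M2 * ∫⁻ σ in Icc (1 / 2) s2,
            ∫⁻ t in Icc A B, ‖Real.log ‖L (pt σ t)‖‖ₑ :=
          lintegral_const_mul' _ _ ENNReal.ofReal_ne_top
      _ ≤ ENNReal.ofReal M2 * ENNReal.ofReal Y := mul_le_mul_right hY _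
      _ = _ := (ENNReal.ofReal_mul hM0).symm
  rw [Real.enorm_eq_ofReal_abs, ENNReal.ofReal_le_ofReal_iff (mul_nonneg hM0 hY0)] at h4
  exact (le_abs_self _).trans h4

/-- the sum over all zeros is at most the smoothed sum -/
theorem AIN_all {ξ : ℂ → ℂ} {A B s1 s2 x1 x2 : ℝ} {φ φ1 φ2 : ℝ → ℝ} (h : Tst A B φ φ1 φ2)
    (h1 : ∀ t ∈ Ioo x1 x2, 1 ≤ φ t) {S : Finset ℂ} (hS : IsZ s1 s2 A B ξ S)
    (hz : ∀ ρ, ξ ρ = 0 → s1 ≤ ρ.re ∧ ρ.re ≤ s2) (hξ : Differentiable ℂ ξ) :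
    allZ ξ x1 x2 ≤ ENNReal.ofReal (∑ ρ ∈ S, (analyticOrderNatAt ξ ρ : ℝ) * φ ρ.im) := by
  classical
  unfold allZ
  have e1 : ∑' ρ : {ρ : ℂ // x1 < ρ.im ∧ ρ.im < x2}, (analyticOrderNatAt ξ ρ.1 : ℝ≥0∞) =
      ∑' ρ : ℂ, {ρ : ℂ | x1 < ρ.im ∧ ρ.im < x2}.indicator
        (fun ρ => (analyticOrderNatAt ξ ρ : ℝ≥0∞)) ρ :=
    tsum_subtype {ρ : ℂ | x1 < ρ.im ∧ ρ.im < x2} (fun ρ => (analyticOrderNatAt ξ ρ : ℝ≥0∞))
  have e2 : ∑' ρ : ℂ, {ρ : ℂ | x1 < ρ.im ∧ ρ.im < x2}.indicator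
        (fun ρ => (analyticOrderNatAt ξ ρ : ℝ≥0∞)) ρ =
      ∑ ρ ∈ S, {ρ : ℂ | x1 < ρ.im ∧ ρ.im < x2}.indicator
        (fun ρ => (analyticOrderNatAt ξ ρ : ℝ≥0∞)) ρ := by
    refine tsum_eq_sum fun ρ hρ => ?_
    by_cases hm : ρ ∈ {ρ : ℂ | x1 < ρ.im ∧ ρ.im < x2}
    · rw [Set.indicator_of_mem hm]
      have h0 : ξ ρ ≠ 0 := by
        intro h0
        apply hρ
        have hφ : 1 ≤ φ ρ.im := h1 _ hm
        have hin : ρ.im ∈ Ioo A B := by
          by_contra hcon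
          rw [h.z0 _ hcon] at hφ
          norm_num at hφ
        exact (hS ρ).2 ⟨⟨(hz ρ h0).1, (hz ρ h0).2, hin.1.le, hin.2.le⟩, h0⟩
      have h2 : analyticOrderAt ξ ρ = 0 := (hξ.analyticAt ρ).analyticOrderAt_eq_zero.2 h0
      have h3 : analyticOrderNatAt ξ ρ = 0 := by
        unfold analyticOrderNatAt
        rw [h2]
        rfl
      simp only [h3]
      simp
    · rw [Set.indicator_of_notMem hm]
  rw [e1, e2, ENNReal.ofReal_sum_of_nonneg
    (fun ρ _ => mul_nonneg (Nat.cast_nonneg _) (h.nonneg _))]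
  refine Finset.sum_le_sum fun ρ _ => ?_
  by_cases hm : ρ ∈ {ρ : ℂ | x1 < ρ.im ∧ ρ.im < x2}
  · rw [Set.indicator_of_mem hm, ← ENNReal.ofReal_natCast]
    refine ENNReal.ofReal_le_ofReal ?_
    have hφ : 1 ≤ φ ρ.im := h1 _ hm
    have : (0 : ℝ) ≤ (analyticOrderNatAt ξ ρ : ℝ) := Nat.cast_nonneg _
    nlinarith
  · rw [Set.indicator_of_notMem hm]
    exact zero_le

theorem z_allineq_pr {d : LDat} {calL C0 s2 T lam R : ℝ} (hd : d.Ok calL C0 s2 T)
    (hp : Par calL C0 s2 T lam R) {A B : ℝ} (hAB : A < B) (hA : -T + 1 ≤ A) (hB : B ≤ T - 1)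
    {φ φ1 φ2 : ℝ → ℝ} (h : Tst A B φ φ1 φ2) {x1 x2 : ℝ} (h1 : ∀ t ∈ Ioo x1 x2, 1 ≤ φ t)
    {M2 : ℝ} (hM2 : ∀ t, |φ2 t| ≤ M2) {Y : ℝ} (hY0 : 0 ≤ Y)
    (hY : ∫⁻ σ in Icc (1 / 2) s2, ∫⁻ t in Icc A B, ‖Real.log ‖d.L (pt σ t)‖‖ₑ ≤
      ENNReal.ofReal Y) :
    allZ d.ξ x1 x2 ≤ ENNReal.ofReal (1 / Real.pi * ((calL / 2 + C0 + 1) * (∫ t in A..B, φ t) +
      s2 * C0 * (∫ t in A..B, |φ1 t|) + M2 * Y)) := by
  have hpi := Real.pi_pos
  have h2 := hp.two_le_s2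
  have hC0 := hp.C0_nonneg
  have hcφ : Continuous φ := continuous_iff_continuousAt.2 fun t => (h.d1 t).continuousAt
  have hc1 : Continuous φ1 := continuous_iff_continuousAt.2 fun t => (h.d2 t).continuousAt
  have hξa : ∀ s, AnalyticAt ℂ d.ξ s := fun s => hd.dxi.analyticAt s
  have hgma : ∀ s : ℂ, 0 < s.re → AnalyticAt ℂ d.gm s := fun s hs => (z_an (lam := lam) hd hs).1
  have hLa : ∀ s : ℂ, 0 < s.re → AnalyticAt ℂ d.L s := fun s hs => (z_an (lam := lam) hd hs).2.1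
  have hIA : A ∈ Icc A B := ⟨le_rfl, hAB.le⟩
  -- the zeros
  have hz : ∀ ρ, d.ξ ρ = 0 → 1 - s2 ≤ ρ.re ∧ ρ.re ≤ s2 := by
    intro ρ hρ
    constructor
    · by_contra hcon
      push Not at hcon
      have h3 := hd.sym ρ
      rw [hρ, map_zero] at h3
      refine AIN_xi hd h2 ?_ h3
      rw [Complex.sub_re, Complex.one_re, Complex.conj_re]
      linarith
    · by_contra hcon
      push Not at hcon
      exact AIN_xi hd h2 (by linarith) hρ
  have hs2re : ∀ t, s2 - 1 ≤ (pt s2 t).re := fun t => by rw [AIN_re]; linarith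
  have hne2 : ∀ t ∈ Icc A B, d.ξ (pt s2 t) ≠ 0 := fun t _ => AIN_xi hd h2 (hs2re t)
  obtain ⟨S, hS⟩ := z_fin (s1 := 1 - s2) (s2 := s2) (A := A) (B := B) (F := d.ξ)
    (fun s _ => hξa s) (AIN_mem (σ := s2) (t := A) ⟨by linarith, le_rfl⟩ hIA) (hne2 A hIA)
  have hall := AIN_all h h1 hS hz hd.dxi
  have hzall := z_all hAB h hd.dxi hd.sym (by linarith) hne2 hS
  -- the derivative
  have hDD : DD A B φ d.ξ s2 ≤ (calL / 2 + C0 + 1) * ∫ t in A..B, φ t := by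
    unfold DD
    rw [← intervalIntegral.integral_const_mul]
    refine intervalIntegral.integral_mono_on hAB.le
      (z_intD (s1 := 1 - s2) (s2 := s2) (by linarith) hAB (fun s _ => hξa s) hS hcφ
        ⟨by linarith, le_rfl⟩) ((hcφ.const_mul _).intervalIntegrable _ _) fun t ht => ?_
    have hre : 0 < (pt s2 t).re := by rw [AIN_re]; linarith
    have hL := AIN_L hd (hs2re t)
    rw [AIN_ld hd hre hL (hgma _ hre) (hLa _ hre), Complex.add_re]
    have h3 := hd.g (pt s2 t) (by rw [AIN_re]; linarith) (by rw [AIN_re]; linarith)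
      (by rw [AIN_im, abs_le]; constructor <;> linarith [ht.1, ht.2])
    have h4 := (z_nearD hd hp (t := t) (by rw [abs_le]; constructor <;> linarith [ht.1, ht.2])).2
    have h5 : (logDeriv d.gm (pt s2 t)).re ≤ calL / 2 + C0 := by
      have h6 := (Complex.re_le_norm (logDeriv d.gm (pt s2 t) - ((calL / 2 : ℝ) : ℂ))).trans h3
      rw [Complex.sub_re, Complex.ofReal_re] at h6
      linarith
    have h6 : (logDeriv d.L (pt s2 t)).re ≤ 1 := (Complex.re_le_norm _).trans h4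
    have h7 := h.nonneg t
    rw [mul_comm]
    exact mul_le_mul_of_nonneg_right (by linarith) h7
  -- the integral of `K`
  have hgmN : AnalyticOnNhd ℂ d.gm (Rc (1 / 2) s2 A B) := fun s hs =>
    hgma s (lt_of_lt_of_le (by norm_num) hs.1)
  have hLN : AnalyticOnNhd ℂ d.L (Rc (1 / 2) s2 A B) := fun s hs =>
    hLa s (lt_of_lt_of_le (by norm_num) hs.1)
  have hSg : IsZ (1 / 2) s2 A B d.gm ∅ := by
    intro ρ
    constructor
    · intro hρ
      simp at hρ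
    · rintro ⟨h3, h4⟩
      exact absurd h4 (hd.gm0 ρ (lt_of_lt_of_le (by norm_num) h3.1))
  obtain ⟨SL, hSL⟩ := z_fin hLN (AIN_mem (σ := s2) (t := A) ⟨by linarith, le_rfl⟩ hIA)
    (AIN_L hd (hs2re A))
  have hsum : ∀ σ ∈ Icc (1 / 2) s2, JJ A B φ2 d.ξ σ = JJ A B φ2 d.gm σ + JJ A B φ2 d.L σ := by
    intro σ hσ
    unfold JJ
    rw [← intervalIntegral.integral_add (z_intJ hAB hgmN h.c2 hσ) (z_intJ hAB hLN h.c2 hσ)]
    refine intervalIntegral.integral_congr_ae ?_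
    have hfin : {t : ℝ | pt σ t ∈ (SL : Set ℂ)}.Finite := by
      refine SL.finite_toSet.preimage ?_
      intro t _ t' _ htt
      have := congrArg Complex.im htt
      rwa [AIN_im, AIN_im] at this
    have hae : ∀ᵐ t : ℝ, t ∉ {t : ℝ | pt σ t ∈ (SL : Set ℂ)} :=
      measure_eq_zero_iff_ae_notMem.1 (hfin.measure_zero volume)
    filter_upwards [hae] with t ht hm
    rw [uIoc_of_le hAB.le] at hm
    have hmem : pt σ t ∈ Rc (1 / 2) s2 A B := AIN_mem hσ ⟨hm.1.le, hm.2⟩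
    have hLne : d.L (pt σ t) ≠ 0 := fun h0 => ht ((hSL _).2 ⟨hmem, h0⟩)
    have hre : 0 < (pt σ t).re := lt_of_lt_of_le (by norm_num) hmem.1
    rw [hd.fac _ hre, norm_mul, Real.log_mul (norm_ne_zero_iff.2 (hd.gm0 _ hre))
      (norm_ne_zero_iff.2 hLne), mul_add]
  have hK1 : ∫ σ in (1 / 2)..s2, JJ A B φ2 d.ξ σ =
      (∫ σ in (1 / 2)..s2, JJ A B φ2 d.gm σ) + ∫ σ in (1 / 2)..s2, JJ A B φ2 d.L σ := by
    have hle : (1 / 2 : ℝ) ≤ s2 := by linarith
    have hlt : (1 / 2 : ℝ) < s2 := by linarith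
    rw [← intervalIntegral.integral_add]
    · refine intervalIntegral.integral_congr fun σ hσ => ?_
      rw [uIcc_of_le hle] at hσ
      exact hsum σ hσ
    · exact (z_contJ hlt hAB hgmN hSg h.c2).intervalIntegrable_of_Icc hle
    · exact (z_contJ hlt hAB hLN hSL h.c2).intervalIntegrable_of_Icc hle
  have hK2 : ∫ σ in (1 / 2)..s2, JJ A B φ2 d.gm σ ≤ s2 * C0 * ∫ t in A..B, |φ1 t| := by
    have hle : (1 / 2 : ℝ) ≤ s2 := by linarith
    have hlt : (1 / 2 : ℝ) < s2 := by linarith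
    have h3 := intervalIntegral.integral_mono_on hle
      ((z_contJ hlt hAB hgmN hSg h.c2).intervalIntegrable_of_Icc hle)
      ((continuous_const (y := C0 * ∫ t in A..B, |φ1 t|)).intervalIntegrable (μ := MeasureTheory.volume) (1 / 2) s2)
      (fun σ hσ => AIN_gm hd h2 hAB hA hB h hgma hσ)
    rw [intervalIntegral.integral_const, smul_eq_mul] at h3
    refine h3.trans ?_
    have h4 : 0 ≤ ∫ t in A..B, |φ1 t| :=
      intervalIntegral.integral_nonneg hAB.le fun t _ => abs_nonneg _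
    have h5 : 0 ≤ C0 * ∫ t in A..B, |φ1 t| := mul_nonneg hC0 h4
    rw [mul_assoc]
    exact mul_le_mul_of_nonneg_right (by linarith) h5
  have hK3 := AIN_Lint h2 hAB hM2 hY0 hY
  refine hall.trans (ENNReal.ofReal_le_ofReal ?_)
  rw [one_div, ← div_eq_inv_mul, le_div_iff₀ hpi, mul_comm, hzall, hK1]
  linarith

end


end Pool.Agent.LVK

namespace Pool.Agent.LVK

theorem z_allineq : type_of% @z_allineq_pr := @z_allineq_pr

end Pool.Agent.LVK
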