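import Pool.Agent.Lib_helper39.LVK.DefsZ
import Pool.Agent.Lib_helper39.LVZ.CA2
import Pool.Agent.Lib_helper39.LVZ.GMW
import Pool.Agent.Lib_helper39.LVZ.IND

/-!
# LVK part Z, block FMW: the means of `log⁺ |W|` and `log⁺ |L|` over the family
-/

namespace Pool.Agent.LVK

open Complex MeasureTheory Set Filter Topology
open scoped ENNReal

/-- the vertical line is continuous -/
theorem FMW_cpt (σ : ℝ) : Continuous (fun t : ℝ => pt σ t) := by
  unfold pt
  fun_prop

theorem FMW_re (σ t : ℝ) : (pt σ t).re = σ := by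
  simp [pt]

theorem FMW_im (σ t : ℝ) : (pt σ t).im = t := by
  simp [pt]

/-- continuity on a vertical line -/
theorem FMW_cont {f : ℂ → ℂ} (hf : ∀ s : ℂ, 0 < s.re → AnalyticAt ℂ f s) {σ : ℝ}
    (hs : 0 < σ) : Continuous (fun t : ℝ => f (pt σ t)) := by
  rw [continuous_iff_continuousAt]
  intro t
  have h1 : AnalyticAt ℂ f (pt σ t) := hf _ (by rw [FMW_re]; exact hs)
  exact ContinuousAt.comp (f := fun t : ℝ => pt σ t) (g := f) h1.continuousAt
    (FMW_cpt σ).continuousAt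

/-- `log x ≤ ½ (x²/c + log c)` for `c ≥ 1` -/
theorem FMW_log {x c : ℝ} (hx : 0 ≤ x) (hc : 1 ≤ c) :
    Real.log x ≤ 1 / 2 * (x ^ 2 / c + Real.log c) := by
  have hc0 : 0 < c := by linarith
  have hlc : 0 ≤ Real.log c := Real.log_nonneg hc
  rcases hx.eq_or_lt with h | h
  · rw [← h, Real.log_zero]
    positivity
  · have h1 : 0 < x ^ 2 / c := by positivity
    have h2 := Real.log_le_sub_one_of_pos h1
    rw [Real.log_div (by positivity) (by positivity), Real.log_pow] at h2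
    push_cast at h2
    linarith

/-- the mean of `log⁺` from the mean square, for sums over a family -/
theorem FMW_sum {ι : Type} [Fintype ι] {f : ι → ℝ → ℂ} {A B c K : ℝ} (hAB : A ≤ B)
    (hf : ∀ i, Continuous (f i)) (hc : 1 ≤ c)
    (h : ∑ i, ∫ t in A..B, ‖f i t‖ ^ 2 ≤ K) :
    ∑ i, ∫⁻ t in Icc A B, ENNReal.ofReal (Real.log ‖f i t‖) ≤
      ENNReal.ofReal (1 / 2 * (K / c + Fintype.card ι * ((B - A) * Real.log c))) := by
  have hc0 : 0 < c := by linarith
  have hlc : 0 ≤ Real.log c := Real.log_nonneg hc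
  have h1 : ∀ i, ∫⁻ t in Icc A B, ENNReal.ofReal (Real.log ‖f i t‖) ≤
      ENNReal.ofReal (∫ t in A..B, 1 / 2 * (‖f i t‖ ^ 2 / c + Real.log c)) := by
    intro i
    calc ∫⁻ t in Icc A B, ENNReal.ofReal (Real.log ‖f i t‖)
        ≤ ∫⁻ t in Icc A B, ENNReal.ofReal (1 / 2 * (‖f i t‖ ^ 2 / c + Real.log c)) :=
          setLIntegral_mono' measurableSet_Icc
            (fun t _ => ENNReal.ofReal_le_ofReal (FMW_log (norm_nonneg _) hc))
      _ = ENNReal.ofReal (∫ t in A..B, 1 / 2 * (‖f i t‖ ^ 2 / c + Real.log c)) := by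
          rw [intervalIntegral.integral_of_le hAB, ← integral_Icc_eq_integral_Ioc]
          rw [ofReal_integral_eq_lintegral_ofReal]
          · refine Continuous.integrableOn_Icc ?_
            have := hf i
            fun_prop
          · exact Filter.Eventually.of_forall (fun t => by positivity)
  have h2 : ∀ i, ∫ t in A..B, 1 / 2 * (‖f i t‖ ^ 2 / c + Real.log c) =
      1 / 2 * ((∫ t in A..B, ‖f i t‖ ^ 2) / c + (B - A) * Real.log c) := by
    intro i
    have hfi := hf i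
    rw [intervalIntegral.integral_const_mul, intervalIntegral.integral_add,
      intervalIntegral.integral_div, intervalIntegral.integral_const, smul_eq_mul]
    · exact Continuous.intervalIntegrable (by fun_prop) _ _
    · exact Continuous.intervalIntegrable (by fun_prop) _ _
  calc ∑ i, ∫⁻ t in Icc A B, ENNReal.ofReal (Real.log ‖f i t‖)
      ≤ ∑ i, ENNReal.ofReal (∫ t in A..B, 1 / 2 * (‖f i t‖ ^ 2 / c + Real.log c)) :=
        Finset.sum_le_sum (fun i _ => h1 i)
    _ = ENNReal.ofReal (∑ i, ∫ t in A..B, 1 / 2 * (‖f i t‖ ^ 2 / c + Real.log c)) := by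
        rw [ENNReal.ofReal_sum_of_nonneg]
        intro i _
        exact intervalIntegral.integral_nonneg hAB (fun t _ => by positivity)
    _ ≤ ENNReal.ofReal (1 / 2 * (K / c + Fintype.card ι * ((B - A) * Real.log c))) := by
        apply ENNReal.ofReal_le_ofReal
        simp only [h2]
        rw [← Finset.mul_sum, Finset.sum_add_distrib, Finset.sum_const, Finset.card_univ,
          nsmul_eq_mul, ← Finset.sum_div]
        have h3 : (∑ i, ∫ t in A..B, ‖f i t‖ ^ 2) / c ≤ K / c :=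
          div_le_div_of_nonneg_right h hc0.le
        linarith

/-- shrinking the interval of integration -/
theorem FMW_shrink {ι : Type} [Fintype ι] {g : ι → ℝ → ℝ} {A B T K : ℝ} (hAB : A ≤ B)
    (hg : ∀ i, Continuous (g i)) (h0 : ∀ i t, 0 ≤ g i t) (hA : -T ≤ A) (hB : B ≤ T)
    (h : ∑ i, ∫ t in (-T)..T, g i t ≤ K) : ∑ i, ∫ t in A..B, g i t ≤ K := by
  refine le_trans (Finset.sum_le_sum (fun i _ => ?_)) h
  refine intervalIntegral.integral_mono_interval hA hAB hB ?_ ?_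
  · exact Filter.Eventually.of_forall (fun t => h0 i t)
  · exact (hg i).intervalIntegrable _ _

theorem z_famL_pr {ι : Type} [Fintype ι] {d : ι → LDat}
    {calL C0 C1 s2 T lam R x1 x2 cc δ : ℝ}
    (hd : ∀ i, (d i).Ok calL C0 s2 T) (hp : Par calL C0 s2 T lam R)
    (hf : FamOk d calL R lam C1 s2 T x1 x2 cc δ) {σ : ℝ} (hδ : 0 < δ)
    (h1 : 1 / 2 ≤ σ) (h2 : σ ≤ 2 * s2) :
    ∑ i, ∫⁻ t in Icc (-T) T, ENNReal.ofReal (Real.log ‖(d i).L (pt σ t)‖) ≤
        ENNReal.ofReal (Fintype.card ι * (1 / 2 + T * (δ * calL))) := by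
  have hT1 : 1 ≤ T := hp.one_le_T
  have hR := hp.R_pos
  have hcal : 0 < calL := by
    have := hp.le_calL
    linarith
  have hinv : 0 < 1 / calL := by positivity
  have hc : 1 ≤ Real.exp (δ * calL) := Real.one_le_exp (by positivity)
  have h3 := FMW_sum (f := fun i t => (d i).L (pt σ t)) (A := -T) (B := T)
    (c := Real.exp (δ * calL)) (by linarith)
    (fun i => FMW_cont (fun s hs => (z_an (lam := lam) (hd i) hs).2.1) (by linarith)) hc
    (hf.m1 σ (by linarith) h2)
  refine le_trans h3 (ENNReal.ofReal_le_ofReal ?_)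
  rw [Real.log_exp, mul_div_assoc, div_self (Real.exp_pos _).ne']
  apply le_of_eq
  ring

theorem z_famW_pr {ι : Type} [Fintype ι] {d : ι → LDat}
    {calL C0 C1 s2 T lam R x1 x2 cc δ : ℝ}
    (hd : ∀ i, (d i).Ok calL C0 s2 T) (hp : Par calL C0 s2 T lam R)
    (hf : FamOk d calL R lam C1 s2 T x1 x2 cc δ) (hT : 2 ≤ T) {σ : ℝ} (hδ : 0 < δ)
    (h1 : 1 / 2 ≤ σ) (h2 : σ ≤ 2 * s2 - 1 / 2) :
    ∑ i, ∫⁻ t in Icc (-T + 1) (T - 1),
      ENNReal.ofReal (Real.log ‖(d i).W lam calL (pt σ t)‖) ≤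
        ENNReal.ofReal (Fintype.card ι *
          (1 / 2 + T * (Real.log (2 * (1 + 2 * C0) ^ 2 + 8) + δ * calL))) := by
  have hR := hp.R_pos
  have hC0 := hp.C0_nonneg
  have hlam := hp.lam_pos
  have hlam2 := hp.lam_lt
  have hcal100 : 100 ≤ calL := by
    have := hp.le_calL'
    nlinarith
  have hcal : 0 < calL := by linarith
  have hn : (0 : ℝ) ≤ Fintype.card ι := Nat.cast_nonneg _
  have hinv : 0 < 1 / calL := by positivity
  have hinv2 : 1 / calL ≤ 1 / 100 := one_div_le_one_div_of_le (by norm_num) hcal100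
  have hE : 0 < Real.exp (δ * calL) := Real.exp_pos _
  have hc1 : 1 ≤ Real.exp (δ * calL) := Real.one_le_exp (by positivity)
  have hAB : -T + 1 < T - 1 := by linarith
  -- the mean square of the derivative
  have hL : ∀ i, ∀ s : ℂ, 0 < s.re → AnalyticAt ℂ (d i).L s :=
    fun i s hs => (z_an (lam := lam) (hd i) hs).2.1
  have hW : ∀ i, ∀ s : ℂ, 0 < s.re → AnalyticAt ℂ ((d i).W lam calL) s :=
    fun i s hs => (z_an (lam := lam) (hd i) hs).2.2.2.2
  have hm1 : ∀ σ' ∈ Icc (σ - 1 / calL) (σ + 1 / calL),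
      ∑ i, ∫ t in (-T + 1 - 1 / calL)..(T - 1 + 1 / calL), ‖(d i).L (pt σ' t)‖ ^ 2 ≤
        Fintype.card ι * Real.exp (δ * calL) := by
    intro σ' hσ'
    have h3 := hf.m1 σ' (by linarith [hσ'.1]) (by linarith [hσ'.2])
    refine FMW_shrink (by linarith) (fun i => ?_) (fun i t => by positivity) (by linarith)
      (by linarith) h3
    exact (FMW_cont (hL i) (by linarith [hσ'.1])).norm.pow 2
  have hD := z_cau2 (f := fun i => (d i).L) (σ := σ) (A := -T + 1) (B := T - 1)
    (r := 1 / calL) (K := Fintype.card ι * Real.exp (δ * calL)) hinv hAB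
    (by
      intro i z hz
      exact hL i z (by linarith [hz.1])) hm1
  have hL2 : ∑ i, ∫ t in (-T + 1)..(T - 1), ‖(d i).L (pt σ t)‖ ^ 2 ≤
      Fintype.card ι * Real.exp (δ * calL) := by
    have h3 := hf.m1 σ (by linarith) (by linarith)
    refine FMW_shrink (by linarith) (fun i => ?_) (fun i t => by positivity) (by linarith)
      (by linarith) h3
    exact (FMW_cont (hL i) (by linarith)).norm.pow 2
  have hcW : ∀ i, Continuous (fun t : ℝ => (d i).W lam calL (pt σ t)) :=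
    fun i => FMW_cont (hW i) (by linarith)
  have hcL : ∀ i, Continuous (fun t : ℝ => (d i).L (pt σ t)) :=
    fun i => FMW_cont (hL i) (by linarith)
  have hcD : ∀ i, Continuous (fun t : ℝ => deriv (d i).L (pt σ t)) :=
    fun i => FMW_cont (fun s hs => (hL i s hs).deriv) (by linarith)
  -- the coefficients
  have ha : lam * C0 / calL ≤ 2 * C0 := by
    rw [div_le_iff₀ hcal]
    have h4 : lam * C0 ≤ 2 * C0 := mul_le_mul_of_nonneg_right hlam2.le hC0
    have h5 : 2 * C0 * 1 ≤ 2 * C0 * calL := mul_le_mul_of_nonneg_left (by linarith) (by positivity)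
    linarith
  have ha0 : 0 ≤ lam * C0 / calL := by positivity
  have hb : lam / calL ≤ 2 * (1 / calL) := by
    rw [div_eq_mul_one_div]
    exact mul_le_mul_of_nonneg_right hlam2.le hinv.le
  have hb0 : 0 ≤ lam / calL := by positivity
  -- the pointwise bound
  have hpt : ∀ i, ∀ t ∈ Icc (-T + 1) (T - 1), ‖(d i).W lam calL (pt σ t)‖ ^ 2 ≤
      2 * (1 + 2 * C0) ^ 2 * ‖(d i).L (pt σ t)‖ ^ 2 +
        8 * (1 / calL) ^ 2 * ‖deriv (d i).L (pt σ t)‖ ^ 2 := by
    intro i t ht
    have h3 := (z_WV (hd i) hp (s := pt σ t) (by rw [FMW_re]; linarith)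
      (by rw [FMW_re]; linarith)
      (by
        rw [FMW_im, abs_le]
        exact ⟨by linarith [ht.1], by linarith [ht.2]⟩)).2
    have h4 : ‖(d i).W lam calL (pt σ t)‖ ≤ (1 + 2 * C0) * ‖(d i).L (pt σ t)‖ +
        2 * (1 / calL) * ‖deriv (d i).L (pt σ t)‖ := by
      refine le_trans h3 (add_le_add ?_ ?_)
      · exact mul_le_mul_of_nonneg_right (by linarith) (norm_nonneg _)
      · exact mul_le_mul_of_nonneg_right hb (norm_nonneg _)
    have h5 : ‖(d i).W lam calL (pt σ t)‖ ^ 2 ≤ ((1 + 2 * C0) * ‖(d i).L (pt σ t)‖ +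
        2 * (1 / calL) * ‖deriv (d i).L (pt σ t)‖) ^ 2 :=
      pow_le_pow_left₀ (norm_nonneg _) h4 2
    nlinarith [sq_nonneg ((1 + 2 * C0) * ‖(d i).L (pt σ t)‖ -
        2 * (1 / calL) * ‖deriv (d i).L (pt σ t)‖)]
  have hWsq : ∑ i, ∫ t in (-T + 1)..(T - 1), ‖(d i).W lam calL (pt σ t)‖ ^ 2 ≤
      Fintype.card ι * ((2 * (1 + 2 * C0) ^ 2 + 8) * Real.exp (δ * calL)) := by
    have h3 : ∀ i, ∫ t in (-T + 1)..(T - 1), ‖(d i).W lam calL (pt σ t)‖ ^ 2 ≤
        2 * (1 + 2 * C0) ^ 2 * (∫ t in (-T + 1)..(T - 1), ‖(d i).L (pt σ t)‖ ^ 2) +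
        8 * (1 / calL) ^ 2 * (∫ t in (-T + 1)..(T - 1), ‖deriv (d i).L (pt σ t)‖ ^ 2) := by
      intro i
      have hc1 := hcW i
      have hc2 := hcL i
      have hc3 := hcD i
      rw [← intervalIntegral.integral_const_mul, ← intervalIntegral.integral_const_mul,
        ← intervalIntegral.integral_add]
      · refine intervalIntegral.integral_mono_on hAB.le ?_ ?_ (fun t ht => hpt i t ht)
        · exact Continuous.intervalIntegrable (by fun_prop) _ _
        · exact Continuous.intervalIntegrable (by fun_prop) _ _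
      · exact Continuous.intervalIntegrable (by fun_prop) _ _
      · exact Continuous.intervalIntegrable (by fun_prop) _ _
    calc ∑ i, ∫ t in (-T + 1)..(T - 1), ‖(d i).W lam calL (pt σ t)‖ ^ 2
        ≤ ∑ i, (2 * (1 + 2 * C0) ^ 2 * (∫ t in (-T + 1)..(T - 1), ‖(d i).L (pt σ t)‖ ^ 2) +
          8 * (1 / calL) ^ 2 *
            (∫ t in (-T + 1)..(T - 1), ‖deriv (d i).L (pt σ t)‖ ^ 2)) :=
          Finset.sum_le_sum (fun i _ => h3 i)
      _ = 2 * (1 + 2 * C0) ^ 2 * (∑ i, ∫ t in (-T + 1)..(T - 1), ‖(d i).L (pt σ t)‖ ^ 2) +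
          8 * (1 / calL) ^ 2 *
            (∑ i, ∫ t in (-T + 1)..(T - 1), ‖deriv (d i).L (pt σ t)‖ ^ 2) := by
          rw [Finset.sum_add_distrib, Finset.mul_sum, Finset.mul_sum]
      _ ≤ 2 * (1 + 2 * C0) ^ 2 * (Fintype.card ι * Real.exp (δ * calL)) +
          8 * (1 / calL) ^ 2 *
            (Fintype.card ι * Real.exp (δ * calL) / (1 / calL) ^ 2) :=
          add_le_add (mul_le_mul_of_nonneg_left hL2 (by positivity))
            (mul_le_mul_of_nonneg_left hD (by positivity))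
      _ = Fintype.card ι * ((2 * (1 + 2 * C0) ^ 2 + 8) * Real.exp (δ * calL)) := by
          field_simp
          try ring
  have hc2 : 1 ≤ (2 * (1 + 2 * C0) ^ 2 + 8) * Real.exp (δ * calL) := by
    have h3 : (1 : ℝ) ≤ 2 * (1 + 2 * C0) ^ 2 + 8 := by nlinarith [sq_nonneg (1 + 2 * C0)]
    nlinarith
  have h3 := FMW_sum (f := fun i t => (d i).W lam calL (pt σ t)) (A := -T + 1) (B := T - 1)
    (c := (2 * (1 + 2 * C0) ^ 2 + 8) * Real.exp (δ * calL)) hAB.le hcW hc2 hWsq
  refine le_trans h3 (ENNReal.ofReal_le_ofReal ?_)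
  have h8 : (0 : ℝ) < 2 * (1 + 2 * C0) ^ 2 + 8 := by positivity
  rw [mul_div_assoc, div_self (mul_pos h8 hE).ne', Real.log_mul h8.ne' hE.ne', Real.log_exp]
  have h9 : 0 ≤ Real.log (2 * (1 + 2 * C0) ^ 2 + 8) + δ * calL := by
    have : 0 ≤ Real.log (2 * (1 + 2 * C0) ^ 2 + 8) := Real.log_nonneg (by nlinarith [sq_nonneg (1 + 2 * C0)])
    positivity
  have h10 : (Fintype.card ι : ℝ) * ((T - 1 - (-T + 1)) *
      (Real.log (2 * (1 + 2 * C0) ^ 2 + 8) + δ * calL)) ≤
      (Fintype.card ι : ℝ) * ((2 * T) *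
      (Real.log (2 * (1 + 2 * C0) ^ 2 + 8) + δ * calL)) := by
    apply mul_le_mul_of_nonneg_left _ hn
    exact mul_le_mul_of_nonneg_right (by linarith) h9
  nlinarith


end Pool.Agent.LVK

namespace Pool.Agent.LVK

theorem z_famW : type_of% @z_famW_pr := @z_famW_pr
theorem z_famL : type_of% @z_famL_pr := @z_famL_pr

end Pool.Agent.LVK
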