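import Pool.Agent.Lib_helper39.LVK.DefsZ
import Pool.Agent.Lib_helper39.LVZ.CIF
import Pool.Agent.Lib_helper39.LVZ.FMW
import Pool.Agent.Lib_helper39.LVZ.GMW
import Pool.Agent.Lib_helper39.LVZ.IND

/-! LVK part Z, block FMY: `log |W|` and `log |L|` in the mean. -/

namespace Pool.Agent.LVK

open Complex MeasureTheory Set Filter Topology
open scoped ENNReal

theorem FMY_re (σ t : ℝ) : (pt σ t).re = σ := by
  simp [pt]

theorem FMY_im (σ t : ℝ) : (pt σ t).im = t := by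
  simp [pt]

theorem FMY_log {z : ℂ} (h : ‖z - 1‖ ≤ 1 / 8) : z ≠ 0 ∧ -Real.log ‖z‖ ≤ 1 := by
  have h1 : 7 / 8 ≤ ‖z‖ := by
    have : ‖(1 : ℂ)‖ ≤ ‖z‖ + ‖z - 1‖ := by
      calc ‖(1 : ℂ)‖ = ‖z - (z - 1)‖ := by congr 1; ring
        _ ≤ ‖z‖ + ‖z - 1‖ := norm_sub_le _ _
    rw [norm_one] at this
    linarith
  constructor
  · intro h0
    rw [h0, norm_zero] at h1
    linarith
  · have h2 : Real.exp (-1) ≤ ‖z‖ := by
      refine le_trans ?_ h1
      have := Real.add_one_le_exp (1:ℝ)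
      rw [Real.exp_neg]
      have h3 : (Real.exp 1)⁻¹ ≤ 2⁻¹ := inv_anti₀ (by norm_num) (by linarith)
      linarith
    have h4 := Real.log_le_log (Real.exp_pos _) h2
    rw [Real.log_exp] at h4
    linarith

theorem FMY_gen {ι : Type} [Fintype ι] {F : ι → ℂ → ℂ} {s2 A B K : ℝ} {T : ℝ} (hs2 : 2 ≤ s2)
    (hAB : A < B) (hA : -T + 2 * s2 + 1 ≤ A) (hB : B ≤ T - 2 * s2 - 1) (hK : 0 ≤ K)
    (hF : ∀ i, ∀ s : ℂ, 0 < s.re → AnalyticAt ℂ (F i) s)
    (h0 : ∀ i, ∀ t : ℝ, |t| ≤ T → ‖F i (pt s2 t) - 1‖ ≤ 1 / 8)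
    (h1 : ∀ σ ∈ Icc (1 / 2) (2 * s2 - 1 / 2), ∑ i, ∫⁻ t in Icc (-T + 1) (T - 1),
      ENNReal.ofReal (Real.log ‖F i (pt σ t)‖) ≤ ENNReal.ofReal K) :
    ∑ i, ∫⁻ σ in Icc (1 / 2) s2, ∫⁻ t in Icc A B, ‖Real.log ‖F i (pt σ t)‖‖ₑ ≤
      ENNReal.ofReal (2 * Real.pi * s2 * (2 * K + Fintype.card ι * (2 * T))) := by
  have hT : 0 < T := by linarith
  set r : ℝ := s2 - 1 / 2 with hr
  have hr0 : 0 < r := by linarith
  have e1 : s2 - r = 1 / 2 := by rw [hr]; ring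
  have e2 : s2 + r = 2 * s2 - 1 / 2 := by rw [hr]; ring
  have hsub : Icc (A - 2 * r) (B + 2 * r) ⊆ Icc (-T + 1) (T - 1) :=
    Icc_subset_Icc (by rw [hr]; linarith) (by rw [hr]; linarith)
  have hb : ∀ σ ∈ Icc (1 / 2) (2 * s2 - 1 / 2), ∑ i, ∫⁻ t in Icc (A - 2 * r) (B + 2 * r),
      ENNReal.ofReal (Real.log ‖F i (pt σ t)‖) ≤ ENNReal.ofReal K := fun σ hσ =>
    (Finset.sum_le_sum fun i _ => lintegral_mono_set hsub).trans (h1 σ hσ)
  have ht : ∀ t ∈ Icc (A - r) (B + r), |t| ≤ T := fun t ht => by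
    rw [abs_le]
    constructor
    · linarith [ht.1]
    · linarith [ht.2]
  have key := z_circF (F := F) (s2 := s2) (r := r) (x := 0) (A := A) (B := B) (K := K) (κ := K)
    (κ' := Fintype.card ι * (2 * T)) hr0 hAB le_rfl hK hK (by positivity)
    (fun i s hs => hF i s (by have := hs.1; rw [e1] at this; linarith))
    (fun i t htt => (FMY_log (h0 i t (ht t htt))).1)
    (fun σ hσ => hb σ (by rwa [e1, e2] at hσ))
    (fun σ hσ => hb σ (by rwa [e1, e2, add_zero] at hσ)) ?_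
  · rw [e1] at key
    refine key.trans (ENNReal.ofReal_le_ofReal ?_)
    rw [zero_div, Real.sqrt_zero, mul_zero, add_zero]
    have hπ := Real.pi_pos
    have : r ≤ s2 := by rw [hr]; linarith
    gcongr
  · have h3 : ∀ i : ι, ∫⁻ t in Icc (A - r) (B + r), ENNReal.ofReal (-Real.log ‖F i (pt s2 t)‖) ≤
        ENNReal.ofReal (2 * T) := by
      intro i
      calc ∫⁻ t in Icc (A - r) (B + r), ENNReal.ofReal (-Real.log ‖F i (pt s2 t)‖)
          ≤ ∫⁻ _t in Icc (A - r) (B + r), ENNReal.ofReal 1 :=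
            setLIntegral_mono' measurableSet_Icc fun t htt =>
              ENNReal.ofReal_le_ofReal (FMY_log (h0 i t (ht t htt))).2
        _ = ENNReal.ofReal (B + r - (A - r)) := by
            rw [ENNReal.ofReal_one, setLIntegral_one, Real.volume_Icc]
        _ ≤ ENNReal.ofReal (2 * T) := ENNReal.ofReal_le_ofReal (by linarith)
    calc ∑ i, ∫⁻ t in Icc (A - r) (B + r), ENNReal.ofReal (-Real.log ‖F i (pt s2 t)‖)
        ≤ ∑ _i : ι, ENNReal.ofReal (2 * T) := Finset.sum_le_sum fun i _ => h3 i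
      _ = ENNReal.ofReal (Fintype.card ι * (2 * T)) := by
          rw [Finset.sum_const, Finset.card_univ, nsmul_eq_mul, ← ENNReal.ofReal_natCast,
            ← ENNReal.ofReal_mul (by positivity)]

theorem z_famY_pr {ι : Type} [Fintype ι] {d : ι → LDat} {calL C0 C1 s2 T lam R x1 x2 cc δ : ℝ}
    (hd : ∀ i, (d i).Ok calL C0 s2 T) (hp : Par calL C0 s2 T lam R)
    (hf : FamOk d calL R lam C1 s2 T x1 x2 cc δ) (hδ : 0 < δ) {A B : ℝ} (hAB : A < B)
    (hA : -T + 2 * s2 + 1 ≤ A) (hB : B ≤ T - 2 * s2 - 1) :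
    ∑ i, ∫⁻ σ in Icc (1 / 2) s2, ∫⁻ t in Icc A B, ‖Real.log ‖(d i).W lam calL (pt σ t)‖‖ₑ ≤
        ENNReal.ofReal (Fintype.card ι * (2 * Real.pi * s2 *
          (1 + 2 * T * (Real.log (2 * (1 + 2 * C0) ^ 2 + 8) + δ * calL) + 2 * T))) ∧
    ∑ i, ∫⁻ σ in Icc (1 / 2) s2, ∫⁻ t in Icc A B, ‖Real.log ‖(d i).L (pt σ t)‖‖ₑ ≤
        ENNReal.ofReal (Fintype.card ι * (2 * Real.pi * s2 *
          (1 + 2 * T * (δ * calL) + 2 * T))) := by
  have hs2 := hp.two_le_s2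
  have hC0 := hp.C0_nonneg
  have hcal : 0 < calL := by linarith [hp.le_calL']
  have hT : 2 ≤ T := by linarith
  have hlog : 0 ≤ Real.log (2 * (1 + 2 * C0) ^ 2 + 8) :=
    Real.log_nonneg (by nlinarith [sq_nonneg (1 + 2 * C0)])
  constructor
  · have key := FMY_gen (F := fun i => (d i).W lam calL) (s2 := s2) (A := A) (B := B) (T := T)
      (K := Fintype.card ι * (1 / 2 + T * (Real.log (2 * (1 + 2 * C0) ^ 2 + 8) + δ * calL)))
      hs2 hAB hA hB (by positivity)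
      (fun i s hs => (z_an (lam := lam) (hd i) hs).2.2.2.2)
      (fun i t ht => (z_near (hd i) hp (s := pt s2 t) (by rw [FMY_re]; linarith)
        (by rw [FMY_re]; linarith) (by rw [FMY_im]; exact ht)).2.1)
      (fun σ hσ => z_famW hd hp hf hT hδ hσ.1 hσ.2)
    refine key.trans (le_of_eq ?_)
    congr 1
    ring
  · have key := FMY_gen (F := fun i => (d i).L) (s2 := s2) (A := A) (B := B) (T := T)
      (K := Fintype.card ι * (1 / 2 + T * (δ * calL)))
      hs2 hAB hA hB (by positivity)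
      (fun i s hs => (z_an (lam := lam) (hd i) hs).2.1)
      (fun i t _ => ((hd i).rL (pt s2 t) (by rw [FMY_re]; linarith)).trans (by norm_num))
      (fun σ hσ => ?_)
    · refine key.trans (le_of_eq ?_)
      congr 1
      ring
    · refine le_trans ?_ (z_famL hd hp hf hδ hσ.1 (by linarith [hσ.2]))
      exact Finset.sum_le_sum fun i _ =>
        lintegral_mono_set (Icc_subset_Icc (by linarith) (by linarith))

end Pool.Agent.LVK

namespace Pool.Agent.LVK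

theorem z_famY : type_of% @z_famY_pr := @z_famY_pr

end Pool.Agent.LVK
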