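import Pool.Agent.Lib_helper39.LVK.DefsZ
import Pool.Agent.Lib_helper39.LVZ.AIN
import Pool.Agent.Lib_helper39.LVZ.FMY

/-! LVK part Z, block TOA: all zeros, sum over the family. -/

namespace Pool.Agent.LVK

open Complex MeasureTheory Set Filter Topology
open scoped ENNReal

theorem z_totA_pr {ι : Type} [Fintype ι] {d : ι → LDat} {calL C0 C1 s2 T lam R x1 x2 cc δ : ℝ}
    (hd : ∀ i, (d i).Ok calL C0 s2 T) (hp : Par calL C0 s2 T lam R)
    (hf : FamOk d calL R lam C1 s2 T x1 x2 cc δ) (hδ : 0 < δ) {η : ℝ} (hη : 0 < η)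
    (hx : x1 < x2) (hx1 : -T + 2 * s2 + 1 ≤ x1 - η) (hx2 : x2 + η ≤ T - 2 * s2 - 1)
    {φ φ1 φ2 : ℝ → ℝ} (h : Tst (x1 - η) (x2 + η) φ φ1 φ2) (h1 : ∀ t ∈ Icc x1 x2, φ t = 1)
    {M2 : ℝ} (hM2 : ∀ t, |φ2 t| ≤ M2) :
    ∑ i, allZ (d i).ξ x1 x2 ≤ ENNReal.ofReal (Fintype.card ι * (1 / Real.pi *
      ((calL / 2 + C0 + 1) * (∫ t in (x1 - η)..(x2 + η), φ t) +
      s2 * C0 * (∫ t in (x1 - η)..(x2 + η), |φ1 t|) +
      M2 * (2 * Real.pi * s2 * (1 + 2 * T * (δ * calL) + 2 * T))))) := by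
  have hs2 := hp.two_le_s2
  have hC0 := hp.C0_nonneg
  have hT := hp.one_le_T
  have hcal : 0 ≤ calL := by
    have := hp.le_calL
    have := hp.R_pos
    linarith
  have hAB : x1 - η < x2 + η := by linarith
  have hM20 : 0 ≤ M2 := (abs_nonneg _).trans (hM2 0)
  set Z : ℝ := 2 * Real.pi * s2 * (1 + 2 * T * (δ * calL) + 2 * T) with hZ
  have hZ0 : 0 ≤ Z := by
    have := Real.pi_pos
    positivity
  set y : ι → ℝ≥0∞ := fun i => ∫⁻ σ in Icc (1 / 2) s2, ∫⁻ t in Icc (x1 - η) (x2 + η),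
    ‖Real.log ‖(d i).L (pt σ t)‖‖ₑ with hy
  have hsum : ∑ i, y i ≤ ENNReal.ofReal (Fintype.card ι * Z) :=
    (z_famY hd hp hf hδ hAB hx1 hx2).2
  have hfin : ∀ i, y i ≠ ⊤ := by
    intro i
    have h2 : y i ≤ ∑ i, y i := Finset.single_le_sum (fun _ _ => zero_le) (Finset.mem_univ i)
    exact ne_top_of_le_ne_top ENNReal.ofReal_ne_top (h2.trans hsum)
  have hsumR : ∑ i, (y i).toReal ≤ Fintype.card ι * Z := by
    rw [← ENNReal.toReal_sum fun i _ => hfin i]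
    exact ENNReal.toReal_le_of_le_ofReal (by positivity) hsum
  have hφ0 : 0 ≤ ∫ t in (x1 - η)..(x2 + η), φ t :=
    intervalIntegral.integral_nonneg hAB.le fun t _ => h.nonneg t
  have hφ10 : 0 ≤ ∫ t in (x1 - η)..(x2 + η), |φ1 t| :=
    intervalIntegral.integral_nonneg hAB.le fun t _ => abs_nonneg _
  set E : ℝ := (calL / 2 + C0 + 1) * (∫ t in (x1 - η)..(x2 + η), φ t) +
    s2 * C0 * (∫ t in (x1 - η)..(x2 + η), |φ1 t|) with hE
  have hE0 : 0 ≤ E := by positivity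
  have hone : ∀ i, allZ (d i).ξ x1 x2 ≤
      ENNReal.ofReal (1 / Real.pi * (E + M2 * (y i).toReal)) := by
    intro i
    exact z_allineq (hd i) hp hAB (by linarith) (by linarith) h
      (fun t ht => (h1 t (Ioo_subset_Icc_self ht)).ge) hM2 ENNReal.toReal_nonneg
      (ENNReal.ofReal_toReal (hfin i)).ge
  refine (Finset.sum_le_sum fun i _ => hone i).trans ?_
  have hpi : 0 ≤ 1 / Real.pi := by positivity
  rw [← ENNReal.ofReal_sum_of_nonneg fun i _ =>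
    mul_nonneg hpi (add_nonneg hE0 (mul_nonneg hM20 ENNReal.toReal_nonneg))]
  refine ENNReal.ofReal_le_ofReal ?_
  rw [← Finset.mul_sum, Finset.sum_add_distrib, ← Finset.mul_sum, Finset.sum_const,
    Finset.card_univ, nsmul_eq_mul]
  have h3 : M2 * ∑ i, (y i).toReal ≤ M2 * (Fintype.card ι * Z) :=
    mul_le_mul_of_nonneg_left hsumR hM20
  have h4 : (Fintype.card ι : ℝ) * (1 / Real.pi * (E + M2 * Z)) =
      1 / Real.pi * (Fintype.card ι * E + M2 * (Fintype.card ι * Z)) := by ring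
  rw [h4]
  exact mul_le_mul_of_nonneg_left (by linarith) hpi

end Pool.Agent.LVK

namespace Pool.Agent.LVK

theorem z_totA : type_of% @z_totA_pr := @z_totA_pr

end Pool.Agent.LVK
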