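import Pool.Agent.Lib_helper39.LVK.DefsZ
import Pool.Agent.Lib_helper39.LVZ.FIN
import Pool.Agent.Lib_helper39.LVZ.GMW
import Pool.Agent.Lib_helper39.LVZ.IND
import Pool.Agent.Lib_helper39.LVZ.INT

/-!
# LVK part Z, block FMA: family estimates on the line `Re s = a`
-/

namespace Pool.Agent.LVK

open Complex MeasureTheory Set Filter Topology
open scoped ENNReal

theorem FMA_re (σ t : ℝ) : (pt σ t).re = σ := by simp [pt]

theorem FMA_im (σ t : ℝ) : (pt σ t).im = t := by simp [pt]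

theorem FMA_pt (σ : ℝ) : Continuous (pt σ) := by
  unfold pt
  fun_prop

theorem FMA_cont {f : ℂ → ℂ} (hf : ∀ s : ℂ, 0 < s.re → AnalyticAt ℂ f s) {σ : ℝ} (hσ : 0 < σ) :
    Continuous (fun t => f (pt σ t)) := by
  rw [continuous_iff_continuousAt]
  intro t
  have h1 : ContinuousAt f (pt σ t) := (hf _ (by rw [FMA_re]; exact hσ)).continuousAt
  exact h1.comp (FMA_pt σ).continuousAt

theorem FMA_ii {f : ℂ → ℂ} (hf : ∀ s : ℂ, 0 < s.re → AnalyticAt ℂ f s) {σ : ℝ} (hσ : 0 < σ)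
    (A B : ℝ) : IntervalIntegrable (fun t => ‖f (pt σ t)‖ ^ 2) volume A B :=
  ((FMA_cont hf hσ).norm.pow 2).intervalIntegrable A B

theorem FMA_par {calL C0 s2 T lam R : ℝ} (hp : Par calL C0 s2 T lam R) :
    0 < calL ∧ 1 / 4 ≤ 1 / 2 - R / calL ∧ 1 / 2 - R / calL ≤ 1 / 2 := by
  have h1 := hp.le_calL'
  have h2 := hp.C0_nonneg
  have h3 := hp.le_calL
  have h4 := hp.R_pos
  have hc : 0 < calL := by linarith
  have h5 : R / calL ≤ 1 / 4 := by rw [div_le_iff₀ hc]; linarith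
  have h6 : 0 ≤ R / calL := by positivity
  exact ⟨hc, by linarith, by linarith⟩

theorem FMA_sq {a b c δ : ℝ} (hδ : 0 < δ) (ha : 0 ≤ a) (hb : 0 ≤ b) (hc : 0 ≤ c) (h : c ≤ a + b) :
    c ^ 2 ≤ (1 + δ) * a ^ 2 + (1 + 1 / δ) * b ^ 2 := by
  have h1 : 0 ≤ (δ * a - b) ^ 2 / δ := by positivity
  have h2 : (δ * a - b) ^ 2 / δ = δ * a ^ 2 - 2 * a * b + 1 / δ * b ^ 2 := by
    field_simp
    ring
  rw [h2] at h1
  nlinarith

theorem FMA_point {d : LDat} {calL C0 s2 T lam R δ : ℝ} (hd : d.Ok calL C0 s2 T)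
    (hp : Par calL C0 s2 T lam R) (hδ : 0 < δ) {t : ℝ} (ht : |t| ≤ T) :
    ‖d.W lam calL (pt (1 / 2 - R / calL) t) * d.M (pt (1 / 2 - R / calL) t)‖ ^ 2 ≤
      (1 + δ) * ‖d.V lam calL (pt (1 / 2 - R / calL) t) * d.M (pt (1 / 2 - R / calL) t)‖ ^ 2 +
        (1 + 1 / δ) * (lam * C0 / calL) ^ 2 *
          ‖d.L (pt (1 / 2 - R / calL) t) * d.M (pt (1 / 2 - R / calL) t)‖ ^ 2 := by
  obtain ⟨hc, ha, ha'⟩ := FMA_par hp
  have hs2 := hp.two_le_s2
  have h1 := (z_WV hd hp (s := pt (1 / 2 - R / calL) t) (by rw [FMA_re]; exact ha)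
    (by rw [FMA_re]; linarith) (by rw [FMA_im]; exact ht)).1
  have hl := hp.lam_pos
  have hC0 := hp.C0_nonneg
  set w := d.W lam calL (pt (1 / 2 - R / calL) t) * d.M (pt (1 / 2 - R / calL) t)
  set v := d.V lam calL (pt (1 / 2 - R / calL) t) * d.M (pt (1 / 2 - R / calL) t)
  set l := d.L (pt (1 / 2 - R / calL) t) * d.M (pt (1 / 2 - R / calL) t)
  have h2 : ‖w‖ ≤ ‖v‖ + lam * C0 / calL * ‖l‖ := by
    calc ‖w‖ = ‖v + (w - v)‖ := by congr 1; ring
      _ ≤ ‖v‖ + ‖w - v‖ := norm_add_le _ _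
      _ ≤ ‖v‖ + lam * C0 / calL * ‖l‖ := by linarith
  have h3 := FMA_sq hδ (norm_nonneg v) (b := lam * C0 / calL * ‖l‖) (by positivity)
    (norm_nonneg w) h2
  rw [mul_pow] at h3
  linarith

theorem z_famA_pr {ι : Type} [Fintype ι] {d : ι → LDat} {calL C0 C1 s2 T lam R x1 x2 cc δ : ℝ}
    (hd : ∀ i, (d i).Ok calL C0 s2 T) (hp : Par calL C0 s2 T lam R)
    (hf : FamOk d calL R lam C1 s2 T x1 x2 cc δ) (hx : x1 < x2) (hx1 : -T ≤ x1) (hx2 : x2 ≤ T)
    (hδ : 0 < δ) :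
    ∑ i, ∫ t in x1..x2, ‖(d i).W lam calL (pt (1 / 2 - R / calL) t) *
        (d i).M (pt (1 / 2 - R / calL) t)‖ ^ 2 ≤
      Fintype.card ι * ((1 + δ) * ((x2 - x1) * (cc + δ)) +
        (1 + 1 / δ) * (lam * C0 / calL) ^ 2 * C1) := by
  obtain ⟨hc, ha, ha'⟩ := FMA_par hp
  have hs2 := hp.two_le_s2
  have ha0 : 0 < 1 / 2 - R / calL := by linarith
  have hWM : ∀ i, ∀ s : ℂ, 0 < s.re → AnalyticAt ℂ (fun s => (d i).W lam calL s * (d i).M s) s :=
    fun i s hs => (z_an (hd i) hs (lam := lam)).2.2.2.2.mul (z_an (hd i) hs (lam := lam)).2.2.1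
  have hVM : ∀ i, ∀ s : ℂ, 0 < s.re → AnalyticAt ℂ (fun s => (d i).V lam calL s * (d i).M s) s :=
    fun i s hs => (z_an (hd i) hs (lam := lam)).2.2.2.1.mul (z_an (hd i) hs (lam := lam)).2.2.1
  have hLM : ∀ i, ∀ s : ℂ, 0 < s.re → AnalyticAt ℂ (fun s => (d i).L s * (d i).M s) s :=
    fun i s hs => (z_an (hd i) hs (lam := lam)).2.1.mul (z_an (hd i) hs (lam := lam)).2.2.1
  have h1 : ∀ i, ∫ t in x1..x2, ‖(d i).W lam calL (pt (1 / 2 - R / calL) t) *
        (d i).M (pt (1 / 2 - R / calL) t)‖ ^ 2 ≤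
      (1 + δ) * (∫ t in x1..x2, ‖(d i).V lam calL (pt (1 / 2 - R / calL) t) *
        (d i).M (pt (1 / 2 - R / calL) t)‖ ^ 2) +
      (1 + 1 / δ) * (lam * C0 / calL) ^ 2 * (∫ t in (-T)..T,
        ‖(d i).L (pt (1 / 2 - R / calL) t) * (d i).M (pt (1 / 2 - R / calL) t)‖ ^ 2) := by
    intro i
    have k1 : IntervalIntegrable (fun t => ‖(d i).W lam calL (pt (1 / 2 - R / calL) t) *
        (d i).M (pt (1 / 2 - R / calL) t)‖ ^ 2) volume x1 x2 := FMA_ii (hWM i) ha0 x1 x2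
    have k2 : IntervalIntegrable (fun t => ‖(d i).V lam calL (pt (1 / 2 - R / calL) t) *
        (d i).M (pt (1 / 2 - R / calL) t)‖ ^ 2) volume x1 x2 := FMA_ii (hVM i) ha0 x1 x2
    have k3 : ∀ A B : ℝ, IntervalIntegrable (fun t => ‖(d i).L (pt (1 / 2 - R / calL) t) *
        (d i).M (pt (1 / 2 - R / calL) t)‖ ^ 2) volume A B := fun A B => FMA_ii (hLM i) ha0 A B
    have k4 : ∫ t in x1..x2, ‖(d i).W lam calL (pt (1 / 2 - R / calL) t) *
        (d i).M (pt (1 / 2 - R / calL) t)‖ ^ 2 ≤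
        ∫ t in x1..x2, ((1 + δ) * ‖(d i).V lam calL (pt (1 / 2 - R / calL) t) *
          (d i).M (pt (1 / 2 - R / calL) t)‖ ^ 2 + (1 + 1 / δ) * (lam * C0 / calL) ^ 2 *
          ‖(d i).L (pt (1 / 2 - R / calL) t) * (d i).M (pt (1 / 2 - R / calL) t)‖ ^ 2) := by
      apply intervalIntegral.integral_mono_on hx.le k1
        ((k2.const_mul _).add ((k3 x1 x2).const_mul _))
      intro t ht
      exact FMA_point (hd i) hp hδ (abs_le.2 ⟨by linarith [ht.1], by linarith [ht.2]⟩)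
    rw [intervalIntegral.integral_add (k2.const_mul _) ((k3 x1 x2).const_mul _),
      intervalIntegral.integral_const_mul, intervalIntegral.integral_const_mul] at k4
    refine k4.trans ?_
    have k5 : ∫ t in x1..x2, ‖(d i).L (pt (1 / 2 - R / calL) t) *
        (d i).M (pt (1 / 2 - R / calL) t)‖ ^ 2 ≤ ∫ t in (-T)..T,
        ‖(d i).L (pt (1 / 2 - R / calL) t) * (d i).M (pt (1 / 2 - R / calL) t)‖ ^ 2 := by
      apply intervalIntegral.integral_mono_interval hx1 hx.le hx2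
      · exact Filter.Eventually.of_forall fun t => by positivity
      · exact k3 _ _
    have k6 : 0 ≤ (1 + 1 / δ) * (lam * C0 / calL) ^ 2 := by positivity
    have k7 := mul_le_mul_of_nonneg_left k5 k6
    linarith
  have h2 := hf.m2
  have h3 := hf.m3a (1 / 2 - R / calL) le_rfl (by linarith)
  calc ∑ i, ∫ t in x1..x2, ‖(d i).W lam calL (pt (1 / 2 - R / calL) t) *
        (d i).M (pt (1 / 2 - R / calL) t)‖ ^ 2
      ≤ ∑ i, ((1 + δ) * (∫ t in x1..x2, ‖(d i).V lam calL (pt (1 / 2 - R / calL) t) *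
        (d i).M (pt (1 / 2 - R / calL) t)‖ ^ 2) +
      (1 + 1 / δ) * (lam * C0 / calL) ^ 2 * (∫ t in (-T)..T,
        ‖(d i).L (pt (1 / 2 - R / calL) t) * (d i).M (pt (1 / 2 - R / calL) t)‖ ^ 2)) :=
        Finset.sum_le_sum fun i _ => h1 i
    _ = (1 + δ) * (∑ i, ∫ t in x1..x2, ‖(d i).V lam calL (pt (1 / 2 - R / calL) t) *
        (d i).M (pt (1 / 2 - R / calL) t)‖ ^ 2) +
      (1 + 1 / δ) * (lam * C0 / calL) ^ 2 * (∑ i, ∫ t in (-T)..T,
        ‖(d i).L (pt (1 / 2 - R / calL) t) * (d i).M (pt (1 / 2 - R / calL) t)‖ ^ 2) := by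
        rw [Finset.sum_add_distrib, Finset.mul_sum, Finset.mul_sum]
    _ ≤ (1 + δ) * (Fintype.card ι * ((x2 - x1) * (cc + δ))) +
      (1 + 1 / δ) * (lam * C0 / calL) ^ 2 * (Fintype.card ι * C1) := by
        apply add_le_add
        · exact mul_le_mul_of_nonneg_left h2 (by linarith)
        · exact mul_le_mul_of_nonneg_left h3 (by positivity)
    _ = _ := by ring

theorem FMA_log {c0 x : ℝ} (hc : 0 < c0) (hx : 0 < x) :
    Real.log x ≤ 1 / 2 * (x ^ 2 / c0 + (Real.log c0 - 1)) := by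
  have h1 := Real.log_le_sub_one_of_pos (show 0 < x ^ 2 / c0 by positivity)
  rw [Real.log_div (by positivity) hc.ne', Real.log_pow] at h1
  push_cast at h1
  linarith

theorem FMA_fin {d : LDat} {calL C0 s2 T lam R x1 x2 : ℝ} (hd : d.Ok calL C0 s2 T)
    (hp : Par calL C0 s2 T lam R) (hx : x1 < x2) (hx1 : -T ≤ x1) (hx2 : x2 ≤ T) :
    {t : ℝ | t ∈ Icc x1 x2 ∧ d.W lam calL (pt (1 / 2 - R / calL) t) *
      d.M (pt (1 / 2 - R / calL) t) = 0}.Finite := by
  obtain ⟨hc, ha, ha'⟩ := FMA_par hp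
  have hs2 := hp.two_le_s2
  have hz : pt s2 x1 ∈ Rc (1 / 2 - R / calL) s2 x1 x2 := by
    refine ⟨?_, ?_, ?_, ?_⟩
    · rw [FMA_re]; linarith
    · rw [FMA_re]
    · rw [FMA_im]
    · rw [FMA_im]; exact hx.le
  have hF : AnalyticOnNhd ℂ (fun s => d.W lam calL s * d.M s)
      (Rc (1 / 2 - R / calL) s2 x1 x2) := by
    intro s hs
    have h0 : 0 < s.re := by linarith [hs.1]
    exact (z_an hd h0 (lam := lam)).2.2.2.2.mul (z_an hd h0 (lam := lam)).2.2.1
  have h0 : (fun s => d.W lam calL s * d.M s) (pt s2 x1) ≠ 0 := by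
    intro h
    have h1 := (z_near hd hp (s := pt s2 x1) (by rw [FMA_re]; linarith)
      (by rw [FMA_re]; linarith) (by rw [FMA_im, abs_le]; constructor <;> linarith)).2.2
    simp only at h
    rw [h, zero_sub, norm_neg, norm_one] at h1
    norm_num at h1
  obtain ⟨S, hS⟩ := z_fin hF hz h0
  have hinj : Set.InjOn (pt (1 / 2 - R / calL)) {t : ℝ | t ∈ Icc x1 x2 ∧
      d.W lam calL (pt (1 / 2 - R / calL) t) * d.M (pt (1 / 2 - R / calL) t) = 0} := by
    intro t _ t' _ h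
    have := congrArg Complex.im h
    rwa [FMA_im, FMA_im] at this
  have hmaps : Set.MapsTo (pt (1 / 2 - R / calL)) {t : ℝ | t ∈ Icc x1 x2 ∧
      d.W lam calL (pt (1 / 2 - R / calL) t) * d.M (pt (1 / 2 - R / calL) t) = 0}
      (S : Set ℂ) := by
    rintro t ⟨ht, h0t⟩
    rw [Finset.mem_coe, hS]
    refine ⟨⟨?_, ?_, ?_, ?_⟩, h0t⟩
    · rw [FMA_re]
    · rw [FMA_re]; linarith
    · rw [FMA_im]; exact ht.1
    · rw [FMA_im]; exact ht.2
  exact Set.Finite.of_injOn hmaps hinj S.finite_toSet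

theorem z_famJ_pr {ι : Type} [Fintype ι] {d : ι → LDat} {calL C0 C1 s2 T lam R x1 x2 cc δ : ℝ}
    (hd : ∀ i, (d i).Ok calL C0 s2 T) (hp : Par calL C0 s2 T lam R)
    (hf : FamOk d calL R lam C1 s2 T x1 x2 cc δ) (hx : x1 < x2) (hx1 : -T ≤ x1) (hx2 : x2 ≤ T)
    (hδ : 0 < δ) (hcc : 0 < cc) {φ φ1 φ2 : ℝ → ℝ} (h : Tst x1 x2 φ φ1 φ2)
    (h1 : ∀ t, φ t ≤ 1) :
    ∑ i, JJ x1 x2 φ (fun s => (d i).W lam calL s * (d i).M s) (1 / 2 - R / calL) ≤
      Fintype.card ι * (1 / 2 * (((1 + δ) * ((x2 - x1) * (cc + δ)) +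
        (1 + 1 / δ) * (lam * C0 / calL) ^ 2 * C1) / cc +
        (Real.log cc - 1) * ∫ t in x1..x2, φ t)) := by
  obtain ⟨hc, ha, ha'⟩ := FMA_par hp
  have hs2 := hp.two_le_s2
  have ha0 : 0 < 1 / 2 - R / calL := by linarith
  have hφc : Continuous φ := continuous_iff_continuousAt.2 fun t => (h.d1 t).continuousAt
  have hWM : ∀ i, ∀ s : ℂ, 0 < s.re → AnalyticAt ℂ (fun s => (d i).W lam calL s * (d i).M s) s :=
    fun i s hs => (z_an (hd i) hs (lam := lam)).2.2.2.2.mul (z_an (hd i) hs (lam := lam)).2.2.1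
  have hi : ∀ i, JJ x1 x2 φ (fun s => (d i).W lam calL s * (d i).M s) (1 / 2 - R / calL) ≤
      1 / 2 * (1 / cc * (∫ t in x1..x2, ‖(d i).W lam calL (pt (1 / 2 - R / calL) t) *
        (d i).M (pt (1 / 2 - R / calL) t)‖ ^ 2) + (Real.log cc - 1) * ∫ t in x1..x2, φ t) := by
    intro i
    unfold JJ
    have k1 : IntervalIntegrable (fun t => φ t * Real.log ‖(d i).W lam calL
        (pt (1 / 2 - R / calL) t) * (d i).M (pt (1 / 2 - R / calL) t)‖) volume x1 x2 := by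
      have hF : AnalyticOnNhd ℂ (fun s => (d i).W lam calL s * (d i).M s)
          (Rc (1 / 2 - R / calL) s2 x1 x2) := fun s hs => hWM i s (by linarith [hs.1])
      exact z_intJ hx hF hφc (σ := 1 / 2 - R / calL) ⟨le_rfl, by linarith⟩
    have k2 : IntervalIntegrable (fun t => ‖(d i).W lam calL (pt (1 / 2 - R / calL) t) *
        (d i).M (pt (1 / 2 - R / calL) t)‖ ^ 2) volume x1 x2 := FMA_ii (hWM i) ha0 x1 x2
    have k3 : IntervalIntegrable φ volume x1 x2 := hφc.intervalIntegrable _ _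
    have k4 : ∫ t in x1..x2, φ t * Real.log ‖(d i).W lam calL
        (pt (1 / 2 - R / calL) t) * (d i).M (pt (1 / 2 - R / calL) t)‖ ≤
        ∫ t in x1..x2, 1 / 2 * (1 / cc * ‖(d i).W lam calL (pt (1 / 2 - R / calL) t) *
        (d i).M (pt (1 / 2 - R / calL) t)‖ ^ 2 + (Real.log cc - 1) * φ t) := by
      apply intervalIntegral.integral_mono_ae_restrict hx.le k1
        (((k2.const_mul _).add (k3.const_mul _)).const_mul _)
      have hfin := FMA_fin (hd i) hp hx hx1 hx2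
      have hae := hfin.measure_zero volume
      rw [Filter.EventuallyLE, ae_restrict_iff' measurableSet_Icc]
      have hae2 : ∀ᵐ t : ℝ, t ∉ {t : ℝ | t ∈ Icc x1 x2 ∧
          (d i).W lam calL (pt (1 / 2 - R / calL) t) *
          (d i).M (pt (1 / 2 - R / calL) t) = 0} := measure_eq_zero_iff_ae_notMem.1 hae
      filter_upwards [hae2] with t ht htI
      have hne : (d i).W lam calL (pt (1 / 2 - R / calL) t) *
          (d i).M (pt (1 / 2 - R / calL) t) ≠ 0 := fun h0 => ht ⟨htI, h0⟩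
      have hx0 := norm_pos_iff.2 hne
      set x := ‖(d i).W lam calL (pt (1 / 2 - R / calL) t) *
          (d i).M (pt (1 / 2 - R / calL) t)‖
      have m1 := mul_le_mul_of_nonneg_left (FMA_log hcc hx0) (h.nonneg t)
      have m2 : φ t * (x ^ 2 / cc) ≤ 1 * (x ^ 2 / cc) :=
        mul_le_mul_of_nonneg_right (h1 t) (by positivity)
      have m3 : x ^ 2 / cc = 1 / cc * x ^ 2 := by ring
      rw [m3] at m1 m2
      nlinarith
    rw [intervalIntegral.integral_const_mul,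
      intervalIntegral.integral_add (k2.const_mul _) (k3.const_mul _),
      intervalIntegral.integral_const_mul, intervalIntegral.integral_const_mul] at k4
    exact k4
  have hA := z_famA_pr hd hp hf hx hx1 hx2 hδ
  calc ∑ i, JJ x1 x2 φ (fun s => (d i).W lam calL s * (d i).M s) (1 / 2 - R / calL)
      ≤ ∑ i, 1 / 2 * (1 / cc * (∫ t in x1..x2, ‖(d i).W lam calL (pt (1 / 2 - R / calL) t) *
        (d i).M (pt (1 / 2 - R / calL) t)‖ ^ 2) + (Real.log cc - 1) * ∫ t in x1..x2, φ t) :=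
        Finset.sum_le_sum fun i _ => hi i
    _ = 1 / 2 * (1 / cc * (∑ i, ∫ t in x1..x2, ‖(d i).W lam calL (pt (1 / 2 - R / calL) t) *
        (d i).M (pt (1 / 2 - R / calL) t)‖ ^ 2) +
          Fintype.card ι * ((Real.log cc - 1) * ∫ t in x1..x2, φ t)) := by
        rw [← Finset.mul_sum, Finset.sum_add_distrib, ← Finset.mul_sum, Finset.sum_const,
          Finset.card_univ, nsmul_eq_mul]
    _ ≤ 1 / 2 * (1 / cc * (Fintype.card ι * ((1 + δ) * ((x2 - x1) * (cc + δ)) +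
        (1 + 1 / δ) * (lam * C0 / calL) ^ 2 * C1)) +
          Fintype.card ι * ((Real.log cc - 1) * ∫ t in x1..x2, φ t)) := by
        have := mul_le_mul_of_nonneg_left hA (show 0 ≤ 1 / cc by positivity)
        linarith
    _ = _ := by ring


end Pool.Agent.LVK

namespace Pool.Agent.LVK

theorem z_famA : type_of% @z_famA_pr := @z_famA_pr
theorem z_famJ : type_of% @z_famJ_pr := @z_famJ_pr

end Pool.Agent.LVK
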