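import Pool.Agent.Lib_helper39.LVK.DefsZ
import Pool.Agent.Lib_helper39.LVZ.GMW
import Pool.Agent.Lib_helper39.LVZ.IND

/-!
# LVK part Z, block FMK: family estimates
-/

namespace Pool.Agent.LVK

open Complex MeasureTheory Set Filter Topology
open scoped ENNReal

theorem FMK_pt (σ : ℝ) : Continuous (pt σ) := by
  unfold pt; fun_prop

theorem FMK_re (σ t : ℝ) : (pt σ t).re = σ := by simp [pt]

theorem FMK_im (σ t : ℝ) : (pt σ t).im = t := by simp [pt]

/-- continuity on vertical lines -/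
theorem FMK_cont {d : LDat} {calL C0 s2 T lam : ℝ} (hd : d.Ok calL C0 s2 T) {σ : ℝ}
    (hσ : 0 < σ) : Continuous (fun t => d.L (pt σ t)) ∧ Continuous (fun t => d.M (pt σ t)) ∧
      Continuous (fun t => d.V lam calL (pt σ t)) ∧
      Continuous (fun t => d.W lam calL (pt σ t)) := by
  have h : ∀ t, 0 < (pt σ t).re := fun t => by rw [FMK_re]; exact hσ
  refine ⟨?_, ?_, ?_, ?_⟩ <;> rw [continuous_iff_continuousAt] <;> intro t
  · exact ContinuousAt.comp (g := d.L) (z_an (lam := lam) hd (h t)).2.1.continuousAt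
      (FMK_pt σ).continuousAt
  · exact ContinuousAt.comp (g := d.M) (z_an (lam := lam) hd (h t)).2.2.1.continuousAt
      (FMK_pt σ).continuousAt
  · exact ContinuousAt.comp (g := d.V lam calL) (z_an (lam := lam) hd (h t)).2.2.2.1.continuousAt
      (FMK_pt σ).continuousAt
  · exact ContinuousAt.comp (g := d.W lam calL) (z_an (lam := lam) hd (h t)).2.2.2.2.continuousAt
      (FMK_pt σ).continuousAt

/-- the constant `κ = λ C0 / ℒ` is small -/
theorem FMK_kap {calL C0 s2 T lam R : ℝ} (hp : Par calL C0 s2 T lam R) :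
    0 ≤ lam * C0 / calL ∧ lam * C0 / calL ≤ 1 ∧ 0 < calL := by
  have h1 := hp.le_calL'
  have h2 := hp.C0_nonneg
  have h3 : 0 < calL := by linarith
  refine ⟨div_nonneg (mul_nonneg hp.lam_pos.le h2) h3.le, ?_, h3⟩
  rw [div_le_one h3]
  have := mul_le_mul_of_nonneg_right hp.lam_lt.le h2
  linarith

theorem FMK_quarter {calL C0 s2 T lam R σ : ℝ} (hp : Par calL C0 s2 T lam R)
    (h1 : 1 / 2 - R / calL ≤ σ) : 1 / 4 ≤ σ := by
  have h3 := (FMK_kap hp).2.2
  have h4 : R / calL ≤ 1 / 4 := by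
    rw [div_le_iff₀ h3]
    have := hp.le_calL
    linarith
  linarith

theorem FMK_log (x : ℝ) (hx : 0 ≤ x) : Real.log x ≤ x ^ 2 / 2 := by
  rcases hx.eq_or_lt with h | h
  · rw [← h]; simp
  · have h1 : Real.log (x ^ 2) ≤ x ^ 2 - 1 := Real.log_le_sub_one_of_pos (by positivity)
    rw [Real.log_pow] at h1
    push_cast at h1
    linarith

theorem z_famK_pr {ι : Type} [Fintype ι] {d : ι → LDat}
    {calL C0 C1 s2 T lam R x1 x2 cc δ : ℝ}
    (hd : ∀ i, (d i).Ok calL C0 s2 T) (hp : Par calL C0 s2 T lam R)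
    (hf : FamOk d calL R lam C1 s2 T x1 x2 cc δ) (hC1 : 0 ≤ C1) {σ : ℝ}
    (h1 : 1 / 2 - R / calL ≤ σ) (h2 : σ ≤ 2 * s2) :
    ∑ i, ∫⁻ t in Icc (-T) T,
      ENNReal.ofReal (Real.log ‖(d i).W lam calL (pt σ t) * (d i).M (pt σ t)‖) ≤
        ENNReal.ofReal (Fintype.card ι * (2 * C1)) := by
  obtain ⟨hk0, hk1, hcal⟩ := FMK_kap hp
  set κ := lam * C0 / calL with hκ
  have hσ4 := FMK_quarter hp h1
  have hσ : 0 < σ := by linarith
  have hT : -T ≤ T := by have := hp.one_le_T; linarith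
  have hpt : ∀ i, ∀ t ∈ Icc (-T) T,
      ENNReal.ofReal (Real.log ‖(d i).W lam calL (pt σ t) * (d i).M (pt σ t)‖) ≤
      ENNReal.ofReal (‖(d i).V lam calL (pt σ t) * (d i).M (pt σ t)‖ ^ 2 +
        ‖(d i).L (pt σ t) * (d i).M (pt σ t)‖ ^ 2) := by
    intro i t ht
    apply ENNReal.ofReal_le_ofReal
    have h3 := (z_WV (hd i) hp (s := pt σ t) (by rw [FMK_re]; exact hσ4)
      (by rw [FMK_re]; exact h2) (by rw [FMK_im]; exact abs_le.mpr ⟨ht.1, ht.2⟩)).1
    have h4 : ‖(d i).W lam calL (pt σ t) * (d i).M (pt σ t)‖ ≤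
        ‖(d i).V lam calL (pt σ t) * (d i).M (pt σ t)‖ +
          ‖(d i).L (pt σ t) * (d i).M (pt σ t)‖ := by
      have h5 := norm_le_norm_add_norm_sub' ((d i).W lam calL (pt σ t) * (d i).M (pt σ t))
        ((d i).V lam calL (pt σ t) * (d i).M (pt σ t))
      have h6 : κ * ‖(d i).L (pt σ t) * (d i).M (pt σ t)‖ ≤
          1 * ‖(d i).L (pt σ t) * (d i).M (pt σ t)‖ :=
        mul_le_mul_of_nonneg_right hk1 (norm_nonneg _)
      linarith
    refine (FMK_log _ (norm_nonneg _)).trans ?_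
    set a := ‖(d i).V lam calL (pt σ t) * (d i).M (pt σ t)‖ with ha
    set b := ‖(d i).L (pt σ t) * (d i).M (pt σ t)‖ with hb
    have ha0 : 0 ≤ a := norm_nonneg _
    have hb0 : 0 ≤ b := norm_nonneg _
    have h7 : ‖(d i).W lam calL (pt σ t) * (d i).M (pt σ t)‖ ^ 2 ≤ (a + b) ^ 2 :=
      pow_le_pow_left₀ (norm_nonneg _) h4 2
    nlinarith [sq_nonneg (a - b)]
  have hc : ∀ i, Continuous (fun t => ‖(d i).V lam calL (pt σ t) * (d i).M (pt σ t)‖ ^ 2) ∧
      Continuous (fun t => ‖(d i).L (pt σ t) * (d i).M (pt σ t)‖ ^ 2) := by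
    intro i
    obtain ⟨c1, c2, c3, -⟩ := FMK_cont (lam := lam) (hd i) hσ
    exact ⟨(c3.mul c2).norm.pow 2, (c1.mul c2).norm.pow 2⟩
  have hi : ∀ i, ∫⁻ t in Icc (-T) T,
      ENNReal.ofReal (Real.log ‖(d i).W lam calL (pt σ t) * (d i).M (pt σ t)‖) ≤
      ENNReal.ofReal ((∫ t in (-T)..T, ‖(d i).V lam calL (pt σ t) * (d i).M (pt σ t)‖ ^ 2) +
        ∫ t in (-T)..T, ‖(d i).L (pt σ t) * (d i).M (pt σ t)‖ ^ 2) := by
    intro i
    obtain ⟨c1, c2⟩ := hc i
    refine (setLIntegral_mono' measurableSet_Icc (hpt i)).trans ?_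
    rw [← ofReal_integral_eq_lintegral_ofReal, ← intervalIntegral.integral_add
      (c1.intervalIntegrable _ _) (c2.intervalIntegrable _ _),
      intervalIntegral.integral_of_le hT, integral_Icc_eq_integral_Ioc]
    · exact ((c1.add c2).continuousOn).integrableOn_Icc
    · exact Filter.Eventually.of_forall fun t => by positivity
  refine (Finset.sum_le_sum fun i _ => hi i).trans ?_
  rw [← ENNReal.ofReal_sum_of_nonneg]
  · apply ENNReal.ofReal_le_ofReal
    rw [Finset.sum_add_distrib]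
    have h8 := hf.m3a σ h1 h2
    have h9 := hf.m3b σ h1 h2
    linarith
  · intro i _
    exact add_nonneg (intervalIntegral.integral_nonneg hT fun t _ => sq_nonneg _)
      (intervalIntegral.integral_nonneg hT fun t _ => sq_nonneg _)

theorem z_famk_pr {ι : Type} [Fintype ι] {d : ι → LDat}
    {calL C0 C1 s2 T lam R x1 x2 cc δ : ℝ}
    (hd : ∀ i, (d i).Ok calL C0 s2 T) (hp : Par calL C0 s2 T lam R)
    (hf : FamOk d calL R lam C1 s2 T x1 x2 cc δ) (hδ : 0 < δ)
    (hsm : (lam * C0 / calL) ^ 2 * C1 ≤ δ) {σ : ℝ} (h1 : 1 / 2 + δ ≤ σ) (h2 : σ ≤ 2 * s2) :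
    ∑ i, ∫ t in (-T)..T, ‖(d i).W lam calL (pt σ t) * (d i).M (pt σ t) - 1‖ ≤
      Fintype.card ι * Real.sqrt (8 * T * δ) := by
  obtain ⟨hk0, hk1, hcal⟩ := FMK_kap hp
  have h1' : 1 / 2 - R / calL ≤ σ := by
    have : 0 ≤ R / calL := div_nonneg hp.R_pos.le hcal.le
    linarith
  set κ := lam * C0 / calL with hκ
  have hσ4 := FMK_quarter hp h1'
  have hσ : 0 < σ := by linarith
  have hT1 := hp.one_le_T
  have hT : -T ≤ T := by linarith
  have hT0 : 0 < T := by linarith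
  set a := Real.sqrt (2 * δ / T) with ha
  have ha0 : 0 < a := Real.sqrt_pos.mpr (by positivity)
  have ha2 : a ^ 2 = 2 * δ / T := Real.sq_sqrt (by positivity)
  have hpt : ∀ i, ∀ t ∈ Icc (-T) T,
      ‖(d i).W lam calL (pt σ t) * (d i).M (pt σ t) - 1‖ ≤
      a / 2 + 1 / a * ‖(d i).V lam calL (pt σ t) * (d i).M (pt σ t) - 1‖ ^ 2 +
        κ ^ 2 / a * ‖(d i).L (pt σ t) * (d i).M (pt σ t)‖ ^ 2 := by
    intro i t ht
    have h3 := (z_WV (hd i) hp (s := pt σ t) (by rw [FMK_re]; exact hσ4)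
      (by rw [FMK_re]; exact h2) (by rw [FMK_im]; exact abs_le.mpr ⟨ht.1, ht.2⟩)).1
    have h4 : ‖(d i).W lam calL (pt σ t) * (d i).M (pt σ t) - 1‖ ≤
        ‖(d i).V lam calL (pt σ t) * (d i).M (pt σ t) - 1‖ +
          κ * ‖(d i).L (pt σ t) * (d i).M (pt σ t)‖ := by
      have h5 := norm_sub_le_norm_sub_add_norm_sub
        ((d i).W lam calL (pt σ t) * (d i).M (pt σ t))
        ((d i).V lam calL (pt σ t) * (d i).M (pt σ t)) 1
      linarith
    set x := ‖(d i).W lam calL (pt σ t) * (d i).M (pt σ t) - 1‖ with hx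
    set u := ‖(d i).V lam calL (pt σ t) * (d i).M (pt σ t) - 1‖ with hu
    set v := ‖(d i).L (pt σ t) * (d i).M (pt σ t)‖ with hv
    have hx0 : 0 ≤ x := norm_nonneg _
    have hu0 : 0 ≤ u := norm_nonneg _
    have hv0 : 0 ≤ v := norm_nonneg _
    have h6 : x ^ 2 ≤ 2 * u ^ 2 + 2 * (κ * v) ^ 2 := by
      have h7 : x ^ 2 ≤ (u + κ * v) ^ 2 := pow_le_pow_left₀ hx0 h4 2
      nlinarith [sq_nonneg (u - κ * v)]
    have h8 : x ≤ a / 2 + x ^ 2 / (2 * a) := by
      rw [← sub_nonneg]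
      have : a / 2 + x ^ 2 / (2 * a) - x = (a - x) ^ 2 / (2 * a) := by
        field_simp
        ring
      rw [this]; positivity
    have h9 : x ^ 2 / (2 * a) ≤ (2 * u ^ 2 + 2 * (κ * v) ^ 2) / (2 * a) :=
      div_le_div_of_nonneg_right h6 (by positivity)
    have h10 : (2 * u ^ 2 + 2 * (κ * v) ^ 2) / (2 * a) = 1 / a * u ^ 2 + κ ^ 2 / a * v ^ 2 := by
      field_simp
    linarith
  have hc : ∀ i, Continuous (fun t => ‖(d i).W lam calL (pt σ t) * (d i).M (pt σ t) - 1‖) ∧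
      Continuous (fun t => ‖(d i).V lam calL (pt σ t) * (d i).M (pt σ t) - 1‖ ^ 2) ∧
      Continuous (fun t => ‖(d i).L (pt σ t) * (d i).M (pt σ t)‖ ^ 2) := by
    intro i
    obtain ⟨c1, c2, c3, c4⟩ := FMK_cont (lam := lam) (hd i) hσ
    exact ⟨((c4.mul c2).sub continuous_const).norm,
      ((c3.mul c2).sub continuous_const).norm.pow 2, (c1.mul c2).norm.pow 2⟩
  have hi : ∀ i, ∫ t in (-T)..T, ‖(d i).W lam calL (pt σ t) * (d i).M (pt σ t) - 1‖ ≤
      a * T + 1 / a * (∫ t in (-T)..T, ‖(d i).V lam calL (pt σ t) * (d i).M (pt σ t) - 1‖ ^ 2) +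
        κ ^ 2 / a * ∫ t in (-T)..T, ‖(d i).L (pt σ t) * (d i).M (pt σ t)‖ ^ 2 := by
    intro i
    obtain ⟨c1, c2, c3⟩ := hc i
    have k1 : IntervalIntegrable (fun _ : ℝ => a / 2) volume (-T) T := intervalIntegrable_const
    have k2 := (c2.intervalIntegrable (μ := volume) (-T) T).const_mul (1 / a)
    have k3 := (c3.intervalIntegrable (μ := volume) (-T) T).const_mul (κ ^ 2 / a)
    have h3 := intervalIntegral.integral_mono_on hT (c1.intervalIntegrable _ _)
      ((k1.add k2).add k3) (hpt i)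
    refine h3.trans (le_of_eq ?_)
    rw [intervalIntegral.integral_add (k1.add k2) k3, intervalIntegral.integral_add k1 k2,
      intervalIntegral.integral_const_mul, intervalIntegral.integral_const_mul,
      intervalIntegral.integral_const, smul_eq_mul]
    ring
  refine (Finset.sum_le_sum fun i _ => hi i).trans ?_
  rw [Finset.sum_add_distrib, Finset.sum_add_distrib, Finset.sum_const, Finset.card_univ,
    nsmul_eq_mul, ← Finset.mul_sum, ← Finset.mul_sum]
  have h8 := hf.m3a σ h1' h2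
  have h9 := hf.m3c σ h1 h2
  have hn : (0 : ℝ) ≤ Fintype.card ι := Nat.cast_nonneg _
  have h10 : 1 / a * ∑ i, ∫ t in (-T)..T, ‖(d i).V lam calL (pt σ t) * (d i).M (pt σ t) - 1‖ ^ 2 ≤
      1 / a * (Fintype.card ι * δ) := mul_le_mul_of_nonneg_left h9 (by positivity)
  have h11 : κ ^ 2 / a * ∑ i, ∫ t in (-T)..T, ‖(d i).L (pt σ t) * (d i).M (pt σ t)‖ ^ 2 ≤
      1 / a * (Fintype.card ι * δ) := by
    refine (mul_le_mul_of_nonneg_left h8 (by positivity)).trans ?_
    have : κ ^ 2 / a * (Fintype.card ι * C1) = 1 / a * (Fintype.card ι * (κ ^ 2 * C1)) := by ring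
    rw [this]
    exact mul_le_mul_of_nonneg_left (mul_le_mul_of_nonneg_left hsm hn) (by positivity)
  have h12 : a * T + 2 * (1 / a * δ) = Real.sqrt (8 * T * δ) := by
    symm
    rw [Real.sqrt_eq_iff_mul_self_eq (by positivity) (by positivity)]
    have e : a * T + 2 * (1 / a * δ) = (a ^ 2 * T + 2 * δ) / a := by
      field_simp
    rw [e, div_mul_div_comm, ← pow_two a, ha2]
    field_simp
    ring
  have h13 : (Fintype.card ι : ℝ) * (a * T) + 1 / a * (Fintype.card ι * δ) +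
      1 / a * (Fintype.card ι * δ) = Fintype.card ι * Real.sqrt (8 * T * δ) := by
    rw [← h12]; ring
  linarith

end Pool.Agent.LVK



namespace Pool.Agent.LVK

theorem z_famK : type_of% @z_famK_pr := @z_famK_pr
theorem z_famk : type_of% @z_famk_pr := @z_famk_pr

end Pool.Agent.LVK
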