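import Pool.Agent.Lib_helper39.LVK.DefsZ
import Pool.Agent.Lib_helper39.LVZ.CA1
import Pool.Agent.Lib_helper39.LVZ.FMK
import Pool.Agent.Lib_helper39.LVZ.GMW

/-! LVK part Z, block FMD: `F'` in the mean on the line `Re s = s2`. -/

namespace Pool.Agent.LVK

open Complex MeasureTheory Set Filter Topology
open scoped ENNReal

theorem FMD_cont {f : ℂ → ℂ} {σ : ℝ} (h : ∀ t : ℝ, AnalyticAt ℂ f (pt σ t)) :
    Continuous (fun t : ℝ => f (pt σ t)) := by
  rw [continuous_iff_continuousAt]
  intro t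
  have h1 : ContinuousAt (fun t : ℝ => pt σ t) t := by
    unfold pt
    fun_prop
  exact ContinuousAt.comp (f := fun t : ℝ => pt σ t) (h t).continuousAt h1

theorem FMD_re (σ t : ℝ) : (pt σ t).re = σ := by
  simp [pt]

theorem FMD_im (σ t : ℝ) : (pt σ t).im = t := by
  simp [pt]

theorem z_famD_pr {ι : Type} [Fintype ι] {d : ι → LDat} {calL C0 C1 s2 T lam R x1 x2 cc δ : ℝ}
    (hd : ∀ i, (d i).Ok calL C0 s2 T) (hp : Par calL C0 s2 T lam R)
    (hf : FamOk d calL R lam C1 s2 T x1 x2 cc δ) (hδ : 0 < δ) (hδ1 : δ ≤ 1 / 4)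
    (hsm : (lam * C0 / calL) ^ 2 * C1 ≤ δ) {A B : ℝ} (hAB : A < B) (hA : -T + 1 ≤ A)
    (hB : B ≤ T - 1) :
    ∑ i, ∫ t in A..B, ‖deriv (fun s => (d i).W lam calL s * (d i).M s) (pt s2 t)‖ ≤
      Fintype.card ι * (2 * Real.sqrt (8 * T * δ)) := by
  have hs2 := hp.two_le_s2
  have han : ∀ i, ∀ s : ℂ, 0 < s.re →
      AnalyticAt ℂ (fun s => (d i).W lam calL s * (d i).M s - 1) s := fun i s hs => by
    obtain ⟨-, -, h3, -, h5⟩ := z_an (lam := lam) (hd i) hs
    exact (h5.mul h3).sub analyticAt_const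
  have key := z_cau1 (f := fun i s => (d i).W lam calL s * (d i).M s - 1) (σ := s2) (A := A)
    (B := B) (r := 1 / 2) (K := Fintype.card ι * Real.sqrt (8 * T * δ)) (by norm_num) hAB
    (fun i s hs => han i s (by linarith [hs.1])) (fun σ' hσ' => ?_)
  · have e : ∀ i, (fun t : ℝ => ‖deriv (fun s => (d i).W lam calL s * (d i).M s - 1) (pt s2 t)‖) =
        fun t : ℝ => ‖deriv (fun s => (d i).W lam calL s * (d i).M s) (pt s2 t)‖ := by
      intro i
      funext t
      rw [deriv_sub_const]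
    simp only [e] at key
    refine key.trans (le_of_eq ?_)
    ring
  · have hσ0 : 0 < σ' := by linarith [hσ'.1]
    refine le_trans ?_ (z_famk hd hp hf hδ hsm (σ := σ') (by linarith [hσ'.1])
      (by linarith [hσ'.2]))
    refine Finset.sum_le_sum fun i _ => ?_
    refine intervalIntegral.integral_mono_interval (by linarith) (by linarith) (by linarith)
      (Filter.Eventually.of_forall fun t => norm_nonneg _) ?_
    have hc : Continuous (fun t : ℝ => ‖(d i).W lam calL (pt σ' t) * (d i).M (pt σ' t) - 1‖) :=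
      (FMD_cont (f := fun s => (d i).W lam calL s * (d i).M s - 1)
        (fun t => han i _ (by rw [FMD_re]; exact hσ0))).norm
    exact hc.intervalIntegrable _ _

end Pool.Agent.LVK

namespace Pool.Agent.LVK

theorem z_famD : type_of% @z_famD_pr := @z_famD_pr

end Pool.Agent.LVK
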