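import Pool.Agent.Lib_helper39.LVK.DefsZ
import Pool.Agent.Lib_helper39.LVZ.CIF
import Pool.Agent.Lib_helper39.LVZ.FMK
import Pool.Agent.Lib_helper39.LVZ.GMW
import Pool.Agent.Lib_helper39.LVZ.IND

/-!
# LVK part Z, block FMX: the mean of `|log |W M||` over the family
-/

namespace Pool.Agent.LVK

open Complex MeasureTheory Set Filter Topology
open scoped ENNReal

/-- the vertical line is continuous -/
theorem FMX_cpt (σ : ℝ) : Continuous (fun t : ℝ => pt σ t) := by
  unfold pt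
  fun_prop

theorem FMX_re (σ t : ℝ) : (pt σ t).re = σ := by
  simp [pt]

theorem FMX_im (σ t : ℝ) : (pt σ t).im = t := by
  simp [pt]

/-- analyticity of `W M` -/
theorem FMX_an {d : LDat} {calL C0 s2 T lam : ℝ} (hd : d.Ok calL C0 s2 T) {s : ℂ}
    (hs : 0 < s.re) : AnalyticAt ℂ (fun s => d.W lam calL s * d.M s) s :=
  (z_an (lam := lam) hd hs).2.2.2.2.mul (z_an (lam := lam) hd hs).2.2.1

/-- continuity of `W M` on a vertical line -/
theorem FMX_cont {d : LDat} {calL C0 s2 T lam : ℝ} (hd : d.Ok calL C0 s2 T) {σ : ℝ}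
    (hs : 0 < σ) : Continuous (fun t : ℝ => d.W lam calL (pt σ t) * d.M (pt σ t)) := by
  rw [continuous_iff_continuousAt]
  intro t
  have h1 : AnalyticAt ℂ (fun s => d.W lam calL s * d.M s) (pt σ t) :=
    FMX_an hd (by rw [FMX_re]; exact hs)
  exact ContinuousAt.comp (f := fun t : ℝ => pt σ t)
    (g := fun s => d.W lam calL s * d.M s) h1.continuousAt (FMX_cpt σ).continuousAt

/-- the passage from interval integrals to lower integrals, for sums over a family -/
theorem FMX_sum {ι : Type} [Fintype ι] {g : ι → ℝ → ℝ} {T K : ℝ} (hT : 0 ≤ T)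
    (hg : ∀ i, Continuous (g i)) (h0 : ∀ i t, 0 ≤ g i t)
    (h : ∑ i, ∫ t in (-T)..T, g i t ≤ K) {E : ι → ℝ → ℝ} {A B : ℝ} (hA : -T ≤ A) (hB : B ≤ T)
    (hE : ∀ i, ∀ t ∈ Icc A B, E i t ≤ g i t) :
    ∑ i, ∫⁻ t in Icc A B, ENNReal.ofReal (E i t) ≤ ENNReal.ofReal K := by
  have h1 : ∀ i, ∫⁻ t in Icc A B, ENNReal.ofReal (E i t) ≤
      ENNReal.ofReal (∫ t in (-T)..T, g i t) := by
    intro i
    calc ∫⁻ t in Icc A B, ENNReal.ofReal (E i t)
        ≤ ∫⁻ t in Icc A B, ENNReal.ofReal (g i t) :=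
          setLIntegral_mono' measurableSet_Icc (fun t ht => ENNReal.ofReal_le_ofReal (hE i t ht))
      _ ≤ ∫⁻ t in Icc (-T) T, ENNReal.ofReal (g i t) :=
          lintegral_mono_set (Icc_subset_Icc hA hB)
      _ = ENNReal.ofReal (∫ t in (-T)..T, g i t) := by
          rw [intervalIntegral.integral_of_le (by linarith),
            ← integral_Icc_eq_integral_Ioc]
          rw [ofReal_integral_eq_lintegral_ofReal]
          · exact ((hg i).continuousOn).integrableOn_Icc
          · exact Filter.Eventually.of_forall (fun t => h0 i t)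
  calc ∑ i, ∫⁻ t in Icc A B, ENNReal.ofReal (E i t)
      ≤ ∑ i, ENNReal.ofReal (∫ t in (-T)..T, g i t) := Finset.sum_le_sum (fun i _ => h1 i)
    _ = ENNReal.ofReal (∑ i, ∫ t in (-T)..T, g i t) := by
        rw [ENNReal.ofReal_sum_of_nonneg]
        intro i _
        exact intervalIntegral.integral_nonneg (by linarith) (fun t _ => h0 i t)
    _ ≤ ENNReal.ofReal K := ENNReal.ofReal_le_ofReal h

/-- `log |z| ≤ |z - 1|` -/
theorem FMX_log (z : ℂ) : Real.log ‖z‖ ≤ ‖z - 1‖ := by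
  rcases eq_or_ne z 0 with h | h
  · subst h
    simp
  · have h1 : 0 < ‖z‖ := norm_pos_iff.mpr h
    have h2 := Real.log_le_sub_one_of_pos h1
    have h3 : ‖z‖ - ‖(1 : ℂ)‖ ≤ ‖z - 1‖ := norm_sub_norm_le z 1
    rw [norm_one] at h3
    linarith

/-- `- log |z| ≤ 2 |z - 1|` near `1` -/
theorem FMX_log' {z : ℂ} (hz : ‖z - 1‖ ≤ 1 / 4) : -Real.log ‖z‖ ≤ 2 * ‖z - 1‖ := by
  have h3 : ‖(1 : ℂ)‖ - ‖z‖ ≤ ‖1 - z‖ := norm_sub_norm_le 1 z
  rw [norm_one, norm_sub_rev] at h3
  have h4 : 3 / 4 ≤ ‖z‖ := by linarith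
  have h5 : 0 < ‖z‖ := by linarith
  have h6 := Real.one_sub_inv_le_log_of_pos h5
  have h7 : ‖z‖⁻¹ - 1 ≤ 2 * (1 - ‖z‖) ∨ 1 ≤ ‖z‖ := by
    by_cases h : 1 ≤ ‖z‖
    · right; exact h
    · left
      rw [not_le] at h
      have h8 : ‖z‖⁻¹ = 1 / ‖z‖ := by rw [one_div]
      rw [h8, sub_le_iff_le_add, div_le_iff₀ h5]
      nlinarith
  rcases h7 with h7 | h7
  · linarith
  · have h9 : 0 ≤ Real.log ‖z‖ := Real.log_nonneg h7
    have h10 : 0 ≤ ‖z - 1‖ := norm_nonneg _
    linarith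

theorem z_famX_pr {ι : Type} [Fintype ι] {d : ι → LDat}
    {calL C0 C1 s2 T lam R x1 x2 cc δ : ℝ}
    (hd : ∀ i, (d i).Ok calL C0 s2 T) (hp : Par calL C0 s2 T lam R)
    (hf : FamOk d calL R lam C1 s2 T x1 x2 cc δ) (hC1 : 0 ≤ C1) (hδ : 0 < δ) (hδ1 : δ ≤ 1 / 4)
    (hsm : (lam * C0 / calL) ^ 2 * C1 ≤ δ) (hsm2 : R / calL ≤ δ) {A B : ℝ} (hAB : A < B)
    (hA : -T + 2 * s2 ≤ A) (hB : B ≤ T - 2 * s2) :
    ∑ i, ∫⁻ σ in Icc (1 / 2 - R / calL) s2, ∫⁻ t in Icc A B,
      ‖Real.log ‖(d i).W lam calL (pt σ t) * (d i).M (pt σ t)‖‖ₑ ≤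
        ENNReal.ofReal (Fintype.card ι *
          (2 * Real.pi * s2 * (4 * Real.sqrt (8 * T * δ) + 4 * C1 * Real.sqrt (2 * δ)))) := by
  have hT1 : 1 ≤ T := hp.one_le_T
  have hT0 : 0 ≤ T := by linarith
  have hs2 : 2 ≤ s2 := hp.two_le_s2
  have hR := hp.R_pos
  have hcal : 0 < calL := by
    have := hp.le_calL
    linarith
  have hRc : 0 < R / calL := div_pos hR hcal
  obtain ⟨r, hr⟩ : ∃ r : ℝ, r = s2 - (1 / 2 - R / calL) := ⟨_, rfl⟩
  have hr1 : 3 / 2 ≤ r := by rw [hr]; linarith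
  have hr2 : r ≤ s2 := by rw [hr]; linarith
  have hr0 : 0 < r := by linarith
  have ha : s2 - r = 1 / 2 - R / calL := by rw [hr]; ring
  obtain ⟨x, hx⟩ : ∃ x : ℝ, x = δ + R / calL := ⟨_, rfl⟩
  have hx0 : 0 ≤ x := by rw [hx]; linarith
  have hx2 : x ≤ 2 * δ := by rw [hx]; linarith
  have hn : (0 : ℝ) ≤ Fintype.card ι := Nat.cast_nonneg _
  have hsq : 0 ≤ Real.sqrt (8 * T * δ) := Real.sqrt_nonneg _
  have key := z_circF (F := fun i s => (d i).W lam calL s * (d i).M s) (s2 := s2) (r := r)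
    (x := x) (A := A) (B := B) (K := Fintype.card ι * (2 * C1))
    (κ := Fintype.card ι * Real.sqrt (8 * T * δ))
    (κ' := 2 * (Fintype.card ι * Real.sqrt (8 * T * δ))) hr0 hAB hx0
    (by positivity) (by positivity) (by positivity)
    (by
      intro i z hz
      refine FMX_an (hd i) ?_
      have := hz.1
      linarith)
    (by
      intro i t ht hzero
      have h1 := (z_near (hd i) hp (s := pt s2 t) (by rw [FMX_re]; linarith)
        (by rw [FMX_re]; linarith)
        (by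
          rw [FMX_im, abs_le]
          exact ⟨by linarith [ht.1], by linarith [ht.2]⟩)).2.2

      rw [hzero] at h1
      norm_num at h1)
    (by
      intro σ hσ
      have h1 := z_famK hd hp hf hC1 (σ := σ) (by rw [← ha]; exact hσ.1)
        (by linarith [hσ.2])
      refine le_trans (Finset.sum_le_sum (fun i _ => ?_)) h1
      exact lintegral_mono_set (Icc_subset_Icc (by linarith) (by linarith)))
    (by
      intro σ hσ
      have hσ1 : 1 / 2 + δ ≤ σ := by
        have := hσ.1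
        rw [ha, hx] at this
        linarith
      have h1 := z_famk hd hp hf hδ hsm (σ := σ) hσ1 (by linarith [hσ.2])
      refine FMX_sum hT0 (g := fun i t => ‖(d i).W lam calL (pt σ t) * (d i).M (pt σ t) - 1‖)
        (fun i => ((FMX_cont (hd i) (by linarith)).sub continuous_const).norm)
        (fun i t => norm_nonneg _) h1 (by linarith) (by linarith) ?_
      intro i t _
      exact FMX_log _)
    (by
      have h1 := z_famk hd hp hf hδ hsm (σ := s2) (by linarith) (by linarith)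
      have h2 : ∑ i, ∫ t in (-T)..T,
          2 * ‖(d i).W lam calL (pt s2 t) * (d i).M (pt s2 t) - 1‖ ≤
          2 * (Fintype.card ι * Real.sqrt (8 * T * δ)) := by
        simp only [intervalIntegral.integral_const_mul]
        rw [← Finset.mul_sum]
        linarith
      refine FMX_sum hT0
        (g := fun i t => 2 * ‖(d i).W lam calL (pt s2 t) * (d i).M (pt s2 t) - 1‖)
        (fun i => (((FMX_cont (hd i) (by linarith)).sub continuous_const).norm).const_mul 2)
        (fun i t => by positivity) h2 (by linarith) (by linarith) ?_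
      intro i t ht
      refine FMX_log' ?_
      exact (z_near (hd i) hp (s := pt s2 t) (by rw [FMX_re]; linarith)
        (by rw [FMX_re]; linarith)
        (by
          rw [FMX_im, abs_le]
          exact ⟨by linarith [ht.1], by linarith [ht.2]⟩)).2.2)
  rw [ha] at key
  refine le_trans key (ENNReal.ofReal_le_ofReal ?_)
  have h1 : Real.sqrt (x / r) ≤ Real.sqrt (2 * δ) := by
    apply Real.sqrt_le_sqrt
    rw [div_le_iff₀ hr0]
    nlinarith
  have h2 : 0 ≤ Real.sqrt (x / r) := Real.sqrt_nonneg _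
  have hpi := Real.pi_pos
  have h3 : 2 * (Fintype.card ι * Real.sqrt (8 * T * δ)) +
      2 * (Fintype.card ι * (2 * C1)) * Real.sqrt (x / r) +
      2 * (Fintype.card ι * Real.sqrt (8 * T * δ)) ≤
      Fintype.card ι * (4 * Real.sqrt (8 * T * δ) + 4 * C1 * Real.sqrt (2 * δ)) := by
    have h4 : (Fintype.card ι : ℝ) * C1 * Real.sqrt (x / r) ≤
        (Fintype.card ι : ℝ) * C1 * Real.sqrt (2 * δ) :=
      mul_le_mul_of_nonneg_left h1 (mul_nonneg hn hC1)
    nlinarith
  have h5 : 0 ≤ Fintype.card ι * (4 * Real.sqrt (8 * T * δ) + 4 * C1 * Real.sqrt (2 * δ)) := by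
    positivity
  calc 2 * Real.pi * r * (2 * (Fintype.card ι * Real.sqrt (8 * T * δ)) +
      2 * (Fintype.card ι * (2 * C1)) * Real.sqrt (x / r) +
      2 * (Fintype.card ι * Real.sqrt (8 * T * δ)))
      ≤ 2 * Real.pi * r *
        (Fintype.card ι * (4 * Real.sqrt (8 * T * δ) + 4 * C1 * Real.sqrt (2 * δ))) :=
        mul_le_mul_of_nonneg_left h3 (by positivity)
    _ ≤ 2 * Real.pi * s2 *
        (Fintype.card ι * (4 * Real.sqrt (8 * T * δ) + 4 * C1 * Real.sqrt (2 * δ))) := by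
        apply mul_le_mul_of_nonneg_right _ h5
        exact mul_le_mul_of_nonneg_left hr2 (by positivity)
    _ = Fintype.card ι *
          (2 * Real.pi * s2 * (4 * Real.sqrt (8 * T * δ) + 4 * C1 * Real.sqrt (2 * δ))) := by
        ring


end Pool.Agent.LVK

namespace Pool.Agent.LVK

theorem z_famX : type_of% @z_famX_pr := @z_famX_pr

end Pool.Agent.LVK
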