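import Pool.Agent.Lib_helper39.LVK.DefsZ
import Pool.Agent.Lib_helper39.LVZ.GMW
import Pool.Agent.Lib_helper39.LVZ.GRI
import Pool.Agent.Lib_helper39.LVZ.GRN
import Pool.Agent.Lib_helper39.LVZ.LIN
import Pool.Agent.Lib_helper39.LVZ.ORD

/-!
# LVK part Z, block LEV: Levinson's inequality
-/

namespace Pool.Agent.LVK

open Complex MeasureTheory Set Filter Topology
open scoped ENNReal

theorem LEV_re (σ t : ℝ) : (pt σ t).re = σ := by
  simp [pt]

theorem LEV_im (σ t : ℝ) : (pt σ t).im = t := by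
  simp [pt]

theorem LEV_logDeriv {F G K : ℂ → ℂ} {z : ℂ} (e : F =ᶠ[𝓝 z] fun s => G s * K s)
    (hG : AnalyticAt ℂ G z) (hK : AnalyticAt ℂ K z) (hG0 : G z ≠ 0) (hK0 : K z ≠ 0) :
    logDeriv F z = logDeriv G z + logDeriv K z := by
  have h1 : logDeriv F z = logDeriv (fun s => G s * K s) z := by
    unfold logDeriv
    rw [Pi.div_apply, Pi.div_apply, e.deriv_eq, e.eq_of_nhds]
  rw [h1]
  exact logDeriv_mul z hG0 hK0 hG.differentiableAt hK.differentiableAt

theorem LEV_sum {s2 A B : ℝ} {φ : ℝ → ℝ}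
    {W : ℂ → ℂ} (h2 : ∀ t ∈ Icc A B, W (pt s2 t) ≠ 0) {S : Finset ℂ}
    (hS : IsZ (1 / 2) s2 A B W S) :
    ∑ ρ ∈ S, (analyticOrderNatAt W ρ : ℝ) *
        ((Real.sign (s2 - ρ.re) - Real.sign (1 / 2 - ρ.re)) * φ ρ.im) +
      ∑ ρ ∈ S.filter (fun ρ => ρ.re = 1 / 2), (analyticOrderNatAt W ρ : ℝ) * φ ρ.im =
      2 * ∑ ρ ∈ S, (analyticOrderNatAt W ρ : ℝ) * φ ρ.im := by
  rw [Finset.sum_filter, ← Finset.sum_add_distrib, Finset.mul_sum]
  refine Finset.sum_congr rfl (fun ρ hρ => ?_)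
  by_cases h0 : φ ρ.im = 0
  · rw [h0]
    simp
  · obtain ⟨⟨r1, r2, r3, r4⟩, hW0⟩ := (hS ρ).1 hρ
    have hlt : ρ.re < s2 := by
      refine lt_of_le_of_ne r2 (fun he => ?_)
      have : pt s2 ρ.im = ρ := by
        rw [← he]
        exact Complex.re_add_im ρ
      exact h2 ρ.im ⟨r3, r4⟩ (by rw [this]; exact hW0)
    rw [Real.sign_of_pos (by linarith : 0 < s2 - ρ.re)]
    by_cases h1 : ρ.re = 1 / 2
    · rw [if_pos h1, h1, sub_self, Real.sign_zero]
      ring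
    · have : 1 / 2 < ρ.re := lt_of_le_of_ne r1 (Ne.symm h1)
      rw [if_neg h1, Real.sign_of_neg (by linarith : 1 / 2 - ρ.re < 0)]
      ring

theorem z_lev_pr {d : LDat} {calL C0 s2 T lam : ℝ} (hd : d.Ok calL C0 s2 T) (hcal : 0 < calL)
    (hlam : 0 < lam) (hlam2 : lam < 2) (hs2 : 1 < s2) {A B : ℝ} (hAB : A < B)
    {φ φ1 φ2 : ℝ → ℝ} (h : Tst A B φ φ1 φ2)
    (h2 : ∀ t ∈ Icc A B, d.W lam calL (pt s2 t) ≠ 0)
    {S : Finset ℂ} (hS : IsZ (1 / 2) s2 A B (d.W lam calL) S) {T1 : Finset ℝ}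
    (hT1 : ∀ t, t ∈ T1 ↔ A < t ∧ t < B ∧ analyticOrderNatAt d.ξ (pt (1 / 2) t) = 1) :
    DD A B φ d.gm (1 / 2) + DD A B φ (d.W lam calL) s2 -
        2 * Real.pi * ∑ ρ ∈ S, (analyticOrderNatAt (d.W lam calL) ρ : ℝ) * φ ρ.im +
        (∫ σ in (1 / 2)..s2, JJ A B φ2 (d.W lam calL) σ) -
        Real.pi / 2 * ∫ t in A..B, |φ1 t| ≤
      Real.pi * ∑ t ∈ T1, φ t := by
  classical
  have hs : (1 / 2 : ℝ) < s2 := by linarith
  have ha : 0 < 1 - lam / 2 := by linarith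
  have hb : 0 < lam / calL := div_pos hlam hcal
  have hRe : ∀ z ∈ Rc (1 / 2) s2 A B, 0 < z.re := fun z hz =>
    lt_of_lt_of_le (by norm_num) hz.1
  have zg : ∀ {s : ℂ}, 0 < s.re → AnalyticAt ℂ d.gm s := fun hs => (z_an (lam := lam) hd hs).1
  have zW : ∀ {s : ℂ}, 0 < s.re → AnalyticAt ℂ (d.W lam calL) s := fun hs =>
    (z_an (lam := lam) hd hs).2.2.2.2
  have hWan : AnalyticOnNhd ℂ (d.W lam calL) (Rc (1 / 2) s2 A B) := fun z hz => zW (hRe z hz)
  have hgan : AnalyticOnNhd ℂ d.gm (Rc (1 / 2) s2 A B) := fun z hz => zg (hRe z hz)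
  have hgZ : IsZ (1 / 2) s2 A B d.gm ∅ := by
    intro ρ
    constructor
    · intro hρ
      exact absurd hρ (Finset.notMem_empty _)
    · rintro ⟨hρ, h0⟩
      exact absurd h0 (hd.gm0 ρ (hRe ρ hρ))
  have hgW : ∀ s : ℂ, 0 < s.re → d.gm s * d.W lam calL s = d.H lam calL s := fun s hs =>
    z_gmW hd hcal hs
  have hev : ∀ z : ℂ, 0 < z.re →
      d.H lam calL =ᶠ[𝓝 z] fun s => d.gm s * d.W lam calL s := by
    intro z hz
    filter_upwards [(isOpen_lt continuous_const Complex.continuous_re).mem_nhds hz] with s hs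
    exact (hgW s hs).symm
  have hre2 : ∀ t : ℝ, 0 < (pt (1 / 2) t).re := fun t => by
    rw [LEV_re]
    norm_num
  -- ξ is not identically zero
  obtain ⟨z, hz⟩ : ∃ z, d.ξ z ≠ 0 := by
    by_contra hcon
    push Not at hcon
    have h0 : d.ξ = fun _ => 0 := funext hcon
    have hre : 0 < (pt s2 A).re := by
      rw [LEV_re]
      linarith
    have h1 := hgW (pt s2 A) hre
    have h3 : d.H lam calL (pt s2 A) = 0 := by
      unfold LDat.H
      rw [h0]
      simp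
    rw [h3] at h1
    rcases mul_eq_zero.1 h1 with h4 | h4
    · exact hd.gm0 _ hre h4
    · exact h2 A (left_mem_Icc.2 hAB.le) h4
  have htop : ∀ w, analyticOrderAt d.ξ w ≠ ⊤ := by
    intro w hw
    rw [analyticOrderAt_eq_top] at hw
    have h1 : AnalyticOnNhd ℂ d.ξ Set.univ := fun w _ => hd.dxi.analyticAt w
    exact hz (h1.eqOn_zero_of_preconnected_of_eventuallyEq_zero isPreconnected_univ
      (Set.mem_univ w) hw (Set.mem_univ z))
  -- orders
  have hordW : ∀ t, analyticOrderNatAt (d.W lam calL) (pt (1 / 2) t) =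
      analyticOrderNatAt d.ξ (pt (1 / 2) t) - 1 := by
    intro t
    have h1 : analyticOrderAt (d.H lam calL) (pt (1 / 2) t) =
        analyticOrderAt (d.W lam calL) (pt (1 / 2) t) := by
      rw [analyticOrderAt_congr (hev _ (hre2 t))]
      have h3 := analyticOrderAt_mul (zg (hre2 t)) (zW (hre2 t))
      have h4 : analyticOrderAt d.gm (pt (1 / 2) t) = 0 :=
        (zg (hre2 t)).analyticOrderAt_eq_zero.2 (hd.gm0 _ (hre2 t))
      rw [h4, zero_add] at h3
      exact h3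
    have h5 := z_ord hd.dxi hd.sym hz ha hb t
    rw [← h5]
    unfold analyticOrderNatAt
    rw [← h1]
    rfl
  have hord1 : ∀ t, d.ξ (pt (1 / 2) t) = 0 → 1 ≤ analyticOrderNatAt d.ξ (pt (1 / 2) t) := by
    intro t ht
    have h1 : analyticOrderAt d.ξ (pt (1 / 2) t) ≠ 0 :=
      (hd.dxi.analyticAt _).analyticOrderAt_ne_zero.2 ht
    rw [Nat.one_le_iff_ne_zero]
    unfold analyticOrderNatAt
    intro h0
    rcases (ENat.toNat_eq_zero).1 h0 with h4 | h4
    · exact h1 h4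
    · exact htop _ h4
  have hord0 : ∀ t, analyticOrderNatAt d.ξ (pt (1 / 2) t) ≠ 0 → d.ξ (pt (1 / 2) t) = 0 := by
    intro t ht
    have h1 : analyticOrderAt d.ξ (pt (1 / 2) t) ≠ 0 := by
      intro h0
      apply ht
      unfold analyticOrderNatAt
      rw [h0]
      rfl
    exact (hd.dxi.analyticAt _).analyticOrderAt_ne_zero.1 h1
  have hordS : ∀ t, A < t → t < B → 2 ≤ analyticOrderNatAt d.ξ (pt (1 / 2) t) →
      pt (1 / 2) t ∈ S ∧ 1 ≤ analyticOrderNatAt (d.W lam calL) (pt (1 / 2) t) := by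
    intro t hA hB hm
    have h1 : 1 ≤ analyticOrderNatAt (d.W lam calL) (pt (1 / 2) t) := by
      rw [hordW]
      omega
    refine ⟨?_, h1⟩
    rw [hS]
    refine ⟨⟨(LEV_re _ _).ge, ?_, ?_, ?_⟩, ?_⟩
    · rw [LEV_re]
      exact hs.le
    · rw [LEV_im]
      exact hA.le
    · rw [LEV_im]
      exact hB.le
    · have h3 : analyticOrderAt (d.W lam calL) (pt (1 / 2) t) ≠ 0 := by
        intro h0
        unfold analyticOrderNatAt at h1
        rw [h0] at h1
        simp at h1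
      exact (zW (hre2 t)).analyticOrderAt_ne_zero.1 h3
  -- the zeros on the line
  set TT : Finset ℝ := (T1 ∪ S.image Complex.im).filter
    (fun t => A < t ∧ t < B ∧ d.ξ (pt (1 / 2) t) = 0) with hTT
  have hTTm : ∀ t, t ∈ TT ↔ A < t ∧ t < B ∧ d.ξ (pt (1 / 2) t) = 0 := by
    intro t
    rw [hTT, Finset.mem_filter, Finset.mem_union, Finset.mem_image]
    constructor
    · rintro ⟨_, h3⟩
      exact h3
    · rintro ⟨hA, hB, h0⟩
      refine ⟨?_, hA, hB, h0⟩
      have h3 := hord1 t h0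
      rcases Nat.lt_or_ge 1 (analyticOrderNatAt d.ξ (pt (1 / 2) t)) with h4 | h4
      · right
        exact ⟨_, (hordS t hA hB h4).1, LEV_im _ _⟩
      · left
        rw [hT1]
        exact ⟨hA, hB, le_antisymm h4 h3⟩
  have hline := z_line hAB h hd.dxi hd.sym hz ha hb hTTm
  have hφc : Continuous φ := continuous_iff_continuousAt.2 fun t => (h.d1 t).continuousAt
  have hDD : DD A B φ (d.H lam calL) (1 / 2) =
      DD A B φ d.gm (1 / 2) + DD A B φ (d.W lam calL) (1 / 2) := by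
    unfold DD
    rw [← intervalIntegral.integral_add (z_intD hs hAB hgan hgZ hφc ⟨le_rfl, hs.le⟩)
      (z_intD hs hAB hWan hS hφc ⟨le_rfl, hs.le⟩)]
    refine intervalIntegral.integral_congr_ae ?_
    have hfin : (↑(S.image Complex.im) : Set ℝ).Finite := Finset.finite_toSet _
    filter_upwards [compl_mem_ae_iff.2 (hfin.measure_zero volume)] with t ht htm
    rw [uIoc_of_le hAB.le] at htm
    have hW0 : d.W lam calL (pt (1 / 2) t) ≠ 0 := by
      intro h0
      apply ht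
      rw [Finset.mem_coe, Finset.mem_image]
      refine ⟨pt (1 / 2) t, (hS _).2 ⟨⟨(LEV_re _ _).ge, ?_, ?_, ?_⟩, h0⟩, LEV_im _ _⟩
      · rw [LEV_re]
        exact hs.le
      · rw [LEV_im]
        exact htm.1.le
      · rw [LEV_im]
        exact htm.2
    rw [LEV_logDeriv (hev _ (hre2 t)) (zg (hre2 t))
      (zW (hre2 t)) (hd.gm0 _ (hre2 t)) hW0, Complex.add_re, mul_add]
  have hgreen := z_green hs hAB h hWan hS
  have hsum := LEV_sum (φ := φ) h2 hS
  -- multiple zeros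
  have hmult : ∑ t ∈ TT, φ t ≤ ∑ t ∈ T1, φ t +
      ∑ ρ ∈ S.filter (fun ρ => ρ.re = 1 / 2),
        (analyticOrderNatAt (d.W lam calL) ρ : ℝ) * φ ρ.im := by
    have h3 : ∑ t ∈ TT, φ t ≤ ∑ t ∈ T1, φ t + ∑ t ∈ TT \ T1, φ t := by
      rw [← Finset.sum_inter_add_sum_sdiff TT T1 φ]
      gcongr
      · exact fun _ _ _ => h.nonneg _
      · exact Finset.inter_subset_right
    refine h3.trans ?_
    gcongr
    have hinj : Set.InjOn (fun t : ℝ => pt (1 / 2) t) (↑(TT \ T1) : Set ℝ) := by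
      intro t _ t' _ he
      have := congrArg Complex.im he
      simpa only [LEV_im] using this
    have h4 : ∑ t ∈ TT \ T1, φ t = ∑ ρ ∈ (TT \ T1).image (fun t : ℝ => pt (1 / 2) t), φ ρ.im := by
      rw [Finset.sum_image hinj]
      refine Finset.sum_congr rfl (fun t _ => ?_)
      rw [LEV_im]
    rw [h4]
    have hm : ∀ ρ ∈ (TT \ T1).image (fun t : ℝ => pt (1 / 2) t),
        ρ ∈ S.filter (fun ρ => ρ.re = 1 / 2) ∧ 1 ≤ analyticOrderNatAt (d.W lam calL) ρ := by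
      intro ρ hρ
      rw [Finset.mem_image] at hρ
      obtain ⟨t, ht, rfl⟩ := hρ
      rw [Finset.mem_sdiff, hTTm, hT1] at ht
      obtain ⟨⟨hA, hB, h0⟩, hn⟩ := ht
      have h5 := hord1 t h0
      have h6 : analyticOrderNatAt d.ξ (pt (1 / 2) t) ≠ 1 := fun h => hn ⟨hA, hB, h⟩
      have h7 := hordS t hA hB (by omega)
      rw [Finset.mem_filter]
      exact ⟨⟨h7.1, LEV_re _ _⟩, h7.2⟩
    calc ∑ ρ ∈ (TT \ T1).image (fun t : ℝ => pt (1 / 2) t), φ ρ.im
        ≤ ∑ ρ ∈ (TT \ T1).image (fun t : ℝ => pt (1 / 2) t),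
          (analyticOrderNatAt (d.W lam calL) ρ : ℝ) * φ ρ.im := by
          refine Finset.sum_le_sum (fun ρ hρ => ?_)
          have : (1 : ℝ) ≤ (analyticOrderNatAt (d.W lam calL) ρ : ℝ) := by
            exact_mod_cast (hm ρ hρ).2
          nlinarith [h.nonneg ρ.im]
      _ ≤ _ := Finset.sum_le_sum_of_subset_of_nonneg (fun ρ hρ => (hm ρ hρ).1)
          (fun ρ _ _ => mul_nonneg (Nat.cast_nonneg _) (h.nonneg _))
  have hl : DD A B φ (d.H lam calL) (1 / 2) - Real.pi / 2 * ∫ t in A..B, |φ1 t| ≤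
      Real.pi * ∑ t ∈ TT, φ t := hline
  have hpi := Real.pi_pos
  have hm2 := mul_le_mul_of_nonneg_left hmult hpi.le
  have hs3 := congrArg (fun x => Real.pi * x) hsum
  rw [mul_add] at hs3 hm2
  rw [hDD] at hl
  linarith

end Pool.Agent.LVK

namespace Pool.Agent.LVK

theorem z_lev : type_of% @z_lev_pr := @z_lev_pr

end Pool.Agent.LVK
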