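import Pool.Agent.Lib_helper39.LVK.DefsZ
import Pool.Agent.Lib_helper39.LVZ.FIN
import Pool.Agent.Lib_helper39.LVZ.GMW
import Pool.Agent.Lib_helper39.LVZ.GRI
import Pool.Agent.Lib_helper39.LVZ.GRW
import Pool.Agent.Lib_helper39.LVZ.IND
import Pool.Agent.Lib_helper39.LVZ.INT
import Pool.Agent.Lib_helper39.LVZ.LEV

/-! LVK part Z, block SIM: the inequality for simple zeros of one character -/

namespace Pool.Agent.LVK

open Complex MeasureTheory Set Filter Topology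
open scoped ENNReal

theorem SIM_re (σ t : ℝ) : (pt σ t).re = σ := by simp [pt]

theorem SIM_im (σ t : ℝ) : (pt σ t).im = t := by simp [pt]

theorem SIM_cont (σ : ℝ) : Continuous (fun t : ℝ => pt σ t) := by
  unfold pt
  fun_prop

/-- double integrals -/
theorem SIM_dbl {s1 s2 A B : ℝ} (hs : s1 ≤ s2) (hAB : A ≤ B) {w φ2 : ℝ → ℝ} {K M2 X : ℝ}
    {G : ℂ → ℂ} (hw : ∀ σ ∈ Icc s1 s2, |w σ| ≤ K) (hM2 : ∀ t, |φ2 t| ≤ M2) (hX0 : 0 ≤ X)
    (hX : ∫⁻ σ in Icc s1 s2, ∫⁻ t in Icc A B, ‖Real.log ‖G (pt σ t)‖‖ₑ ≤ ENNReal.ofReal X) :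
    |∫ σ in s1..s2, w σ * JJ A B φ2 G σ| ≤ K * M2 * X := by
  have hK : 0 ≤ K := (abs_nonneg _).trans (hw s1 ⟨le_rfl, hs⟩)
  have hM0 : 0 ≤ M2 := (abs_nonneg _).trans (hM2 0)
  have hJ : ∀ σ, ‖JJ A B φ2 G σ‖ₑ ≤
      ENNReal.ofReal M2 * ∫⁻ t in Icc A B, ‖Real.log ‖G (pt σ t)‖‖ₑ := by
    intro σ
    unfold JJ
    rw [intervalIntegral.integral_of_le hAB]
    refine (enorm_integral_le_lintegral_enorm _).trans ?_
    refine (lintegral_mono_set Ioc_subset_Icc_self).trans ?_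
    rw [← lintegral_const_mul' _ _ ENNReal.ofReal_ne_top]
    refine lintegral_mono fun t => ?_
    rw [enorm_mul]
    refine mul_le_mul_left ?_ _
    rw [← ofReal_norm, Real.norm_eq_abs]
    exact ENNReal.ofReal_le_ofReal (hM2 t)
  have h1 : ‖∫ σ in s1..s2, w σ * JJ A B φ2 G σ‖ₑ ≤ ENNReal.ofReal (K * M2 * X) := by
    rw [intervalIntegral.integral_of_le hs]
    refine (enorm_integral_le_lintegral_enorm _).trans ?_
    refine (lintegral_mono_set Ioc_subset_Icc_self).trans ?_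
    calc ∫⁻ σ in Icc s1 s2, ‖w σ * JJ A B φ2 G σ‖ₑ
        ≤ ∫⁻ σ in Icc s1 s2, ENNReal.ofReal (K * M2) *
            ∫⁻ t in Icc A B, ‖Real.log ‖G (pt σ t)‖‖ₑ := by
          refine setLIntegral_mono' measurableSet_Icc fun σ hσ => ?_
          rw [enorm_mul, ENNReal.ofReal_mul hK, mul_assoc]
          refine mul_le_mul' ?_ (hJ σ)
          rw [← ofReal_norm, Real.norm_eq_abs]
          exact ENNReal.ofReal_le_ofReal (hw σ hσ)
      _ = ENNReal.ofReal (K * M2) *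
            ∫⁻ σ in Icc s1 s2, ∫⁻ t in Icc A B, ‖Real.log ‖G (pt σ t)‖‖ₑ :=
          lintegral_const_mul' _ _ ENNReal.ofReal_ne_top
      _ ≤ ENNReal.ofReal (K * M2) * ENNReal.ofReal X := by gcongr
      _ = _ := by rw [← ENNReal.ofReal_mul (mul_nonneg hK hM0)]
  rw [← ofReal_norm, Real.norm_eq_abs] at h1
  exact (ENNReal.ofReal_le_ofReal_iff (by positivity)).mp h1

theorem SIM_log {z : ℂ} (h : ‖z - 1‖ ≤ 1 / 4) : |Real.log ‖z‖| ≤ 2 * ‖z - 1‖ := by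
  have h1 : |‖z‖ - 1| ≤ ‖z - 1‖ := by
    have := abs_norm_sub_norm_le z 1
    rwa [norm_one] at this
  rw [abs_le] at h1
  have h2 : 3 / 4 ≤ ‖z‖ := by linarith [h1.1]
  have h0 : 0 < ‖z‖ := by linarith
  have h3 := Real.log_le_sub_one_of_pos h0
  have h4 := Real.log_le_sub_one_of_pos (inv_pos.mpr h0)
  rw [Real.log_inv] at h4
  have h5 : ‖z‖⁻¹ - 1 = (1 - ‖z‖) / ‖z‖ := by field_simp
  have h6 : (1 - ‖z‖) / ‖z‖ ≤ 2 * ‖z - 1‖ := by
    rw [div_le_iff₀ h0]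
    nlinarith [norm_nonneg (z - 1), h1.1]
  rw [abs_le]
  constructor
  · linarith
  · linarith [norm_nonneg (z - 1), h1.2]

theorem SIM_ne {z : ℂ} {c : ℝ} (h : ‖z - 1‖ ≤ c) (hc : c < 1) : z ≠ 0 := by
  intro h0
  rw [h0, zero_sub, norm_neg, norm_one] at h
  linarith

/-- orders of products -/
theorem SIM_ord {W M : ℂ → ℂ} {U : Set ℂ} (hU : IsPreconnected U) (hW : AnalyticOnNhd ℂ W U)
    (hM : AnalyticOnNhd ℂ M U) {z0 ρ : ℂ} (hz0 : z0 ∈ U) (hρ : ρ ∈ U) (h0 : W z0 * M z0 ≠ 0) :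
    analyticOrderNatAt W ρ ≤ analyticOrderNatAt (fun s => W s * M s) ρ := by
  have hF : AnalyticOnNhd ℂ (fun s => W s * M s) U := hW.mul hM
  have hne : analyticOrderAt (fun s => W s * M s) ρ ≠ ⊤ := by
    intro htop
    rw [analyticOrderAt_eq_top] at htop
    have h1 := hF.eqOn_zero_of_preconnected_of_eventuallyEq_zero hU hρ htop
    exact h0 (h1 hz0)
  have h1 : analyticOrderAt (fun s => W s * M s) ρ = analyticOrderAt W ρ + analyticOrderAt M ρ :=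
    analyticOrderAt_mul (hW ρ hρ) (hM ρ hρ)
  rw [h1] at hne
  have hWt : analyticOrderAt W ρ ≠ ⊤ := fun h => hne (by rw [h, top_add])
  have hMt : analyticOrderAt M ρ ≠ ⊤ := fun h => hne (by rw [h, add_top])
  have h2 : analyticOrderNatAt (fun s => W s * M s) ρ =
      analyticOrderNatAt W ρ + analyticOrderNatAt M ρ := by
    unfold analyticOrderNatAt
    rw [h1, ENat.toNat_add hWt hMt]
  rw [h2]
  exact Nat.le_add_right _ _

theorem SIM_U : IsPreconnected {s : ℂ | 0 < s.re} := (convex_halfSpace_re_gt 0).isPreconnected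

theorem SIM_phi {A B : ℝ} {φ φ1 φ2 : ℝ → ℝ} (h : Tst A B φ φ1 φ2) : Continuous φ :=
  continuous_iff_continuousAt.mpr fun t => (h.d1 t).continuousAt

theorem SIM_Rc {s1 s2 A B σ t : ℝ} (h1 : s1 ≤ σ) (h2 : σ ≤ s2) (h3 : A ≤ t) (h4 : t ≤ B) :
    pt σ t ∈ Rc s1 s2 A B := by
  refine ⟨?_, ?_, ?_, ?_⟩
  · rw [SIM_re]; exact h1
  · rw [SIM_re]; exact h2
  · rw [SIM_im]; exact h3
  · rw [SIM_im]; exact h4

/-- the simple zeros are finite in number -/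
theorem SIM_T1 {ξ : ℂ → ℂ} {A B s2 : ℝ} (hs2 : 1 / 2 ≤ s2) {S : Finset ℂ}
    (hS : IsZ (1 / 2) s2 A B ξ S) : ∃ T1 : Finset ℝ,
    (∀ t, t ∈ T1 ↔ A < t ∧ t < B ∧ analyticOrderNatAt ξ (pt (1 / 2) t) = 1) ∧
    simpZ ξ A B = (T1.card : ℝ≥0∞) := by
  classical
  set T1 := (S.filter (fun ρ => ρ.re = 1 / 2 ∧ A < ρ.im ∧ ρ.im < B ∧
    analyticOrderNatAt ξ ρ = 1)).image Complex.im with hT1
  have hmem : ∀ t, t ∈ T1 ↔ A < t ∧ t < B ∧ analyticOrderNatAt ξ (pt (1 / 2) t) = 1 := by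
    intro t
    rw [hT1, Finset.mem_image]
    constructor
    · rintro ⟨ρ, hρ, rfl⟩
      rw [Finset.mem_filter] at hρ
      obtain ⟨-, h1, h2, h3, h4⟩ := hρ
      have : pt (1 / 2) ρ.im = ρ := by
        apply Complex.ext
        · rw [SIM_re, h1]
        · rw [SIM_im]
      rw [this]
      exact ⟨h2, h3, h4⟩
    · rintro ⟨h1, h2, h3⟩
      refine ⟨pt (1 / 2) t, ?_, SIM_im _ _⟩
      rw [Finset.mem_filter]
      refine ⟨?_, SIM_re _ _, ?_, ?_, h3⟩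
      · rw [hS]
        refine ⟨SIM_Rc le_rfl hs2 h1.le h2.le, ?_⟩
        apply apply_eq_zero_of_analyticOrderAt_ne_zero
        intro h0
        unfold analyticOrderNatAt at h3
        rw [h0] at h3
        simp at h3
      · rw [SIM_im]; exact h1
      · rw [SIM_im]; exact h2
  refine ⟨T1, hmem, ?_⟩
  unfold simpZ
  have : {t : ℝ | A < t ∧ t < B ∧ analyticOrderNatAt ξ (1 / 2 + t * I) = 1} = (T1 : Set ℝ) := by
    ext t
    rw [Finset.mem_coe, hmem]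
    have e : pt (1 / 2) t = 1 / 2 + t * I := by
      unfold pt
      push_cast
      rfl
    rw [e]
    rfl
  rw [this, Set.encard_coe_eq_coe_finsetCard]
  simp

/-- lower bound for `DD` -/
theorem SIM_DDlow {s1 s2 A B : ℝ} (hs : s1 < s2) (hAB : A < B) {F : ℂ → ℂ}
    (hF : AnalyticOnNhd ℂ F (Rc s1 s2 A B)) {S : Finset ℂ} (hS : IsZ s1 s2 A B F S)
    {φ φ1 φ2 : ℝ → ℝ} (h : Tst A B φ φ1 φ2) {σ : ℝ} (hσ : σ ∈ Icc s1 s2) {c : ℝ}
    (hc : ∀ t ∈ Icc A B, c ≤ (logDeriv F (pt σ t)).re) :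
    c * ∫ t in A..B, φ t ≤ DD A B φ F σ := by
  unfold DD
  rw [← intervalIntegral.integral_const_mul]
  refine intervalIntegral.integral_mono_on hAB.le ?_ (z_intD hs hAB hF hS (SIM_phi h) hσ) ?_
  · exact (continuous_const.mul (SIM_phi h)).intervalIntegrable _ _
  · intro t ht
    have := mul_le_mul_of_nonneg_left (hc t ht) (h.nonneg t)
    linarith

/-- `DD` on the line where `F` is close to 1 -/
theorem SIM_DDabs {s1 s2 A B : ℝ} (hs : s1 < s2) (hAB : A < B) {F : ℂ → ℂ}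
    (hF : AnalyticOnNhd ℂ F (Rc s1 s2 A B)) {S : Finset ℂ} (hS : IsZ s1 s2 A B F S)
    {φ φ1 φ2 : ℝ → ℝ} (h : Tst A B φ φ1 φ2) (h1 : ∀ t, φ t ≤ 1)
    (hn : ∀ t ∈ Icc A B, ‖F (pt s2 t) - 1‖ ≤ 1 / 4) :
    |DD A B φ F s2| ≤ 2 * ∫ t in A..B, ‖deriv F (pt s2 t)‖ := by
  have hi := z_intD hs hAB hF hS (SIM_phi h) (σ := s2) ⟨hs.le, le_rfl⟩
  have hc : ContinuousOn (fun t => ‖deriv F (pt s2 t)‖) (Icc A B) := by
    have h2 : ContinuousOn (deriv F) (Rc s1 s2 A B) := hF.deriv.continuousOn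
    exact (h2.comp (SIM_cont s2).continuousOn
      (fun t ht => SIM_Rc hs.le le_rfl ht.1 ht.2)).norm
  unfold DD
  rw [← intervalIntegral.integral_const_mul, ← Real.norm_eq_abs]
  refine (intervalIntegral.norm_integral_le_integral_norm hAB.le).trans ?_
  refine intervalIntegral.integral_mono_on hAB.le hi.norm ?_ ?_
  · exact (hc.const_smul (2:ℝ)).intervalIntegrable_of_Icc hAB.le
  · intro t ht
    have h2 := hn t ht
    have h3 : 3 / 4 ≤ ‖F (pt s2 t)‖ := by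
      have := norm_sub_norm_le (1 : ℂ) (F (pt s2 t))
      rw [norm_one, norm_sub_rev] at this
      linarith
    have h4 : ‖logDeriv F (pt s2 t)‖ ≤ 2 * ‖deriv F (pt s2 t)‖ := by
      rw [logDeriv_apply, norm_div, div_le_iff₀ (by linarith)]
      nlinarith [norm_nonneg (deriv F (pt s2 t))]
    rw [norm_mul, Real.norm_of_nonneg (h.nonneg t)]
    have h5 : ‖(logDeriv F (pt s2 t)).re‖ ≤ ‖logDeriv F (pt s2 t)‖ := Complex.abs_re_le_norm _
    calc φ t * ‖(logDeriv F (pt s2 t)).re‖ ≤ 1 * ‖logDeriv F (pt s2 t)‖ :=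
          mul_le_mul (h1 t) h5 (norm_nonneg _) zero_le_one
      _ ≤ _ := by rw [one_mul]; exact h4

theorem SIM_JJabs {s1 s2 A B : ℝ} (hs : s1 < s2) (hAB : A < B) {F : ℂ → ℂ}
    (hF : AnalyticOnNhd ℂ F (Rc s1 s2 A B))
    {φ φ1 φ2 : ℝ → ℝ} (h : Tst A B φ φ1 φ2) (h1 : ∀ t, φ t ≤ 1)
    (hn : ∀ t ∈ Icc A B, ‖F (pt s2 t) - 1‖ ≤ 1 / 4) :
    |JJ A B φ F s2| ≤ 2 * ∫ t in A..B, ‖F (pt s2 t) - 1‖ := by
  have hi := z_intJ hAB hF (SIM_phi h) (σ := s2) ⟨hs.le, le_rfl⟩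
  have hc : ContinuousOn (fun t => ‖F (pt s2 t) - 1‖) (Icc A B) := by
    have h2 : ContinuousOn F (Rc s1 s2 A B) := hF.continuousOn
    exact ((h2.comp (SIM_cont s2).continuousOn
      (fun t ht => SIM_Rc hs.le le_rfl ht.1 ht.2)).sub continuousOn_const).norm
  unfold JJ
  rw [← intervalIntegral.integral_const_mul, ← Real.norm_eq_abs]
  refine (intervalIntegral.norm_integral_le_integral_norm hAB.le).trans ?_
  refine intervalIntegral.integral_mono_on hAB.le hi.norm ?_ ?_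
  · exact (hc.const_smul (2:ℝ)).intervalIntegrable_of_Icc hAB.le
  · intro t ht
    have h2 := SIM_log (hn t ht)
    rw [norm_mul, Real.norm_of_nonneg (h.nonneg t), Real.norm_eq_abs]
    calc φ t * |Real.log ‖F (pt s2 t)‖| ≤ 1 * |Real.log ‖F (pt s2 t)‖| :=
          mul_le_mul_of_nonneg_right (h1 t) (abs_nonneg _)
      _ ≤ _ := by rw [one_mul]; exact h2

/-- the sum over the zeros of `W` and the weighted sum over the zeros of `W M` -/
theorem SIM_sum {W M : ℂ → ℂ} {a s2 A B : ℝ} (ha : 0 < a) (ha2 : a < 1 / 2) {c : ℝ} (hc0 : 0 ≤ c)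
    (hc : 1 ≤ c * (1 / 2 - a)) (hW : AnalyticOnNhd ℂ W {s | 0 < s.re})
    (hM : AnalyticOnNhd ℂ M {s | 0 < s.re}) {z0 : ℂ} (hz0 : 0 < z0.re) (h0 : W z0 * M z0 ≠ 0)
    {φ : ℝ → ℝ} (hφ : ∀ t, 0 ≤ φ t) {S SF : Finset ℂ} (hS : IsZ (1 / 2) s2 A B W S)
    (hSF : IsZ a s2 A B (fun s => W s * M s) SF) :
    ∑ ρ ∈ S, (analyticOrderNatAt W ρ : ℝ) * φ ρ.im ≤
      c * ∑ ρ ∈ SF, (analyticOrderNatAt (fun s => W s * M s) ρ : ℝ) * ((ρ.re - a) * φ ρ.im) := by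
  rw [Finset.mul_sum]
  have hsub : S ⊆ SF := by
    intro ρ hρ
    rw [hS] at hρ
    rw [hSF]
    obtain ⟨⟨h1, h2, h3, h4⟩, h5⟩ := hρ
    exact ⟨⟨by linarith, h2, h3, h4⟩, by simp only [h5, zero_mul]⟩
  refine le_trans ?_ (Finset.sum_le_sum_of_subset_of_nonneg hsub ?_)
  · refine Finset.sum_le_sum fun ρ hρ => ?_
    rw [hS] at hρ
    obtain ⟨⟨h1, h2, h3, h4⟩, h5⟩ := hρ
    have h6 := SIM_ord SIM_U hW hM (z0 := z0) (ρ := ρ) hz0 (show 0 < ρ.re by linarith) h0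
    have h7 : (analyticOrderNatAt W ρ : ℝ) ≤ analyticOrderNatAt (fun s => W s * M s) ρ := by
      exact_mod_cast h6
    have h8 : 1 ≤ c * (ρ.re - a) := hc.trans (mul_le_mul_of_nonneg_left (by linarith) hc0)
    have h9 := hφ ρ.im
    calc (analyticOrderNatAt W ρ : ℝ) * φ ρ.im
        ≤ analyticOrderNatAt (fun s => W s * M s) ρ * φ ρ.im := mul_le_mul_of_nonneg_right h7 h9
      _ = 1 * (analyticOrderNatAt (fun s => W s * M s) ρ * φ ρ.im) := by ring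
      _ ≤ (c * (ρ.re - a)) * (analyticOrderNatAt (fun s => W s * M s) ρ * φ ρ.im) :=
          mul_le_mul_of_nonneg_right h8 (by positivity)
      _ = _ := by ring
  · intro ρ hρ _
    rw [hSF] at hρ
    have h1 : 0 ≤ ρ.re - a := by linarith [hρ.1.1]
    have := hφ ρ.im
    positivity

theorem z_simple_pr {d : LDat} {calL C0 s2 T lam R : ℝ} (hd : d.Ok calL C0 s2 T)
    (hp : Par calL C0 s2 T lam R) {A B : ℝ} (hAB : A < B) (hA : -T + 1 ≤ A) (hB : B ≤ T - 1)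
    {φ φ1 φ2 : ℝ → ℝ} (h : Tst A B φ φ1 φ2) (h1 : ∀ t, φ t ≤ 1) {M2 : ℝ}
    (hM2 : ∀ t, |φ2 t| ≤ M2) {X Y : ℝ} (hX0 : 0 ≤ X) (hY0 : 0 ≤ Y)
    (hX : ∫⁻ σ in Icc (1 / 2 - R / calL) s2, ∫⁻ t in Icc A B,
      ‖Real.log ‖d.W lam calL (pt σ t) * d.M (pt σ t)‖‖ₑ ≤ ENNReal.ofReal X)
    (hY : ∫⁻ σ in Icc (1 / 2) s2, ∫⁻ t in Icc A B,
      ‖Real.log ‖d.W lam calL (pt σ t)‖‖ₑ ≤ ENNReal.ofReal Y) :
    ENNReal.ofReal (1 / Real.pi * ((calL / 2 - C0 - 1) * (∫ t in A..B, φ t) -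
      Real.pi / 2 * (∫ t in A..B, |φ1 t|) -
      calL / R * (JJ A B φ (fun s => d.W lam calL s * d.M s) (1 / 2 - R / calL) +
        2 * (∫ t in A..B, ‖d.W lam calL (pt s2 t) * d.M (pt s2 t) - 1‖) +
        2 * s2 * (∫ t in A..B, ‖deriv (fun s => d.W lam calL s * d.M s) (pt s2 t)‖) +
        s2 * M2 * X) - M2 * Y)) ≤ simpZ d.ξ A B := by
  have hs2 := hp.two_le_s2
  have hR := hp.R_pos
  have hC0 := hp.C0_nonneg
  have hcal : 0 < calL := by linarith [hp.le_calL]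
  have hpi := Real.pi_pos
  have hRc : R / calL ≤ 1 / 4 := by
    rw [div_le_iff₀ hcal]
    linarith [hp.le_calL]
  have hRc0 : 0 < R / calL := by positivity
  set a := 1 / 2 - R / calL with ha
  have ha0 : 0 < a := by linarith
  have ha2 : a < 1 / 2 := by linarith
  have has : a < s2 := by linarith
  have hhs : 1 / 2 < s2 := by linarith
  -- analyticity
  have hWU : AnalyticOnNhd ℂ (d.W lam calL) {s | 0 < s.re} := fun s hs =>
    (z_an hd hs).2.2.2.2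
  have hMU : AnalyticOnNhd ℂ d.M {s | 0 < s.re} := fun s hs =>
    (z_an (lam := lam) (calL := calL) hd hs).2.2.1
  have hgU : AnalyticOnNhd ℂ d.gm {s | 0 < s.re} := fun s hs =>
    (z_an (lam := lam) hd hs).1
  have hFU : AnalyticOnNhd ℂ (fun s => d.W lam calL s * d.M s) {s | 0 < s.re} := hWU.mul hMU
  have hR1 : ∀ s1, 0 < s1 → Rc s1 s2 A B ⊆ {s : ℂ | 0 < s.re} := by
    intro s1 hs1 z hz
    exact lt_of_lt_of_le hs1 hz.1
  have hWR := hWU.mono (hR1 (1 / 2) (by norm_num))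
  have hgR := hgU.mono (hR1 (1 / 2) (by norm_num))
  have hFR := hFU.mono (hR1 a ha0)
  -- the right line
  have ht : ∀ t ∈ Icc A B, |t| ≤ T - 1 := by
    intro t ht
    rw [abs_le]
    exact ⟨by linarith [ht.1], by linarith [ht.2]⟩
  have hnear : ∀ t ∈ Icc A B, ‖d.W lam calL (pt s2 t) - 1‖ ≤ 1 / 8 ∧
      ‖d.W lam calL (pt s2 t) * d.M (pt s2 t) - 1‖ ≤ 1 / 4 := by
    intro t htt
    have := z_near hd hp (s := pt s2 t) (by rw [SIM_re]; linarith) (by rw [SIM_re]; linarith)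
      (by rw [SIM_im]; linarith [ht t htt])
    exact ⟨this.2.1, this.2.2⟩
  have hW0 : ∀ t ∈ Icc A B, d.W lam calL (pt s2 t) ≠ 0 := fun t htt =>
    SIM_ne (hnear t htt).1 (by norm_num)
  have hF0 : ∀ t ∈ Icc A B, d.W lam calL (pt s2 t) * d.M (pt s2 t) ≠ 0 := fun t htt =>
    SIM_ne (hnear t htt).2 (by norm_num)
  have hAm : A ∈ Icc A B := ⟨le_rfl, hAB.le⟩
  obtain ⟨S, hS⟩ := z_fin hWR (SIM_Rc hhs.le le_rfl le_rfl hAB.le) (hW0 A hAm)
  obtain ⟨SF, hSF⟩ := z_fin hFR (SIM_Rc has.le le_rfl le_rfl hAB.le) (hF0 A hAm)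
  have hξ0 : d.ξ (pt s2 A) ≠ 0 := by
    rw [hd.fac _ (by rw [SIM_re]; linarith)]
    refine mul_ne_zero (hd.gm0 _ (by rw [SIM_re]; linarith)) ?_
    exact SIM_ne (hd.rL _ (by rw [SIM_re]; linarith)) (by norm_num)
  obtain ⟨Sξ, hSξ⟩ := z_fin (s1 := 1 / 2) (s2 := s2) (A := A) (B := B)
    (fun z _ => hd.dxi.analyticAt z) (SIM_Rc hhs.le le_rfl le_rfl hAB.le) hξ0
  obtain ⟨T1, hT1, hT1c⟩ := SIM_T1 hhs.le hSξ
  have hlev := z_lev hd hcal hp.lam_pos hp.lam_lt (by linarith) hAB h hW0 hS hT1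
  -- the Gamma factor
  have hg0 : IsZ (1 / 2) s2 A B d.gm ∅ := by
    intro ρ
    constructor
    · intro hρ
      exact absurd hρ (Finset.notMem_empty _)
    · rintro ⟨hρ, hρ0⟩
      exact absurd hρ0 (hd.gm0 ρ (by
        have := hρ.1
        linarith))
  have b1 : (calL / 2 - C0) * (∫ t in A..B, φ t) ≤ DD A B φ d.gm (1 / 2) := by
    refine SIM_DDlow hhs hAB hgR hg0 h ⟨le_rfl, hhs.le⟩ ?_
    intro t htt
    have h2 := hd.g (pt (1 / 2) t) (by rw [SIM_re]; norm_num) (by rw [SIM_re]; linarith)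
      (by rw [SIM_im]; linarith [ht t htt])
    have h3 := (abs_le.mp ((Complex.abs_re_le_norm _).trans h2)).1
    rw [Complex.sub_re, Complex.ofReal_re] at h3
    linarith
  have b2 : (-1) * (∫ t in A..B, φ t) ≤ DD A B φ (d.W lam calL) s2 := by
    refine SIM_DDlow hhs hAB hWR hS h ⟨hhs.le, le_rfl⟩ ?_
    intro t htt
    have h2 := (z_nearD hd hp (t := t) (by linarith [ht t htt])).1
    exact (abs_le.mp ((Complex.abs_re_le_norm _).trans h2)).1
  -- the zeros of W M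
  have b3 := SIM_sum ha0 ha2 (c := calL / R) (by positivity) (by
      rw [ha]
      have : calL / R * (1 / 2 - (1 / 2 - R / calL)) = 1 := by
        field_simp
        ring
      rw [this]) hWU hMU (z0 := pt s2 A) (by rw [SIM_re]; linarith) (hF0 A hAm) h.nonneg hS hSF
  have b4 := z_weight has hAB h hFR hSF hF0
  have hnF : ∀ t ∈ Icc A B, ‖(fun s => d.W lam calL s * d.M s) (pt s2 t) - 1‖ ≤ 1 / 4 :=
    fun t htt => (hnear t htt).2
  have b5 := SIM_JJabs has hAB hFR h h1 hnF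
  have b6 := SIM_DDabs has hAB hFR hSF h h1 hnF
  have b7 := SIM_dbl has.le hAB.le (w := fun σ => σ - a) (K := s2)
    (G := fun s => d.W lam calL s * d.M s) (by
      intro σ hσ
      rw [abs_of_nonneg (by linarith [hσ.1])]
      linarith [hσ.2]) hM2 hX0 hX
  have b8 := SIM_dbl hhs.le hAB.le (w := fun _ => 1) (K := 1) (G := d.W lam calL) (by
      intro σ _
      rw [abs_one]) hM2 hY0 hY
  simp only [one_mul] at b8
  -- the count
  have b9 : ∑ t ∈ T1, φ t ≤ (T1.card : ℝ) := by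
    calc ∑ t ∈ T1, φ t ≤ ∑ _t ∈ T1, (1 : ℝ) := Finset.sum_le_sum fun t _ => h1 t
      _ = T1.card := by simp
  rw [hT1c, ← ENNReal.ofReal_natCast]
  refine ENNReal.ofReal_le_ofReal ?_
  rw [one_div, inv_mul_le_iff₀ hpi]
  -- collect
  set Jφ := ∫ t in A..B, φ t with hJφ
  set J1 := ∫ t in A..B, |φ1 t| with hJ1
  set F1 := ∫ t in A..B, ‖d.W lam calL (pt s2 t) * d.M (pt s2 t) - 1‖ with hF1
  set F2 := ∫ t in A..B, ‖deriv (fun s => d.W lam calL s * d.M s) (pt s2 t)‖ with hF2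
  have hF2n : 0 ≤ F2 := intervalIntegral.integral_nonneg hAB.le fun t _ => norm_nonneg _
  have b5' : |JJ A B φ (fun s => d.W lam calL s * d.M s) s2| ≤ 2 * F1 := b5
  have b6' : |DD A B φ (fun s => d.W lam calL s * d.M s) s2| ≤ 2 * F2 := b6
  have b10 : (s2 - a) * DD A B φ (fun s => d.W lam calL s * d.M s) s2 ≤ 2 * s2 * F2 := by
    calc (s2 - a) * DD A B φ (fun s => d.W lam calL s * d.M s) s2
        ≤ (s2 - a) * (2 * F2) := mul_le_mul_of_nonneg_left ((le_abs_self _).trans b6')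
          (by linarith)
      _ ≤ s2 * (2 * F2) := mul_le_mul_of_nonneg_right (by linarith) (by linarith)
      _ = _ := by ring
  have b11 := (le_abs_self _).trans b7
  have b12 := (abs_le.mp b5').1
  have b13 := (abs_le.mp b8).1
  set sW := ∑ ρ ∈ S, (analyticOrderNatAt (d.W lam calL) ρ : ℝ) * φ ρ.im with hsW
  set sF := ∑ ρ ∈ SF, (analyticOrderNatAt (fun s => d.W lam calL s * d.M s) ρ : ℝ) *
    ((ρ.re - a) * φ ρ.im) with hsF
  have b14 : 2 * Real.pi * sF ≤ JJ A B φ (fun s => d.W lam calL s * d.M s) a + 2 * F1 +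
      2 * s2 * F2 + s2 * M2 * X := by
    rw [← b4]
    linarith
  have b15 : 2 * Real.pi * sW ≤ calL / R * (JJ A B φ (fun s => d.W lam calL s * d.M s) a +
      2 * F1 + 2 * s2 * F2 + s2 * M2 * X) := by
    calc 2 * Real.pi * sW ≤ 2 * Real.pi * (calL / R * sF) :=
          mul_le_mul_of_nonneg_left b3 (by positivity)
      _ = calL / R * (2 * Real.pi * sF) := by ring
      _ ≤ _ := mul_le_mul_of_nonneg_left b14 (by positivity)
  have b16 : Real.pi * ∑ t ∈ T1, φ t ≤ Real.pi * T1.card := mul_le_mul_of_nonneg_left b9 hpi.le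
  refine le_trans ?_ b16
  refine le_trans ?_ hlev
  linarith [b1, b2, b15, b13]


end Pool.Agent.LVK

namespace Pool.Agent.LVK

theorem z_simple : type_of% @z_simple_pr := @z_simple_pr

end Pool.Agent.LVK
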