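import Pool.Agent.Lib_helper39.LVK.DefsZ
import Pool.Agent.Lib_helper39.LVZ.FMA
import Pool.Agent.Lib_helper39.LVZ.FMD
import Pool.Agent.Lib_helper39.LVZ.FMK
import Pool.Agent.Lib_helper39.LVZ.FMX
import Pool.Agent.Lib_helper39.LVZ.FMY
import Pool.Agent.Lib_helper39.LVZ.GMW
import Pool.Agent.Lib_helper39.LVZ.SIM

/-!
# LVK part Z, block TOS: the sum of `z_simple` over the family
-/

namespace Pool.Agent.LVK

open Complex MeasureTheory Set Filter Topology
open scoped ENNReal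

theorem TOS_re (σ t : ℝ) : (pt σ t).re = σ := by
  simp [pt]

/-- continuity of `W M` on a vertical line -/
theorem TOS_cont {d : LDat} {calL C0 s2 T lam : ℝ} (hd : d.Ok calL C0 s2 T) {σ : ℝ}
    (hs : 0 < σ) : Continuous (fun t : ℝ => d.W lam calL (pt σ t) * d.M (pt σ t)) := by
  rw [continuous_iff_continuousAt]
  intro t
  have h0 : 0 < (pt σ t).re := by rw [TOS_re]; exact hs
  have h1 : AnalyticAt ℂ (fun s => d.W lam calL s * d.M s) (pt σ t) :=
    (z_an (lam := lam) hd h0).2.2.2.2.mul (z_an (lam := lam) hd h0).2.2.1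
  have h2 : Continuous (fun t : ℝ => pt σ t) := by
    unfold pt
    fun_prop
  exact ContinuousAt.comp (f := fun t : ℝ => pt σ t)
    (g := fun s => d.W lam calL s * d.M s) h1.continuousAt h2.continuousAt

/-- `ofReal` of a sum -/
theorem TOS_ofReal {ι : Type} (S : Finset ι) (f : ι → ℝ) :
    ENNReal.ofReal (∑ i ∈ S, f i) ≤ ∑ i ∈ S, ENNReal.ofReal (f i) := by
  classical
  induction S using Finset.induction_on with
  | empty => simp
  | insert a S ha ih =>
    rw [Finset.sum_insert ha, Finset.sum_insert ha]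
    exact le_trans ENNReal.ofReal_add_le (add_le_add le_rfl ih)

/-- the single terms of a bounded finite sum in `ℝ≥0∞` -/
theorem TOS_split {ι : Type} [Fintype ι] {a : ι → ℝ≥0∞} {K : ℝ} (hK : 0 ≤ K)
    (h : ∑ i, a i ≤ ENNReal.ofReal K) :
    ∃ X : ι → ℝ, (∀ i, 0 ≤ X i) ∧ (∀ i, a i ≤ ENNReal.ofReal (X i)) ∧ ∑ i, X i ≤ K := by
  have hfin : ∀ i, a i ≠ ⊤ := by
    intro i
    have h1 : a i ≤ ∑ i, a i := Finset.single_le_sum (f := a) (fun j _ => bot_le)
      (Finset.mem_univ i)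
    exact ne_top_of_le_ne_top ENNReal.ofReal_ne_top (h1.trans h)
  refine ⟨fun i => (a i).toReal, fun i => ENNReal.toReal_nonneg, fun i => ?_, ?_⟩
  · rw [ENNReal.ofReal_toReal (hfin i)]
  · rw [← ENNReal.toReal_sum (fun i _ => hfin i)]
    exact ENNReal.toReal_le_of_le_ofReal hK h

theorem z_totS_pr {ι : Type} [Fintype ι] {d : ι → LDat}
    {calL C0 C1 s2 T lam R x1 x2 cc δ : ℝ}
    (hd : ∀ i, (d i).Ok calL C0 s2 T) (hp : Par calL C0 s2 T lam R)
    (hf : FamOk d calL R lam C1 s2 T x1 x2 cc δ) (hC1 : 0 ≤ C1) (hδ : 0 < δ) (hδ1 : δ ≤ 1 / 4)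
    (hsm : (lam * C0 / calL) ^ 2 * C1 ≤ δ) (hsm2 : R / calL ≤ δ) (hcc : 0 < cc)
    (hx : x1 < x2) (hx1 : -T + 2 * s2 + 1 ≤ x1) (hx2 : x2 ≤ T - 2 * s2 - 1)
    {φ φ1 φ2 : ℝ → ℝ} (h : Tst x1 x2 φ φ1 φ2) (h1 : ∀ t, φ t ≤ 1) {M2 : ℝ}
    (hM2 : ∀ t, |φ2 t| ≤ M2) :
    ENNReal.ofReal (Fintype.card ι * (1 / Real.pi * ((calL / 2 - C0 - 1) *
      (∫ t in x1..x2, φ t) - Real.pi / 2 * (∫ t in x1..x2, |φ1 t|) -
      calL / R * ((1 / 2 * (((1 + δ) * ((x2 - x1) * (cc + δ)) +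
        (1 + 1 / δ) * (lam * C0 / calL) ^ 2 * C1) / cc +
        (Real.log cc - 1) * ∫ t in x1..x2, φ t)) +
        2 * Real.sqrt (8 * T * δ) + 2 * s2 * (2 * Real.sqrt (8 * T * δ)) +
        s2 * M2 * (2 * Real.pi * s2 *
          (4 * Real.sqrt (8 * T * δ) + 4 * C1 * Real.sqrt (2 * δ)))) -
      M2 * (2 * Real.pi * s2 *
          (1 + 2 * T * (Real.log (2 * (1 + 2 * C0) ^ 2 + 8) + δ * calL) + 2 * T))))) ≤
      ∑ i, simpZ (d i).ξ x1 x2 := by
  have hT1 : 1 ≤ T := hp.one_le_T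
  have hT0 : 0 ≤ T := by linarith
  have hs2 : 2 ≤ s2 := hp.two_le_s2
  have hR := hp.R_pos
  have hC0 := hp.C0_nonneg
  have hcal : 0 < calL := by
    have := hp.le_calL
    linarith
  have hn : (0 : ℝ) ≤ Fintype.card ι := Nat.cast_nonneg _
  have hM20 : 0 ≤ M2 := le_trans (abs_nonneg _) (hM2 0)
  have hpi := Real.pi_pos
  have hlog : 0 ≤ Real.log (2 * (1 + 2 * C0) ^ 2 + 8) :=
    Real.log_nonneg (by nlinarith [sq_nonneg (1 + 2 * C0)])
  have hsq : 0 ≤ Real.sqrt (8 * T * δ) := Real.sqrt_nonneg _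
  -- the four family estimates
  obtain ⟨X, hX0, hX, hXs⟩ := TOS_split (by positivity)
    (z_famX hd hp hf hC1 hδ hδ1 hsm hsm2 hx (by linarith) (by linarith))
  obtain ⟨Y, hY0, hY, hYs⟩ := TOS_split (by positivity)
    (z_famY hd hp hf hδ hx hx1 hx2).1
  have hJ := z_famJ hd hp hf hx (by linarith) (by linarith) hδ hcc h h1
  have hD := z_famD hd hp hf hδ hδ1 hsm hx (by linarith) (by linarith)
  have hI : ∑ i, ∫ t in x1..x2, ‖(d i).W lam calL (pt s2 t) * (d i).M (pt s2 t) - 1‖ ≤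
      Fintype.card ι * Real.sqrt (8 * T * δ) := by
    refine le_trans (Finset.sum_le_sum (fun i _ => ?_))
      (z_famk hd hp hf hδ hsm (σ := s2) (by linarith) (by linarith))
    have hc := TOS_cont (lam := lam) (hd i) (σ := s2) (by linarith)
    refine intervalIntegral.integral_mono_interval (by linarith) hx.le (by linarith) ?_ ?_
    · exact Filter.Eventually.of_forall (fun t => norm_nonneg _)
    · exact Continuous.intervalIntegrable (hc.sub continuous_const).norm _ _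
  -- the inequality for one character
  have hS : ∀ i, _ := fun i => z_simple (hd i) hp hx (by linarith) (by linarith) h h1 hM2
    (hX0 i) (hY0 i) (hX i) (hY i)
  refine le_trans ?_ (le_trans (TOS_ofReal Finset.univ _)
    (Finset.sum_le_sum (fun i _ => hS i)))
  apply ENNReal.ofReal_le_ofReal
  have hcR : 0 ≤ calL / R := by positivity
  have e1 : 2 * (∑ i, ∫ t in x1..x2, ‖(d i).W lam calL (pt s2 t) * (d i).M (pt s2 t) - 1‖) ≤
      Fintype.card ι * (2 * Real.sqrt (8 * T * δ)) := by linarith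
  have e2 : 2 * s2 * (∑ i, ∫ t in x1..x2,
      ‖deriv (fun s => (d i).W lam calL s * (d i).M s) (pt s2 t)‖) ≤
      Fintype.card ι * (2 * s2 * (2 * Real.sqrt (8 * T * δ))) := by
    have := mul_le_mul_of_nonneg_left hD (show 0 ≤ 2 * s2 by linarith)
    linarith
  have e3 : s2 * M2 * ∑ i, X i ≤ Fintype.card ι * (s2 * M2 * (2 * Real.pi * s2 *
          (4 * Real.sqrt (8 * T * δ) + 4 * C1 * Real.sqrt (2 * δ)))) := by
    have := mul_le_mul_of_nonneg_left hXs (show 0 ≤ s2 * M2 by positivity)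
    linarith
  have e4 : M2 * ∑ i, Y i ≤ Fintype.card ι * (M2 * (2 * Real.pi * s2 *
          (1 + 2 * T * (Real.log (2 * (1 + 2 * C0) ^ 2 + 8) + δ * calL) + 2 * T))) := by
    have := mul_le_mul_of_nonneg_left hYs hM20
    linarith
  have e5 := mul_le_mul_of_nonneg_left (add_le_add (add_le_add (add_le_add hJ e1) e2) e3) hcR
  have e6 : 0 ≤ 1 / Real.pi := by positivity
  rw [← Finset.mul_sum]
  have e7 : ∑ i, ((calL / 2 - C0 - 1) * (∫ t in x1..x2, φ t) -
      Real.pi / 2 * (∫ t in x1..x2, |φ1 t|) -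
      calL / R * (JJ x1 x2 φ (fun s => (d i).W lam calL s * (d i).M s) (1 / 2 - R / calL) +
        2 * (∫ t in x1..x2, ‖(d i).W lam calL (pt s2 t) * (d i).M (pt s2 t) - 1‖) +
        2 * s2 * (∫ t in x1..x2,
          ‖deriv (fun s => (d i).W lam calL s * (d i).M s) (pt s2 t)‖) +
        s2 * M2 * X i) - M2 * Y i) =
      Fintype.card ι * ((calL / 2 - C0 - 1) * (∫ t in x1..x2, φ t)) -
      Fintype.card ι * (Real.pi / 2 * (∫ t in x1..x2, |φ1 t|)) -
      calL / R * ((∑ i, JJ x1 x2 φ (fun s => (d i).W lam calL s * (d i).M s)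
          (1 / 2 - R / calL)) +
        2 * (∑ i, ∫ t in x1..x2, ‖(d i).W lam calL (pt s2 t) * (d i).M (pt s2 t) - 1‖) +
        2 * s2 * (∑ i, ∫ t in x1..x2,
          ‖deriv (fun s => (d i).W lam calL s * (d i).M s) (pt s2 t)‖) +
        s2 * M2 * ∑ i, X i) - M2 * ∑ i, Y i := by
    simp only [Finset.sum_sub_distrib, Finset.sum_const, Finset.card_univ, nsmul_eq_mul,
      ← Finset.mul_sum, Finset.sum_add_distrib]
  rw [e7]
  rw [mul_left_comm]
  apply mul_le_mul_of_nonneg_left _ e6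
  linarith


end Pool.Agent.LVK

namespace Pool.Agent.LVK

theorem z_totS : type_of% @z_totS_pr := @z_totS_pr

end Pool.Agent.LVK
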