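import Pool.Agent.Lib_helper39.LVK.DefsZ
import Pool.Agent.Lib_helper39.LVZ.TOS
import Pool.Agent.Lib_helper39.LVZ.TST

/-!
# LVK part Z, block TPS: simple zeros, choice of the parameters
-/

namespace Pool.Agent.LVK

open Complex MeasureTheory Set Filter Topology
open scoped ENNReal

/-- the second derivative of a test function is bounded -/
theorem TPS_bd {A B : ℝ} {φ φ1 φ2 : ℝ → ℝ} (h : Tst A B φ φ1 φ2) :
    ∃ M2 : ℝ, 0 ≤ M2 ∧ ∀ t, |φ2 t| ≤ M2 := by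
  obtain ⟨C, hC⟩ := isCompact_Icc.exists_bound_of_continuousOn (h.c2.continuousOn (s := Icc A B))
  refine ⟨max C 0, le_max_right _ _, fun t => ?_⟩
  by_cases ht : t ∈ Ioo A B
  · exact (hC t (Ioo_subset_Icc_self ht)).trans (le_max_left _ _)
  · rw [h.z2 t ht, abs_zero]
    exact le_max_right _ _

theorem TPS_cont {A B : ℝ} {φ φ1 φ2 : ℝ → ℝ} (h : Tst A B φ φ1 φ2) : Continuous φ :=
  continuous_iff_continuousAt.2 fun t => (h.d1 t).continuousAt

theorem TPS_int_le {A B : ℝ} (hAB : A ≤ B) {φ φ1 φ2 : ℝ → ℝ} (h : Tst A B φ φ1 φ2)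
    (h1 : ∀ t, φ t ≤ 1) : ∫ t in A..B, φ t ≤ B - A := by
  have h3 : IntervalIntegrable (fun _ : ℝ => (1 : ℝ)) volume A B :=
    continuous_const.intervalIntegrable A B
  have h2 := intervalIntegral.integral_mono_on hAB
    ((TPS_cont h).intervalIntegrable A B) h3 (fun t _ => h1 t)
  simpa using h2

/-- the conditions on `ℒ` hold for large `ℒ` -/
theorem TPS_ev {R lam C0 C1 δ : ℝ} (hδ : 0 < δ) :
    ∀ᶠ c : ℝ in atTop, 0 < c ∧ 4 * R ≤ c ∧ 100 * (C0 + 1) ≤ c ∧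
      (lam * C0 / c) ^ 2 * C1 ≤ δ ∧ R / c ≤ δ := by
  have hinv : Tendsto (fun c : ℝ => c⁻¹) atTop (𝓝 0) := tendsto_inv_atTop_zero
  have h1 : Tendsto (fun c : ℝ => (lam * C0 / c) ^ 2 * C1) atTop (𝓝 ((lam * C0 * 0) ^ 2 * C1)) := by
    simp_rw [div_eq_mul_inv]
    exact ((hinv.const_mul (lam * C0)).pow 2).mul_const C1
  have h2 : Tendsto (fun c : ℝ => R / c) atTop (𝓝 (R * 0)) := by
    simp_rw [div_eq_mul_inv]
    exact hinv.const_mul R
  have e1 := h1.eventually_lt_const (u := δ) (by simpa using hδ)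
  have e2 := h2.eventually_lt_const (u := δ) (by simpa using hδ)
  filter_upwards [e1, e2, eventually_gt_atTop (0 : ℝ), eventually_ge_atTop (4 * R),
    eventually_ge_atTop (100 * (C0 + 1))] with c h3 h4 h5 h6 h7
  exact ⟨h5, h6, h7, h3.le, h4.le⟩

/-- the elementary limit -/
theorem TPS_lim {g τ Q1 Q2 : ℝ} (h : τ < g) :
    ∀ᶠ c : ℝ in atTop, τ ≤ g - Q1 / c - Q2 / c ^ 2 := by
  have hinv : Tendsto (fun c : ℝ => c⁻¹) atTop (𝓝 0) := tendsto_inv_atTop_zero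
  have h1 : Tendsto (fun c : ℝ => g - Q1 * c⁻¹ - Q2 * c⁻¹ ^ 2) atTop
      (𝓝 (g - Q1 * 0 - Q2 * 0 ^ 2)) :=
    ((tendsto_const_nhds.sub (hinv.const_mul Q1))).sub ((hinv.pow 2).const_mul Q2)
  have h2 := h1.eventually_const_lt (u := τ) (by simpa using h)
  filter_upwards [h2] with c hc
  have h3 : g - Q1 / c - Q2 / c ^ 2 = g - Q1 * c⁻¹ - Q2 * c⁻¹ ^ 2 := by
    rw [div_eq_mul_inv, div_eq_mul_inv, inv_pow]
  rw [h3]
  exact hc.le

theorem z_topS_pr {x1 x2 R lam C0 C1 s2 T cc ε : ℝ} (hx : x1 < x2) (hR : 0 < R) (hlam : 0 < lam)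
    (hlam2 : lam < 2) (hC0 : 0 ≤ C0) (hC1 : 0 ≤ C1) (hs2 : 2 ≤ s2)
    (hT : |x1| + |x2| + 2 * s2 + 3 ≤ T) (hcc : 0 < cc) (hε : 0 < ε) :
    ∃ δ₀ : ℝ, 0 < δ₀ ∧ ∀ δ : ℝ, 0 < δ → δ ≤ δ₀ → ∃ ℒ₀ : ℝ, ∀ calL : ℝ, ℒ₀ ≤ calL →
      ∀ (ι : Type) [Fintype ι] (d : ι → LDat), (∀ i, (d i).Ok calL C0 s2 T) →
      FamOk d calL R lam C1 s2 T x1 x2 cc δ →
      ENNReal.ofReal (Fintype.card ι *
        ((1 - Real.log cc / R - ε) * (calL / (2 * Real.pi)) * (x2 - x1))) ≤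
          ∑ i, simpZ (d i).ξ x1 x2 := by
  have hπ := Real.pi_pos
  have hx0 : 0 < x2 - x1 := by linarith
  -- the constant `κ` and the test function
  set κ : ℝ := 1 + 1 / R + |Real.log cc| / R with hκ
  have hκ1 : 1 ≤ κ := by
    have h1 : 0 ≤ 1 / R := by positivity
    have h2 : 0 ≤ |Real.log cc| / R := by positivity
    linarith
  obtain ⟨η, hη0, hη1, hηε⟩ : ∃ η : ℝ, 0 < η ∧ η < 1 ∧ η * κ < ε := by
    refine ⟨min (1 / 2) (ε / (2 * κ)), by positivity, ?_, ?_⟩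
    · exact (min_le_left _ _).trans_lt (by norm_num)
    · calc min (1 / 2) (ε / (2 * κ)) * κ ≤ ε / (2 * κ) * κ :=
          mul_le_mul_of_nonneg_right (min_le_right _ _) (by linarith)
        _ = ε / 2 := by
          field_simp
        _ < ε := by linarith
  obtain ⟨φ, φ1, φ2, hφ, hφ1, hφI⟩ := z_tst hx hη0 hη1
  obtain ⟨M2, hM20, hM2⟩ := TPS_bd hφ
  set P : ℝ := ∫ t in x1..x2, φ t with hP
  set P1 : ℝ := ∫ t in x1..x2, |φ1 t| with hP1
  have hPle : P ≤ x2 - x1 := TPS_int_le hx.le hφ hφ1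
  set τ : ℝ := (1 - Real.log cc / R - ε) * (x2 - x1) with hτ
  -- the limit for `ℒ → ∞`
  set G : ℝ → ℝ := fun δ => P - 1 / R * ((1 + δ) * ((x2 - x1) * (cc + δ)) / cc +
      (Real.log cc - 1) * P) - 2 / R * (2 * Real.sqrt (8 * T * δ) +
      2 * s2 * (2 * Real.sqrt (8 * T * δ)) + s2 * M2 * (2 * Real.pi * s2 *
        (4 * Real.sqrt (8 * T * δ) + 4 * C1 * Real.sqrt (2 * δ)))) -
      8 * Real.pi * s2 * T * M2 * δ with hG
  have hGc : Continuous G := by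
    rw [hG]
    fun_prop
  have hG0 : τ < G 0 := by
    have h1 : G 0 = P - 1 / R * ((x2 - x1) + (Real.log cc - 1) * P) := by
      rw [hG]
      simp only [mul_zero, Real.sqrt_zero, add_zero, sub_zero, one_mul]
      rw [mul_div_assoc, div_self hcc.ne', mul_one]
    rw [h1, hτ]
    have h2 : P - 1 / R * ((x2 - x1) + (Real.log cc - 1) * P) - (1 - Real.log cc / R - ε) *
        (x2 - x1) = ε * (x2 - x1) - (1 + 1 / R - Real.log cc / R) * ((x2 - x1) - P) := by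
      ring
    have h3 : 1 + 1 / R - Real.log cc / R ≤ κ := by
      rw [hκ]
      have : -Real.log cc / R ≤ |Real.log cc| / R := by
        gcongr
        exact neg_le_abs _
      rw [neg_div] at this
      linarith
    have h4 : (1 + 1 / R - Real.log cc / R) * ((x2 - x1) - P) ≤ κ * (η * (x2 - x1)) := by
      calc (1 + 1 / R - Real.log cc / R) * ((x2 - x1) - P) ≤ κ * ((x2 - x1) - P) :=
            mul_le_mul_of_nonneg_right h3 (by linarith)
        _ ≤ κ * (η * (x2 - x1)) := by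
            apply mul_le_mul_of_nonneg_left _ (by linarith)
            linarith
    have h5 : κ * (η * (x2 - x1)) < ε * (x2 - x1) := by
      rw [← mul_assoc, mul_comm κ η]
      exact mul_lt_mul_of_pos_right hηε hx0
    linarith
  obtain ⟨δ₁, hδ₁, hδ₁'⟩ := Metric.eventually_nhds_iff.1
    ((hGc.tendsto 0).eventually (lt_mem_nhds hG0))
  refine ⟨min (δ₁ / 2) (1 / 4), by positivity, fun δ hδ hδle => ?_⟩
  have hδa : δ ≤ δ₁ / 2 := hδle.trans (min_le_left _ _)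
  have hδb : δ ≤ 1 / 4 := hδle.trans (min_le_right _ _)
  have hGδ : τ < G δ := by
    apply hδ₁'
    rw [Real.dist_eq, sub_zero, abs_of_pos hδ]
    linarith
  set lc : ℝ := Real.log (2 * (1 + 2 * C0) ^ 2 + 8) with hlc
  set Q1 : ℝ := 2 * (C0 + 1) * P + Real.pi * P1 +
    4 * Real.pi * s2 * M2 * (1 + 2 * T * lc + 2 * T) with hQ1
  set Q2 : ℝ := 1 / R * ((1 + 1 / δ) * (lam * C0) ^ 2 * C1 / cc) with hQ2
  obtain ⟨ℒ₀, hℒ⟩ := eventually_atTop.1
    ((TPS_ev (R := R) (lam := lam) (C0 := C0) (C1 := C1) hδ).and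
      (TPS_lim (Q1 := Q1) (Q2 := Q2) hGδ))
  refine ⟨ℒ₀, fun calL hcalL ι _ d hd hf => ?_⟩
  obtain ⟨⟨c0, c1, c2, c3, c4⟩, c5⟩ := hℒ calL hcalL
  have hxa := neg_abs_le x1
  have hxb := le_abs_self x2
  have hxc := abs_nonneg x1
  have hxd := abs_nonneg x2
  have hp : Par calL C0 s2 T lam R := ⟨hlam, hlam2, hR, hC0, hs2, by linarith, c1, c2⟩
  refine le_trans ?_ (z_totS hd hp hf hC1 hδ hδb c3 c4 hcc hx (by linarith) (by linarith) hφ hφ1
    hM2)
  apply ENNReal.ofReal_le_ofReal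
  apply mul_le_mul_of_nonneg_left _ (Nat.cast_nonneg _)
  rw [← hP, ← hP1, ← hlc]
  have h6 : (1 - Real.log cc / R - ε) * (calL / (2 * Real.pi)) * (x2 - x1) =
      calL / (2 * Real.pi) * τ := by
    rw [hτ]
    ring
  have h7 : 1 / Real.pi * ((calL / 2 - C0 - 1) * P - Real.pi / 2 * P1 -
      calL / R * ((1 / 2 * (((1 + δ) * ((x2 - x1) * (cc + δ)) +
        (1 + 1 / δ) * (lam * C0 / calL) ^ 2 * C1) / cc +
        (Real.log cc - 1) * P)) +
        2 * Real.sqrt (8 * T * δ) + 2 * s2 * (2 * Real.sqrt (8 * T * δ)) +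
        s2 * M2 * (2 * Real.pi * s2 *
          (4 * Real.sqrt (8 * T * δ) + 4 * C1 * Real.sqrt (2 * δ)))) -
      M2 * (2 * Real.pi * s2 * (1 + 2 * T * (lc + δ * calL) + 2 * T))) =
      calL / (2 * Real.pi) * (G δ - Q1 / calL - Q2 / calL ^ 2) := by
    rw [hG, hQ1, hQ2]
    field_simp
    ring
  rw [h6, h7]
  exact mul_le_mul_of_nonneg_left c5 (by positivity)

end Pool.Agent.LVK

namespace Pool.Agent.LVK

theorem z_topS : type_of% @z_topS_pr := @z_topS_pr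

end Pool.Agent.LVK
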