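import Pool.Agent.Lib_helper39.LVK.DefsZ
import Pool.Agent.Lib_helper39.LVZ.TOA
import Pool.Agent.Lib_helper39.LVZ.TPS
import Pool.Agent.Lib_helper39.LVZ.TST

/-!
# LVK part Z, block TPA: all zeros, choice of the parameters; the theorem of part Z
-/

namespace Pool.Agent.LVK

open Complex MeasureTheory Set Filter Topology
open scoped ENNReal

/-- the second derivative of a test function is bounded -/
theorem TPA_bd {A B : ℝ} {φ φ1 φ2 : ℝ → ℝ} (h : Tst A B φ φ1 φ2) :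
    ∃ M2 : ℝ, 0 ≤ M2 ∧ ∀ t, |φ2 t| ≤ M2 := by
  obtain ⟨C, hC⟩ := isCompact_Icc.exists_bound_of_continuousOn (h.c2.continuousOn (s := Icc A B))
  refine ⟨max C 0, le_max_right _ _, fun t => ?_⟩
  by_cases ht : t ∈ Ioo A B
  · exact (hC t (Ioo_subset_Icc_self ht)).trans (le_max_left _ _)
  · rw [h.z2 t ht, abs_zero]
    exact le_max_right _ _

theorem TPA_int_le {A B : ℝ} (hAB : A ≤ B) {φ φ1 φ2 : ℝ → ℝ} (h : Tst A B φ φ1 φ2)
    (h1 : ∀ t, φ t ≤ 1) : ∫ t in A..B, φ t ≤ B - A := by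
  have h0 : Continuous φ := continuous_iff_continuousAt.2 fun t => (h.d1 t).continuousAt
  have h3 : IntervalIntegrable (fun _ : ℝ => (1 : ℝ)) volume A B :=
    continuous_const.intervalIntegrable A B
  have h2 := intervalIntegral.integral_mono_on hAB (h0.intervalIntegrable A B) h3
    (fun t _ => h1 t)
  simpa using h2

/-- the elementary limit -/
theorem TPA_lim {g τ Q1 : ℝ} (h : g < τ) : ∀ᶠ c : ℝ in atTop, g + Q1 / c ≤ τ := by
  have hinv : Tendsto (fun c : ℝ => c⁻¹) atTop (𝓝 0) := tendsto_inv_atTop_zero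
  have h1 : Tendsto (fun c : ℝ => g + Q1 * c⁻¹) atTop (𝓝 (g + Q1 * 0)) :=
    tendsto_const_nhds.add (hinv.const_mul Q1)
  have h2 := h1.eventually_lt_const (u := τ) (by simpa using h)
  filter_upwards [h2] with c hc
  rw [div_eq_mul_inv]
  exact hc.le

theorem z_topA_pr {x1 x2 R lam C0 C1 s2 T cc ε : ℝ} (hx : x1 < x2) (hR : 0 < R) (hlam : 0 < lam)
    (hlam2 : lam < 2) (hC0 : 0 ≤ C0) (hC1 : 0 ≤ C1) (hs2 : 2 ≤ s2)
    (hT : |x1| + |x2| + 2 * s2 + 3 ≤ T) (hε : 0 < ε) :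
    ∃ δ₀ : ℝ, 0 < δ₀ ∧ ∀ δ : ℝ, 0 < δ → δ ≤ δ₀ → ∃ ℒ₀ : ℝ, ∀ calL : ℝ, ℒ₀ ≤ calL →
      ∀ (ι : Type) [Fintype ι] (d : ι → LDat), (∀ i, (d i).Ok calL C0 s2 T) →
      FamOk d calL R lam C1 s2 T x1 x2 cc δ →
      ∑ i, allZ (d i).ξ x1 x2 ≤ ENNReal.ofReal (Fintype.card ι *
        ((1 + ε) * (calL / (2 * Real.pi)) * (x2 - x1))) := by
  have hπ := Real.pi_pos
  have hx0 : 0 < x2 - x1 := by linarith
  have hxa := neg_abs_le x1
  have hxb := le_abs_self x2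
  have hxc := abs_nonneg x1
  have hxd := abs_nonneg x2
  obtain ⟨η, hη0, hη1, hηε⟩ : ∃ η : ℝ, 0 < η ∧ η ≤ 1 ∧ 2 * η < ε * (x2 - x1) := by
    refine ⟨min 1 (ε * (x2 - x1) / 4), by positivity, min_le_left _ _, ?_⟩
    have h1 := min_le_right 1 (ε * (x2 - x1) / 4)
    have h2 : 0 < ε * (x2 - x1) := by positivity
    linarith
  obtain ⟨φ, φ1, φ2, hφ, hφ1, hφI⟩ := z_tst' hx hη0
  obtain ⟨M2, hM20, hM2⟩ := TPA_bd hφ
  have hPle := TPA_int_le (by linarith : x1 - η ≤ x2 + η) hφ hφ1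
  set P : ℝ := ∫ t in (x1 - η)..(x2 + η), φ t with hP
  set P1 : ℝ := ∫ t in (x1 - η)..(x2 + η), |φ1 t| with hP1
  set τ : ℝ := (1 + ε) * (x2 - x1) with hτ
  set G : ℝ → ℝ := fun δ => P + 8 * Real.pi * s2 * T * M2 * δ with hG
  have hGc : Continuous G := by
    rw [hG]
    fun_prop
  have hG0 : G 0 < τ := by
    have h1 : G 0 = P := by
      rw [hG]
      simp
    rw [h1, hτ]
    linarith
  obtain ⟨δ₁, hδ₁, hδ₁'⟩ := Metric.eventually_nhds_iff.1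
    ((hGc.tendsto 0).eventually (gt_mem_nhds hG0))
  refine ⟨δ₁ / 2, by positivity, fun δ hδ hδle => ?_⟩
  have hGδ : G δ < τ := by
    apply hδ₁'
    rw [Real.dist_eq, sub_zero, abs_of_pos hδ]
    linarith
  set Q1 : ℝ := 2 * (C0 + 1) * P + 2 * s2 * C0 * P1 + 4 * Real.pi * s2 * M2 * (1 + 2 * T) with hQ1
  obtain ⟨ℒ₀, hℒ⟩ := eventually_atTop.1
    ((eventually_gt_atTop (0 : ℝ)).and ((eventually_ge_atTop (4 * R)).and
      ((eventually_ge_atTop (100 * (C0 + 1))).and (TPA_lim (Q1 := Q1) hGδ))))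
  refine ⟨ℒ₀, fun calL hcalL ι _ d hd hf => ?_⟩
  obtain ⟨c0, c1, c2, c5⟩ := hℒ calL hcalL
  have hp : Par calL C0 s2 T lam R := ⟨hlam, hlam2, hR, hC0, hs2, by linarith, c1, c2⟩
  refine (z_totA hd hp hf hδ hη0 hx (by linarith) (by linarith) hφ hφI hM2).trans ?_
  apply ENNReal.ofReal_le_ofReal
  apply mul_le_mul_of_nonneg_left _ (Nat.cast_nonneg _)
  rw [← hP, ← hP1]
  have h6 : (1 + ε) * (calL / (2 * Real.pi)) * (x2 - x1) = calL / (2 * Real.pi) * τ := by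
    rw [hτ]
    ring
  have h7 : 1 / Real.pi * ((calL / 2 + C0 + 1) * P + s2 * C0 * P1 +
      M2 * (2 * Real.pi * s2 * (1 + 2 * T * (δ * calL) + 2 * T))) =
      calL / (2 * Real.pi) * (G δ + Q1 / calL) := by
    rw [hG, hQ1]
    field_simp
    ring
  rw [h6, h7]
  exact mul_le_mul_of_nonneg_left c5 (by positivity)

/-- **Part Z.** -/
theorem z_top_pr {x1 x2 R lam C0 C1 s2 T cc ε : ℝ} (hx : x1 < x2) (hR : 0 < R) (hlam : 0 < lam)
    (hlam2 : lam < 2) (hC0 : 0 ≤ C0) (hC1 : 0 ≤ C1) (hs2 : 2 ≤ s2)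
    (hT : |x1| + |x2| + 2 * s2 + 3 ≤ T) (hcc : 0 < cc) (hε : 0 < ε) :
    ∃ δ : ℝ, 0 < δ ∧ ∃ ℒ₀ : ℝ, ∀ calL : ℝ, ℒ₀ ≤ calL →
      ∀ (ι : Type) [Fintype ι] (d : ι → LDat), (∀ i, (d i).Ok calL C0 s2 T) →
      FamOk d calL R lam C1 s2 T x1 x2 cc δ →
      ENNReal.ofReal (Fintype.card ι *
        ((1 - Real.log cc / R - ε) * (calL / (2 * Real.pi)) * (x2 - x1))) ≤
          ∑ i, simpZ (d i).ξ x1 x2 ∧
      ∑ i, allZ (d i).ξ x1 x2 ≤ ENNReal.ofReal (Fintype.card ι *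
        ((1 + ε) * (calL / (2 * Real.pi)) * (x2 - x1))) := by
  obtain ⟨δS, hδS, hS⟩ := z_topS hx hR hlam hlam2 hC0 hC1 hs2 hT hcc hε
  obtain ⟨δA, hδA, hA⟩ := z_topA_pr (cc := cc) hx hR hlam hlam2 hC0 hC1 hs2 hT hε
  refine ⟨min δS δA, lt_min hδS hδA, ?_⟩
  obtain ⟨ℒ₁, h1⟩ := hS _ (lt_min hδS hδA) (min_le_left _ _)
  obtain ⟨ℒ₂, h2⟩ := hA _ (lt_min hδS hδA) (min_le_right _ _)
  refine ⟨max ℒ₁ ℒ₂, fun calL hcalL ι _ d hd hf => ⟨?_, ?_⟩⟩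
  · exact h1 calL ((le_max_left _ _).trans hcalL) ι d hd hf
  · exact h2 calL ((le_max_right _ _).trans hcalL) ι d hd hf

end Pool.Agent.LVK

namespace Pool.Agent.LVK

theorem z_topA : type_of% @z_topA_pr := @z_topA_pr
theorem z_top : type_of% @z_top_pr := @z_top_pr

end Pool.Agent.LVK
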